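import Pool.Agent.Lib.MP_17a322_nt.RV.U2
import Pool.Agent.Lib.MP_17a322_nt.RO.A1
import Pool.Agent.Lib.MP_17a322_nt.RO.D2

/-!
The parallelogram law, uniform in the field.
-/

namespace Pool.Agent.Lib.MP_17a322_nt.RV

open MvPolynomial WeierstrassCurve Height
open Pool.Agent.Lib.MP_17a322_nt.RO

universe u

/-- Height of the symmetric square, uniform in the field.
Proof. Let `M = (p i * p' j)_{i, j}`, `h(M) = h(p) + h(p')` (`logHeight_fun_mul_eq`). `sq2 p p'` is a linear
image of `M`: upper bound. Lower bound: with `F = sq2 p p'` the squares of the entries of `M` are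
`F_0 * M_00`, `F_2 * M_11`, `F_1 * M_01 - F_0 * M_11`, `F_1 * M_10 - F_0 * M_11`, so
`2 h(M) = h(M^2) ≤ h(F) + h(M) + C [L : ℚ]` (`logHeight_pow`, `logHeight_fun_mul_eq`,
`logHeight_linear_unif` for `K = ℚ` or with the matrix of this linear map; `F ≠ 0`). -/
theorem logHeight_sq2_unif {K : Type u} [Field K] [NumberField K] :
    ∃ C : ℝ, 0 ≤ C ∧ ∀ (L : Type u) [Field L] [NumberField L] [Algebra K L] (p p' : Fin 2 → L),
      p ≠ 0 → p' ≠ 0 →
        |logHeight (sq2 p p') - (logHeight p + logHeight p')| ≤ C * Module.finrank ℚ L := by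
  obtain ⟨C1, hC1, h1⟩ := logHeight_linear_unif (K := K) (ι := Fin 2 × Fin 2) (κ := Fin 3)
    (fun x => (![![![1, 0], ![0, 0]], ![![0, 1], ![1, 0]], ![![0, 0], ![0, 1]]] :
      Fin 3 → Fin 2 → Fin 2 → K) x.1 x.2.1 x.2.2)
  obtain ⟨C2, hC2, h2⟩ := logHeight_linear_unif (K := K) (ι := Fin 3 × (Fin 2 × Fin 2))
    (κ := Fin 2 × Fin 2)
    (fun x => (![![![![![1, 0], ![0, 0]], ![![0, 0], ![0, 0]], ![![0, 0], ![0, 0]]],
        ![![![0, 0], ![0, -1]], ![![0, 1], ![0, 0]], ![![0, 0], ![0, 0]]]],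
      ![![![![0, 0], ![0, -1]], ![![0, 0], ![1, 0]], ![![0, 0], ![0, 0]]],
        ![![![0, 0], ![0, 0]], ![![0, 0], ![0, 0]], ![![0, 0], ![0, 1]]]]] :
      Fin 2 → Fin 2 → Fin 3 → Fin 2 → Fin 2 → K) x.1.1 x.1.2 x.2.1 x.2.2.1 x.2.2.2)
  refine ⟨max C1 C2, le_max_of_le_left hC1, fun L _ _ _ p p' hp hp' => ?_⟩
  have hM : logHeight (fun a : Fin 2 × Fin 2 => p a.1 * p' a.2) = logHeight p + logHeight p' :=
    logHeight_fun_mul_eq hp hp'
  have hd : (0 : ℝ) ≤ Module.finrank ℚ L := Nat.cast_nonneg _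
  have hup : logHeight (sq2 p p') ≤ logHeight p + logHeight p' + C1 * Module.finrank ℚ L := by
    have h3 := h1 L (fun a : Fin 2 × Fin 2 => p a.1 * p' a.2)
    rw [hM] at h3
    refine le_of_eq_of_le (congrArg logHeight ?_) h3
    funext k
    fin_cases k <;> simp [Fintype.sum_prod_type, sq2]
  have hlow : 2 * (logHeight p + logHeight p') ≤ logHeight (sq2 p p') +
      (logHeight p + logHeight p') + C2 * Module.finrank ℚ L := by
    have hM0 : (fun a : Fin 2 × Fin 2 => p a.1 * p' a.2) ≠ 0 := by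
      obtain ⟨i, hi⟩ := Function.ne_iff.1 hp
      obtain ⟨j, hj⟩ := Function.ne_iff.1 hp'
      exact Function.ne_iff.2 ⟨(i, j), mul_ne_zero hi hj⟩
    have hsq : (fun x : Fin 2 × Fin 2 => ∑ y : Fin 3 × (Fin 2 × Fin 2), algebraMap K L
        ((![![![![![1, 0], ![0, 0]], ![![0, 0], ![0, 0]], ![![0, 0], ![0, 0]]],
        ![![![0, 0], ![0, -1]], ![![0, 1], ![0, 0]], ![![0, 0], ![0, 0]]]],
      ![![![![0, 0], ![0, -1]], ![![0, 0], ![1, 0]], ![![0, 0], ![0, 0]]],
        ![![![0, 0], ![0, 0]], ![![0, 0], ![0, 0]], ![![0, 0], ![0, 1]]]]] :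
      Fin 2 → Fin 2 → Fin 3 → Fin 2 → Fin 2 → K) x.1 x.2 y.1 y.2.1 y.2.2) *
        (sq2 p p' y.1 * (p y.2.1 * p' y.2.2))) =
        (fun a : Fin 2 × Fin 2 => p a.1 * p' a.2) ^ 2 := by
      funext x
      obtain ⟨i, j⟩ := x
      rw [Pi.pow_apply]
      fin_cases i <;> fin_cases j <;>
        simp [Fintype.sum_prod_type, Fin.sum_univ_three, sq2] <;> ring
    have hF0 : sq2 p p' ≠ 0 := by
      intro h0
      obtain ⟨x, hx⟩ := Function.ne_iff.1 hM0
      have h4 := congrFun hsq x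
      rw [h0] at h4
      simp only [Pi.zero_apply, zero_mul, mul_zero, Finset.sum_const_zero, Pi.pow_apply] at h4
      exact hx (pow_eq_zero_iff (two_ne_zero) |>.1 h4.symm)
    have h3 := h2 L (fun y : Fin 3 × (Fin 2 × Fin 2) => sq2 p p' y.1 * (p y.2.1 * p' y.2.2))
    rw [logHeight_fun_mul_eq (x := sq2 p p') (y := fun a : Fin 2 × Fin 2 => p a.1 * p' a.2) hF0 hM0,
      hM] at h3
    have h5 := logHeight_pow (fun a : Fin 2 × Fin 2 => p a.1 * p' a.2) 2
    rw [← hsq, hM] at h5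
    have h6 : ((2 : ℕ) : ℝ) = 2 := by norm_num
    rw [h6] at h5
    exact h5.symm.le.trans h3
  have h7 : C1 * Module.finrank ℚ L ≤ max C1 C2 * Module.finrank ℚ L :=
    mul_le_mul_of_nonneg_right (le_max_left _ _) hd
  have h8 : C2 * Module.finrank ℚ L ≤ max C1 C2 * Module.finrank ℚ L :=
    mul_le_mul_of_nonneg_right (le_max_right _ _) hd
  rw [abs_le]
  constructor <;> linarith

/-- Forms of degree `d` in three variables over `K`, evaluated over extensions. -/
theorem U3_forms {K : Type u} [Field K] [NumberField K] {κ : Type*} [Finite κ]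
    (q : κ → MvPolynomial (Fin 3) K) (d : ℕ) (hq : ∀ k, (q k).IsHomogeneous d) :
    ∃ C : ℝ, 0 ≤ C ∧ ∀ (L : Type u) [Field L] [NumberField L] [Algebra K L] (x : Fin 3 → L),
      x ≠ 0 → logHeight (fun k => aeval x (q k)) ≤
        d * logHeight x + C * Module.finrank ℚ L := by
  have hMH : ∀ k, MH (aeval (fun j => (X ((), j) : MvPolynomial (Unit × Fin 3) K)) (q k))
      (fun _ : Unit => d) := by
    intro k
    have h1 := D2_aeval_wh (bwt Unit (Fin 3)) d (q k) (hq k)
      (fun j => (X ((), j) : MvPolynomial (Unit × Fin 3) K)) (Pi.single () 1)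
      (fun j => isWeightedHomogeneous_X K (bwt Unit (Fin 3)) ((), j))
    have h2 : d • (Pi.single () 1 : Unit → ℕ) = fun _ : Unit => d := by
      funext u
      simp
    rw [h2] at h1
    exact h1
  obtain ⟨C, hC, h⟩ := logHeight_evl_unif (B := Unit) (ι := Fin 3)
    (fun k => aeval (fun j => (X ((), j) : MvPolynomial (Unit × Fin 3) K)) (q k)) (fun _ => d) hMH
  refine ⟨C, hC, fun L _ _ _ x hx => ?_⟩
  have h1 := h L (fun _ => x) (fun _ => hx)
  have h2 : (fun k => evl (fun _ : Unit => x)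
      (aeval (fun j => (X ((), j) : MvPolynomial (Unit × Fin 3) K)) (q k))) =
      fun k => aeval x (q k) := by
    funext k
    unfold evl
    rw [comp_aeval_apply]
    simp only [aeval_X]
  rw [h2] at h1
  simpa using h1

/-- The forms `addSubMap`, uniform in the extension. -/
theorem U3_addSub {K : Type u} [Field K] [NumberField K] (W : WeierstrassCurve K)
    [W.IsElliptic] :
    ∃ C : ℝ, 0 ≤ C ∧ ∀ (L : Type u) [Field L] [NumberField L] [Algebra K L] (x : Fin 3 → L),
      x ≠ 0 → |logHeight (fun i => aeval x (addSubMap W i)) - 2 * logHeight x| ≤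
        C * Module.finrank ℚ L := by
  obtain ⟨C1, hC1, h1⟩ := U3_forms (fun i => addSubMap W i) 2 (isHomogeneous_addSubMap W)
  obtain ⟨C2, hC2, h2⟩ := U3_forms
    (fun ij : Fin 3 × Fin 3 => C (↑W.Δ'⁻¹ : K) * addSubMapCoeff W ij) 2
    (fun ij => (isHomogeneous_addSubMapCoeff W ij).C_mul _)
  obtain ⟨C3, hC3, h3⟩ := logHeight_linear_unif (K := K) (ι := (Fin 3 × Fin 3) × Fin 3)
    (κ := Fin 3) (fun x => if x.2.1.1 = x.1 ∧ x.2.1.2 = x.2.2 then 1 else 0)
  refine ⟨max C1 (C2 + C3), le_max_of_le_left hC1, fun L _ _ _ x hx => ?_⟩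
  have hid : ∀ i : Fin 3, ∑ j : Fin 3, (C (↑W.Δ'⁻¹ : K) * addSubMapCoeff W (i, j)) *
      addSubMap W j = X i ^ 4 := by
    intro i
    refine MvPolynomial.funext fun y => ?_
    rw [map_sum]
    simp only [map_mul, map_pow, eval_X]
    have h := addSubMapCoeff_condition W y i
    simp only [map_mul] at h
    exact h
  have hidL : ∀ i : Fin 3, ∑ j : Fin 3, aeval x (C (↑W.Δ'⁻¹ : K) * addSubMapCoeff W (i, j)) *
      aeval x (addSubMap W j) = x i ^ 4 := by
    intro i
    have h := congrArg (aeval x) (hid i)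
    rw [map_sum, map_pow, aeval_X] at h
    rw [← h]
    exact Finset.sum_congr rfl fun j _ => (map_mul _ _ _).symm
  obtain ⟨i0, hi0⟩ := Function.ne_iff.1 hx
  have hF0 : (fun i => aeval x (addSubMap W i)) ≠ 0 := by
    intro h0
    have h := hidL i0
    rw [Finset.sum_eq_zero fun j _ => by rw [congrFun h0 j, Pi.zero_apply, mul_zero]] at h
    exact hi0 ((pow_eq_zero_iff (by norm_num)).1 h.symm)
  have hq0 : (fun ij : Fin 3 × Fin 3 => aeval x (C (↑W.Δ'⁻¹ : K) * addSubMapCoeff W ij)) ≠ 0 := by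
    intro h0
    have h := hidL i0
    rw [Finset.sum_eq_zero fun j _ => by
      rw [show aeval x (C (↑W.Δ'⁻¹ : K) * addSubMapCoeff W (i0, j)) = 0 from congrFun h0 (i0, j),
        zero_mul]] at h
    exact hi0 ((pow_eq_zero_iff (by norm_num)).1 h.symm)
  have hd : (0 : ℝ) ≤ Module.finrank ℚ L := Nat.cast_nonneg _
  have h4 := h1 L x hx
  have h5 := h2 L x hx
  have h6 := h3 L (fun y : (Fin 3 × Fin 3) × Fin 3 =>
    aeval x (C (↑W.Δ'⁻¹ : K) * addSubMapCoeff W y.1) * aeval x (addSubMap W y.2))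
  rw [logHeight_fun_mul_eq
    (x := fun ij : Fin 3 × Fin 3 => aeval x (C (↑W.Δ'⁻¹ : K) * addSubMapCoeff W ij))
    (y := fun i => aeval x (addSubMap W i)) hq0 hF0] at h6
  have h7 : (fun k : Fin 3 => ∑ y : (Fin 3 × Fin 3) × Fin 3,
      algebraMap K L (if y.1.1 = k ∧ y.1.2 = y.2 then 1 else 0) *
      (aeval x (C (↑W.Δ'⁻¹ : K) * addSubMapCoeff W y.1) * aeval x (addSubMap W y.2))) = x ^ 4 := by
    funext k
    rw [Pi.pow_apply, ← hidL k, Fintype.sum_prod_type, Fintype.sum_prod_type,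
      Finset.sum_eq_single k]
    · refine Finset.sum_congr rfl fun j _ => ?_
      rw [Finset.sum_eq_single j]
      · rw [if_pos ⟨rfl, rfl⟩, map_one, one_mul]
      · intro j' _ hj'
        rw [if_neg (fun h => hj' h.2.symm), map_zero, zero_mul]
      · intro h
        exact absurd (Finset.mem_univ _) h
    · intro k' _ hk'
      refine Finset.sum_eq_zero fun j _ => Finset.sum_eq_zero fun j' _ => ?_
      rw [if_neg (fun h => hk' h.1), map_zero, zero_mul]
    · intro h
      exact absurd (Finset.mem_univ _) h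
  have h8 := logHeight_pow x 4
  rw [← h7] at h8
  rw [h8] at h6
  have h9 : C1 * Module.finrank ℚ L ≤ max C1 (C2 + C3) * Module.finrank ℚ L :=
    mul_le_mul_of_nonneg_right (le_max_left _ _) hd
  have h10 : (C2 + C3) * Module.finrank ℚ L ≤ max C1 (C2 + C3) * Module.finrank ℚ L :=
    mul_le_mul_of_nonneg_right (le_max_right _ _) hd
  push_cast at h4 h5 h6
  rw [abs_le]
  constructor <;> linarith

/-- The parallelogram law for `h = logHeight ∘ xRep`, uniform in the extension `L`.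
Proof. The forms `F i = addSubMap W i` (homogeneous of degree 2, over `K`) satisfy
`|h(F(v)) - 2 h(v)| ≤ C [L : ℚ]` for `v : Fin 3 → L`: upper bound by `logHeight_evl_unif` (one block, or by
the same argument); lower bound: with `q (k, j) = C W.Δ'⁻¹ * addSubMapCoeff W (k, j)`, homogeneous of
degree 2, `∑_j q_{kj}(v) F_j(v) = v_k^4` (`addSubMapCoeff_condition` for the curve over `L`, compare
`abs_logHeight_addSubMap_sub_two_mul_logHeight_le` in Mathlib.NumberTheory.Height.EllipticCurve and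
`mulHeight_eval_ge`), so `4 h(v) ≤ [L : ℚ] log 3 + h(q(v)) + h(F(v))`, `h(q(v)) ≤ 2 h(v) + C [L : ℚ]`. Then
`addSub_sym2x` (RO/A1), as in RO/A2 `parallelogram`, with `logHeight_sq2_unif` (`Point.sym2x` is `sq2` of the
two `xRep`). -/
theorem parallelogram_unif {K : Type u} [Field K] [NumberField K] (W : WeierstrassCurve K)
    [W.IsElliptic] :
    ∃ C : ℝ, 0 ≤ C ∧ ∀ (L : Type u) [Field L] [NumberField L] [DecidableEq L] [Algebra K L]
      (V : WeierstrassCurve L), W.map (algebraMap K L) = V → ∀ P Q : V.toAffine.Point,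
        |logHeight (P + Q).xRep + logHeight (P - Q).xRep - 2 * logHeight P.xRep -
          2 * logHeight Q.xRep| ≤ C * Module.finrank ℚ L := by
  obtain ⟨C1, hC1, h1⟩ := U3_addSub W
  obtain ⟨C2, hC2, h2⟩ := logHeight_sq2_unif (K := K)
  refine ⟨C1 + 3 * C2, by positivity, fun L _ _ _ _ V hV P Q => ?_⟩
  subst hV
  obtain ⟨c, hc0, hc⟩ := addSub_sym2x (W.map (algebraMap K L)) P Q
  have h3 : (fun i => aeval (P.sym2x Q) (addSubMap W i)) = c • ((P + Q).sym2x (P - Q)) := by
    funext i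
    rw [D2_addSubMap_map, hc i]
    rfl
  have h4 := h1 L (P.sym2x Q) (Affine.Point.sym2x_ne_zero P Q)
  rw [h3, logHeight_smul_eq_logHeight _ hc0] at h4
  have h5 := h2 L P.xRep Q.xRep P.xRep_ne_zero Q.xRep_ne_zero
  have h6 := h2 L (P + Q).xRep (P - Q).xRep (P + Q).xRep_ne_zero (P - Q).xRep_ne_zero
  have h7 : sq2 P.xRep Q.xRep = P.sym2x Q := rfl
  have h8 : sq2 (P + Q).xRep (P - Q).xRep = (P + Q).sym2x (P - Q) := rfl
  rw [h7] at h5
  rw [h8] at h6
  rw [abs_le] at *
  constructor <;> linarith [h4.1, h4.2, h5.1, h5.2, h6.1, h6.2]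

end Pool.Agent.Lib.MP_17a322_nt.RV
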