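import Pool.Agent.Lib.MP_17a322_nt.Mb

/-!
Base change of heights: for a tuple `x` of elements of a number field `K` the logarithmic height of
`x` over a finite extension `L` is `[L : K]` times the height over `K`.
-/

namespace Pool.Agent.Lib.MP_17a322_nt.RV

open Height NumberField

/-- The number of embeddings of `L` above a given embedding of `K`. -/
theorem U1_card_fiber {K L : Type*} [Field K] [NumberField K] [Field L] [NumberField L]
    [Algebra K L] [DecidableEq (K →+* ℂ)] (ψ : K →+* ℂ) :
    (Finset.univ.filter (fun φ : L →+* ℂ => φ.comp (algebraMap K L) = ψ)).card =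
      Module.finrank K L := by
  classical
  let _ : Algebra K ℂ := ψ.toAlgebra
  have hfin : FiniteDimensional K L := Module.Finite.of_restrictScalars_finite ℚ K L
  rw [← AlgHom.card K L ℂ, ← Fintype.card_coe]
  refine Fintype.card_congr ⟨fun φ => ⟨φ.1, fun k => ?_⟩, fun φ => ⟨φ.toRingHom, ?_⟩, ?_, ?_⟩
  · have h := (Finset.mem_filter.mp φ.2).2
    exact RingHom.congr_fun h k
  · rw [Finset.mem_filter]
    refine ⟨Finset.mem_univ _, ?_⟩
    ext k
    exact φ.commutes k
  · intro φ
    rfl
  · intro φ
    rfl

/-- Products over infinite places as products over embeddings. -/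
theorem U1_prod_mult {K : Type*} [Field K] [NumberField K] (g : InfinitePlace K → ℝ) :
    ∏ v : InfinitePlace K, g v ^ v.mult = ∏ φ : K →+* ℂ, g (InfinitePlace.mk φ) := by
  classical
  rw [← Finset.prod_fiberwise Finset.univ InfinitePlace.mk (fun φ => g (InfinitePlace.mk φ))]
  refine Finset.prod_congr rfl fun v _ => ?_
  rw [Finset.prod_congr rfl (g := fun _ => g v)
    (fun φ hφ => by rw [(Finset.mem_filter.mp hφ).2]), Finset.prod_const,
    InfinitePlace.card_filter_mk_eq]

/-- The archimedean part. -/
theorem U1_arch {K L : Type*} [Field K] [NumberField K] [Field L] [NumberField L]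
    [Algebra K L] {ι : Type*} (y : ι → K) :
    ∏ w : InfinitePlace L, (⨆ i, w (algebraMap K L (y i))) ^ w.mult =
      (∏ v : InfinitePlace K, (⨆ i, v (y i)) ^ v.mult) ^ Module.finrank K L := by
  classical
  rw [U1_prod_mult (fun w : InfinitePlace L => ⨆ i, w (algebraMap K L (y i))),
    U1_prod_mult (fun v : InfinitePlace K => ⨆ i, v (y i))]
  rw [← Finset.prod_fiberwise Finset.univ (fun φ : L →+* ℂ => φ.comp (algebraMap K L))
    (fun φ : L →+* ℂ => ⨆ i, InfinitePlace.mk φ (algebraMap K L (y i))), ← Finset.prod_pow]
  refine Finset.prod_congr rfl fun ψ _ => ?_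
  rw [Finset.prod_congr rfl (g := fun _ => ⨆ i, InfinitePlace.mk ψ (y i)) (fun φ hφ => ?_),
    Finset.prod_const]
  · congr 1
    exact U1_card_fiber ψ
  have h := (Finset.mem_filter.mp hφ).2
  refine iSup_congr fun i => ?_
  rw [InfinitePlace.apply, InfinitePlace.apply, ← h, RingHom.comp_apply]

/-- The case of tuples of integers. -/
theorem U1_integers {K L : Type*} [Field K] [NumberField K] [Field L] [NumberField L]
    [Algebra K L] {ι : Type*} [Finite ι] (y : ι → 𝓞 K) (hy : y ≠ 0) :
    mulHeight (fun j => algebraMap K L (y j : K)) =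
      mulHeight (fun j => (y j : K)) ^ Module.finrank K L := by
  have hfin : FiniteDimensional K L := Module.Finite.of_restrictScalars_finite ℚ K L
  let z : ι → 𝓞 L := fun j => algebraMap (𝓞 K) (𝓞 L) (y j)
  have hz : z ≠ 0 := by
    intro h
    apply hy
    funext j
    have h1 : algebraMap (𝓞 K) (𝓞 L) (y j) = 0 := congrFun h j
    exact (map_eq_zero_iff _ (FaithfulSMul.algebraMap_injective (𝓞 K) (𝓞 L))).mp h1
  have hzc : ∀ j, (z j : L) = algebraMap K L (y j : K) := fun j => rfl
  have hyK : (fun j => (y j : K)) ≠ 0 := by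
    intro h
    apply hy
    funext j
    exact (map_eq_zero_iff _ (FaithfulSMul.algebraMap_injective (𝓞 K) K)).mp (congrFun h j)
  have hzL : (fun j => algebraMap K L (y j : K)) ≠ 0 := by
    intro h
    apply hyK
    funext j
    have h1 : algebraMap K L (y j : K) = 0 := congrFun h j
    exact (map_eq_zero_iff _ (algebraMap K L).injective).mp h1
  have h1 := NumberField.absNorm_mul_finprod_finitePlace_eq_one (K := K) hy
  have h2 := NumberField.absNorm_mul_finprod_finitePlace_eq_one (K := L) hz
  have h3 : Ideal.span (Set.range z) =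
      (Ideal.span (Set.range y)).map (algebraMap (𝓞 K) (𝓞 L)) := by
    rw [Ideal.map_span, ← Set.range_comp]
    rfl
  rw [h3, Ideal.absNorm_algebraMap] at h2
  have h4 : Module.finrank (𝓞 K) (𝓞 L) = Module.finrank K L :=
    (IsFractionRing.finrank_eq (𝓞 K) K (𝓞 L) L).symm
  rw [h4] at h2
  rw [NumberField.mulHeight_eq hzL, NumberField.mulHeight_eq hyK, U1_arch, mul_pow]
  congr 1
  have h5 : (∏ᶠ v : FinitePlace K, ⨆ i, v (y i : K)) ^ Module.finrank K L *
      ((Ideal.absNorm (Ideal.span (Set.range y)) : ℕ) : ℝ) ^ Module.finrank K L = 1 := by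
    rw [← mul_pow, mul_comm, h1, one_pow]
  have h6 : (∏ᶠ v : FinitePlace L, ⨆ i, v (algebraMap K L (y i : K))) *
      ((Ideal.absNorm (Ideal.span (Set.range y)) : ℕ) : ℝ) ^ Module.finrank K L = 1 := by
    rw [mul_comm]
    push_cast at h2
    exact h2
  have h7 : ((Ideal.absNorm (Ideal.span (Set.range y)) : ℕ) : ℝ) ^ Module.finrank K L ≠ 0 :=
    right_ne_zero_of_mul_eq_one h6
  exact mul_right_cancel₀ h7 (h6.trans h5.symm)

/-- Base change of heights. -/
theorem logHeight_algebraMap {K L : Type*} [Field K] [NumberField K] [Field L] [NumberField L]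
    [Algebra K L] {ι : Type*} [Finite ι] (x : ι → K) :
    logHeight (fun j => algebraMap K L (x j)) = Module.finrank K L * logHeight x := by
  classical
  by_cases hx : x = 0
  · subst hx
    have : (fun j : ι => algebraMap K L ((0 : ι → K) j)) = 0 := by
      funext j
      simp
    rw [this, logHeight_zero, logHeight_zero, mul_zero]
  · cases nonempty_fintype ι
    obtain ⟨c, hc⟩ := IsLocalization.exist_integer_multiples_of_finset (nonZeroDivisors (𝓞 K))
      (Finset.univ.image x)
    have hc0 : (algebraMap (𝓞 K) K c) ≠ 0 :=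
      IsFractionRing.to_map_ne_zero_of_mem_nonZeroDivisors c.2
    choose! y hy using fun a (ha : a ∈ Finset.univ.image x) => hc a ha
    let y' : ι → 𝓞 K := fun j => y (x j)
    have hy' : ∀ j, (y' j : K) = algebraMap (𝓞 K) K c * x j := by
      intro j
      have := hy (x j) (Finset.mem_image_of_mem _ (Finset.mem_univ j))
      rw [Algebra.smul_def] at this
      exact this
    have h1 : logHeight (fun j => (y' j : K)) = logHeight x := by
      have : (fun j => (y' j : K)) = (algebraMap (𝓞 K) K c) • x := by
        funext j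
        rw [hy']
        rfl
      rw [this, logHeight_smul_eq_logHeight _ hc0]
    have h2 : logHeight (fun j => algebraMap K L (y' j : K)) =
        logHeight (fun j => algebraMap K L (x j)) := by
      have : (fun j => algebraMap K L (y' j : K)) =
          (algebraMap K L (algebraMap (𝓞 K) K c)) • (fun j => algebraMap K L (x j)) := by
        funext j
        rw [hy', map_mul]
        rfl
      rw [this, logHeight_smul_eq_logHeight _
        ((map_ne_zero_iff _ (algebraMap K L).injective).mpr hc0)]
    have hy0 : y' ≠ 0 := by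
      intro h
      apply hx
      funext j
      have h3 := hy' j
      rw [h] at h3
      have h4 : algebraMap (𝓞 K) K c * x j = 0 := by
        rw [← h3]
        simp
      exact (mul_eq_zero.mp h4).resolve_left hc0
    rw [← h1, ← h2, logHeight_eq_log_mulHeight, logHeight_eq_log_mulHeight,
      U1_integers y' hy0, Real.log_pow]

end Pool.Agent.Lib.MP_17a322_nt.RV
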