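import Pool.Agent.Lib.MP_17a322_nt.RV.Defs
import Pool.Agent.Lib.MP_17a322_nt.RV.U1
import Pool.Agent.Lib.MP_17a322_nt.RO.H

/-!
Upper bound for the height of values of multihomogeneous forms, uniform in the field.
-/

namespace Pool.Agent.Lib.MP_17a322_nt.RV

open MvPolynomial Height
open Pool.Agent.Lib.MP_17a322_nt.RO

universe u

/-- `[L : K] ≤ [L : ℚ]`. -/
private theorem U2_finrank_le {K L : Type*} [Field K] [NumberField K] [Field L] [NumberField L] [Algebra K L] :
    (Module.finrank K L : ℝ) ≤ Module.finrank ℚ L := by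
  have h1 : Module.finrank ℚ K * Module.finrank K L = Module.finrank ℚ L := Module.finrank_mul_finrank ℚ K L
  have h2 : 0 < Module.finrank ℚ K := Module.finrank_pos
  have h3 : Module.finrank K L ≤ Module.finrank ℚ L := by
    rw [← h1]
    exact Nat.le_mul_of_pos_left _ h2
  exact_mod_cast h3

/-- A fixed linear map with coefficients in `K`, evaluated over extensions `L`. Proof:
`logHeight_linearMap_apply_le` over `L`, `totalWeight_eq_finrank`, `logHeight_algebraMap` for the matrix and
`[L : K] ≤ [L : ℚ]`. -/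
theorem logHeight_linear_unif {K : Type u} [Field K] [NumberField K] {ι κ : Type*} [Fintype ι]
    [Finite κ] (A : κ × ι → K) :
    ∃ C : ℝ, 0 ≤ C ∧ ∀ (L : Type u) [Field L] [NumberField L] [Algebra K L] (x : ι → L),
      logHeight (fun k => ∑ i, algebraMap K L (A (k, i)) * x i) ≤
        logHeight x + C * Module.finrank ℚ L := by
  refine ⟨Real.log (Nat.card ι) + logHeight A,
    add_nonneg (Real.log_natCast_nonneg _) (logHeight_nonneg _), ?_⟩
  intro L _ _ _ x
  have h1 := logHeight_linearMap_apply_le (fun p : κ × ι => algebraMap K L (A p)) x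
  have h2 : logHeight (fun p : κ × ι => algebraMap K L (A p)) = Module.finrank K L * logHeight A :=
    logHeight_algebraMap A
  have h3 : ((totalWeight L : ℕ) : ℝ) = Module.finrank ℚ L := by
    rw [NumberField.totalWeight_eq_finrank]
  rw [h2, h3] at h1
  have h4 : (Module.finrank K L : ℝ) * logHeight A ≤ Module.finrank ℚ L * logHeight A :=
    mul_le_mul_of_nonneg_right U2_finrank_le (logHeight_nonneg _)
  have h5 : (Real.log (Nat.card ι) + logHeight A) * (Module.finrank ℚ L : ℝ) =
      (Module.finrank ℚ L : ℝ) * Real.log (Nat.card ι) + Module.finrank ℚ L * logHeight A := by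
    ring
  rw [h5]
  linarith

/-- Multihomogeneous forms over `K`, evaluated over extensions `L`. Proof: as `logHeight_evl_le` in
RO/H, with `logHeight_linear_unif` for the last step. -/
theorem logHeight_evl_unif {K : Type u} [Field K] [NumberField K] {B ι κ : Type*} [Fintype B]
    [DecidableEq B] [Fintype ι] [Finite κ] (φ : κ → MvPolynomial (B × ι) K) (D : B → ℕ)
    (hφ : ∀ k, MH (φ k) D) :
    ∃ C : ℝ, 0 ≤ C ∧ ∀ (L : Type u) [Field L] [NumberField L] [Algebra K L] (x : B → ι → L),
      (∀ b, x b ≠ 0) →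
        logHeight (fun k => evl x (φ k)) ≤
          ∑ b, (D b : ℝ) * logHeight (x b) + C * Module.finrank ℚ L := by
  classical
  rcases isEmpty_or_nonempty κ with hκ | hκ
  · refine ⟨0, le_rfl, fun L _ _ _ x _ => ?_⟩
    rw [logHeight_eq_zero_of_subsingleton]
    have : 0 ≤ ∑ b, (D b : ℝ) * logHeight (x b) :=
      Finset.sum_nonneg fun b _ => mul_nonneg (Nat.cast_nonneg _) (logHeight_nonneg _)
    linarith
  by_cases hne : Nonempty ((Σ b : B, Fin (D b)) → ι)
  swap
  · -- then all forms vanish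
    refine ⟨0, le_rfl, fun L _ _ _ x hx => ?_⟩
    have hz : (fun k => evl x (φ k)) = 0 := by
      funext k
      have : φ k = 0 := by
        by_contra hk
        obtain ⟨m, hm⟩ := MvPolynomial.ne_zero_iff.mp hk
        obtain ⟨I, _⟩ := H_exists_index.{_, _, 0} D m (H_sum_eq (hφ k) hm)
        exact hne ⟨I⟩
      simp [this, evl]
    rw [hz, logHeight_zero]
    have : 0 ≤ ∑ b, (D b : ℝ) * logHeight (x b) :=
      Finset.sum_nonneg fun b _ => mul_nonneg (Nat.cast_nonneg _) (logHeight_nonneg _)
    linarith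
  obtain ⟨I₀⟩ := hne
  have hI : ∀ m : B × ι →₀ ℕ, ∃ I : (Σ b : B, Fin (D b)) → ι, (∀ b, ∑ i, m (b, i) = D b) →
      ∀ (L : Type u) [CommMonoid L] (x : B → ι → L),
        ∏ p, x p.1 p.2 ^ m p = ∏ a : (Σ b : B, Fin (D b)), x a.1 (I a) := by
    intro m
    by_cases hm : ∀ b, ∑ i, m (b, i) = D b
    · obtain ⟨I, hI⟩ := H_exists_index.{_, _, u} D m hm
      exact ⟨I, fun _ L _ x => hI L x⟩
    · exact ⟨I₀, fun h => absurd h hm⟩
  choose I hI using hI
  have := Fintype.ofFinite κ
  set A : κ × ((Σ b : B, Fin (D b)) → ι) → K := fun p =>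
    ∑ m ∈ (φ p.1).support.filter (fun m => I m = p.2), coeff m (φ p.1) with hA
  obtain ⟨C, hC0, hC⟩ := logHeight_linear_unif A
  refine ⟨C, hC0, ?_⟩
  intro L _ _ _ x hx
  have h1 : (fun k => evl x (φ k)) =
      fun k => ∑ J : (Σ b : B, Fin (D b)) → ι, algebraMap K L (A (k, J)) * ∏ a, x a.1 (J a) := by
    funext k
    have hA' : ∀ J, algebraMap K L (A (k, J)) * ∏ a : (Σ b : B, Fin (D b)), x a.1 (J a) =
        ∑ m ∈ (φ k).support, if I m = J then
          algebraMap K L (coeff m (φ k)) * ∏ p, x p.1 p.2 ^ m p else 0 := by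
      intro J
      rw [hA]
      simp only
      rw [map_sum, Finset.sum_mul, Finset.sum_filter]
      refine Finset.sum_congr rfl fun m hm => ?_
      split_ifs with hJ
      · rw [hI m (H_sum_eq (hφ k) (mem_support_iff.mp hm)) L x, hJ]
      · rfl
    simp only [hA']
    rw [Finset.sum_comm]
    rw [evl, aeval_def, eval₂_eq']
    refine Finset.sum_congr rfl fun m _ => ?_
    rw [Finset.sum_ite_eq]
    simp
  rw [h1]
  have h3 := hC L (fun J : (Σ b : B, Fin (D b)) → ι => ∏ a, x a.1 (J a))
  have h2 : logHeight (fun J : (Σ b : B, Fin (D b)) → ι => ∏ a, x a.1 (J a)) =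
      ∑ b, (D b : ℝ) * logHeight (x b) := by
    rw [logHeight_fun_prod_eq (x := fun a : (Σ b : B, Fin (D b)) => x a.1) (fun a => hx a.1),
      Fintype.sum_sigma]
    refine Finset.sum_congr rfl fun b _ => ?_
    simp
  rw [h2] at h3
  exact h3

end Pool.Agent.Lib.MP_17a322_nt.RV
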