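import Pool.Agent.Lib.MP_17a322_nt.RV.C3
import Pool.Agent.Lib.MP_17a322_nt.RO.C1

/-!
Decomposition by parity, one block.
-/

namespace Pool.Agent.Lib.MP_17a322_nt.RV

open MvPolynomial
open Pool.Agent.Lib.MP_17a322_nt.RO

/-- Scaling a homogeneous polynomial. -/
theorem C4_aeval_smul {K A σ : Type*} [CommRing K] [CommRing A] [Algebra K A] [Fintype σ] (n : ℕ)
    (p : MvPolynomial σ K) (hp : p.IsHomogeneous n) (c : A) (v : σ → A) :
    aeval (fun j => c * v j) p = c ^ n * aeval v p := by
  classical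
  rw [aeval_def, aeval_def, eval₂_eq', eval₂_eq', Finset.mul_sum]
  refine Finset.sum_congr rfl fun d hd => ?_
  have h3 := hp (mem_support_iff.mp hd)
  rw [Finsupp.weight_apply, Finsupp.sum_fintype _ _ (by simp)] at h3
  have h4 : ∑ j, d j = n := by rw [← h3]; simp
  simp only [mul_pow, Finset.prod_mul_distrib]
  rw [Finset.prod_pow_eq_pow_sum, h4]
  ring

/-- A monomial of bidegree `(b, b)` in `p`, `p'` is the sum of a form of degree `b` in the symmetric
square and of `p_0 p'_1 - p_1 p'_0` times a form of degree `b - 1` in the symmetric square; here the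
symmetric square is given up to the factor `c`.
Proof. `U = (1/2) • U₀`, `V = (1/2) • V₀` with `U₀` from `exists_symForm` (RO/C1) and `V₀` from
`exists_antiForm`, both for `D := b`, exponents `a`, `e`; the sum of the symmetric and the
antisymmetric expression is twice the monomial. Homogeneity: `aeval s U = c ^ b * aeval (sq2 p p') U`,
`aeval s V = c ^ (b - 1) * aeval (sq2 p p') V` and `b = (b - 1) + 1`. -/
theorem exists_parity (K : Type*) [Field K] [CharZero K] (b : ℕ) (hb : 1 ≤ b) (a e : ℕ)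
    (ha : a ≤ b) (he : e ≤ b) :
    ∃ U V : MvPolynomial (Fin 3) K, U.IsHomogeneous b ∧ V.IsHomogeneous (b - 1) ∧
      ∀ (A : Type*) [Field A] [Algebra K A] (p p' : Fin 2 → A) (s : Fin 3 → A) (c : A),
        (∀ i, s i = c * sq2 p p' i) →
          c ^ b * (p 0 ^ a * p 1 ^ (b - a) * (p' 0 ^ e * p' 1 ^ (b - e))) =
            aeval s U + c * (p 0 * p' 1 - p 1 * p' 0) * aeval s V := by
  obtain ⟨U, hU, hU'⟩ := exists_symForm K b a e ha he
  obtain ⟨V, hV, hV'⟩ := exists_antiForm K b a e ha he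
  refine ⟨C (1 / 2) * U, C (1 / 2) * V, hU.C_mul _, hV.C_mul _, fun A _ _ p p' s c hs => ?_⟩
  have hs' : s = fun i => c * sq2 p p' i := funext hs
  have h1 : aeval s U = c ^ b * aeval (sq2 p p') U := by
    rw [hs']
    exact C4_aeval_smul b U hU c _
  have h2 : aeval s V = c ^ (b - 1) * aeval (sq2 p p') V := by
    rw [hs']
    exact C4_aeval_smul (b - 1) V hV c _
  have hb' : c ^ b = c * c ^ (b - 1) := by
    rw [← pow_succ']
    congr 1
    omega
  have h3 := hU' A p p'
  have h4 := hV' A p p'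
  rw [map_mul, map_mul, h1, h2, aeval_C]
  have h5 : (algebraMap K A) (1 / 2) * 2 = 1 := by
    have h6 : (algebraMap K A) ((1 / 2) * 2) = 1 := by
      rw [one_div, inv_mul_cancel₀ (two_ne_zero), map_one]
    rw [map_mul, map_ofNat] at h6
    exact h6
  have h7 : p 0 ^ a * p 1 ^ (b - a) * (p' 0 ^ e * p' 1 ^ (b - e)) =
      (algebraMap K A) (1 / 2) * (aeval (sq2 p p') U +
        (p 0 * p' 1 - p 1 * p' 0) * aeval (sq2 p p') V) := by
    rw [h3, h4]
    linear_combination -(p 0 ^ a * p 1 ^ (b - a) * (p' 0 ^ e * p' 1 ^ (b - e))) * h5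
  rw [h7, hb']
  ring

end Pool.Agent.Lib.MP_17a322_nt.RV
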