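import Pool.Agent.Lib.MP_17a322_nt.RO.Defs

/-!
Definitions for the theorem on powers of an elliptic curve of arbitrary rank.

All blocks of variables have length two. `MH φ D` (multihomogeneous of multidegree `D`), `evl x φ`
(value), `sq2`, `sg`, `pv`, `pd`, `hom` are the definitions of the folder RO.
-/

namespace Pool.Agent.Lib.MP_17a322_nt.RV

open MvPolynomial Height
open Pool.Agent.Lib.MP_17a322_nt.RO

universe u

/-- The common zeros of the forms `g k` in the product of projective lines have dimension less than
`m`: the coordinates of every zero over an algebraically closed field are algebraic over the field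
generated over `K` by fewer than `m` elements. -/
def DimLT {K : Type u} [Field K] {B κ : Type*} (g : κ → MvPolynomial (B × Fin 2) K) (m : ℕ) :
    Prop :=
  ∀ (F : Type u) [Field F] [Algebra K F] [IsAlgClosed F] (z : B → Fin 2 → F),
    (∀ b, z b ≠ 0) → (∀ k, evl z (g k) = 0) →
      ∃ t : Finset F, t.card < m ∧
        ∀ b, IsAlgebraic (IntermediateField.adjoin K (t : Set F)) (z b 0 / z b 1)

/-- Bound for the Hilbert function: modulo combinations of the forms `g k` (of multidegree `D`) the
forms of multidegree `e` are spanned by at most `C₁ * (max e + 1) ^ d` elements, if all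
`e i ≥ e₀`. -/
def Hilb {K : Type*} [Field K] {B κ : Type*} [Fintype B] [DecidableEq B] [Fintype κ] (D : B → ℕ)
    (g : κ → MvPolynomial (B × Fin 2) K) (d C₁ e₀ : ℕ) : Prop :=
  ∀ e : B → ℕ, (∀ i, e₀ ≤ e i) →
    ∃ s : Finset (MvPolynomial (B × Fin 2) K), s.card ≤ C₁ * (Finset.univ.sup e + 1) ^ d ∧
      ∀ φ, MH φ e → ∃ ψ ∈ Submodule.span K (s : Set (MvPolynomial (B × Fin 2) K)),
        ∃ h : κ → MvPolynomial (B × Fin 2) K, (∀ k, MH (h k) (fun i => e i - D i)) ∧
          φ = ψ + ∑ k, h k * g k

/-- The form of degree `b` in every block with coefficients `γ`. -/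
noncomputable def bform {K A : Type*} [CommSemiring K] [Fintype A] [DecidableEq A] (b : ℕ)
    (γ : (A → Fin (b + 1)) → K) : MvPolynomial (A × Fin 2) K :=
  ∑ x, C (γ x) * ∏ a, (X (a, 0) ^ (x a : ℕ) * X (a, 1) ^ (b - (x a : ℕ)))

/-- The height of the point `x` of a product of projective lines over the field `L` with respect to
the common zeros of the forms `g k` of multidegree `D` over `K`. -/
noncomputable def dfc {K L : Type*} [Field K] [Field L] [Algebra K L] [AdmissibleAbsValues L]
    {B κ : Type*} [Fintype B] (D : B → ℕ) (g : κ → MvPolynomial (B × Fin 2) K)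
    (x : B → Fin 2 → L) : ℝ :=
  ∑ b, (D b : ℝ) * logHeight (x b) - logHeight (fun k => evl x (g k))

end Pool.Agent.Lib.MP_17a322_nt.RV
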