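import Pool.Agent.Lib.MP_17a322_nt.RV.Defs
import Pool.Agent.Lib.MP_17a322_nt.RO.A1
import Pool.Agent.Lib.MP_17a322_nt.RO.C1
import Pool.Agent.Lib.MP_17a322_nt.RO.D2

/-!
Pulling back forms by the addition map in one block.
-/

namespace Pool.Agent.Lib.MP_17a322_nt.RV

open MvPolynomial WeierstrassCurve
open Pool.Agent.Lib.MP_17a322_nt.RO

universe u

/-- The value of a polynomial as a sum over its monomials. -/
theorem S1_evl {K F B : Type*} [Field K] [Field F] [Algebra K F] [Fintype B]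
    (x : B → Fin 2 → F) (φ : MvPolynomial (B × Fin 2) K) :
    evl x φ = ∑ s ∈ φ.support, algebraMap K F (coeff s φ) *
      ∏ b, (x b 0 ^ s (b, 0) * x b 1 ^ s (b, 1)) := by
  unfold evl
  rw [aeval_def, eval₂_eq']
  refine Finset.sum_congr rfl fun s _ => ?_
  rw [Fintype.prod_prod_type]
  congr 1
  exact Finset.prod_congr rfl fun b _ => by rw [Fin.prod_univ_two]

/-- The degrees of the monomials in the blocks. -/
theorem S1_deg {K B : Type*} [Field K] [Fintype B] [DecidableEq B]
    {φ : MvPolynomial (B × Fin 2) K} {D : B → ℕ} (h : MH φ D) {s : (B × Fin 2) →₀ ℕ}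
    (hs : s ∈ φ.support) (b : B) : s (b, 0) + s (b, 1) = D b := by
  have h1 := h (mem_support_iff.mp hs)
  rw [Finsupp.weight_apply, Finsupp.sum_fintype _ _ (by simp)] at h1
  have h2 := congrFun h1 b
  rw [Finset.sum_apply, Fintype.sum_prod_type] at h2
  simp only [bwt, Pi.smul_apply, smul_eq_mul, Fin.sum_univ_two, Pi.single_apply] at h2
  rw [← h2]
  simp only [mul_ite, mul_one, mul_zero]
  rw [Finset.sum_add_distrib, Finset.sum_ite_eq Finset.univ b, Finset.sum_ite_eq Finset.univ b]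
  simp

/-- The part of the monomials outside of the block `b₀`. -/
noncomputable def S1_T (K : Type*) [Field K] {B : Type*} [Fintype B] [DecidableEq B] (b₀ : B)
    (s t : (B × Fin 2) →₀ ℕ) : MvPolynomial (Option B × Fin 2) K :=
  ∏ b ∈ Finset.univ.erase b₀, (X (some b, 0) ^ (s (b, 0) + t (b, 0)) *
    X (some b, 1) ^ (s (b, 1) + t (b, 1)))

theorem S1_T_mh {K : Type*} [Field K] {B : Type*} [Fintype B] [DecidableEq B] (b₀ : B)
    {D : B → ℕ} {s t : (B × Fin 2) →₀ ℕ} (hs : ∀ b, s (b, 0) + s (b, 1) = D b)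
    (ht : ∀ b, t (b, 0) + t (b, 1) = D b) :
    MH (S1_T K b₀ s t) (pd 0 (fun b => if b = b₀ then 0 else 2 * D b)) := by
  have hXb : ∀ (b : B) (j : Fin 2), IsWeightedHomogeneous (bwt (Option B) (Fin 2))
      (X (some b, j) : MvPolynomial (Option B × Fin 2) K) (pd 0 (Pi.single b 1)) := by
    intro b j
    have h := isWeightedHomogeneous_X K (bwt (Option B) (Fin 2)) (some b, j)
    have e : bwt (Option B) (Fin 2) (some b, j) = pd 0 (Pi.single b 1) := by
      funext o
      cases o with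
      | none => simp [bwt, pd]
      | some b' => simp [bwt, pd, Pi.single_apply]
    rwa [e] at h
  have h1 : MH (S1_T K b₀ s t) (∑ b ∈ Finset.univ.erase b₀,
      ((s (b, 0) + t (b, 0)) • pd 0 (Pi.single b 1) + (s (b, 1) + t (b, 1)) • pd 0 (Pi.single b 1))) := by
    unfold S1_T MH
    exact IsWeightedHomogeneous.prod _ _ _ fun b _ => ((hXb b 0).pow _).mul ((hXb b 1).pow _)
  have e : (∑ b ∈ Finset.univ.erase b₀,
      ((s (b, 0) + t (b, 0)) • pd 0 (Pi.single b 1) + (s (b, 1) + t (b, 1)) • pd 0 (Pi.single b 1)))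
      = pd 0 (fun b => if b = b₀ then 0 else 2 * D b) := by
    funext o
    rw [Finset.sum_apply]
    cases o with
    | none => simp [pd]
    | some b' =>
      simp only [pd, Pi.add_apply, Pi.smul_apply, Option.elim, smul_eq_mul, Pi.single_apply]
      simp only [mul_ite, mul_one, mul_zero]
      rw [Finset.sum_add_distrib, Finset.sum_ite_eq (Finset.univ.erase b₀) b',
        Finset.sum_ite_eq (Finset.univ.erase b₀) b']
      simp only [Finset.mem_erase, Finset.mem_univ, and_true]
      by_cases hb : b' = b₀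
      · simp [hb]
      · simp only [hb, ne_eq, not_false_eq_true, if_true, if_false]
        have := hs b'
        have := ht b'
        omega
  rw [e] at h1
  exact h1

theorem S1_T_evl {K F : Type*} [Field K] [Field F] [Algebra K F] {B : Type*} [Fintype B]
    [DecidableEq B] (b₀ : B) (s t : (B × Fin 2) →₀ ℕ) (w : Fin 2 → F) (x : B → Fin 2 → F) :
    evl (pv w x) (S1_T K b₀ s t) = ∏ b ∈ Finset.univ.erase b₀,
      (x b 0 ^ (s (b, 0) + t (b, 0)) * x b 1 ^ (s (b, 1) + t (b, 1))) := by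
  unfold S1_T evl
  rw [map_prod]
  refine Finset.prod_congr rfl fun b _ => ?_
  simp only [map_mul, map_pow, aeval_X, pv, Option.elim]

/-- The product over all blocks, with the block `b₀` separated. -/
theorem S1_split {F : Type*} [Field F] {B : Type*} [Fintype B] [DecidableEq B] (b₀ : B)
    (s t : (B × Fin 2) →₀ ℕ) (x y y' : B → Fin 2 → F) (h : ∀ b, b ≠ b₀ → y b = x b)
    (h' : ∀ b, b ≠ b₀ → y' b = x b) :
    (∏ b, (y b 0 ^ s (b, 0) * y b 1 ^ s (b, 1))) * (∏ b, (y' b 0 ^ t (b, 0) * y' b 1 ^ t (b, 1))) =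
      (y b₀ 0 ^ s (b₀, 0) * y b₀ 1 ^ s (b₀, 1) * (y' b₀ 0 ^ t (b₀, 0) * y' b₀ 1 ^ t (b₀, 1))) *
        ∏ b ∈ Finset.univ.erase b₀,
          (x b 0 ^ (s (b, 0) + t (b, 0)) * x b 1 ^ (s (b, 1) + t (b, 1))) := by
  rw [← Finset.mul_prod_erase Finset.univ _ (Finset.mem_univ b₀),
    ← Finset.mul_prod_erase Finset.univ (fun b => y' b 0 ^ t (b, 0) * y' b 1 ^ t (b, 1))
      (Finset.mem_univ b₀)]
  have e : ∏ b ∈ Finset.univ.erase b₀,
      (x b 0 ^ (s (b, 0) + t (b, 0)) * x b 1 ^ (s (b, 1) + t (b, 1))) =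
      (∏ b ∈ Finset.univ.erase b₀, (y b 0 ^ s (b, 0) * y b 1 ^ s (b, 1))) *
        ∏ b ∈ Finset.univ.erase b₀, (y' b 0 ^ t (b, 0) * y' b 1 ^ t (b, 1)) := by
    rw [← Finset.prod_mul_distrib]
    refine Finset.prod_congr rfl fun b hb => ?_
    have hb' : b ≠ b₀ := (Finset.mem_erase.mp hb).1
    rw [h b hb', h' b hb']
    ring
  rw [e]
  ring

/-- From forms `g k` in `x(P_b)`, `b ∈ B`, to forms in `x(P_b)` and `x(A)` (block `none`):
`g' (k, l)` has the value `g_k(y) g_l(y') + g_l(y) g_k(y')` up to a nonzero factor, where `y`, `y'` are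
the x-coordinates of `P` with `P_{b₀}` replaced by `P_{b₀} + A`, `P_{b₀} - A`. All degrees double, and
the degree in the block `none` is that of the block `b₀`.
Proof. Write `g k = ∑_a X (b₀, 0)^a X (b₀, 1)^(D b₀ - a) * G_{k, a}`, `a ≤ D b₀`, with forms `G_{k, a}` not
involving the block `b₀` (group the monomials of `g k` by the exponent `a` of `X (b₀, 0)`). Then with
`p = x(P_{b₀} + A)`, `p' = x(P_{b₀} - A)` the value in question is
`∑_{a, a'} G_{k, a} G_{l, a'} (p_0^a p_1^(D-a) p'_0^(a') p'_1^(D-a') + swapped)`. By `exists_symForm` the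
bracket is a form `U` of degree `D b₀` in `sq2 p p'`, and `sq2 p p'` is a nonzero multiple of the values
of the forms `addSubMap W i` at `sq2 (x(P_{b₀})) (x(A))` (RO/A1 `addSub_sym2x`; compare the proof of
RO/D2 `exists_transForm`, whose statement with `ℓ = 1` can be used directly: `B := Unit`, block `none`
for `x(A)` and block `some ()` for `x(P_{b₀})`, points `A + P` and `A - P`). -/
theorem exists_sumForms {K : Type u} [Field K] [CharZero K] (W : WeierstrassCurve K)
    [W.IsElliptic] {B κ : Type} [Fintype B] [DecidableEq B] (D : B → ℕ)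
    (g : κ → MvPolynomial (B × Fin 2) K) (hg : ∀ k, MH (g k) D) (b₀ : B) :
    ∃ g' : κ × κ → MvPolynomial (Option B × Fin 2) K,
      (∀ k, MH (g' k) (fun o => 2 * D (o.getD b₀))) ∧
      ∀ (F : Type u) [Field F] [DecidableEq F] [Algebra K F] (V : WeierstrassCurve F),
        W.map (algebraMap K F) = V → ∀ (P : B → V.toAffine.Point) (A : V.toAffine.Point),
          ∃ γ : F, γ ≠ 0 ∧ ∀ k l,
            evl (pv A.xRep (fun b => (P b).xRep)) (g' (k, l)) =
              γ * (evl (fun b => (Function.update P b₀ (P b₀ + A) b).xRep) (g k) *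
                    evl (fun b => (Function.update P b₀ (P b₀ - A) b).xRep) (g l) +
                  evl (fun b => (Function.update P b₀ (P b₀ + A) b).xRep) (g l) *
                    evl (fun b => (Function.update P b₀ (P b₀ - A) b).xRep) (g k)) := by
  obtain ⟨S, hS, hS'⟩ := exists_transForm W (1 : ℤ) b₀
  have hU : ∀ a a' : ℕ, ∃ U : MvPolynomial (Fin 3) K, a ≤ D b₀ → a' ≤ D b₀ →
      (U.IsHomogeneous (D b₀) ∧ ∀ (A : Type u) [CommRing A] [Algebra K A] (p p' : Fin 2 → A),
        aeval (sq2 p p') U =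
          p 0 ^ a * p 1 ^ (D b₀ - a) * p' 0 ^ a' * p' 1 ^ (D b₀ - a') +
            p' 0 ^ a * p' 1 ^ (D b₀ - a) * p 0 ^ a' * p 1 ^ (D b₀ - a')) := by
    intro a a'
    by_cases h : a ≤ D b₀ ∧ a' ≤ D b₀
    · obtain ⟨U, h1, h2⟩ := exists_symForm.{u, u} K (D b₀) a a' h.1 h.2
      exact ⟨U, fun _ _ => ⟨h1, h2⟩⟩
    · exact ⟨0, fun h1 h2 => absurd ⟨h1, h2⟩ h⟩
  choose U hU using hU
  refine ⟨fun k => ∑ s ∈ (g k.1).support, ∑ t ∈ (g k.2).support,
    C (coeff s (g k.1) * coeff t (g k.2)) *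
      (S1_T K b₀ s t * aeval S (U (s (b₀, 0)) (t (b₀, 0)))), ?_, ?_⟩
  · intro k
    unfold MH
    refine IsWeightedHomogeneous.sum _ _ _ fun s hs => IsWeightedHomogeneous.sum _ _ _ fun t ht => ?_
    have hs' := S1_deg (hg k.1) hs
    have ht' := S1_deg (hg k.2) ht
    have h1 := S1_T_mh (K := K) b₀ hs' ht'
    have h2 := (hU (s (b₀, 0)) (t (b₀, 0)) (by have := hs' b₀; omega)
      (by have := ht' b₀; omega)).1
    have h3 := D2_aeval_wh (bwt (Option B) (Fin 2)) (D b₀) _ h2 S _ hS
    have h4 := (IsWeightedHomogeneous.mul h1 h3).C_mul (coeff s (g k.1) * coeff t (g k.2))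
    have e : (pd 0 (fun b => if b = b₀ then 0 else 2 * D b) +
        D b₀ • pd (2 * (1 : ℤ).natAbs ^ 2) (Pi.single b₀ 2) : Option B → ℕ) =
        fun o => 2 * D (o.getD b₀) := by
      funext o
      cases o with
      | none => simp [pd, mul_comm]
      | some b =>
        simp only [pd, Pi.add_apply, Pi.smul_apply, Option.elim, smul_eq_mul, Pi.single_apply,
          Option.getD_some]
        by_cases hb : b = b₀
        · simp [hb, mul_comm]
        · simp [hb]
    rw [e] at h4
    exact h4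
  · intro F _ _ _ V hV P A
    obtain ⟨c, hc, hcS⟩ := hS' F V hV A P
    refine ⟨c ^ D b₀, pow_ne_zero _ hc, fun k l => ?_⟩
    set z : Option B → Fin 2 → F := pv A.xRep (fun b => (P b).xRep) with hz
    set p : Fin 2 → F := (P b₀ + A).xRep with hp
    set p' : Fin 2 → F := (P b₀ - A).xRep with hp'
    have hcS' : ∀ i, evl z (S i) = c * sq2 p p' i := by
      intro i
      rw [hcS i]
      have e1 : (1 : ℤ) • A + P b₀ = P b₀ + A := by rw [one_zsmul, add_comm]
      have e2 : (1 : ℤ) • A - P b₀ = -(P b₀ - A) := by rw [one_zsmul, neg_sub]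
      rw [e1, e2, WeierstrassCurve.Affine.Point.xRep_neg]
    have hUv : ∀ a a' : ℕ, a ≤ D b₀ → a' ≤ D b₀ → evl z (aeval S (U a a')) = c ^ D b₀ *
        (p 0 ^ a * p 1 ^ (D b₀ - a) * p' 0 ^ a' * p' 1 ^ (D b₀ - a') +
            p' 0 ^ a * p' 1 ^ (D b₀ - a) * p 0 ^ a' * p 1 ^ (D b₀ - a')) := by
      intro a a' ha ha'
      obtain ⟨h1, h2⟩ := hU a a' ha ha'
      have e1 : evl z (aeval S (U a a')) = aeval (fun i => evl z (S i)) (U a a') := by
        unfold evl
        rw [← AlgHom.comp_apply, comp_aeval]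
      have e2 : (fun i => evl z (S i)) = fun i => c * sq2 p p' i := funext hcS'
      rw [e1, e2, D2_aeval_smul (D b₀) _ h1, h2]
    set y : B → Fin 2 → F := fun b => (Function.update P b₀ (P b₀ + A) b).xRep with hy
    set y' : B → Fin 2 → F := fun b => (Function.update P b₀ (P b₀ - A) b).xRep with hy'
    have hy0 : y b₀ = p := by simp only [hy, Function.update_self, hp]
    have hy0' : y' b₀ = p' := by simp only [hy', Function.update_self, hp']
    have hy1 : ∀ b, b ≠ b₀ → y b = (P b).xRep := by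
      intro b hb
      simp only [hy, Function.update_of_ne hb]
    have hy1' : ∀ b, b ≠ b₀ → y' b = (P b).xRep := by
      intro b hb
      simp only [hy', Function.update_of_ne hb]
    rw [S1_evl y (g k), S1_evl y' (g l), S1_evl y (g l), S1_evl y' (g k)]
    have hL : evl z (∑ s ∈ (g k).support, ∑ t ∈ (g l).support,
        C (coeff s (g k) * coeff t (g l)) *
          (S1_T K b₀ s t * aeval S (U (s (b₀, 0)) (t (b₀, 0))))) =
        ∑ s ∈ (g k).support, ∑ t ∈ (g l).support,
          algebraMap K F (coeff s (g k)) * algebraMap K F (coeff t (g l)) *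
            (evl z (S1_T K b₀ s t) * evl z (aeval S (U (s (b₀, 0)) (t (b₀, 0))))) := by
      unfold evl
      simp only [map_sum, map_mul, aeval_C]
    rw [hL, Finset.sum_mul_sum, Finset.sum_mul_sum, Finset.sum_comm (s := (g l).support),
      ← Finset.sum_add_distrib, Finset.mul_sum]
    refine Finset.sum_congr rfl fun s hs => ?_
    rw [← Finset.sum_add_distrib, Finset.mul_sum]
    refine Finset.sum_congr rfl fun t ht => ?_
    have hs' := S1_deg (hg k) hs b₀
    have ht' := S1_deg (hg l) ht b₀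
    rw [hUv _ _ (by omega) (by omega), hz, S1_T_evl]
    have e1 := S1_split b₀ s t (fun b => (P b).xRep) y y' hy1 hy1'
    have e2 := S1_split b₀ s t (fun b => (P b).xRep) y' y hy1' hy1
    rw [hy0, hy0'] at e1 e2
    have e3 : D b₀ - s (b₀, 0) = s (b₀, 1) := by omega
    have e4 : D b₀ - t (b₀, 0) = t (b₀, 1) := by omega
    rw [e3, e4]
    linear_combination (-(c ^ D b₀ * algebraMap K F (coeff s (g k)) *
      algebraMap K F (coeff t (g l)))) * (e1 + e2)

end Pool.Agent.Lib.MP_17a322_nt.RV
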