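import Pool.Agent.Lib.MP_17a322_nt.RV.Defs
import Pool.Agent.Lib.MP_17a322_nt.RO.E0

/-!
Homogenisation of an element of the ideal.
-/

namespace Pool.Agent.Lib.MP_17a322_nt.RV

open MvPolynomial
open Pool.Agent.Lib.MP_17a322_nt.RO

/-- Dehomogenisation in the chart `τ` is injective on forms of a given multidegree. -/
theorem H2_inj {K : Type*} [Field K] {B : Type} [Fintype B] [DecidableEq B] (τ : B → Fin 2)
    {φ : MvPolynomial (B × Fin 2) K} {E : B → ℕ} (hφ : MH φ E)
    (h0 : aeval (fun p : B × Fin 2 => if p.2 = τ p.1 then (1 : MvPolynomial B K) else X p.1) φ = 0) :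
    φ = 0 := by
  set F := FractionRing (MvPolynomial (B × Fin 2) K) with hF
  have hinj : Function.Injective (algebraMap (MvPolynomial (B × Fin 2) K) F) :=
    IsFractionRing.injective _ _
  set t : B → F := fun b => algebraMap (MvPolynomial (B × Fin 2) K) F (X (b, τ b)) with ht
  have ht0 : ∀ b, t b ≠ 0 := by
    intro b
    rw [ht]
    simp only
    rw [Ne, map_eq_zero_iff _ hinj]
    exact X_ne_zero _
  set x : B → Fin 2 → F := fun b i => algebraMap (MvPolynomial (B × Fin 2) K) F (X (b, i)) / t b with hx
  have h1 : evl (fun b => t b • x b) φ = algebraMap (MvPolynomial (B × Fin 2) K) F φ := by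
    have e1 : (fun p : B × Fin 2 => (fun b => t b • x b) p.1 p.2) =
        fun p : B × Fin 2 => (IsScalarTower.toAlgHom K (MvPolynomial (B × Fin 2) K) F) (X p) := by
      funext p
      have e2 : (IsScalarTower.toAlgHom K (MvPolynomial (B × Fin 2) K) F) (X p) =
          algebraMap (MvPolynomial (B × Fin 2) K) F (X p) := rfl
      rw [e2]
      simp only [Pi.smul_apply, smul_eq_mul, hx]
      rw [mul_div_cancel₀ _ (ht0 p.1)]
    rw [evl, e1]
    have e3 := congrArg (fun g : MvPolynomial (B × Fin 2) K →ₐ[K] F => g φ)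
      (MvPolynomial.comp_aeval (R := K) (fun p : B × Fin 2 => (X p : MvPolynomial (B × Fin 2) K))
        (IsScalarTower.toAlgHom K (MvPolynomial (B × Fin 2) K) F))
    simp only [AlgHom.comp_apply] at e3
    rw [← e3, aeval_X_left_apply]
    rfl
  have h2 : evl x φ = 0 := by
    have e1 : (fun p : B × Fin 2 => x p.1 p.2) =
        fun p : B × Fin 2 => aeval (fun b => x b (1 - τ b))
          (if p.2 = τ p.1 then (1 : MvPolynomial B K) else X p.1) := by
      funext p
      obtain ⟨b, i⟩ := p
      simp only
      by_cases h : i = τ b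
      · rw [if_pos h, map_one, h]
        simp only [hx]
        exact div_self (ht0 b)
      · rw [if_neg h, aeval_X]
        congr 1
        have key : ∀ u v : Fin 2, u ≠ v → u = 1 - v := by decide
        exact key _ _ h
    rw [evl, e1]
    have e3 := congrArg (fun g : MvPolynomial (B × Fin 2) K →ₐ[K] F => g φ)
      (MvPolynomial.comp_aeval (R := K)
        (fun p : B × Fin 2 => if p.2 = τ p.1 then (1 : MvPolynomial B K) else X p.1)
        (aeval (fun b => x b (1 - τ b))))
    simp only [AlgHom.comp_apply] at e3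
    rw [← e3, h0, map_zero]
  have h3 := evl_smul E φ hφ t x
  rw [h1, h2, mul_zero] at h3
  exact (map_eq_zero_iff _ hinj).1 h3

/-- Homogenisation in the chart `τ`. -/
theorem H2_ho {K : Type*} [Field K] {B : Type} [Fintype B] [DecidableEq B] (τ : B → Fin 2)
    (f : MvPolynomial B K) (E : B → ℕ) (hE : ∀ b, f.degreeOf b ≤ E b) :
    ∃ φ : MvPolynomial (B × Fin 2) K, MH φ E ∧
      aeval (fun p : B × Fin 2 => if p.2 = τ p.1 then (1 : MvPolynomial B K) else X p.1) φ = f := by
  have key : ∀ v : Fin 2, 1 - v ≠ v := by decide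
  refine ⟨∑ m ∈ f.support, C (coeff m f) * ∏ b, (X (b, 1 - τ b) ^ (m b) * X (b, τ b) ^ (E b - m b)),
    ?_, ?_⟩
  · unfold MH
    apply IsWeightedHomogeneous.sum
    intro m hm
    apply IsWeightedHomogeneous.C_mul
    have h1 : IsWeightedHomogeneous (bwt B (Fin 2))
        (∏ b : B, ((X (b, 1 - τ b) : MvPolynomial (B × Fin 2) K) ^ (m b) * X (b, τ b) ^ (E b - m b)))
        (∑ b : B, (m b • bwt B (Fin 2) (b, 1 - τ b) + (E b - m b) • bwt B (Fin 2) (b, τ b))) := by
      apply IsWeightedHomogeneous.prod
      intro b _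
      exact ((isWeightedHomogeneous_X K (bwt B (Fin 2)) (b, 1 - τ b)).pow _).mul
        ((isWeightedHomogeneous_X K (bwt B (Fin 2)) (b, τ b)).pow _)
    have h2 : (∑ b : B, (m b • bwt B (Fin 2) (b, 1 - τ b) + (E b - m b) • bwt B (Fin 2) (b, τ b))) = E := by
      funext b
      rw [Finset.sum_apply, Finset.sum_eq_single b]
      · have hb : m b ≤ E b := le_trans (monomial_le_degreeOf b hm) (hE b)
        simp only [bwt, Pi.add_apply, Pi.smul_apply, Pi.single_eq_same, smul_eq_mul, mul_one]
        omega
      · intro c _ hc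
        simp [bwt, Pi.single_eq_of_ne (Ne.symm hc)]
      · intro h
        exact absurd (Finset.mem_univ b) h
    rw [h2] at h1
    exact h1
  · rw [map_sum]
    conv_rhs => rw [f.as_sum]
    apply Finset.sum_congr rfl
    intro m _
    rw [map_mul, aeval_C, map_prod, monomial_eq, Finsupp.prod_fintype _ _ (fun b => pow_zero _)]
    have e1 : algebraMap K (MvPolynomial B K) (coeff m f) = C (coeff m f) := rfl
    rw [e1]
    congr 1
    apply Finset.prod_congr rfl
    intro b _
    rw [map_mul, map_pow, map_pow, aeval_X, aeval_X]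
    simp only
    rw [if_neg (key (τ b)), if_pos trivial, one_pow, mul_one]

/-- Homogenisation in the chart `τ` of an identity `H = ∑ a k * (g k dehomogenised)` with `H` in the
variables of `s`.
Proof. For `f : MvPolynomial B K` and `E : B → ℕ` let
`ho f E = ∑_{m ∈ f.support} C (coeff m f) * ∏_b X (b, 1 - τ b)^(m b) * X (b, τ b)^(E b - m b)`. If
`degreeOf b f ≤ E b` for all `b`: `MH (ho f E) E` (compare `mh_hom`, RO/G3);
`ho f (E + E') = ho f E * ∏_b X (b, τ b)^(E' b)`; `ho` is additive;
`ho (f * f') (E + E') = ho f E * ho f' E'` if also `degreeOf b f' ≤ E' b` (it is enough to check monomials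
`f`, `f'`, both sides being bilinear, with `ho` defined by the same formula via `Finsupp.sum`);
for a form `g` of multidegree `D` dehomogenised to `g'`: `degreeOf b g' ≤ D b` and `ho g' D = g`. Take
`N₀` larger than all `D b`, all `degreeOf b H₀` and all `degreeOf b (a k) + D b`. Then
`H = ho H₀ (N on s, 0 outside)` (degrees of `H₀` outside `s` are `0`), `h k = ho (a k) (.. - D)`, and the
identity follows by applying `ho · (2N on s, N outside)`. `H ≠ 0`: dehomogenising gives `H₀` back. -/
theorem exists_homogenised {K : Type*} [Field K] {B κ : Type} [Fintype B] [DecidableEq B]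
    [Fintype κ] (D : B → ℕ) (g : κ → MvPolynomial (B × Fin 2) K) (hg : ∀ k, MH (g k) D)
    (s : Finset B) (τ : B → Fin 2) (H₀ : MvPolynomial B K) (hH₀ : H₀ ≠ 0)
    (hs : H₀ ∈ supported K (s : Set B)) (a : κ → MvPolynomial B K)
    (ha : H₀ = ∑ k, a k * aeval (fun p : B × Fin 2 => if p.2 = τ p.1 then 1 else X p.1) (g k)) :
    ∃ N₀ : ℕ, ∀ N, N₀ ≤ N → ∃ H : MvPolynomial (B × Fin 2) K, H ≠ 0 ∧
      MH H (fun b => if b ∈ s then N else 0) ∧ ∃ h : κ → MvPolynomial (B × Fin 2) K,
        (∀ k, MH (h k) (fun b => (if b ∈ s then 2 * N else N) - D b)) ∧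
          H * ∏ b, X (b, τ b) ^ N = ∑ k, h k * g k := by
  classical
  refine ⟨∑ b, (D b + H₀.degreeOf b + ∑ k, (a k).degreeOf b), ?_⟩
  intro N hN
  have hNb : ∀ b, D b + H₀.degreeOf b + ∑ k, (a k).degreeOf b ≤ N := by
    intro b
    refine le_trans ?_ hN
    exact Finset.single_le_sum (f := fun b => D b + H₀.degreeOf b + ∑ k, (a k).degreeOf b)
      (fun _ _ => Nat.zero_le _) (Finset.mem_univ b)
  have hak : ∀ k b, (a k).degreeOf b ≤ ∑ k, (a k).degreeOf b := by
    intro k b
    exact Finset.single_le_sum (f := fun k => (a k).degreeOf b) (fun _ _ => Nat.zero_le _)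
      (Finset.mem_univ k)
  have hH₀d : ∀ b, H₀.degreeOf b ≤ if b ∈ s then N else 0 := by
    intro b
    by_cases hb : b ∈ s
    · rw [if_pos hb]
      have := hNb b
      omega
    · rw [if_neg hb]
      by_contra hcon
      have h1 : b ∈ H₀.vars := by
        rw [mem_vars_iff_degreeOf_ne_zero]
        omega
      exact hb (by simpa using (mem_supported.1 hs) h1)
  obtain ⟨H, hH, hH2⟩ := H2_ho τ H₀ _ hH₀d
  have hhk : ∀ k, ∃ φ : MvPolynomial (B × Fin 2) K,
      MH φ (fun b => (if b ∈ s then 2 * N else N) - D b) ∧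
        aeval (fun p : B × Fin 2 => if p.2 = τ p.1 then (1 : MvPolynomial B K) else X p.1) φ = a k := by
    intro k
    apply H2_ho
    intro b
    have h1 := hNb b
    have h2 := hak k b
    split_ifs <;> omega
  choose h hh hh2 using hhk
  have hDE : ∀ b, D b ≤ if b ∈ s then 2 * N else N := by
    intro b
    have h1 := hNb b
    split_ifs <;> omega
  refine ⟨H, ?_, hH, h, hh, ?_⟩
  · rintro rfl
    rw [map_zero] at hH2
    exact hH₀ hH2.symm
  · -- both sides are forms of the same multidegree
    have hL : MH (H * ∏ b, (X (b, τ b) : MvPolynomial (B × Fin 2) K) ^ N)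
        (fun b => if b ∈ s then 2 * N else N) := by
      unfold MH
      have h1 : IsWeightedHomogeneous (bwt B (Fin 2))
          (∏ b : B, (X (b, τ b) : MvPolynomial (B × Fin 2) K) ^ N)
          (∑ b : B, (N • bwt B (Fin 2) (b, τ b))) := by
        apply IsWeightedHomogeneous.prod
        intro b _
        exact (isWeightedHomogeneous_X K (bwt B (Fin 2)) (b, τ b)).pow _
      have h2 : (fun b => if b ∈ s then 2 * N else N) =
          (fun b => if b ∈ s then N else 0) + ∑ b : B, (N • bwt B (Fin 2) (b, τ b)) := by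
        funext b
        rw [Pi.add_apply, Finset.sum_apply, Finset.sum_eq_single b]
        · simp only [bwt, Pi.smul_apply, Pi.single_eq_same, smul_eq_mul, mul_one]
          split_ifs <;> omega
        · intro c _ hc
          simp [bwt, Pi.single_eq_of_ne (Ne.symm hc)]
        · intro h
          exact absurd (Finset.mem_univ b) h
      rw [h2]
      exact IsWeightedHomogeneous.mul hH h1
    have hR : MH (∑ k, h k * g k) (fun b => if b ∈ s then 2 * N else N) := by
      unfold MH
      apply IsWeightedHomogeneous.sum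
      intro k _
      have h2 : (fun b => if b ∈ s then 2 * N else N) =
          (fun b => (if b ∈ s then 2 * N else N) - D b) + D := by
        funext b
        rw [Pi.add_apply, Nat.sub_add_cancel (hDE b)]
      rw [h2]
      exact IsWeightedHomogeneous.mul (hh k) (hg k)
    have hsub : MH (H * ∏ b, (X (b, τ b) : MvPolynomial (B × Fin 2) K) ^ N - ∑ k, h k * g k)
        (fun b => if b ∈ s then 2 * N else N) := IsWeightedHomogeneous.sub hL hR
    have hz := H2_inj τ hsub (by
      rw [map_sub, map_mul, map_prod, map_sum, hH2, ha, sub_eq_zero]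
      have e1 : ∏ b, aeval (fun p : B × Fin 2 => if p.2 = τ p.1 then (1 : MvPolynomial B K) else X p.1)
          ((X (b, τ b) : MvPolynomial (B × Fin 2) K) ^ N) = 1 := by
        apply Finset.prod_eq_one
        intro b _
        rw [map_pow, aeval_X]
        simp
      rw [e1, mul_one]
      apply Finset.sum_congr rfl
      intro k _
      rw [map_mul, hh2])
    exact sub_eq_zero.1 hz

end Pool.Agent.Lib.MP_17a322_nt.RV
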