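import Pool.Agent.Lib.MP_17a322_nt.RV.H3

/-!
Reduction of forms modulo the ideal.
-/

namespace Pool.Agent.Lib.MP_17a322_nt.RV

open MvPolynomial
open Pool.Agent.Lib.MP_17a322_nt.RO

theorem H4_weight {B : Type} [Fintype B] [DecidableEq B] (M : B × Fin 2 →₀ ℕ) (b : B) :
    (Finsupp.weight (bwt B (Fin 2)) M) b = M (b, 0) + M (b, 1) := by
  rw [Finsupp.weight_apply, Finsupp.sum_fintype _ _ (by intro i; simp), Finset.sum_apply,
    Fintype.sum_prod_type, Finset.sum_eq_single b]
  · simp [bwt, Fin.sum_univ_two]
  · intro b' _ hb'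
    refine Finset.sum_eq_zero fun i _ => ?_
    simp [bwt, hb'.symm]
  · intro h
    exact absurd (Finset.mem_univ b) h

theorem H4_coeff {K : Type*} [Field K] {B : Type} [Fintype B] [DecidableEq B]
    {φ : MvPolynomial (B × Fin 2) K} {e : B → ℕ} (hφ : MH φ e) {M : B × Fin 2 →₀ ℕ}
    (hM : coeff M φ ≠ 0) (b : B) : M (b, 0) + M (b, 1) = e b := by
  rw [← H4_weight]
  exact congrFun (hφ hM) b

theorem H4_MH_monomial {K : Type*} [Field K] {B : Type} [Fintype B] [DecidableEq B] {e : B → ℕ}
    (M : B × Fin 2 →₀ ℕ) (c : K) (h : ∀ b, M (b, 0) + M (b, 1) = e b) :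
    MH (monomial M c) e := by
  refine isWeightedHomogeneous_monomial _ _ _ ?_
  funext b
  rw [H4_weight, h]

theorem H4_monomial {K : Type*} [Field K] {B : Type} [Fintype B] (M : B × Fin 2 →₀ ℕ) :
    (monomial M (1 : K)) = ∏ b, (X (b, 0) ^ M (b, 0) * X (b, 1) ^ M (b, 1)) := by
  rw [monomial_eq, C_1, one_mul, Finsupp.prod_fintype _ _ (fun i => pow_zero _),
    Fintype.prod_prod_type]
  exact Finset.prod_congr rfl fun b _ => Fin.prod_univ_two _

theorem H4_chart {K : Type*} [Field K] {B : Type} [Fintype B] (N : ℕ) (τ : B → Fin 2)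
    (p : B × Fin 2 →₀ ℕ) (h1 : ∀ b, p (b, τ b) = N) (h2 : ∀ b i, i ≠ τ b → p (b, i) = 0) :
    (∏ b, X (b, τ b) ^ N : MvPolynomial (B × Fin 2) K) = monomial p 1 := by
  rw [H4_monomial]
  refine Finset.prod_congr rfl fun b _ => ?_
  have h3 : τ b = 0 ∨ τ b = 1 := by
    rcases Fin.exists_fin_two.1 ⟨τ b, rfl⟩ with h | h
    · exact Or.inl h
    · exact Or.inr h
  rcases h3 with h | h
  · have h4 := h1 b
    have h5 := h2 b 1 (by rw [h]; decide)
    rw [h] at h4 ⊢
    rw [h4, h5, pow_zero, mul_one]
  · have h4 := h1 b
    have h5 := h2 b 0 (by rw [h]; decide)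
    rw [h] at h4 ⊢
    rw [h4, h5, pow_zero, one_mul]

theorem H4_order (σ : Type) [Finite σ] : Nonempty (MonomialOrder.{0, 0} σ) := by
  classical
  have : Fintype σ := Fintype.ofFinite σ
  let _ : LinearOrder σ := LinearOrder.lift' (Fintype.equivFin σ) (Fintype.equivFin σ).injective
  exact ⟨MonomialOrder.lex⟩

theorem H4_lt {K : Type*} [Field K] {σ : Type} (m : MonomialOrder.{0, 0} σ)
    {φ Q : MvPolynomial σ K} (hd : m.degree Q = m.degree φ)
    (hc : coeff (m.degree φ) Q = coeff (m.degree φ) φ) (hne : φ - Q ≠ 0) :
    m.toSyn (m.degree (φ - Q)) < m.toSyn (m.degree φ) := by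
  have h1 : m.toSyn (m.degree (φ - Q)) ≤ m.toSyn (m.degree φ) := by
    have h := m.degree_sub_le (f := φ) (g := Q)
    rwa [hd, sup_idem] at h
  refine lt_of_le_of_ne h1 fun h2 => ?_
  have h3 : m.degree (φ - Q) = m.degree φ := m.toSyn.injective h2
  have h4 : coeff (m.degree (φ - Q)) (φ - Q) ≠ 0 := m.coeff_degree_ne_zero_iff.2 hne
  rw [h3, coeff_sub, hc, sub_self] at h4
  exact h4 rfl

/-- If for every set `s` of `d + 1` blocks and every chart `τ` with `τ = 1` on `s` there is a nonzero form
`H` of degree `N` in the blocks of `s` (degree `0` outside) with `H * ∏ X (b, τ b)^N` in the ideal, then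
every form of multidegree `e ≥ 2N` is, modulo the ideal, a combination of the monomials with
exponents in `goodExp e N d`.
Proof. Fix a monomial order on `B × Fin 2 →₀ ℕ` (`MonomialOrder`, e.g. `MonomialOrder.lex` after choosing
a linear order of the finite type). Induction on the leading exponent of `φ ≠ 0`, a form of multidegree
`e`; all exponents `M` of `φ` satisfy `M (b, 0) + M (b, 1) = e b`. Let `M` be the leading exponent,
`a b = M (b, 0)`. If `a ∈ goodExp e N d` subtract the leading term (it is a multiple of `mono K e a`).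
Otherwise choose `s`, `s.card = d + 1`, inside the set of middle coordinates, `τ b = 1` on `s`, and for
`b ∉ s` `τ b = 0` if `N ≤ a b` and `τ b = 1` otherwise (then `e b - a b ≥ N` as `e b ≥ 2N`). Let `A` be the
leading exponent of `H * ∏ X (b, τ b)^N`, `A (b, 0) + A (b, 1) = 2N` for `b ∈ s` with `A (b, 1) ≥ N`, and
`A = N` at `(b, τ b)`, `0` at the other variable for `b ∉ s`. So `A ≤ M`, and
`φ - (lc φ / lc H) X^(M - A) * H * ∏ X (b, τ b)^N` is a form of multidegree `e` with smaller leading
exponent; the subtracted term is `∑ h' k * g k` with `h' k = const * X^(M-A) * h k` of multidegree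
`e - D`. -/
theorem span_good {K : Type*} [Field K] {B κ : Type} [Fintype B] [DecidableEq B] [Fintype κ]
    (D : B → ℕ) (g : κ → MvPolynomial (B × Fin 2) K) (d N : ℕ) (hD : ∀ b, D b ≤ N)
    (helim : ∀ s : Finset B, s.card = d + 1 → ∀ τ : B → Fin 2, (∀ b ∈ s, τ b = 1) →
      ∃ H : MvPolynomial (B × Fin 2) K, H ≠ 0 ∧ MH H (fun b => if b ∈ s then N else 0) ∧
        ∃ h : κ → MvPolynomial (B × Fin 2) K,
          (∀ k, MH (h k) (fun b => (if b ∈ s then 2 * N else N) - D b)) ∧
            H * ∏ b, X (b, τ b) ^ N = ∑ k, h k * g k)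
    (e : B → ℕ) (he : ∀ b, 2 * N ≤ e b) (φ : MvPolynomial (B × Fin 2) K) (hφ : MH φ e) :
    ∃ ψ ∈ Submodule.span K ((fun a => mono K e a) '' (goodExp e N d : Set (B → ℕ))),
      ∃ h : κ → MvPolynomial (B × Fin 2) K, (∀ k, MH (h k) (fun i => e i - D i)) ∧
        φ = ψ + ∑ k, h k * g k := by
  classical
  obtain ⟨m⟩ := H4_order (B × Fin 2)
  have key : ∀ t : m.syn, ∀ φ : MvPolynomial (B × Fin 2) K, MH φ e → m.toSyn (m.degree φ) = t →
      ∃ ψ ∈ Submodule.span K ((fun a => mono K e a) '' (goodExp e N d : Set (B → ℕ))),
        ∃ h : κ → MvPolynomial (B × Fin 2) K, (∀ k, MH (h k) (fun i => e i - D i)) ∧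
          φ = ψ + ∑ k, h k * g k := by
    intro t
    induction t using WellFoundedLT.induction with
    | ind t ih =>
      intro φ hφ ht
      by_cases h0 : φ = 0
      · refine ⟨0, Submodule.zero_mem _, fun _ => 0, fun k => isWeightedHomogeneous_zero _ _ _, ?_⟩
        rw [h0]
        simp
      -- the subtraction step
      have step : ∀ Q : MvPolynomial (B × Fin 2) K, MH Q e → m.degree Q = m.degree φ →
          coeff (m.degree φ) Q = coeff (m.degree φ) φ →
          ∃ ψ ∈ Submodule.span K ((fun a => mono K e a) '' (goodExp e N d : Set (B → ℕ))),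
            ∃ h : κ → MvPolynomial (B × Fin 2) K, (∀ k, MH (h k) (fun i => e i - D i)) ∧
              φ = Q + (ψ + ∑ k, h k * g k) := by
        intro Q hQ hd hc
        by_cases hne : φ - Q = 0
        · refine ⟨0, Submodule.zero_mem _, fun _ => 0,
            fun k => isWeightedHomogeneous_zero _ _ _, ?_⟩
          rw [sub_eq_zero.1 hne]
          simp
        · obtain ⟨ψ, hψ, h, hh, hs⟩ := ih _ (ht ▸ H4_lt m hd hc hne) (φ - Q) (hφ.sub hQ) rfl
          exact ⟨ψ, hψ, h, hh, by rw [← hs]; ring⟩
      have hlc : coeff (m.degree φ) φ ≠ 0 := m.coeff_degree_ne_zero_iff.2 h0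
      have hM : ∀ b, m.degree φ (b, 0) + m.degree φ (b, 1) = e b := fun b => H4_coeff hφ hlc b
      by_cases hgood : (fun b => m.degree φ (b, 0)) ∈ goodExp e N d
      · -- subtract the leading term
        have hmono : mono K e (fun b => m.degree φ (b, 0)) = monomial (m.degree φ) (1 : K) := by
          rw [H4_monomial]
          refine Finset.prod_congr rfl fun b _ => ?_
          have h1 := hM b
          have h2 : e b - m.degree φ (b, 0) = m.degree φ (b, 1) := by omega
          rw [h2]
        obtain ⟨ψ, hψ, h, hh, hs⟩ := step (monomial (m.degree φ) (coeff (m.degree φ) φ))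
          (H4_MH_monomial _ _ hM) (by rw [m.degree_monomial, if_neg hlc]) (by rw [coeff_monomial, if_pos rfl])
        refine ⟨coeff (m.degree φ) φ • mono K e (fun b => m.degree φ (b, 0)) + ψ,
          Submodule.add_mem _ (Submodule.smul_mem _ _ (Submodule.subset_span ⟨_, hgood, rfl⟩)) hψ,
          h, hh, ?_⟩
        rw [hmono, smul_monomial, smul_eq_mul, mul_one, add_assoc]
        exact hs
      · -- subtract a multiple of `H * ∏ X`
        have hcard : d + 1 ≤ (Finset.univ.filter fun b =>
            2 * N ≤ m.degree φ (b, 0) ∧ 2 * N ≤ e b - m.degree φ (b, 0)).card := by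
          by_contra hcon
          apply hgood
          rw [goodExp, Finset.mem_filter, Fintype.mem_piFinset]
          refine ⟨fun b => Finset.mem_range.2 ?_, Nat.le_of_lt_succ (not_le.1 hcon)⟩
          have h1 := hM b
          omega
        obtain ⟨s, hs, hsc⟩ := Finset.exists_subset_card_eq hcard
        have hs' : ∀ b ∈ s, 2 * N ≤ m.degree φ (b, 0) ∧ 2 * N ≤ e b - m.degree φ (b, 0) :=
          fun b hb => (Finset.mem_filter.1 (hs hb)).2
        have hτ : ∃ τ : B → Fin 2, ∀ b, (b ∈ s → τ b = 1) ∧ (b ∉ s → N ≤ m.degree φ (b, 0) → τ b = 0) ∧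
            (b ∉ s → ¬ N ≤ m.degree φ (b, 0) → τ b = 1) :=
          ⟨fun b => if b ∈ s then 1 else if N ≤ m.degree φ (b, 0) then 0 else 1, fun b =>
            ⟨fun h => if_pos h, fun h h' => by simp only [h, h', if_false, if_true],
              fun h h' => by simp only [h, h', if_false]⟩⟩
        obtain ⟨τ, hτ⟩ := hτ
        obtain ⟨H, hH0, hH, h', hh', hsum⟩ := helim s hsc τ fun b hb => (hτ b).1 hb
        obtain ⟨p, hp⟩ : ∃ p : B × Fin 2 →₀ ℕ, ∀ q, p q = if q.2 = τ q.1 then N else 0 :=
          ⟨Finsupp.equivFunOnFinite.symm fun q => if q.2 = τ q.1 then N else 0, fun q => rfl⟩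
        have hP : (∏ b, X (b, τ b) ^ N : MvPolynomial (B × Fin 2) K) = monomial p 1 :=
          H4_chart N τ p (fun b => by rw [hp, if_pos rfl]) (fun b i hi => by rw [hp, if_neg hi])
        rw [hP] at hsum
        have hHc : coeff (m.degree H) H ≠ 0 := m.coeff_degree_ne_zero_iff.2 hH0
        have hHw : ∀ b, m.degree H (b, 0) + m.degree H (b, 1) = if b ∈ s then N else 0 :=
          fun b => H4_coeff hH hHc b
        -- the exponent `A = degree H + p` is at most `degree φ`
        have hA : ∀ b, m.degree H (b, 0) + p (b, 0) ≤ m.degree φ (b, 0) ∧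
            m.degree H (b, 1) + p (b, 1) ≤ m.degree φ (b, 1) ∧
            (m.degree H (b, 0) + p (b, 0)) + (m.degree H (b, 1) + p (b, 1)) =
              if b ∈ s then 2 * N else N := by
          intro b
          have h1 := hM b
          have h2 := hHw b
          have h3 := hp (b, 0)
          have h4 := hp (b, 1)
          have h5 := he b
          by_cases hb : b ∈ s
          · have h6 := (hτ b).1 hb
            have h7 := hs' b hb
            rw [if_pos hb] at h2 ⊢
            have h8 : p (b, 0) = 0 := by rw [h3]; exact if_neg (by rw [h6]; exact zero_ne_one)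
            have h9 : p (b, 1) = N := by rw [h4, if_pos h6.symm]
            omega
          · rw [if_neg hb] at h2 ⊢
            by_cases hN : N ≤ m.degree φ (b, 0)
            · have h6 := (hτ b).2.1 hb hN
              have h8 : p (b, 0) = N := by rw [h3, if_pos h6.symm]
              have h9 : p (b, 1) = 0 := by rw [h4]; exact if_neg (by rw [h6]; exact one_ne_zero)
              omega
            · have h6 := (hτ b).2.2 hb hN
              have h8 : p (b, 0) = 0 := by rw [h3]; exact if_neg (by rw [h6]; exact zero_ne_one)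
              have h9 : p (b, 1) = N := by rw [h4, if_pos h6.symm]
              omega
        obtain ⟨R, hR⟩ : ∃ R : B × Fin 2 →₀ ℕ, R + (m.degree H + p) = m.degree φ := by
          refine ⟨m.degree φ - (m.degree H + p), tsub_add_cancel_of_le ?_⟩
          rintro ⟨b, i⟩
          fin_cases i
          · exact (hA b).1
          · exact (hA b).2.1
        have hRw : ∀ b, R (b, 0) + R (b, 1) = e b - (if b ∈ s then 2 * N else N) := by
          intro b
          have h1 := hM b
          have h2 := (hA b).2.2
          have h3 : R (b, 0) + (m.degree H (b, 0) + p (b, 0)) = m.degree φ (b, 0) := by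
            rw [← hR]
            rfl
          have h4 : R (b, 1) + (m.degree H (b, 1) + p (b, 1)) = m.degree φ (b, 1) := by
            rw [← hR]
            rfl
          omega
        set c : K := coeff (m.degree φ) φ / coeff (m.degree H) H with hc
        have hc0 : c ≠ 0 := div_ne_zero hlc hHc
        have hmon0 : (monomial R c : MvPolynomial (B × Fin 2) K) ≠ 0 := by
          rw [Ne, monomial_eq_zero]
          exact hc0
        have hp0 : (monomial p 1 : MvPolynomial (B × Fin 2) K) ≠ 0 := by
          rw [Ne, monomial_eq_zero]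
          exact one_ne_zero
        have hQd : m.degree (monomial R c * (H * monomial p 1)) = m.degree φ := by
          rw [m.degree_mul hmon0 (mul_ne_zero hH0 hp0), m.degree_mul hH0 hp0, m.degree_monomial,
            m.degree_monomial, if_neg hc0, if_neg one_ne_zero, hR]
        have hQc : coeff (m.degree φ) (monomial R c * (H * monomial p 1)) = coeff (m.degree φ) φ := by
          have h1 : coeff (m.degree φ) (monomial R c * (H * monomial p 1)) = c * (coeff (m.degree H) H * 1) := by
            conv_lhs => rw [← hR]
            rw [coeff_monomial_mul, coeff_mul_monomial]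
          rw [h1, mul_one, hc, div_mul_cancel₀ _ hHc]
        have hQ : MH (monomial R c * (H * monomial p 1)) e := by
          have h1 : MH (monomial R c) (fun b => e b - (if b ∈ s then 2 * N else N)) :=
            H4_MH_monomial R c hRw
          have h2 : MH (monomial p (1 : K)) (fun _ : B => N) := by
            refine H4_MH_monomial p 1 fun b => ?_
            have h3 := hp (b, 0)
            have h4 := hp (b, 1)
            rcases Fin.exists_fin_two.1 ⟨τ b, rfl⟩ with h | h
            · have h8 : p (b, 0) = N := by rw [h3, if_pos h.symm]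
              have h9 : p (b, 1) = 0 := by rw [h4]; exact if_neg (by rw [h]; exact one_ne_zero)
              omega
            · have h8 : p (b, 0) = 0 := by rw [h3]; exact if_neg (by rw [h]; exact zero_ne_one)
              have h9 : p (b, 1) = N := by rw [h4, if_pos h.symm]
              omega
          have h3 := IsWeightedHomogeneous.mul h1 (IsWeightedHomogeneous.mul hH h2)
          have h4 : ((fun b => e b - (if b ∈ s then 2 * N else N)) + ((fun b => if b ∈ s then N else 0) + fun _ : B => N) : B → ℕ) = e := by
            funext b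
            simp only [Pi.add_apply]
            have := he b
            split_ifs <;> omega
          rw [h4] at h3
          exact h3
        obtain ⟨ψ, hψ, h, hh, hfin⟩ := step _ hQ hQd hQc
        refine ⟨ψ, hψ, fun k => monomial R c * h' k + h k, fun k => ?_, ?_⟩
        · refine IsWeightedHomogeneous.add ?_ (hh k)
          have h1 : MH (monomial R c) (fun b => e b - (if b ∈ s then 2 * N else N)) :=
            H4_MH_monomial R c hRw
          have h3 := IsWeightedHomogeneous.mul h1 (hh' k)
          have h4 : ((fun b => e b - (if b ∈ s then 2 * N else N)) + (fun b => (if b ∈ s then 2 * N else N) - D b) : B → ℕ) =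
              fun i => e i - D i := by
            funext b
            simp only [Pi.add_apply]
            have h5 := he b
            have h6 := hD b
            split_ifs <;> omega
          rw [h4] at h3
          exact h3
        · rw [hfin, hsum, Finset.mul_sum]
          simp only [add_mul, Finset.sum_add_distrib, mul_assoc]
          ring
  exact key _ φ hφ rfl

end Pool.Agent.Lib.MP_17a322_nt.RV
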