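import Pool.Agent.Lib.MP_17a322_nt.RV.H1
import Pool.Agent.Lib.MP_17a322_nt.RV.H2
import Pool.Agent.Lib.MP_17a322_nt.RV.H4

/-!
The bound for the Hilbert function.
-/

namespace Pool.Agent.Lib.MP_17a322_nt.RV

open MvPolynomial
open Pool.Agent.Lib.MP_17a322_nt.RO

universe u

/-- Forms whose common zeros have dimension at most `d` satisfy the bound `Hilb` with exponent `d`.
Proof. For every `s` with `s.card = d + 1` and every `τ` take `H₀`, `a` from `exists_contraction`
(`m = d + 1`) and `N₀(s, τ)` from `exists_homogenised`; let `N` be the maximum of these finitely many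
`N₀` and of the `D b`. `span_good` gives `Hilb` with `e₀ = 2N + 1` say (any number `≥ 2N`, `≥ D b`),
the finite set `s = (goodExp e N d).image (mono K e)` and `C₁ = 2^|B| (4N+1)^|B|` (`card_goodExp`,
`Finset.card_image_le`). -/
theorem hilbert {K : Type u} [Field K] {B κ : Type} [Fintype B] [DecidableEq B] [Fintype κ]
    (D : B → ℕ) (g : κ → MvPolynomial (B × Fin 2) K) (hg : ∀ k, MH (g k) D) (d : ℕ)
    (hdim : DimLT g (d + 1)) :
    ∃ C₁ e₀ : ℕ, (∀ i, D i ≤ e₀) ∧ Hilb D g d C₁ e₀ := by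
  classical
  have h1 : ∀ q : {s : Finset B // s.card = d + 1} × (B → Fin 2), ∃ N₀ : ℕ, ∀ N, N₀ ≤ N →
      ∃ H : MvPolynomial (B × Fin 2) K, H ≠ 0 ∧
      MH H (fun b => if b ∈ q.1.1 then N else 0) ∧ ∃ h : κ → MvPolynomial (B × Fin 2) K,
        (∀ k, MH (h k) (fun b => (if b ∈ q.1.1 then 2 * N else N) - D b)) ∧
          H * ∏ b, X (b, q.2 b) ^ N = ∑ k, h k * g k := by
    intro q
    obtain ⟨H₀, h2, h3, a, h4⟩ := exists_contraction g (d + 1) hdim q.1.1 q.1.2.ge q.2
    exact exists_homogenised D g hg q.1.1 q.2 H₀ h2 h3 a h4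
  choose N₀ hN₀ using h1
  set N : ℕ := ∑ q, N₀ q + ∑ b, D b with hN
  have hND : ∀ b, D b ≤ N := by
    intro b
    have : D b ≤ ∑ b, D b := Finset.single_le_sum (fun _ _ => Nat.zero_le _) (Finset.mem_univ b)
    omega
  have hNq : ∀ q, N₀ q ≤ N := by
    intro q
    have : N₀ q ≤ ∑ q, N₀ q :=
      Finset.single_le_sum (fun _ _ => Nat.zero_le _) (Finset.mem_univ q)
    omega
  refine ⟨2 ^ Fintype.card B * (4 * N + 1) ^ Fintype.card B, 2 * N, ?_, ?_⟩
  · intro i
    have := hND i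
    omega
  · intro e he
    refine ⟨(goodExp e N d).image (fun a => mono K e a), ?_, ?_⟩
    · exact Finset.card_image_le.trans (card_goodExp e N d)
    · intro φ hφ
      have := span_good D g d N hND (fun s hs τ _ => hN₀ (⟨s, hs⟩, τ) N (hNq _)) e he φ hφ
      rw [Finset.coe_image]
      exact this

end Pool.Agent.Lib.MP_17a322_nt.RV
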