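import Pool.Agent.Lib.MP_17a322_nt.RV.C4

/-!
Decomposition by parity, all blocks.
-/

namespace Pool.Agent.Lib.MP_17a322_nt.RV

open MvPolynomial
open Pool.Agent.Lib.MP_17a322_nt.RO

/-- Substituting weighted homogeneous elements in a homogeneous polynomial. -/
theorem C6_aeval_wh {K σ τ M : Type*} [CommRing K] [AddCommMonoid M] [Fintype σ] (w : τ → M) (n : ℕ)
    (p : MvPolynomial σ K) (hp : p.IsHomogeneous n) (v : σ → MvPolynomial τ K) (m : M)
    (hv : ∀ j, IsWeightedHomogeneous w (v j) m) :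
    IsWeightedHomogeneous w (aeval v p) (n • m) := by
  classical
  rw [aeval_def, eval₂_eq']
  refine IsWeightedHomogeneous.sum _ _ _ fun d hd => ?_
  have h1 : IsWeightedHomogeneous w (∏ j : σ, v j ^ d j) (∑ j : σ, d j • m) :=
    IsWeightedHomogeneous.prod _ _ _ fun j _ => (hv j).pow (d j)
  have h2 : (∑ j : σ, d j • m) = n • m := by
    rw [← Finset.sum_smul]
    have h3 := hp (mem_support_iff.mp hd)
    rw [Finsupp.weight_apply, Finsupp.sum_fintype _ _ (by simp)] at h3
    rw [← h3]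
    simp
  rw [h2] at h1
  have h3 : (algebraMap K (MvPolynomial τ K)) (coeff d p) = C (coeff d p) := rfl
  rw [h3]
  exact h1.C_mul _

/-- The exponent of the first coordinate. -/
def C6_e (b : ℕ) (t : Fin 2) : ℕ := if t = 0 then b else 0

theorem C6_e_le (b : ℕ) (t : Fin 2) : C6_e b t ≤ b := by
  unfold C6_e
  split_ifs <;> omega

theorem C6_e_eval {A : Type*} [CommRing A] (b : ℕ) (t : Fin 2) (v : Fin 2 → A) :
    v 0 ^ C6_e b t * v 1 ^ (b - C6_e b t) = v t ^ b := by
  fin_cases t <;> simp [C6_e]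

/-- The first factor. -/
theorem C6_first {K : Type*} [Field K] {J B : Type*} [Fintype J] [DecidableEq J] [Fintype B]
    [DecidableEq B] (b : ℕ) (x : (J ⊕ B) → Fin (b + 1)) :
    MH (∏ j : J, (X (Sum.inl j, 0) ^ (x (Sum.inl j) : ℕ) *
        X (Sum.inl j, 1) ^ (b - (x (Sum.inl j) : ℕ)) : MvPolynomial ((J ⊕ B) × Fin 2) K))
      (Sum.elim (fun _ => b) (fun _ => 0)) := by
  have h := IsWeightedHomogeneous.prod (w := bwt (J ⊕ B) (Fin 2)) Finset.univ
    (fun j : J => (X (Sum.inl j, 0) ^ (x (Sum.inl j) : ℕ) *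
        X (Sum.inl j, 1) ^ (b - (x (Sum.inl j) : ℕ)) : MvPolynomial ((J ⊕ B) × Fin 2) K))
    (fun j => (x (Sum.inl j) : ℕ) • bwt (J ⊕ B) (Fin 2) (Sum.inl j, 0) +
      (b - (x (Sum.inl j) : ℕ)) • bwt (J ⊕ B) (Fin 2) (Sum.inl j, 1))
    (fun j _ => ((isWeightedHomogeneous_X K (bwt (J ⊕ B) (Fin 2)) (Sum.inl j, 0)).pow _).mul
      ((isWeightedHomogeneous_X K (bwt (J ⊕ B) (Fin 2)) (Sum.inl j, 1)).pow _))
  have e : (∑ j : J, ((x (Sum.inl j) : ℕ) • bwt (J ⊕ B) (Fin 2) (Sum.inl j, 0) +
      (b - (x (Sum.inl j) : ℕ)) • bwt (J ⊕ B) (Fin 2) (Sum.inl j, 1))) =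
      Sum.elim (fun _ => b) (fun _ => 0) := by
    funext o
    rw [Finset.sum_apply]
    rcases o with j | i
    · rw [Finset.sum_eq_single j]
      · have hx : (x (Sum.inl j) : ℕ) ≤ b := Nat.lt_succ_iff.1 (x (Sum.inl j)).2
        simp only [bwt, Pi.add_apply, Pi.smul_apply, Pi.single_eq_same, smul_eq_mul, mul_one,
          Sum.elim_inl]
        omega
      · intro j' _ hj'
        simp [bwt, Ne.symm hj']
      · intro h
        exact absurd (Finset.mem_univ j) h
    · refine Finset.sum_eq_zero fun j _ => ?_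
      simp [bwt]
  rw [e] at h
  exact h

/-- The second factor. -/
theorem C6_second {K : Type*} [Field K] {J B : Type*} [Fintype J] [DecidableEq J] [Fintype B]
    [DecidableEq B] (c : B → J) (lam n : B → ℕ)
    (S : B → Fin 3 → MvPolynomial ((J ⊕ B) × Fin 2) K)
    (hS : ∀ i k, MH (S i k) (Sum.elim (Pi.single (c i) (lam i)) (Pi.single i 2)))
    (W : B → MvPolynomial (Fin 3) K) (hW : ∀ i, (W i).IsHomogeneous (n i)) :
    MH (∏ i, aeval (S i) (W i)) (Sum.elim (fun j => ∑ i with c i = j, lam i * n i)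
      (fun i => 2 * n i)) := by
  have h := IsWeightedHomogeneous.prod (w := bwt (J ⊕ B) (Fin 2)) Finset.univ
    (fun i : B => (aeval (S i) (W i) : MvPolynomial ((J ⊕ B) × Fin 2) K))
    (fun i => n i • Sum.elim (Pi.single (c i) (lam i)) (Pi.single i 2))
    (fun i _ => C6_aeval_wh _ _ _ (hW i) _ _ (hS i))
  have e : (∑ i : B, n i • (Sum.elim (Pi.single (c i) (lam i)) (Pi.single i 2) : J ⊕ B → ℕ)) =
      Sum.elim (fun j => ∑ i with c i = j, lam i * n i) (fun i => 2 * n i) := by
    funext o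
    rw [Finset.sum_apply]
    rcases o with j | i
    · simp only [Pi.smul_apply, Sum.elim_inl, smul_eq_mul]
      rw [Finset.sum_filter]
      refine Finset.sum_congr rfl fun i _ => ?_
      by_cases hij : c i = j
      · subst hij
        rw [if_pos rfl, Pi.single_eq_same, mul_comm]
      · rw [if_neg hij, Pi.single_eq_of_ne (Ne.symm hij), mul_zero]
    · simp only [Pi.smul_apply, Sum.elim_inr, smul_eq_mul]
      rw [Finset.sum_eq_single i]
      · rw [Pi.single_eq_same, mul_comm]
      · intro i' _ hi'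
        rw [Pi.single_eq_of_ne (Ne.symm hi'), mul_zero]
      · intro h
        exact absurd (Finset.mem_univ i) h
  rw [e] at h
  exact h

theorem C6_expand {F B : Type*} [CommRing F] [Fintype B] [DecidableEq B] (d U V : B → F) :
    ∏ i, (U i + d i * V i) =
      ∑ T : Finset B, (∏ i ∈ T, d i) * ∏ i, (if i ∈ T then V i else U i) := by
  have h := Finset.prod_add (fun i => d i * V i) U Finset.univ
  have h1 : ∏ i, (U i + d i * V i) = ∏ i, (d i * V i + U i) :=
    Finset.prod_congr rfl fun i _ => add_comm _ _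
  rw [h1, h, Finset.powerset_univ]
  refine Finset.sum_congr rfl fun T _ => ?_
  rw [Finset.prod_mul_distrib, mul_assoc]
  congr 1
  rw [Finset.prod_ite, Finset.filter_mem_eq_inter, Finset.univ_inter]
  congr 1
  refine Finset.prod_congr ?_ fun _ _ => rfl
  ext i
  simp

/-- Parity decomposition of the monomial with exponents `x` of degree `b` in the blocks of `J` (values
`u`) and of `B` (values `p`) times `∏ p'_i(τ_i)^b`, when `S i` is `γ i` times the symmetric square of
`p i`, `p' i`.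
Proof. For every `i ∈ B` take `U`, `V` from `exists_parity` for the exponents `a = x (inr i)` and
`e = b` if `τ i = 0`, `e = 0` if `τ i = 1`, so that `p'_i(τ_i)^b = p' i 0 ^ e * p' i 1 ^ (b - e)`. Put
`A (τ, T) x = ∏_{j ∈ J} X (inl j, 0)^(x (inl j)) X (inl j, 1)^(b - x (inl j)) *
∏_{i ∉ T} aeval (S i) U_i * ∏_{i ∈ T} aeval (S i) V_i`. Multidegrees: `aeval (S i) U_i` has degree
`b • (degree of S i)`, `aeval (S i) V_i` has degree `(b - 1) • ..` (compare RO/D1 `mh_bind`, RO/D2
`D2_aeval_wh`). The identity is the product over `i` of the identities of `exists_parity`, expanded by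
`Finset.prod_add` / `Finset.prod_add_distrib` (sum over the subset `T` of `i` where the second term
is taken). -/
theorem exists_parityForms {K : Type*} [Field K] [CharZero K] {J B : Type*} [Fintype J]
    [DecidableEq J] [Fintype B] [DecidableEq B] (c : B → J) (lam : B → ℕ)
    (S : B → Fin 3 → MvPolynomial ((J ⊕ B) × Fin 2) K)
    (hS : ∀ i k, MH (S i k) (Sum.elim (Pi.single (c i) (lam i)) (Pi.single i 2))) (b : ℕ)
    (hb : 1 ≤ b) :
    ∃ A : ((B → Fin 2) × Finset B) → ((J ⊕ B) → Fin (b + 1)) → MvPolynomial ((J ⊕ B) × Fin 2) K,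
      (∀ y x, MH (A y x) (Sum.elim
        (fun j => b + ∑ i with c i = j, lam i * (b - if i ∈ y.2 then 1 else 0))
        (fun i => 2 * (b - if i ∈ y.2 then 1 else 0)))) ∧
      ∀ (F : Type*) [Field F] [Algebra K F] (u : J → Fin 2 → F) (w p p' : B → Fin 2 → F)
        (γ : B → F),
        (∀ i k, evl (Sum.elim u w) (S i k) = γ i * sq2 (p i) (p' i) k) →
          ∀ (τ : B → Fin 2) (x : (J ⊕ B) → Fin (b + 1)),
            (∏ i, γ i ^ b) *
                (∏ a, (Sum.elim u p a 0 ^ (x a : ℕ) * Sum.elim u p a 1 ^ (b - (x a : ℕ)))) *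
                ∏ i, p' i (τ i) ^ b =
              ∑ T : Finset B, (∏ i ∈ T, γ i * (p i 0 * p' i 1 - p i 1 * p' i 0)) *
                evl (Sum.elim u w) (A (τ, T) x) := by
  choose U V hU hV hUV using fun (a : Fin (b + 1)) (t : Fin 2) =>
    exists_parity K b hb (a : ℕ) (C6_e b t) (Nat.lt_succ_iff.1 a.2) (C6_e_le b t)
  refine ⟨fun y x => (∏ j : J, (X (Sum.inl j, 0) ^ (x (Sum.inl j) : ℕ) *
        X (Sum.inl j, 1) ^ (b - (x (Sum.inl j) : ℕ)))) *
      ∏ i, aeval (S i) (if i ∈ y.2 then V (x (Sum.inr i)) (y.1 i) else U (x (Sum.inr i)) (y.1 i)),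
    fun y x => ?_, ?_⟩
  · have h1 := C6_first (K := K) (J := J) (B := B) b x
    have h2 := C6_second c lam (fun i => b - if i ∈ y.2 then 1 else 0) S hS
      (fun i => if i ∈ y.2 then V (x (Sum.inr i)) (y.1 i) else U (x (Sum.inr i)) (y.1 i))
      (fun i => by
        by_cases hi : i ∈ y.2
        · simp only [if_pos hi]
          exact hV _ _
        · simp only [if_neg hi]
          exact hU _ _)
    have h3 := h1.mul h2
    have e : (Sum.elim (fun _ => b) (fun _ => 0) : J ⊕ B → ℕ) +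
        Sum.elim (fun j => ∑ i with c i = j, lam i * (b - if i ∈ y.2 then 1 else 0))
          (fun i => 2 * (b - if i ∈ y.2 then 1 else 0)) =
        Sum.elim (fun j => b + ∑ i with c i = j, lam i * (b - if i ∈ y.2 then 1 else 0))
          (fun i => 2 * (b - if i ∈ y.2 then 1 else 0)) := by
      funext o
      rcases o with j | i
      · rfl
      · simp
    rw [e] at h3
    exact h3
  · intro F _ _ u w p p' γ hγ τ x
    have hev : ∀ T : Finset B, evl (Sum.elim u w) ((∏ j : J, (X (Sum.inl j, 0) ^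
          (x (Sum.inl j) : ℕ) * X (Sum.inl j, 1) ^ (b - (x (Sum.inl j) : ℕ)) :
            MvPolynomial ((J ⊕ B) × Fin 2) K)) *
        ∏ i, aeval (S i) (if i ∈ T then V (x (Sum.inr i)) (τ i) else U (x (Sum.inr i)) (τ i))) =
        (∏ j : J, (u j 0 ^ (x (Sum.inl j) : ℕ) * u j 1 ^ (b - (x (Sum.inl j) : ℕ)))) *
          ∏ i, (if i ∈ T then aeval (fun k => evl (Sum.elim u w) (S i k))
            (V (x (Sum.inr i)) (τ i)) else aeval (fun k => evl (Sum.elim u w) (S i k))
            (U (x (Sum.inr i)) (τ i))) := by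
      intro T
      unfold evl
      rw [map_mul, map_prod, map_prod]
      congr 1
      · refine Finset.prod_congr rfl fun j _ => ?_
        rw [map_mul, map_pow, map_pow, aeval_X, aeval_X]
        rfl
      · refine Finset.prod_congr rfl fun i _ => ?_
        rw [← AlgHom.comp_apply, comp_aeval]
        split_ifs <;> rfl
    have hpt : ∀ i : B, γ i ^ b * (p i 0 ^ (x (Sum.inr i) : ℕ) *
        p i 1 ^ (b - (x (Sum.inr i) : ℕ)) * p' i (τ i) ^ b) =
        aeval (fun k => evl (Sum.elim u w) (S i k)) (U (x (Sum.inr i)) (τ i)) +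
          γ i * (p i 0 * p' i 1 - p i 1 * p' i 0) *
            aeval (fun k => evl (Sum.elim u w) (S i k)) (V (x (Sum.inr i)) (τ i)) := by
      intro i
      have h := hUV (x (Sum.inr i)) (τ i) F (p i) (p' i)
        (fun k => evl (Sum.elim u w) (S i k)) (γ i) (hγ i)
      rw [C6_e_eval] at h
      exact h
    simp only [hev]
    have hsum : ∑ T : Finset B, (∏ i ∈ T, γ i * (p i 0 * p' i 1 - p i 1 * p' i 0)) *
        ((∏ j : J, (u j 0 ^ (x (Sum.inl j) : ℕ) * u j 1 ^ (b - (x (Sum.inl j) : ℕ)))) *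
          ∏ i, (if i ∈ T then aeval (fun k => evl (Sum.elim u w) (S i k))
            (V (x (Sum.inr i)) (τ i)) else aeval (fun k => evl (Sum.elim u w) (S i k))
            (U (x (Sum.inr i)) (τ i)))) =
        (∏ j : J, (u j 0 ^ (x (Sum.inl j) : ℕ) * u j 1 ^ (b - (x (Sum.inl j) : ℕ)))) *
          ∏ i, (aeval (fun k => evl (Sum.elim u w) (S i k)) (U (x (Sum.inr i)) (τ i)) +
            γ i * (p i 0 * p' i 1 - p i 1 * p' i 0) *
              aeval (fun k => evl (Sum.elim u w) (S i k)) (V (x (Sum.inr i)) (τ i))) := by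
      rw [C6_expand, Finset.mul_sum]
      refine Finset.sum_congr rfl fun T _ => ?_
      ring
    rw [hsum, ← Finset.prod_congr rfl fun i _ => hpt i, Fintype.prod_sum_type]
    simp only [Sum.elim_inl, Sum.elim_inr, Finset.prod_mul_distrib]
    ring

end Pool.Agent.Lib.MP_17a322_nt.RV
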