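import Pool.Agent.Lib.MP_17a322_nt.RV.Defs

/-!
Elementary properties of the form with given coefficients.
-/

namespace Pool.Agent.Lib.MP_17a322_nt.RV

open MvPolynomial
open Pool.Agent.Lib.MP_17a322_nt.RO

/-- Value of `bform`. -/
theorem evl_bform {K R A : Type*} [CommSemiring K] [CommSemiring R] [Algebra K R] [Fintype A]
    [DecidableEq A] (b : ℕ) (γ : (A → Fin (b + 1)) → K) (v : A → Fin 2 → R) :
    evl v (bform b γ) =
      ∑ x, algebraMap K R (γ x) * ∏ a, (v a 0 ^ (x a : ℕ) * v a 1 ^ (b - (x a : ℕ))) := by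
  unfold evl bform
  rw [map_sum]
  refine Finset.sum_congr rfl fun x _ => ?_
  rw [map_mul, map_prod, aeval_C]
  refine congrArg _ (Finset.prod_congr rfl fun a _ => ?_)
  rw [map_mul, map_pow, map_pow, aeval_X, aeval_X]

/-- `bform b γ` has degree `b` in every block. -/
theorem mh_bform {K A : Type*} [Field K] [Fintype A] [DecidableEq A] (b : ℕ)
    (γ : (A → Fin (b + 1)) → K) : MH (bform b γ) (fun _ => b) := by
  unfold MH bform
  refine IsWeightedHomogeneous.sum _ _ _ fun x _ => ?_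
  have h1 : IsWeightedHomogeneous (bwt A (Fin 2)) (C (γ x) : MvPolynomial (A × Fin 2) K) 0 :=
    isWeightedHomogeneous_C _ _
  have h2 : ∀ a : A, IsWeightedHomogeneous (bwt A (Fin 2))
      ((X (a, 0) ^ (x a : ℕ) * X (a, 1) ^ (b - (x a : ℕ))) : MvPolynomial (A × Fin 2) K)
      (((x a : ℕ) • bwt A (Fin 2) (a, 0)) + ((b - (x a : ℕ)) • bwt A (Fin 2) (a, 1))) := fun a =>
    ((isWeightedHomogeneous_X K _ (a, 0)).pow _).mul ((isWeightedHomogeneous_X K _ (a, 1)).pow _)
  have h3 := IsWeightedHomogeneous.prod Finset.univ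
    (fun a : A => ((X (a, 0) ^ (x a : ℕ) * X (a, 1) ^ (b - (x a : ℕ))) : MvPolynomial (A × Fin 2) K))
    (fun a => ((x a : ℕ) • bwt A (Fin 2) (a, 0)) + ((b - (x a : ℕ)) • bwt A (Fin 2) (a, 1)))
    (fun a _ => h2 a)
  have h4 := h1.mul h3
  have h5 : (0 + ∑ a, (((x a : ℕ) • bwt A (Fin 2) (a, 0)) +
      ((b - (x a : ℕ)) • bwt A (Fin 2) (a, 1))) : A → ℕ) = fun _ => b := by
    funext c
    rw [zero_add, Finset.sum_apply]
    rw [Finset.sum_eq_single c]
    · have := (x c).2
      simp only [bwt, Pi.add_apply, Pi.smul_apply, Pi.single_eq_same, smul_eq_mul, mul_one]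
      omega
    · intro a _ hac
      simp only [bwt, Pi.add_apply, Pi.smul_apply, smul_eq_mul]
      rw [Pi.single_eq_of_ne (Ne.symm hac)]
      simp
    · intro h
      exact absurd (Finset.mem_univ c) h
  rw [h5] at h4
  exact h4

/-- The exponent vector of a monomial of `bform`. -/
private noncomputable def C7_ex {A : Type*} [Fintype A] (b : ℕ) (x : A → Fin (b + 1)) : A × Fin 2 →₀ ℕ :=
  ∑ a, (Finsupp.single (a, 0) (x a : ℕ) + Finsupp.single (a, 1) (b - (x a : ℕ)))

private theorem C7_mono {K A : Type*} [Field K] [Fintype A] [DecidableEq A] (b : ℕ)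
    (x : A → Fin (b + 1)) : (∏ a, (X (a, 0) ^ (x a : ℕ) * X (a, 1) ^ (b - (x a : ℕ))) :
      MvPolynomial (A × Fin 2) K) = monomial (C7_ex b x) 1 := by
  unfold C7_ex
  rw [monomial_sum_one]
  refine Finset.prod_congr rfl fun a _ => ?_
  rw [X_pow_eq_monomial, X_pow_eq_monomial, monomial_mul, one_mul]

private theorem C7_ex_apply {A : Type*} [Fintype A] [DecidableEq A] (b : ℕ) (x : A → Fin (b + 1)) (c : A) :
    C7_ex b x (c, 0) = (x c : ℕ) := by
  unfold C7_ex
  rw [Finsupp.finsetSum_apply]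
  rw [Finset.sum_eq_single c]
  · simp
  · intro a _ hac
    simp [hac]
  · intro h
    exact absurd (Finset.mem_univ c) h

/-- `bform b γ ≠ 0` if `γ ≠ 0` (the monomials for different `x` are different: compare the exponents
of `X (a, 0)`). -/
theorem bform_ne_zero {K A : Type*} [Field K] [Fintype A] [DecidableEq A] (b : ℕ)
    (γ : (A → Fin (b + 1)) → K) (hγ : γ ≠ 0) : bform b γ ≠ 0 := by
  obtain ⟨y, hy⟩ := Function.ne_iff.1 hγ
  intro h
  refine hy ?_
  have h1 : coeff (C7_ex b y) (bform b γ) = γ y := by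
    unfold bform
    rw [coeff_sum, Finset.sum_eq_single y]
    · rw [C7_mono, coeff_C_mul, coeff_monomial, if_pos rfl, mul_one]
    · intro x _ hxy
      rw [C7_mono, coeff_C_mul, coeff_monomial, if_neg, mul_zero]
      intro h
      refine hxy (funext fun c => Fin.ext ?_)
      rw [← C7_ex_apply b x c, ← C7_ex_apply b y c, h]
    · intro h
      exact absurd (Finset.mem_univ y) h
  rw [← h1, h, coeff_zero]
  rfl

end Pool.Agent.Lib.MP_17a322_nt.RV
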