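import Pool.Agent.Lib.MP_17a322_nt.RV.L1a

/-!
Linear algebra: a combination of forms that lies in the ideal.
-/

namespace Pool.Agent.Lib.MP_17a322_nt.RV

open MvPolynomial
open Pool.Agent.Lib.MP_17a322_nt.RO

/-- A form in the blocks `B` renamed into the blocks `inr b`. -/
theorem L1b_mh_rename {K J B : Type*} [Field K] [DecidableEq J] [DecidableEq B] (e : B → ℕ)
    (φ : MvPolynomial (B × Fin 2) K) (hφ : MH φ e) :
    MH (rename (fun p : B × Fin 2 => ((Sum.inr p.1 : J ⊕ B), p.2)) φ)
      (Sum.elim (fun _ : J => 0) e) := by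
  intro m hm
  classical
  obtain ⟨m', rfl, hm'⟩ := coeff_rename_ne_zero _ _ _ hm
  have h := hφ hm'
  rw [← h]
  funext o
  rw [Finsupp.weight_apply, Finsupp.weight_apply]
  rw [Finsupp.sum_mapDomain_index (by simp) (by intros; rw [add_smul])]
  cases o with
  | inl j => simp [Finsupp.sum, bwt]
  | inr b =>
    simp only [Sum.elim_inr, Finsupp.sum, Finset.sum_apply, Pi.smul_apply, bwt]
    refine Finset.sum_congr rfl fun p _ => ?_
    by_cases hpb : p.1 = b
    · subst hpb; simp
    · rw [Pi.single_eq_of_ne (by simpa using fun h => hpb h.symm),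
        Pi.single_eq_of_ne (fun h => hpb h.symm)]

theorem L1b_mh_mon {K J B : Type*} [Field K] [Fintype J] [DecidableEq J] [DecidableEq B]
    (EJ : J → ℕ) (μ : (j : J) → Fin (EJ j + 1)) :
    MH (∏ j, (X (Sum.inl j, 0) ^ (μ j : ℕ) * X (Sum.inl j, 1) ^ (EJ j - (μ j : ℕ))) :
      MvPolynomial ((J ⊕ B) × Fin 2) K) (Sum.elim EJ (fun _ : B => 0)) := by
  have h0 : ∀ (j : J) (i : Fin 2), MH (X (Sum.inl j, i) : MvPolynomial ((J ⊕ B) × Fin 2) K)
      (bwt (J ⊕ B) (Fin 2) (Sum.inl j, i)) := fun j i => isWeightedHomogeneous_X _ _ _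
  have h1 := IsWeightedHomogeneous.prod Finset.univ
    (fun j : J => (X (Sum.inl j, 0) ^ (μ j : ℕ) * X (Sum.inl j, 1) ^ (EJ j - (μ j : ℕ)) :
      MvPolynomial ((J ⊕ B) × Fin 2) K))
    (fun j => (μ j : ℕ) • bwt (J ⊕ B) (Fin 2) (Sum.inl j, 0) +
      (EJ j - (μ j : ℕ)) • bwt (J ⊕ B) (Fin 2) (Sum.inl j, 1))
    (fun j _ => ((h0 j 0).pow (μ j)).mul ((h0 j 1).pow (EJ j - μ j)))
  have he : ∑ j, ((μ j : ℕ) • bwt (J ⊕ B) (Fin 2) (Sum.inl j, 0) +
      (EJ j - (μ j : ℕ)) • bwt (J ⊕ B) (Fin 2) (Sum.inl j, 1)) =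
      Sum.elim EJ (fun _ : B => 0) := by
    funext o
    rw [Finset.sum_apply]
    cases o with
    | inl j' =>
      rw [Finset.sum_eq_single j']
      · have := (μ j').isLt
        simp only [bwt, Pi.add_apply, Pi.smul_apply, Pi.single_eq_same, smul_eq_mul, mul_one,
          Sum.elim_inl]
        omega
      · intro j _ hj
        simp only [bwt, Pi.add_apply, Pi.smul_apply, smul_eq_mul]
        rw [Pi.single_eq_of_ne (fun h => hj (Sum.inl_injective h).symm)]
        simp
      · intro h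
        exact absurd (Finset.mem_univ _) h
    | inr b => simp [bwt]
  rw [he] at h1
  exact h1

/-- The forms in the ideal with the right degrees. -/
def L1b_I {K : Type*} [Field K] {B κ : Type*} [Fintype B] [DecidableEq B] [Fintype κ]
    (D e : B → ℕ) (g : κ → MvPolynomial (B × Fin 2) K) :
    Submodule K (MvPolynomial (B × Fin 2) K) where
  carrier := {ψ | ∃ h : κ → MvPolynomial (B × Fin 2) K,
    (∀ k, MH (h k) (fun i => e i - D i)) ∧ ψ = ∑ k, h k * g k}
  add_mem' := by
    rintro a b ⟨h, hh, rfl⟩ ⟨h', hh', rfl⟩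
    refine ⟨h + h', fun k => (hh k).add (hh' k), ?_⟩
    simp only [Pi.add_apply, add_mul, Finset.sum_add_distrib]
  zero_mem' := ⟨0, fun k => isWeightedHomogeneous_zero _ _ _, by simp⟩
  smul_mem' := by
    rintro c a ⟨h, hh, rfl⟩
    refine ⟨fun k => c • h k, fun k => ?_, ?_⟩
    · exact (weightedHomogeneousSubmodule K (bwt B (Fin 2)) _).smul_mem c (hh k)
    · simp only [smul_mul_assoc, Finset.smul_sum]

theorem L1b_gen {K : Type*} [Field K] {X P : Type*} [Fintype X] [Fintype P] {V : P → Type*}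
    [∀ p, AddCommGroup (V p)] [∀ p, Module K (V p)] (T : (p : P) → (X → K) →ₗ[K] V p)
    (s : (p : P) → Finset (V p))
    (hs : ∀ p γ, T p γ ∈ Submodule.span K (s p : Set (V p)))
    (hcard : ∑ p, (s p).card < Fintype.card X) :
    ∃ γ : X → K, γ ≠ 0 ∧ ∀ p, T p γ = 0 := by
  have hfin : ∀ p, FiniteDimensional K (Submodule.span K (s p : Set (V p))) := fun p =>
    FiniteDimensional.span_finset K _
  have hlt : Module.finrank K ((p : P) → Submodule.span K (s p : Set (V p))) <
      Module.finrank K (X → K) := by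
    rw [Module.finrank_pi, Module.finrank_pi_fintype]
    refine lt_of_le_of_lt ?_ hcard
    exact Finset.sum_le_sum fun p _ => finrank_span_finset_le_card _
  have hker := LinearMap.ker_ne_bot_of_finrank_lt
    (f := LinearMap.pi fun p => LinearMap.codRestrict (Submodule.span K (s p : Set (V p))) (T p) (hs p))
    hlt
  obtain ⟨γ, hγ, hγ0⟩ := (Submodule.ne_bot_iff _).1 hker
  refine ⟨γ, hγ0, fun p => ?_⟩
  have h1 := congrFun (LinearMap.mem_ker.1 hγ) p
  exact congrArg Subtype.val h1

/-- If there are more unknown coefficients `γ x` than conditions, some nonzero combination of the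
forms `A y x` lies, for every `y`, in the ideal generated by the `g k`, with the right degrees.
Proof. For every `y` let `V_y` be the space of forms `ψ` over the blocks `B` of multidegree `EB y`,
modulo the subspace `I_y` of those of the form `∑ h k * g k`, `h k` of multidegree `EB y - D`. By
`hilb`, `V_y / I_y` has dimension at most `C₁ (max EB y + 1)^d` (it is spanned by the classes of
elements of `span s ∩ V_y`). The linear map
`γ ↦ (class of coe μ (∑ x, γ x • A y x))_{y, μ}` from `X → K` to `∏_y ∏_μ V_y / I_y` has a nonzero kernel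
by `hcard` (`LinearMap.exists_ne_zero_of_finrank_lt` / `ker_ne_bot_of_finrank_lt`). For `γ` in the
kernel `coe μ (∑ x, γ x • A y x) = ∑ k, h_{μ k} g k`, and `h k = ∑_μ (monomial μ) * rename h_{μ k}`. To
avoid quotients of `V_y` one can also argue with `Submodule.mkQ` of `I_y` in the whole polynomial
ring, and the finite dimensional image of `V_y`. -/
theorem exists_kernel {K : Type*} [Field K] {J B κ : Type*} [Fintype J] [DecidableEq J]
    [Fintype B] [DecidableEq B] [Fintype κ] (D : B → ℕ) (g : κ → MvPolynomial (B × Fin 2) K)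
    (hg : ∀ k, MH (g k) D) (d C₁ e₀ : ℕ) (hD : ∀ i, D i ≤ e₀) (hilb : Hilb D g d C₁ e₀)
    {X Y : Type*} [Fintype X] [Fintype Y] (EJ : Y → J → ℕ) (EB : Y → B → ℕ)
    (hEB : ∀ y i, e₀ ≤ EB y i) (A : Y → X → MvPolynomial ((J ⊕ B) × Fin 2) K)
    (hA : ∀ y x, MH (A y x) (Sum.elim (EJ y) (EB y)))
    (hcard : ∑ y, (∏ j, (EJ y j + 1)) * (C₁ * (Finset.univ.sup (EB y) + 1) ^ d) <
      Fintype.card X) :
    ∃ γ : X → K, γ ≠ 0 ∧ ∀ y, ∃ h : κ → MvPolynomial ((J ⊕ B) × Fin 2) K,
      (∀ k, MH (h k) (Sum.elim (EJ y) (fun i => EB y i - D i))) ∧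
        ∑ x, C (γ x) * A y x =
          ∑ k, h k * rename (fun p : B × Fin 2 => (((Sum.inr p.1 : J ⊕ B)), p.2)) (g k) := by
  classical
  choose s hs hspan using fun y => hilb (EB y) (hEB y)
  choose coe hcoe using fun y => exists_coeJ (K := K) (EJ y) (EB y)
  have hMH : ∀ (y : Y) (γ : X → K), MH (Fintype.linearCombination K (A y) γ)
      (Sum.elim (EJ y) (EB y)) := by
    intro y γ
    rw [Fintype.linearCombination_apply]
    exact IsWeightedHomogeneous.sum _ _ _ fun x _ =>
      (weightedHomogeneousSubmodule K (bwt (J ⊕ B) (Fin 2)) _).smul_mem (γ x) (hA y x)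
  obtain ⟨γ, hγ0, hγ⟩ := L1b_gen (K := K) (X := X) (P := Σ y : Y, (j : J) → Fin (EJ y j + 1))
    (V := fun p => MvPolynomial (B × Fin 2) K ⧸ L1b_I D (EB p.1) g)
    (fun p => (L1b_I D (EB p.1) g).mkQ ∘ₗ coe p.1 p.2 ∘ₗ Fintype.linearCombination K (A p.1))
    (fun p => (s p.1).image (L1b_I D (EB p.1) g).mkQ)
    (by
      rintro ⟨y, μ⟩ γ
      obtain ⟨ψ, hψ, h, hh, he⟩ := hspan y _ ((hcoe y _ (hMH y γ)).1 μ)
      rw [LinearMap.comp_apply, LinearMap.comp_apply, he, map_add]
      have h0 : (L1b_I D (EB y) g).mkQ (∑ k, h k * g k) = 0 := by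
        rw [Submodule.mkQ_apply, Submodule.Quotient.mk_eq_zero]
        exact ⟨h, hh, rfl⟩
      rw [h0, add_zero]
      have h1 : (L1b_I D (EB y) g).mkQ ψ ∈ Submodule.map (L1b_I D (EB y) g).mkQ
          (Submodule.span K (s y : Set _)) := Submodule.mem_map_of_mem hψ
      rw [Submodule.map_span] at h1
      rw [Finset.coe_image]
      exact h1)
    (by
      refine lt_of_le_of_lt ?_ hcard
      rw [Fintype.sum_sigma]
      refine Finset.sum_le_sum fun y _ => ?_
      refine (Finset.sum_le_card_nsmul _ _ _ fun μ _ =>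
        Finset.card_image_le.trans (hs y)).trans ?_
      rw [Finset.card_univ, Fintype.card_pi, smul_eq_mul]
      simp only [Fintype.card_fin]
      exact le_rfl)
  refine ⟨γ, hγ0, fun y => ?_⟩
  have hI : ∀ μ : (j : J) → Fin (EJ y j + 1),
      coe y μ (Fintype.linearCombination K (A y) γ) ∈ L1b_I D (EB y) g := by
    intro μ
    have h2 := hγ ⟨y, μ⟩
    rwa [LinearMap.comp_apply, LinearMap.comp_apply, Submodule.mkQ_apply,
      Submodule.Quotient.mk_eq_zero] at h2
  choose h hh he using hI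
  refine ⟨fun k => ∑ μ, (∏ j, (MvPolynomial.X (Sum.inl j, 0) ^ (μ j : ℕ) *
    MvPolynomial.X (Sum.inl j, 1) ^ (EJ y j - (μ j : ℕ)))) *
      rename (fun p : B × Fin 2 => (((Sum.inr p.1 : J ⊕ B)), p.2)) (h μ k), fun k => ?_, ?_⟩
  · refine IsWeightedHomogeneous.sum _ _ _ fun μ _ => ?_
    have h1 := (L1b_mh_mon (K := K) (B := B) (EJ y) μ).mul (L1b_mh_rename (J := J) _ _ (hh μ k))
    have h2 : Sum.elim (EJ y) (fun _ : B => 0) + Sum.elim (fun _ : J => 0)
        (fun i => EB y i - D i) = Sum.elim (EJ y) (fun i => EB y i - D i) := by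
      funext o
      cases o with
      | inl j => simp
      | inr b => simp
    rw [h2] at h1
    exact h1
  · have h1 : ∑ x, C (γ x) * A y x = Fintype.linearCombination K (A y) γ := by
      rw [Fintype.linearCombination_apply]
      exact Finset.sum_congr rfl fun x _ => (C_mul' ..)
    rw [h1]
    conv_lhs => rw [(hcoe y _ (hMH y γ)).2]
    simp only [Finset.sum_mul]
    rw [Finset.sum_comm]
    refine Finset.sum_congr rfl fun μ _ => ?_
    rw [he μ, map_sum, Finset.mul_sum]
    refine Finset.sum_congr rfl fun k _ => ?_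
    rw [map_mul, mul_assoc]

end Pool.Agent.Lib.MP_17a322_nt.RV
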