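import Mathlib
import Pool.Agent.Lib.MP_17a322_nt.RO.A2

/-!
Quadratic functions on abelian groups.
-/

namespace Pool.Agent.Lib.MP_17a322_nt.RV

/-- Tate's limit with an explicit bound. Compare RO/A2 `exists_quadratic` (same proof; the telescoping
sum gives `|q P - h P| ≤ (1/4 + 1/16 + ...) C`, as `|h(2P) - 4 h(P)| ≤ C + h 0 = C`). -/
theorem exists_quadratic_explicit {G : Type*} [AddCommGroup G] (h : G → ℝ) (h0 : h 0 = 0)
    (hb : ∀ P, 0 ≤ h P) (C : ℝ)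
    (hC : ∀ P Q : G, |h (P + Q) + h (P - Q) - 2 * h P - 2 * h Q| ≤ C) :
    ∃ q : G → ℝ, (∀ P, |q P - h P| ≤ C) ∧ (∀ P, 0 ≤ q P) ∧
      ∀ P Q, q (P + Q) + q (P - Q) = 2 * q P + 2 * q Q := by
  have h2 : ∀ P : G, |h (2 • P) - 4 * h P| ≤ C := by
    intro P
    have h3 := hC P P
    rw [sub_self, ← two_nsmul, h0] at h3
    have h4 := abs_le.1 h3
    rw [abs_le]
    constructor <;> linarith [h4.1, h4.2]
  have hC0 : 0 ≤ C := le_trans (abs_nonneg _) (h2 0)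
  have hd : ∀ (P : G) (n : ℕ), dist (h (2 ^ n • P) / 4 ^ n) (h (2 ^ (n + 1) • P) / 4 ^ (n + 1)) ≤
      C / 4 * (1 / 4 : ℝ) ^ n := by
    intro P n
    have h3 := h2 (2 ^ n • P)
    rw [smul_smul, ← pow_succ'] at h3
    have h4 : (0 : ℝ) < 4 ^ n := by positivity
    have h5 : h (2 ^ n • P) / 4 ^ n - h (2 ^ (n + 1) • P) / 4 ^ (n + 1) =
        -(h (2 ^ (n + 1) • P) - 4 * h (2 ^ n • P)) / 4 ^ (n + 1) := by
      rw [pow_succ (4 : ℝ) n]
      field_simp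
      ring
    rw [Real.dist_eq, h5, abs_div, abs_neg, abs_of_pos (show (0 : ℝ) < 4 ^ (n + 1) by positivity)]
    have h6 : C / 4 * (1 / 4 : ℝ) ^ n = C / 4 ^ (n + 1) := by
      rw [pow_succ, one_div, inv_pow]
      field_simp
    rw [h6]
    exact div_le_div_of_nonneg_right h3 (by positivity)
  have hlim : ∀ P : G, ∃ a : ℝ, Filter.Tendsto (fun n : ℕ => h (2 ^ n • P) / 4 ^ n)
      Filter.atTop (nhds a) := fun P =>
    cauchySeq_tendsto_of_complete (cauchySeq_of_le_geometric (1 / 4) (C / 4) (by norm_num) (hd P))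
  choose q hq using hlim
  refine ⟨q, fun P => ?_, fun P => ?_, fun P Q => ?_⟩
  · have h3 := dist_le_of_le_geometric_of_tendsto₀ (1 / 4) (C / 4) (by norm_num) (hd P) (hq P)
    simp only [pow_zero, one_smul, div_one] at h3
    rw [dist_comm, Real.dist_eq] at h3
    have h4 : C / 4 / (1 - 1 / 4) ≤ C := by
      rw [show C / 4 / (1 - 1 / 4) = C / 3 by ring]
      linarith
    exact h3.trans h4
  · refine ge_of_tendsto' (hq P) fun n => ?_
    exact div_nonneg (hb _) (by positivity)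
  · have h3 : Filter.Tendsto (fun n : ℕ => h (2 ^ n • (P + Q)) / 4 ^ n +
        h (2 ^ n • (P - Q)) / 4 ^ n - 2 * (h (2 ^ n • P) / 4 ^ n) - 2 * (h (2 ^ n • Q) / 4 ^ n))
        Filter.atTop (nhds (q (P + Q) + q (P - Q) - 2 * q P - 2 * q Q)) :=
      (((hq (P + Q)).add (hq (P - Q))).sub ((hq P).const_mul 2)).sub ((hq Q).const_mul 2)
    have h4 : Filter.Tendsto (fun n : ℕ => C * (1 / 4 : ℝ) ^ n) Filter.atTop (nhds (C * 0)) :=
      (tendsto_pow_atTop_nhds_zero_of_lt_one (by norm_num) (by norm_num)).const_mul C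
    rw [mul_zero] at h4
    have h5 : Filter.Tendsto (fun n : ℕ => h (2 ^ n • (P + Q)) / 4 ^ n +
        h (2 ^ n • (P - Q)) / 4 ^ n - 2 * (h (2 ^ n • P) / 4 ^ n) - 2 * (h (2 ^ n • Q) / 4 ^ n))
        Filter.atTop (nhds 0) := by
      refine squeeze_zero_norm (fun n => ?_) h4
      have h6 := hC (2 ^ n • P) (2 ^ n • Q)
      rw [← smul_add, ← smul_sub] at h6
      have h7 : h (2 ^ n • (P + Q)) / 4 ^ n +
          h (2 ^ n • (P - Q)) / 4 ^ n - 2 * (h (2 ^ n • P) / 4 ^ n) - 2 * (h (2 ^ n • Q) / 4 ^ n)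
          = (h (2 ^ n • (P + Q)) + h (2 ^ n • (P - Q)) - 2 * h (2 ^ n • P) - 2 * h (2 ^ n • Q)) /
            4 ^ n := by
        ring
      have h8 : C * (1 / 4 : ℝ) ^ n = C / 4 ^ n := by
        rw [one_div, inv_pow]
        rfl
      rw [h7, h8, Real.norm_eq_abs, abs_div, abs_of_pos (show (0 : ℝ) < 4 ^ n by positivity)]
      exact div_le_div_of_nonneg_right h6 (by positivity)
    have h6 := tendsto_nhds_unique h3 h5
    linarith

/-- Proof. `q (m • P) = m ^ 2 * q P` (RO/A2 `quadratic_zsmul`) and `q (X + Y) ≤ 2 q X + 2 q Y`; induction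
on the number of summands. -/
theorem quad_sum_le {G : Type*} [AddCommGroup G] (q : G → ℝ) (h0 : ∀ P, 0 ≤ q P)
    (hq : ∀ P Q, q (P + Q) + q (P - Q) = 2 * q P + 2 * q Q) (s : ℕ) (c : Fin s → ℤ)
    (P : Fin s → G) :
    q (∑ j, c j • P j) ≤ 2 ^ s * ∑ j, (c j : ℝ) ^ 2 * q (P j) := by
  have hadd : ∀ X Y : G, q (X + Y) ≤ 2 * q X + 2 * q Y := by
    intro X Y
    have h1 := hq X Y
    have h2 := h0 (X - Y)
    linarith
  have hz : q 0 = 0 := by
    have h1 := hq 0 0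
    rw [add_zero, sub_zero] at h1
    linarith
  induction s with
  | zero =>
    simp [hz]
  | succ s ih =>
    rw [Fin.sum_univ_succ, Fin.sum_univ_succ]
    have h1 := hadd (c 0 • P 0) (∑ j : Fin s, c j.succ • P j.succ)
    have h2 := ih (fun j => c j.succ) (fun j => P j.succ)
    rw [RO.quadratic_zsmul q hq] at h1
    have h3 : (0 : ℝ) ≤ (c 0 : ℝ) ^ 2 * q (P 0) := mul_nonneg (sq_nonneg _) (h0 _)
    have h4 : (1 : ℝ) ≤ 2 ^ s := one_le_pow₀ (by norm_num)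
    have h5 : 2 * ((c 0 : ℝ) ^ 2 * q (P 0)) ≤ 2 ^ (s + 1) * ((c 0 : ℝ) ^ 2 * q (P 0)) := by
      have h6 : (2 : ℝ) ≤ 2 ^ (s + 1) := by
        rw [pow_succ]
        linarith
      exact mul_le_mul_of_nonneg_right h6 h3
    rw [mul_add]
    have h6 : (2 : ℝ) ^ (s + 1) * ∑ j : Fin s, (c j.succ : ℝ) ^ 2 * q (P j.succ) =
        2 * (2 ^ s * ∑ j : Fin s, (c j.succ : ℝ) ^ 2 * q (P j.succ)) := by
      rw [pow_succ]
      ring
    rw [h6]
    linarith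

/-- Rounding.
Proof. `ℓ i j = (N * c i j) / m` (floor division in `ℤ`). -/
theorem exists_round (n r N m : ℕ) (hm : 0 < m) (c : Fin n → Fin r → ℤ)
    (hc : ∀ i j, |c i j| ≤ (m : ℤ)) :
    ∃ ℓ : Fin n → Fin r → ℤ, (∀ i j, |ℓ i j| ≤ (N : ℤ)) ∧
      ∀ i j, |N * c i j - m * ℓ i j| ≤ (m : ℤ) := by
  have hm' : (0 : ℤ) < (m : ℤ) := by exact_mod_cast hm
  refine ⟨fun i j => (N * c i j) / m, fun i j => ?_, fun i j => ?_⟩
  · obtain ⟨h1, h2⟩ := abs_le.1 (hc i j)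
    have hN : (0 : ℤ) ≤ (N : ℤ) := Int.natCast_nonneg N
    rw [abs_le]
    constructor
    · apply Int.le_ediv_of_mul_le hm'
      nlinarith
    · apply Int.ediv_le_of_le_mul hm'
      nlinarith
  · have h1 := Int.emod_add_mul_ediv ((N : ℤ) * c i j) (m : ℤ)
    have h2 := Int.emod_nonneg ((N : ℤ) * c i j) hm'.ne'
    have h3 := Int.emod_lt_of_pos ((N : ℤ) * c i j) hm'
    show |(N : ℤ) * c i j - m * ((N * c i j) / m)| ≤ (m : ℤ)
    rw [abs_le]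
    constructor <;> linarith

/-- The points `Q j` and the remainders are small.
Proof. With `S = ∑ q (P i)`: `q (Q j) = q (P (σ j)) / N^2 ≤ S / N^2`. For `X = P i - ∑ ℓ i j • Q j`:
`(m N) • X = ∑_j (N c_{ij} - m ℓ_{ij}) • P (σ j)`, so
`(m N)^2 q X ≤ 2^r ∑_j m^2 q (P (σ j)) ≤ 2^r r m^2 S` by `quad_sum_le`. In total at most
`(r + n r 2^r) S / N^2`. -/
theorem height_round {G : Type*} [AddCommGroup G] (q : G → ℝ) (h0 : ∀ P, 0 ≤ q P)
    (hq : ∀ P Q, q (P + Q) + q (P - Q) = 2 * q P + 2 * q Q) (n r N m : ℕ) (hN : 0 < N)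
    (hm : 0 < m) (P : Fin n → G) (σ : Fin r → Fin n) (c ℓ : Fin n → Fin r → ℤ)
    (hrel : ∀ i, m • P i = ∑ j, c i j • P (σ j)) (Q : Fin r → G) (hQ : ∀ j, N • Q j = P (σ j))
    (hℓ : ∀ i j, |N * c i j - m * ℓ i j| ≤ (m : ℤ)) :
    ∑ j, q (Q j) + ∑ i, q (P i - ∑ j, ℓ i j • Q j) ≤
      (n + 1) * r * 2 ^ r / (N : ℝ) ^ 2 * ∑ i, q (P i) := by
  set S : ℝ := ∑ i, q (P i) with hS
  have hS0 : 0 ≤ S := Finset.sum_nonneg fun i _ => h0 _
  have hPS : ∀ i, q (P i) ≤ S := fun i => Finset.single_le_sum (fun i _ => h0 (P i)) (Finset.mem_univ i)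
  have hNR : (0 : ℝ) < (N : ℝ) := by exact_mod_cast hN
  have hmR : (0 : ℝ) < (m : ℝ) := by exact_mod_cast hm
  have hN2 : (0 : ℝ) < (N : ℝ) ^ 2 := by positivity
  have hnat : ∀ (k : ℕ) (X : G), q (k • X) = (k : ℝ) ^ 2 * q X := by
    intro k X
    have h1 := RO.quadratic_zsmul q hq X (k : ℤ)
    rw [natCast_zsmul] at h1
    rw [h1]
    norm_num
  have hQS : ∀ j, q (Q j) ≤ S / (N : ℝ) ^ 2 := by
    intro j
    rw [le_div_iff₀ hN2, mul_comm, ← hnat, hQ]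
    exact hPS _
  have hX : ∀ i, q (P i - ∑ j, ℓ i j • Q j) ≤ 2 ^ r * (r * S) / (N : ℝ) ^ 2 := by
    intro i
    set X : G := P i - ∑ j, ℓ i j • Q j with hXdef
    have h1 : (m * N) • X = ∑ j, ((N : ℤ) * c i j - m * ℓ i j) • P (σ j) := by
      have h2 : (m * N) • X = N • (m • P i) - m • (N • ∑ j, ℓ i j • Q j) := by
        rw [hXdef, smul_sub, mul_comm m N, mul_smul, mul_comm N m, mul_smul m N]
      have h3 : N • ∑ j, ℓ i j • Q j = ∑ j, ℓ i j • P (σ j) := by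
        rw [Finset.smul_sum]
        refine Finset.sum_congr rfl fun j _ => ?_
        rw [smul_comm, hQ]
      rw [h2, h3, hrel, ← natCast_zsmul, ← natCast_zsmul, Finset.smul_sum, Finset.smul_sum, ← Finset.sum_sub_distrib]
      refine Finset.sum_congr rfl fun j _ => ?_
      rw [smul_smul, smul_smul, ← sub_smul]
    have h2 := quad_sum_le q h0 hq r (fun j => (N : ℤ) * c i j - m * ℓ i j) (fun j => P (σ j))
    rw [← h1, hnat] at h2
    have h3 : ∑ j : Fin r, ((((N : ℤ) * c i j - m * ℓ i j : ℤ)) : ℝ) ^ 2 * q (P (σ j)) ≤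
        ∑ _j : Fin r, (m : ℝ) ^ 2 * S := by
      refine Finset.sum_le_sum fun j _ => ?_
      have h4 : |((((N : ℤ) * c i j - m * ℓ i j : ℤ)) : ℝ)| ≤ (m : ℝ) := by
        exact_mod_cast hℓ i j
      have h5 : ((((N : ℤ) * c i j - m * ℓ i j : ℤ)) : ℝ) ^ 2 ≤ (m : ℝ) ^ 2 := by
        rw [← sq_abs]
        exact pow_le_pow_left₀ (abs_nonneg _) h4 2
      exact mul_le_mul h5 (hPS _) (h0 _) (by positivity)
    rw [Finset.sum_const, Finset.card_univ, Fintype.card_fin, nsmul_eq_mul] at h3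
    have h4 : ((m * N : ℕ) : ℝ) ^ 2 * q X ≤ 2 ^ r * (r * ((m : ℝ) ^ 2 * S)) :=
      h2.trans (mul_le_mul_of_nonneg_left h3 (by positivity))
    have hm2 : (0 : ℝ) < (m : ℝ) ^ 2 := by positivity
    rw [le_div_iff₀ hN2]
    have h5 : (m : ℝ) ^ 2 * (q X * (N : ℝ) ^ 2) ≤ (m : ℝ) ^ 2 * (2 ^ r * (r * S)) := by
      have h6 : ((m * N : ℕ) : ℝ) ^ 2 * q X = (m : ℝ) ^ 2 * (q X * (N : ℝ) ^ 2) := by
        push_cast
        ring
      rw [← h6]
      refine h4.trans (le_of_eq ?_)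
      ring
    exact le_of_mul_le_mul_left h5 hm2
  have h1 : ∑ j, q (Q j) ≤ r * (S / (N : ℝ) ^ 2) := by
    refine (Finset.sum_le_sum fun j _ => hQS j).trans (le_of_eq ?_)
    rw [Finset.sum_const, Finset.card_univ, Fintype.card_fin, nsmul_eq_mul]
  have h2 : ∑ i, q (P i - ∑ j, ℓ i j • Q j) ≤ n * (2 ^ r * (r * S) / (N : ℝ) ^ 2) := by
    refine (Finset.sum_le_sum fun i _ => hX i).trans (le_of_eq ?_)
    rw [Finset.sum_const, Finset.card_univ, Fintype.card_fin, nsmul_eq_mul]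
  have h3 : (r : ℝ) * (S / (N : ℝ) ^ 2) ≤ 2 ^ r * (r * S) / (N : ℝ) ^ 2 := by
    have h4 : (1 : ℝ) ≤ 2 ^ r := one_le_pow₀ (by norm_num)
    have h5 : (0 : ℝ) ≤ r * (S / (N : ℝ) ^ 2) := by positivity
    calc (r : ℝ) * (S / (N : ℝ) ^ 2) = 1 * (r * (S / (N : ℝ) ^ 2)) := by ring
      _ ≤ 2 ^ r * (r * (S / (N : ℝ) ^ 2)) := mul_le_mul_of_nonneg_right h4 h5
      _ = 2 ^ r * (r * S) / (N : ℝ) ^ 2 := by ring
  calc ∑ j, q (Q j) + ∑ i, q (P i - ∑ j, ℓ i j • Q j)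
      ≤ 2 ^ r * (r * S) / (N : ℝ) ^ 2 + n * (2 ^ r * (r * S) / (N : ℝ) ^ 2) := by linarith
    _ = (n + 1) * r * 2 ^ r / (N : ℝ) ^ 2 * S := by ring

end Pool.Agent.Lib.MP_17a322_nt.RV
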