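import Pool.Agent.Lib.MP_17a322_nt.RV.K1b
import Pool.Agent.Lib.MP_17a322_nt.RV.K2a
import Pool.Agent.Lib.MP_17a322_nt.RV.U3
import Pool.Agent.Lib.MP_17a322_nt.RV.U4
import Pool.Agent.Lib.MP_17a322_nt.RO.A2

/-!
The height inequality given by the auxiliary form.
-/

namespace Pool.Agent.Lib.MP_17a322_nt.RV

open MvPolynomial WeierstrassCurve Height
open Pool.Agent.Lib.MP_17a322_nt.RO

universe u

/-- The height of the point at infinity. -/
theorem K2b_zero {L : Type*} [Field L] [NumberField L] (V : WeierstrassCurve L) :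
    logHeight (0 : V.toAffine.Point).xRep = 0 := by
  rw [Affine.Point.xRep_zero, logHeight_swap, logHeight_cons_zero,
    logHeight_eq_zero_of_subsingleton]

/-- Lower bound for the height of a multiple. -/
theorem K2b_mul {G : Type*} [AddCommGroup G] (h : G → ℝ) (h0 : h 0 = 0)
    (hb : ∀ P, 0 ≤ h P) (C : ℝ)
    (hC : ∀ P Q : G, |h (P + Q) + h (P - Q) - 2 * h P - 2 * h Q| ≤ C) (m : ℤ) (P Q : G) :
    2 * h P + 2 * (m : ℝ) ^ 2 * h Q ≤
      h (P - m • Q) + h (P + m • Q) + (2 * (m : ℝ) ^ 2 + 3) * C := by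
  obtain ⟨q, hq1, hq2, hq3⟩ := exists_quadratic_explicit h h0 hb C hC
  have h1 := (abs_le.1 (hC P (m • Q))).1
  have h2 := (abs_le.1 (hq1 (m • Q))).2
  have h3 := (abs_le.1 (hq1 Q)).1
  rw [quadratic_zsmul q hq3 Q m] at h2
  have h4 : (m : ℝ) ^ 2 * (h Q - C) ≤ (m : ℝ) ^ 2 * q Q :=
    mul_le_mul_of_nonneg_left (by linarith) (sq_nonneg _)
  nlinarith

/-- The height inequality given by the auxiliary form.
Proof. `exists_aux`, `height_vec` with `u = x(Q)`, `w = x(P)`, `p = x(P - ℓ Q)`, `p' = x(P + ℓ Q)`,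
`gv k = g_k(x(P))` (`xRep ≠ 0`), `lam i = 2 (ℓ i)^2`. By `parallelogram_unif` for `P i` and
`ℓ i • Q (c i)` and `h(x(ℓ Q)) ≥ ℓ^2 h(x(Q)) - C [L : ℚ]` (`exists_quadratic_explicit` in RV/U4,
`quadratic_zsmul` in RO/A2): `2 h(x(P_i)) + 2 (ℓ i)^2 h(x(Q_{c i})) ≤
h(x(P_i - ℓ_i Q)) + h(x(P_i + ℓ_i Q)) + C [L : ℚ]`. Multiply by `b` and add: the terms `b ∑ h(p')` and
`2 b (ℓ i)^2 h(x(Q_{c i}))` cancel (`∑_j (∑_{c i = j} t i) = ∑_i t i`, `Finset.sum_fiberwise`). -/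
theorem core {K : Type u} [Field K] [NumberField K] (W : WeierstrassCurve K) [W.IsElliptic]
    {J B κ : Type} [Fintype J] [DecidableEq J]
    [Fintype B] [DecidableEq B] [Fintype κ] (c : B → J) (D : B → ℕ)
    (g : κ → MvPolynomial (B × Fin 2) K) (hg : ∀ k, MH (g k) D) (d C₁ e₀ : ℕ)
    (hD : ∀ i, D i ≤ e₀) (hilb : Hilb D g d C₁ e₀) (ℓ : B → ℤ) (b : ℕ) (hb : 1 ≤ b)
    (hbe : e₀ ≤ 2 * (b - 1))
    (hcard : 4 ^ Fintype.card B *
        (∏ j, (b + ∑ i with c i = j, 2 * (ℓ i).natAbs ^ 2 * b + 1)) *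
          (C₁ * (2 * b + 1) ^ d) < (b + 1) ^ (Fintype.card J + Fintype.card B)) :
    ∃ G : MvPolynomial ((J ⊕ B) × Fin 2) K, MH G (fun _ => b) ∧ G ≠ 0 ∧ ∃ C : ℝ, 0 ≤ C ∧
      ∀ (L : Type u) [Field L] [NumberField L] [DecidableEq L] [Algebra K L]
        (V : WeierstrassCurve L), W.map (algebraMap K L) = V →
        ∀ (Q : J → V.toAffine.Point) (P : B → V.toAffine.Point),
          evl (Sum.elim (fun j => (Q j).xRep) (fun i => (P i - ℓ i • Q (c i)).xRep)) G ≠ 0 →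
            (∃ k, evl (fun i => (P i).xRep) (g k) ≠ 0) ∧
              dfc D g (fun i => (P i).xRep) ≤
                b * (∑ j, logHeight (Q j).xRep +
                  ∑ i, logHeight (P i - ℓ i • Q (c i)).xRep) + C * Module.finrank ℚ L := by
  obtain ⟨G, S, h, hG, hG0, hS, hh, hV⟩ := exists_aux W c D g hg d C₁ e₀ hD hilb ℓ b hb hbe hcard
  obtain ⟨C1, hC1, hvec⟩ := height_vec c (fun i => 2 * (ℓ i).natAbs ^ 2) D b hb
    (fun i => (hD i).trans hbe) S hS h hh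
  obtain ⟨C2, hC2, hpar⟩ := parallelogram_unif W
  refine ⟨G, hG, hG0, C1 + b * ∑ i, (2 * (ℓ i : ℝ) ^ 2 + 3) * C2, ?_, ?_⟩
  · exact add_nonneg hC1 (mul_nonneg (Nat.cast_nonneg _)
      (Finset.sum_nonneg fun i _ => mul_nonneg (by positivity) hC2))
  intro L _ _ _ _ V hWV Q P hne
  obtain ⟨γ, hγ, hSv, hid⟩ := hV L V hWV Q P
  obtain ⟨hgv, hle⟩ := hvec L (fun j => (Q j).xRep) (fun i => (P i).xRep)
    (fun i => (P i - ℓ i • Q (c i)).xRep) (fun i => (P i + ℓ i • Q (c i)).xRep) γ _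
    (fun k => evl (fun i => (P i).xRep) (g k))
    (fun j => Affine.Point.xRep_ne_zero _) (fun i => Affine.Point.xRep_ne_zero _)
    (fun i => Affine.Point.xRep_ne_zero _) hγ hne hSv hid
  refine ⟨hgv, ?_⟩
  have h1 : ∀ i, 2 * logHeight (P i).xRep + 2 * (ℓ i : ℝ) ^ 2 * logHeight (Q (c i)).xRep ≤
      logHeight (P i - ℓ i • Q (c i)).xRep + logHeight (P i + ℓ i • Q (c i)).xRep +
        (2 * (ℓ i : ℝ) ^ 2 + 3) * (C2 * Module.finrank ℚ L) := fun i =>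
    K2b_mul (fun R : V.toAffine.Point => logHeight R.xRep) (K2b_zero V)
      (fun R => logHeight_nonneg _) _ (hpar L V hWV) (ℓ i) (P i) (Q (c i))
  have h2 : ∑ i, (2 * logHeight (P i).xRep + 2 * (ℓ i : ℝ) ^ 2 * logHeight (Q (c i)).xRep) ≤
      ∑ i, (logHeight (P i - ℓ i • Q (c i)).xRep + logHeight (P i + ℓ i • Q (c i)).xRep +
        (2 * (ℓ i : ℝ) ^ 2 + 3) * (C2 * Module.finrank ℚ L)) :=
    Finset.sum_le_sum fun i _ => h1 i
  have h3 : ∑ j, ((b + ∑ i with c i = j, 2 * (ℓ i).natAbs ^ 2 * b : ℕ) : ℝ) *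
        logHeight (Q j).xRep =
      b * ∑ j, logHeight (Q j).xRep +
        b * ∑ i, 2 * (ℓ i : ℝ) ^ 2 * logHeight (Q (c i)).xRep := by
    have h4 : ∀ j, ((b + ∑ i with c i = j, 2 * (ℓ i).natAbs ^ 2 * b : ℕ) : ℝ) *
        logHeight (Q j).xRep = b * logHeight (Q j).xRep +
          ∑ i with c i = j, b * (2 * (ℓ i : ℝ) ^ 2 * logHeight (Q (c i)).xRep) := by
      intro j
      have h5 : ∑ i with c i = j, b * (2 * (ℓ i : ℝ) ^ 2 * logHeight (Q (c i)).xRep) =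
          ∑ i with c i = j, (2 * (ℓ i : ℝ) ^ 2 * b) * logHeight (Q j).xRep := by
        refine Finset.sum_congr rfl fun i hi => ?_
        rw [(Finset.mem_filter.1 hi).2]
        ring
      have h9 : ((b + ∑ i with c i = j, 2 * (ℓ i).natAbs ^ 2 * b : ℕ) : ℝ) =
          b + ∑ i with c i = j, 2 * (ℓ i : ℝ) ^ 2 * b := by
        rw [Nat.cast_add, Nat.cast_sum]
        refine congrArg _ (Finset.sum_congr rfl fun i _ => ?_)
        rw [Nat.cast_mul, Nat.cast_mul, Nat.cast_pow, Nat.cast_natAbs, Int.cast_abs, sq_abs,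
          Nat.cast_ofNat]
      rw [h5, h9, add_mul, Finset.sum_mul]
    have h5 := Finset.sum_fiberwise Finset.univ c
      (fun i => b * (2 * (ℓ i : ℝ) ^ 2 * logHeight (Q (c i)).xRep))
    rw [Finset.sum_congr rfl fun j _ => h4 j, Finset.sum_add_distrib, h5, ← Finset.mul_sum,
      ← Finset.mul_sum]
  rw [Finset.sum_add_distrib, Finset.sum_add_distrib, Finset.sum_add_distrib,
    ← Finset.sum_mul, ← Finset.mul_sum] at h2
  have h6 : ∑ i, (2 * (b : ℝ) - D i) * logHeight (P i).xRep =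
      b * (2 * ∑ i, logHeight (P i).xRep) - ∑ i, (D i : ℝ) * logHeight (P i).xRep := by
    rw [Finset.mul_sum, Finset.mul_sum, ← Finset.sum_sub_distrib]
    refine Finset.sum_congr rfl fun i _ => ?_
    ring
  have h7 := mul_le_mul_of_nonneg_left h2 (Nat.cast_nonneg (α := ℝ) b)
  have h8 : (∑ i, (2 * (ℓ i : ℝ) ^ 2 + 3) * C2) = (∑ i, (2 * (ℓ i : ℝ) ^ 2 + 3)) * C2 := by
    rw [Finset.sum_mul]
  unfold dfc
  rw [h3, h6] at hle
  rw [h8]
  linarith

end Pool.Agent.Lib.MP_17a322_nt.RV
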