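import Pool.Agent.Lib.MP_17a322_nt.RV.Defs

/-!
Choice of the degree of the auxiliary form.
-/

namespace Pool.Agent.Lib.MP_17a322_nt.RV

theorem M1_card (n s : ℕ) (j : Fin s) :
    (Finset.univ.filter fun i : Fin n × Fin s => i.2 = j).card = n := by
  have h : (Finset.univ.filter fun i : Fin n × Fin s => i.2 = j) = Finset.univ ×ˢ {j} := by
    ext i
    rw [Finset.mem_filter, Finset.mem_product, Finset.mem_singleton]
    exact ⟨fun h => ⟨Finset.mem_univ _, h.2⟩, fun h => ⟨Finset.mem_univ _, h.2⟩⟩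
  rw [h, Finset.card_product, Finset.card_singleton, Finset.card_univ, Fintype.card_fin, mul_one]

theorem M1_fac (n s k b : ℕ) (hk : 1 ≤ k) (hn : 1 ≤ n) (ℓ : Fin n × Fin s → ℤ)
    (hℓ : ∀ i, |ℓ i| ≤ (k : ℤ) ^ (s + 1)) (j : Fin s) :
    b + ∑ i : Fin n × Fin s with i.2 = j, 2 * (ℓ i).natAbs ^ 2 * b + 1 ≤
      (b + 1) * (3 * n * k ^ (2 * (s + 1))) := by
  have hk2 : 1 ≤ k ^ (2 * (s + 1)) := Nat.one_le_pow _ _ hk
  have h1 : ∑ i : Fin n × Fin s with i.2 = j, 2 * (ℓ i).natAbs ^ 2 * b ≤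
      ∑ i : Fin n × Fin s with i.2 = j, 2 * k ^ (2 * (s + 1)) * b := by
    refine Finset.sum_le_sum fun i _ => ?_
    have h2 : (ℓ i).natAbs ≤ k ^ (s + 1) := by
      have h3 := hℓ i
      rw [Int.abs_eq_natAbs] at h3
      exact_mod_cast h3
    have h3 : (ℓ i).natAbs ^ 2 ≤ k ^ (2 * (s + 1)) := by
      calc (ℓ i).natAbs ^ 2 ≤ (k ^ (s + 1)) ^ 2 := Nat.pow_le_pow_left h2 2
        _ = k ^ (2 * (s + 1)) := by rw [← pow_mul, mul_comm]
    exact Nat.mul_le_mul_right b (Nat.mul_le_mul_left 2 h3)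
  rw [Finset.sum_const, M1_card, smul_eq_mul] at h1
  set K := k ^ (2 * (s + 1)) with hK
  have h4 : 1 ≤ n * K := Nat.one_le_iff_ne_zero.2 (mul_ne_zero (by omega) (by omega))
  calc b + ∑ i : Fin n × Fin s with i.2 = j, 2 * (ℓ i).natAbs ^ 2 * b + 1
      ≤ b + n * (2 * K * b) + 1 := by omega
    _ = (b + 1) * 1 + 2 * (b * (n * K)) := by ring
    _ ≤ (b + 1) * (n * K) + 2 * ((b + 1) * (n * K)) :=
        Nat.add_le_add (Nat.mul_le_mul_left _ h4)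
          (Nat.mul_le_mul_left 2 (Nat.mul_le_mul_right _ (Nat.le_succ b)))
    _ = (b + 1) * (3 * n * K) := by ring

/-- The degree `b` of size `k^(2s)` when the directions are bounded by `k^(s+1)`.
Proof. `|B| = n * s`, `|J| = s`. Each factor of the product is at most
`b + 2 n k^(2(s+1)) b + 1 ≤ (b + 1) * 3 n k^(2(s+1))`, and `(2b+1)^d ≤ 2^d (b+1)^d`; so the left hand side
is at most `C * k^(2s(s+1)) * (b+1)^(s+d)` with `C = 4^(ns) (3n)^s C₁ 2^d`. As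
`s + n s = (s + d) + (s + 1)` it is enough that `C k^(2s(s+1)) < (b+1)^(s+1)`: take
`C₂ = C + e₀ + 2`, `b = C₂ * k^(2s)`; `(C₂ k^(2s))^(s+1) = C₂^(s+1) k^(2s(s+1)) ≥ C k^(2s(s+1))`. -/
theorem exists_degree (n s d C₁ e₀ : ℕ) (hs : 1 ≤ s) (hn : s < n) (hd : d + s + 1 = n * s) :
    ∃ C₂ : ℕ, ∀ k : ℕ, 1 ≤ k → ∃ b : ℕ, 1 ≤ b ∧ e₀ ≤ 2 * (b - 1) ∧ b ≤ C₂ * k ^ (2 * s) ∧
      ∀ ℓ : Fin n × Fin s → ℤ, (∀ i, |ℓ i| ≤ (k : ℤ) ^ (s + 1)) →
        4 ^ Fintype.card (Fin n × Fin s) *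
            (∏ j : Fin s, (b + ∑ i : Fin n × Fin s with i.2 = j,
              2 * (ℓ i).natAbs ^ 2 * b + 1)) *
            (C₁ * (2 * b + 1) ^ d) <
          (b + 1) ^ (Fintype.card (Fin s) + Fintype.card (Fin n × Fin s)) := by
  set C : ℕ := 4 ^ (n * s) * (3 * n) ^ s * (C₁ * 2 ^ d) with hC
  refine ⟨C + e₀ + 2, fun k hk => ⟨(C + e₀ + 2) * k ^ (2 * s), ?_, ?_, le_refl _, ?_⟩⟩
  · exact Nat.one_le_iff_ne_zero.2 (mul_ne_zero (by omega) (pow_ne_zero _ (by omega)))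
  · have h1 : 1 ≤ k ^ (2 * s) := Nat.one_le_pow _ _ hk
    have h2 : C + e₀ + 2 ≤ (C + e₀ + 2) * k ^ (2 * s) := Nat.le_mul_of_pos_right _ (by omega)
    omega
  · intro ℓ hℓ
    set b := (C + e₀ + 2) * k ^ (2 * s) with hb
    have hcard : Fintype.card (Fin n × Fin s) = n * s := by
      rw [Fintype.card_prod, Fintype.card_fin, Fintype.card_fin]
    rw [hcard, Fintype.card_fin]
    have hprod : (∏ j : Fin s, (b + ∑ i : Fin n × Fin s with i.2 = j,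
        2 * (ℓ i).natAbs ^ 2 * b + 1)) ≤ ((b + 1) * (3 * n * k ^ (2 * (s + 1)))) ^ s := by
      calc (∏ j : Fin s, (b + ∑ i : Fin n × Fin s with i.2 = j, 2 * (ℓ i).natAbs ^ 2 * b + 1))
          ≤ ∏ _j : Fin s, ((b + 1) * (3 * n * k ^ (2 * (s + 1)))) :=
            Finset.prod_le_prod (fun _ _ => Nat.zero_le _)
              (fun j _ => M1_fac n s k b hk (by omega) ℓ hℓ j)
        _ = _ := by rw [Finset.prod_const, Finset.card_univ, Fintype.card_fin]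
    have hpow : (2 * b + 1) ^ d ≤ (2 * (b + 1)) ^ d := Nat.pow_le_pow_left (by omega) d
    have hkey : C * k ^ (2 * s * (s + 1)) < (b + 1) ^ (s + 1) := by
      have h1 : (C + e₀ + 2) ≤ (C + e₀ + 2) ^ (s + 1) := Nat.le_self_pow (by omega) _
      have h2 : 1 ≤ k ^ (2 * s * (s + 1)) := Nat.one_le_pow _ _ hk
      calc C * k ^ (2 * s * (s + 1)) ≤ (C + e₀ + 2) ^ (s + 1) * k ^ (2 * s * (s + 1)) :=
            Nat.mul_le_mul_right _ (le_trans (by omega) h1)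
        _ = b ^ (s + 1) := by rw [hb, mul_pow, ← pow_mul]
        _ < (b + 1) ^ (s + 1) := Nat.pow_lt_pow_left (Nat.lt_succ_self b) (by omega)
    have hexp : s + n * s = (s + d) + (s + 1) := by omega
    calc 4 ^ (n * s) * (∏ j : Fin s, (b + ∑ i : Fin n × Fin s with i.2 = j,
            2 * (ℓ i).natAbs ^ 2 * b + 1)) * (C₁ * (2 * b + 1) ^ d)
        ≤ 4 ^ (n * s) * ((b + 1) * (3 * n * k ^ (2 * (s + 1)))) ^ s * (C₁ * (2 * (b + 1)) ^ d) :=
          Nat.mul_le_mul (Nat.mul_le_mul_left _ hprod) (Nat.mul_le_mul_left _ hpow)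
      _ = (C * k ^ (2 * s * (s + 1))) * (b + 1) ^ (s + d) := by
          rw [hC, mul_pow (b + 1), mul_pow (3 * n), mul_pow 2 (b + 1), ← pow_mul, pow_add (b + 1) s d,
            show 2 * (s + 1) * s = 2 * s * (s + 1) by ring]
          ring
      _ < (b + 1) ^ (s + 1) * (b + 1) ^ (s + d) :=
          Nat.mul_lt_mul_of_pos_right hkey (Nat.pow_pos (Nat.succ_pos b))
      _ = (b + 1) ^ (s + n * s) := by rw [hexp, ← pow_add, add_comm (s + 1)]

end Pool.Agent.Lib.MP_17a322_nt.RV
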