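import Pool.Agent.Lib.MP_17a322_nt.RV.Defs

/-!
Restriction of forms.
-/

namespace Pool.Agent.Lib.MP_17a322_nt.RV

open MvPolynomial
open Pool.Agent.Lib.MP_17a322_nt.RO

theorem M2a_wt {B : Type*} [DecidableEq B] (m : (B × Fin 2) →₀ ℕ) (b : B) :
    Finsupp.weight (bwt B (Fin 2)) m b = m.sum fun p c => c * (Pi.single p.1 1 : B → ℕ) b := by
  rw [Finsupp.weight_apply]
  unfold Finsupp.sum
  rw [Finset.sum_apply]
  rfl

theorem M2a_ne {K B : Type*} [Field K] [DecidableEq B] {R : MvPolynomial (B × Fin 2) K} {E : B → ℕ}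
    (hR : MH R E) {p : B × Fin 2} (hp : p ∈ R.vars) : E p.1 ≠ 0 := by
  obtain ⟨m, hm, hmp⟩ := (mem_vars_iff_mem_support p).1 hp
  have h1 : Finsupp.weight (bwt B (Fin 2)) m = E := hR (mem_support_iff.1 hm)
  have h2 : m p ≤ E p.1 := by
    rw [← h1, M2a_wt]
    unfold Finsupp.sum
    have h3 := Finset.single_le_sum (f := fun q : B × Fin 2 => m q * (Pi.single q.1 1 : B → ℕ) p.1)
      (fun _ _ => Nat.zero_le _) hmp
    simpa using h3
  have h4 : m p ≠ 0 := Finsupp.mem_support_iff.1 hmp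
  omega

/-- Restriction of a form that involves only the blocks `inr (i, 0)`.
Proof. Substitute `X (inr (i, 0), ι) ↦ X (i, ι)`, `X (a, 0) ↦ 1`, `X (a, 1) ↦ 0` for the other blocks
`a`; since `R` has degree `0` in the other blocks it is a polynomial in the variables of the blocks
`inr (i, 0)` only and nothing is lost (`R₁ ≠ 0`: the value of `R₁` determines that of `R` everywhere, or
rename `R₁` back). The values of `x` in the other blocks do not matter. -/
theorem exists_restrict {K : Type*} [Field K] (n s : ℕ) (hs : 0 < s)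
    (E : Fin s ⊕ (Fin n × Fin s) → ℕ)
    (R : MvPolynomial ((Fin s ⊕ (Fin n × Fin s)) × Fin 2) K) (hR : MH R E) (hR0 : R ≠ 0)
    (h1 : ∀ j, E (Sum.inl j) = 0) (h2 : ∀ i j, j ≠ ⟨0, hs⟩ → E (Sum.inr (i, j)) = 0) :
    ∃ R₁ : MvPolynomial (Fin n × Fin 2) K, MH R₁ (fun i => E (Sum.inr (i, ⟨0, hs⟩))) ∧
      R₁ ≠ 0 ∧ ∀ (F : Type*) [Field F] [Algebra K F] (x : Fin s ⊕ (Fin n × Fin s) → Fin 2 → F),
        evl (fun i => x (Sum.inr (i, ⟨0, hs⟩))) R₁ = evl x R := by
  let e : Fin n → Fin s ⊕ (Fin n × Fin s) := fun i => Sum.inr (i, ⟨0, hs⟩)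
  have he : Function.Injective e := by
    intro i j hij
    simpa [e] using hij
  let f : Fin n × Fin 2 → (Fin s ⊕ (Fin n × Fin s)) × Fin 2 := fun p => (e p.1, p.2)
  have hf : Function.Injective f := by
    rintro ⟨i, a⟩ ⟨j, b⟩ hij
    simp only [f, Prod.mk.injEq] at hij
    exact Prod.ext (he hij.1) hij.2
  have hv : (R.vars : Set ((Fin s ⊕ (Fin n × Fin s)) × Fin 2)) ⊆ Set.range f := by
    rintro ⟨b, a⟩ hp
    have h3 := M2a_ne hR (Finset.mem_coe.1 hp)
    simp only at h3
    rcases b with j | ⟨i, j⟩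
    · exact absurd (h1 j) h3
    · by_cases hj : j = ⟨0, hs⟩
      · subst hj
        exact ⟨(i, a), rfl⟩
      · exact absurd (h2 i j hj) h3
  obtain ⟨R₁, hR₁⟩ := exists_rename_eq_of_vars_subset_range R f hf hv
  refine ⟨R₁, ?_, ?_, ?_⟩
  · intro m hm
    have h3 : coeff (Finsupp.mapDomain f m) R ≠ 0 := by
      rw [← hR₁, coeff_rename_mapDomain f hf]
      exact hm
    have h4 : Finsupp.weight (bwt _ (Fin 2)) (Finsupp.mapDomain f m) = E := hR h3
    funext i
    rw [← h4, M2a_wt, M2a_wt, Finsupp.sum_mapDomain_index (by simp) (by intros; ring)]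
    unfold Finsupp.sum
    apply Finset.sum_congr rfl
    intro p _
    by_cases hp : p.1 = i
    · subst hp
      simp [f, e]
    · simp only
      rw [Pi.single_apply, Pi.single_apply, if_neg (fun h => hp h.symm), if_neg]
      intro h
      exact hp (he h).symm
  · rintro rfl
    exact hR0 (by rw [← hR₁, map_zero])
  · intro F _ _ x
    unfold evl
    rw [← hR₁, aeval_rename]
    rfl

end Pool.Agent.Lib.MP_17a322_nt.RV
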