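import Pool.Agent.Lib.MP_17a322_nt.RV.Defs
import Pool.Agent.Lib.MP_17a322_nt.RO.E0
import Pool.Agent.Lib.MP_17a322_nt.RO.F1

/-!
Nonvanishing of a form at a point of a grid.
-/

namespace Pool.Agent.Lib.MP_17a322_nt.RV

open MvPolynomial WeierstrassCurve
open Pool.Agent.Lib.MP_17a322_nt.RO

universe u

/-- Substitution of forms in a multihomogeneous form. -/
theorem T2_mh_subst {K B B' ι ι' : Type*} [CommRing K] [Fintype B] [Fintype ι] [DecidableEq B]
    [DecidableEq B'] (φ : MvPolynomial (B × ι) K) (D : B → ℕ) (hφ : MH φ D)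
    (s : B → ι → MvPolynomial (B' × ι') K) (wt : B → B' → ℕ)
    (hs : ∀ b i, IsWeightedHomogeneous (bwt B' ι') (s b i) (wt b)) :
    MH (evl s φ) (∑ b, D b • wt b) := by
  classical
  rw [E0_evl]
  unfold MH
  refine IsWeightedHomogeneous.sum _ _ _ fun m hm => ?_
  have h1 : IsWeightedHomogeneous (bwt B' ι') (∏ b, ∏ i, s b i ^ m (b, i))
      (∑ b, ∑ i, m (b, i) • wt b) := by
    refine IsWeightedHomogeneous.prod _ _ _ fun b _ => ?_
    refine IsWeightedHomogeneous.prod _ _ _ fun i _ => ?_
    exact (hs b i).pow _
  have h2 : (∑ b, ∑ i, m (b, i) • wt b) = ∑ b, D b • wt b := by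
    refine Finset.sum_congr rfl fun b _ => ?_
    rw [← Finset.sum_smul]
    congr 1
    have h3 := congrFun (hφ (mem_support_iff.mp hm)) b
    rw [E0_weight] at h3
    exact h3
  rw [h2] at h1
  exact h1.C_mul _

/-- Composition of evaluations. -/
theorem T2_evl_evl {K A B B' ι ι' : Type*} [CommRing K] [CommRing A] [Algebra K A]
    (φ : MvPolynomial (B × ι) K) (s : B → ι → MvPolynomial (B' × ι') K) (x : B' → ι' → A) :
    evl x (evl s φ) = evl (fun b i => evl x (s b i)) φ := by
  unfold evl
  exact comp_aeval_apply _ _ _

/-- Renaming of blocks along an arbitrary map. -/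
theorem T2_mh_map {K B B' ι : Type*} [CommRing K] [Fintype B] [Fintype ι] [DecidableEq B]
    [DecidableEq B'] (φ : MvPolynomial (B × ι) K) (D : B → ℕ) (hφ : MH φ D) (f : B → B') :
    MH (evl (fun b i => (X (f b, i) : MvPolynomial (B' × ι) K)) φ)
      (∑ b, D b • (Pi.single (f b) 1 : B' → ℕ)) :=
  T2_mh_subst φ D hφ _ _ fun b i => isWeightedHomogeneous_X K (bwt B' ι) (f b, i)

/-- Value after renaming. -/
theorem T2_evl_map {K A B B' ι : Type*} [CommRing K] [CommRing A] [Algebra K A]
    (φ : MvPolynomial (B × ι) K) (f : B → B') (x : B' → ι → A) :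
    evl x (evl (fun b i => (X (f b, i) : MvPolynomial (B' × ι) K)) φ) =
      evl (fun b => x (f b)) φ := by
  rw [T2_evl_evl]
  congr 1
  funext b i
  unfold evl
  rw [aeval_X]

/-- The value at the variables. -/
theorem T2_evl_X {K B ι : Type*} [CommRing K] (φ : MvPolynomial (B × ι) K) :
    evl (fun b i => (X (b, i) : MvPolynomial (B × ι) K)) φ = φ := by
  unfold evl
  have h : (fun p : B × ι => (X (p.1, p.2) : MvPolynomial (B × ι) K)) = X := rfl
  rw [h, aeval_X_left_apply]

/-- A binary form with a nonzero coefficient over an infinite field is not identically zero. -/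
theorem T2_binary {F : Type*} [Field F] [Infinite F] (d : ℕ) (c : ℕ → F) (k : ℕ) (hk : k ≤ d)
    (hc : c k ≠ 0) :
    ∃ v : Fin 2 → F, ∑ k ∈ Finset.range (d + 1), c k * v 0 ^ k * v 1 ^ (d - k) ≠ 0 := by
  have hp : F1_pol d c ≠ 0 := by
    intro h0
    apply hc
    rw [← F1_coeff d c hk, h0, Polynomial.coeff_zero]
  obtain ⟨x, hx⟩ : ∃ x, (F1_pol d c).eval x ≠ 0 := by
    by_contra hcon
    push Not at hcon
    exact hp (Polynomial.funext fun x => by rw [hcon x, Polynomial.eval_zero])
  refine ⟨![x, 1], ?_⟩
  rw [F1_eval] at hx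
  simpa using hx

/-- One block: the form `R` is a nonzero coefficient of `G` with respect to the block `s`.
Proof. Rename the blocks by the equivalence of `B` with `Option {b // b ≠ s}`, `s ↦ none`, and use
`exists_coeffs` (RO/E0); since `G ≠ 0` some coefficient form is nonzero; rename it back to the blocks
of `B` (degree `0` in block `s`). If `R(x(P)) ≠ 0` the binary form `G(·, x(P))` has a nonzero
coefficient, so it is not identically zero on `F²` (`F` is infinite, of characteristic `0`), and by
`card_zeros_le` (RO/F1) it vanishes at the x-coordinates of at most `2 E s` points of a finite set.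
`M = 2 * E s`. (Here `V` is any Weierstrass curve over an extension field.) -/
theorem exists_grid_one {K : Type u} [Field K] [CharZero K] {B : Type} [Fintype B]
    [DecidableEq B] (s : B) (E : B → ℕ) (G : MvPolynomial (B × Fin 2) K) (hG : MH G E)
    (hG0 : G ≠ 0) :
    ∃ (R : MvPolynomial (B × Fin 2) K) (M : ℕ), MH R (Function.update E s 0) ∧ R ≠ 0 ∧
      ∀ (F : Type u) [Field F] [DecidableEq F] [Algebra K F] (V : WeierstrassCurve F)
        (P : B → V.toAffine.Point), evl (fun b => (P b).xRep) R ≠ 0 →
          ∀ A : Finset V.toAffine.Point, M < A.card →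
            ∃ Q ∈ A, evl (fun b => (Function.update P s Q b).xRep) G ≠ 0 := by
  classical
  let B' : Type := {b : B // b ≠ s}
  let f : B → Option B' := fun b => if h : b = s then none else some ⟨b, h⟩
  have hfs : f s = none := dif_pos rfl
  have hfb : ∀ b (h : b ≠ s), f b = some ⟨b, h⟩ := fun b h => dif_neg h
  have hfinj : Function.Injective f := by
    intro b b' hbb
    by_cases hb : b = s
    · by_cases hb' : b' = s
      · rw [hb, hb']
      · rw [hb, hfs, hfb b' hb'] at hbb
        cases hbb
    · by_cases hb' : b' = s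
      · rw [hb', hfs, hfb b hb] at hbb
        cases hbb
      · rw [hfb b hb, hfb b' hb'] at hbb
        exact congrArg Subtype.val (Option.some.inj hbb)
  set φ : MvPolynomial (Option B' × Fin 2) K :=
    evl (fun b i => (X (f b, i) : MvPolynomial (Option B' × Fin 2) K)) G with hφdef
  have hφ : MH φ (pd (E s) (fun b' => E b'.1)) := by
    have h1 := T2_mh_map G E hG f
    have h2 : (∑ b, E b • (Pi.single (f b) 1 : Option B' → ℕ)) =
        pd (E s) (fun b' => E b'.1) := by
      funext o
      rw [Finset.sum_apply]
      cases o with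
      | none =>
        rw [Finset.sum_eq_single s]
        · rw [hfs]
          simp [pd]
        · intro b _ hb
          rw [hfb b hb]
          simp
        · intro h
          exact absurd (Finset.mem_univ _) h
      | some b' =>
        rw [Finset.sum_eq_single b'.1]
        · rw [hfb b'.1 b'.2]
          simp [pd]
        · intro b _ hb
          have h3 : some b' ≠ f b := by
            intro h4
            rw [← hfb b'.1 b'.2] at h4
            exact hb (hfinj h4).symm
          rw [Pi.smul_apply, Pi.single_eq_of_ne h3, smul_zero]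
        · intro h
          exact absurd (Finset.mem_univ _) h
    rw [h2] at h1
    exact h1
  obtain ⟨c, hcMH, hc⟩ := exists_coeffs (E s) (fun b' : B' => E b'.1) φ hφ
  have hφ0 : φ ≠ 0 := by
    intro h0
    apply hG0
    -- go back
    have h1 := T2_evl_map (A := MvPolynomial (B × Fin 2) K) G f
      (fun o i => X (o.elim s (fun b' => b'.1), i))
    rw [← hφdef, h0] at h1
    have h2 : evl (fun (o : Option B') (i : Fin 2) =>
        (X (o.elim s (fun b' => b'.1), i) : MvPolynomial (B × Fin 2) K))
        (0 : MvPolynomial (Option B' × Fin 2) K) = 0 := by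
      unfold evl
      exact map_zero _
    rw [h2] at h1
    have h3 : (fun b => (fun (o : Option B') (i : Fin 2) =>
        (X (o.elim s (fun b' => b'.1), i) : MvPolynomial (B × Fin 2) K)) (f b)) =
        fun b i => X (b, i) := by
      funext b i
      by_cases hb : b = s
      · subst hb
        rw [hfs]
        rfl
      · rw [hfb b hb]
        rfl
    rw [h3, T2_evl_X] at h1
    exact h1.symm
  obtain ⟨k, hk, hck⟩ : ∃ k ∈ Finset.range (E s + 1), c k ≠ 0 := by
    by_contra hcon
    push Not at hcon
    apply hφ0
    have h1 := hc (MvPolynomial (Option B' × Fin 2) K) (fun i => X (none, i))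
      (fun b i => X (some b, i))
    have h2 : (pv (fun i => (X (none, i) : MvPolynomial (Option B' × Fin 2) K))
        (fun b i => X (some b, i))) = fun o i => X (o, i) := by
      funext o i
      cases o with
      | none => rfl
      | some b => rfl
    rw [h2, T2_evl_X] at h1
    rw [h1]
    refine Finset.sum_eq_zero fun k hk => ?_
    rw [hcon k hk]
    have h3 : evl (fun (b : B') (i : Fin 2) =>
        (X (some b, i) : MvPolynomial (Option B' × Fin 2) K)) (0 : MvPolynomial (B' × Fin 2) K) = 0 := by
      unfold evl
      exact map_zero _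
    rw [h3, zero_mul, zero_mul]
  have hkE : k ≤ E s := Nat.lt_succ_iff.1 (Finset.mem_range.1 hk)
  refine ⟨evl (fun (b' : B') i => (X (b'.1, i) : MvPolynomial (B × Fin 2) K)) (c k), 2 * E s,
    ?_, ?_, ?_⟩
  · have h1 := T2_mh_map (c k) (fun b' : B' => E b'.1) (hcMH k) (fun b' : B' => b'.1)
    have h2 : (∑ b' : B', E b'.1 • (Pi.single b'.1 1 : B → ℕ)) = Function.update E s 0 := by
      funext b
      rw [Finset.sum_apply]
      by_cases hb : b = s
      · subst hb
        rw [Function.update_self]
        refine Finset.sum_eq_zero fun b' _ => ?_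
        rw [Pi.smul_apply, Pi.single_eq_of_ne b'.2.symm, smul_zero]
      · rw [Function.update_of_ne hb, Finset.sum_eq_single (⟨b, hb⟩ : B')]
        · simp
        · intro b' _ hb'
          have h3 : b ≠ b'.1 := fun h4 => hb' (Subtype.ext h4.symm)
          rw [Pi.smul_apply, Pi.single_eq_of_ne h3, smul_zero]
        · intro h
          exact absurd (Finset.mem_univ _) h
    rw [h2] at h1
    exact h1
  · intro h0
    apply hck
    have h1 := T2_evl_map (A := MvPolynomial (B' × Fin 2) K) (c k) (fun b' : B' => b'.1)
      (fun b i => if h : b = s then 0 else X (⟨b, h⟩, i))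
    rw [h0] at h1
    have h2 : evl (fun (b : B) (i : Fin 2) =>
        (if h : b = s then 0 else X (⟨b, h⟩, i) : MvPolynomial (B' × Fin 2) K))
        (0 : MvPolynomial (B × Fin 2) K) = 0 := by
      unfold evl
      exact map_zero _
    rw [h2] at h1
    have h3 : (fun b' : B' => (fun (b : B) (i : Fin 2) =>
        (if h : b = s then 0 else X (⟨b, h⟩, i) : MvPolynomial (B' × Fin 2) K)) b'.1) =
        fun b' i => X (b', i) := by
      funext b' i
      exact dif_neg b'.2
    rw [h3, T2_evl_X] at h1
    exact h1.symm
  · intro F _ _ _ V P hne A hA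
    have hchar : CharZero F := charZero_of_injective_algebraMap (algebraMap K F).injective
    by_contra hcon
    push Not at hcon
    have hR : evl (fun b' : B' => (P b'.1).xRep) (c k) ≠ 0 := by
      have h1 := T2_evl_map (c k) (fun b' : B' => b'.1) (fun b => (P b).xRep)
      rw [h1] at hne
      exact hne
    have h2 : A.card ≤ 2 * E s := by
      refine card_zeros_le V (E s) (fun k => evl (fun b' : B' => (P b'.1).xRep) (c k)) A
        (T2_binary (E s) _ k hkE hR) fun Q hQ => ?_
      rw [← hc F Q.xRep (fun b' : B' => (P b'.1).xRep), hφdef, T2_evl_map, ← hcon Q hQ]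
      congr 1
      funext b
      by_cases hb : b = s
      · subst hb
        rw [hfs, Function.update_self]
        rfl
      · rw [hfb b hb, Function.update_of_ne hb]
        rfl
    omega

/-- Several blocks.
Proof. `Finset.induction_on S`. Step `insert s S`: take `R₁`, `M₁` for `S`, and apply
`exists_grid_one` to `R₁` and `s`; `M = max`. Given `P` with `R(x(P)) ≠ 0` choose `Q ∈ A s` with
`R₁(x(update P s Q)) ≠ 0` and then the points for `S` by induction (`s ∉ S`, so the coordinate `s`
keeps the value `Q`). -/
theorem exists_grid_many {K : Type u} [Field K] [CharZero K] {B : Type} [Fintype B]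
    [DecidableEq B] (S : Finset B) (E : B → ℕ) (G : MvPolynomial (B × Fin 2) K) (hG : MH G E)
    (hG0 : G ≠ 0) :
    ∃ (R : MvPolynomial (B × Fin 2) K) (M : ℕ), MH R (fun b => if b ∈ S then 0 else E b) ∧
      R ≠ 0 ∧ ∀ (F : Type u) [Field F] [DecidableEq F] [Algebra K F] (V : WeierstrassCurve F)
        (P : B → V.toAffine.Point), evl (fun b => (P b).xRep) R ≠ 0 →
          ∀ A : B → Finset V.toAffine.Point, (∀ s ∈ S, M < (A s).card) →
            ∃ P' : B → V.toAffine.Point, (∀ s ∈ S, P' s ∈ A s) ∧ (∀ b ∉ S, P' b = P b) ∧
              evl (fun b => (P' b).xRep) G ≠ 0 := by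
  classical
  induction S using Finset.induction_on with
  | empty =>
    refine ⟨G, 0, ?_, hG0, fun F _ _ _ V P hP A _ => ⟨P, ?_, fun b _ => rfl, hP⟩⟩
    · have h1 : (fun b => if b ∈ (∅ : Finset B) then 0 else E b) = E := by
        funext b
        rw [if_neg (Finset.notMem_empty b)]
      rw [h1]
      exact hG
    · intro s hs
      exact absurd hs (Finset.notMem_empty s)
  | insert s S hs ih =>
    obtain ⟨R₁, M₁, hR₁, hR₁0, hprop₁⟩ := ih
    obtain ⟨R, M, hR, hR0, hprop⟩ := exists_grid_one s _ R₁ hR₁ hR₁0
    refine ⟨R, max M M₁, ?_, hR0, fun F _ _ _ V P hP A hA => ?_⟩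
    · have h1 : (fun b => if b ∈ insert s S then 0 else E b) =
          Function.update (fun b => if b ∈ S then 0 else E b) s 0 := by
        funext b
        by_cases hb : b = s
        · subst hb
          rw [Function.update_self, if_pos (Finset.mem_insert_self _ _)]
        · rw [Function.update_of_ne hb]
          by_cases hbS : b ∈ S
          · rw [if_pos hbS, if_pos (Finset.mem_insert_of_mem hbS)]
          · rw [if_neg hbS, if_neg]
            intro h2
            rcases Finset.mem_insert.1 h2 with h2 | h2
            · exact hb h2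
            · exact hbS h2
      rw [h1]
      exact hR
    · obtain ⟨Q, hQ, hQne⟩ := hprop F V P hP (A s)
        ((le_max_left M M₁).trans_lt (hA s (Finset.mem_insert_self _ _)))
      obtain ⟨P', hP'1, hP'2, hP'3⟩ := hprop₁ F V (Function.update P s Q) hQne A
        (fun b hb => (le_max_right M M₁).trans_lt (hA b (Finset.mem_insert_of_mem hb)))
      refine ⟨P', fun b hb => ?_, fun b hb => ?_, hP'3⟩
      · rcases Finset.mem_insert.1 hb with rfl | hb
        · rw [hP'2 b hs, Function.update_self]
          exact hQ
        · exact hP'1 b hb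
      · have hbs : b ≠ s := fun h => hb (h ▸ Finset.mem_insert_self _ _)
        rw [hP'2 b (fun h => hb (Finset.mem_insert_of_mem h)), Function.update_of_ne hbs]

end Pool.Agent.Lib.MP_17a322_nt.RV
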