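import Pool.Agent.Lib.MP_17a322_nt.RV.T1
import Pool.Agent.Lib.MP_17a322_nt.RV.T2

/-!
Nonvanishing after translations from a grid.
-/

namespace Pool.Agent.Lib.MP_17a322_nt.RV

open MvPolynomial WeierstrassCurve
open Pool.Agent.Lib.MP_17a322_nt.RO

universe u

/-- Many translation steps: for a set `S` of blocks and integers `k a b` with `k a b = 0` for `b ∈ S`.
Proof. Induction on a subset `S' ⊆ S` (`Finset.induction_on S`, statement for all `S' ⊆ S` or with
`hk` for the fixed set `S`). Empty: `G' = G`. Step `insert a S'`: from `G₁` for `S'` pass to `G'` by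
`exists_step` for the block `a` and `k := k a` (`k a a = 0` as `a ∈ S`). If `G'(x(P)) ≠ 0` then
`G₁(x(P⁺)) ≠ 0`, `P⁺ b = P b + k a b • P a`, so `G(x(P⁺ b + ∑_{c ∈ S'} k c b • P⁺ c)) ≠ 0`, and
`P⁺ c = P c` for `c ∈ S' ⊆ S`; `Finset.sum_insert`. -/
theorem exists_steps {K : Type u} [Field K] [CharZero K]
    (W : WeierstrassCurve K) [W.IsElliptic] {B : Type} [Fintype B] [DecidableEq B]
    (S : Finset B) (k : B → B → ℤ) (hk : ∀ a ∈ S, ∀ b ∈ S, k a b = 0) (E : B → ℕ)
    (G : MvPolynomial (B × Fin 2) K) (hG : MH G E) (hG0 : G ≠ 0) :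
    ∃ (G' : MvPolynomial (B × Fin 2) K) (E' : B → ℕ), MH G' E' ∧ G' ≠ 0 ∧
      ∀ (F : Type u) [Field F] [DecidableEq F] [Algebra K F] (V : WeierstrassCurve F),
        W.map (algebraMap K F) = V → ∀ P : B → V.toAffine.Point,
          evl (fun b => (P b).xRep) G' ≠ 0 →
            evl (fun b => (P b + ∑ a ∈ S, k a b • P a).xRep) G ≠ 0 := by
  classical
  have key : ∀ S' : Finset B, S' ⊆ S →
      ∃ (G' : MvPolynomial (B × Fin 2) K) (E' : B → ℕ), MH G' E' ∧ G' ≠ 0 ∧
      ∀ (F : Type u) [Field F] [DecidableEq F] [Algebra K F] (V : WeierstrassCurve F),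
        W.map (algebraMap K F) = V → ∀ P : B → V.toAffine.Point,
          evl (fun b => (P b).xRep) G' ≠ 0 →
            evl (fun b => (P b + ∑ a ∈ S', k a b • P a).xRep) G ≠ 0 := by
    intro S'
    induction S' using Finset.induction_on with
    | empty =>
      intro _
      refine ⟨G, E, hG, hG0, ?_⟩
      intro F _ _ _ V hV P hP
      simpa using hP
    | insert a S' ha ih =>
      intro hS'
      have haS : a ∈ S := hS' (Finset.mem_insert_self a S')
      have hS'' : S' ⊆ S := fun x hx => hS' (Finset.mem_insert_of_mem hx)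
      obtain ⟨G₁, E₁, h1, h2, h3⟩ := ih hS''
      obtain ⟨G', E', h4, h5, h6⟩ := exists_step W a (k a) (hk a haS a haS) E₁ G₁ h1 h2
      refine ⟨G', E', h4, h5, ?_⟩
      intro F _ _ _ V hV P hP
      have h7 := h6 F V hV P hP
      have h8 := h3 F V hV (fun b => P b + k a b • P a) h7
      have h9 : (fun b => (P b + k a b • P a +
          ∑ c ∈ S', k c b • (P c + k a c • P a)).xRep) =
          fun b => (P b + ∑ c ∈ insert a S', k c b • P c).xRep := by
        funext b
        congr 1
        rw [Finset.sum_insert ha, add_assoc]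
        congr 2
        refine Finset.sum_congr rfl fun c hc => ?_
        rw [hk a haS c (hS'' hc), zero_smul, add_zero]
      rw [← h9]
      exact h8
  exact key S (Finset.Subset.refl S)

/-- For a nonzero form `G` there are a nonzero form `R` not involving the blocks of `S` and `M` such
that for all points `P` with `R(x(P)) ≠ 0` and all sets `A s`, `s ∈ S`, of more than `M` points the
blocks of `S` can be given values in the `A s` so that `G` does not vanish after the translations.
Proof. `exists_steps`, then `exists_grid_many` for the form `G'`; the point of the conclusion is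
`P'' b = P' b + ∑_{a ∈ S} k a b • P' a`, which is `P' b` for `b ∈ S` (`hk`), and `P b + ∑ ..` for
`b ∉ S`. -/
theorem exists_grid {K : Type u} [Field K] [CharZero K]
    (W : WeierstrassCurve K) [W.IsElliptic] {B : Type} [Fintype B] [DecidableEq B]
    (S : Finset B) (k : B → B → ℤ) (hk : ∀ a ∈ S, ∀ b ∈ S, k a b = 0) (E : B → ℕ)
    (G : MvPolynomial (B × Fin 2) K) (hG : MH G E) (hG0 : G ≠ 0) :
    ∃ (R : MvPolynomial (B × Fin 2) K) (E' : B → ℕ) (M : ℕ), MH R E' ∧ R ≠ 0 ∧
      (∀ b ∈ S, E' b = 0) ∧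
      ∀ (F : Type u) [Field F] [DecidableEq F] [Algebra K F] (V : WeierstrassCurve F),
        W.map (algebraMap K F) = V → ∀ P : B → V.toAffine.Point,
          evl (fun b => (P b).xRep) R ≠ 0 →
            ∀ A : B → Finset V.toAffine.Point, (∀ s ∈ S, M < (A s).card) →
              ∃ P' : B → V.toAffine.Point, (∀ s ∈ S, P' s ∈ A s) ∧
                (∀ b ∉ S, P' b = P b + ∑ a ∈ S, k a b • P' a) ∧
                  evl (fun b => (P' b).xRep) G ≠ 0 := by
  classical
  obtain ⟨G', E', h1, h2, h3⟩ := exists_steps W S k hk E G hG hG0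
  obtain ⟨R, M, h4, h5, h6⟩ := exists_grid_many S E' G' h1 h2
  refine ⟨R, _, M, h4, h5, fun b hb => if_pos hb, ?_⟩
  intro F _ _ _ V hV P hP A hA
  obtain ⟨P', h7, h8, h9⟩ := h6 F V P hP A hA
  have hS : ∀ b ∈ S, P' b + ∑ a ∈ S, k a b • P' a = P' b := by
    intro b hb
    rw [Finset.sum_eq_zero, add_zero]
    intro a ha
    rw [hk a ha b hb, zero_smul]
  refine ⟨fun b => P' b + ∑ a ∈ S, k a b • P' a, ?_, ?_, h3 F V hV P' h9⟩
  · intro s hs
    show P' s + ∑ a ∈ S, k a s • P' a ∈ A s
    rw [hS s hs]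
    exact h7 s hs
  · intro b hb
    show P' b + ∑ a ∈ S, k a b • P' a = P b + ∑ a ∈ S, k a b • (P' a + ∑ c ∈ S, k c a • P' c)
    rw [h8 b hb]
    congr 1
    refine Finset.sum_congr rfl fun a ha => ?_
    rw [hS a ha]

end Pool.Agent.Lib.MP_17a322_nt.RV
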