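import Pool.Agent.Lib.MP_17a322_nt.RV.K2b
import Pool.Agent.Lib.MP_17a322_nt.RV.M2a
import Pool.Agent.Lib.MP_17a322_nt.RV.T3

/-!
The bound in a given direction.
-/

namespace Pool.Agent.Lib.MP_17a322_nt.RV

open MvPolynomial WeierstrassCurve Height
open Pool.Agent.Lib.MP_17a322_nt.RO

universe u

theorem M2b_h0 {K : Type u} [Field K] [NumberField K] [DecidableEq K] (V : WeierstrassCurve K) :
    logHeight (0 : V.toAffine.Point).xRep = 0 := by
  rw [Affine.Point.xRep_zero, logHeight_swap, ← logHeight₁_eq_logHeight, logHeight₁_zero]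

/-- A combination of points of small height. -/
theorem M2b_sum {G : Type*} [AddCommGroup G] (h : G → ℝ) (h0 : h 0 = 0) (hb : ∀ P, 0 ≤ h P)
    (C : ℝ) (hC : ∀ P Q : G, |h (P + Q) + h (P - Q) - 2 * h P - 2 * h Q| ≤ C) (s : ℕ)
    (c : Fin s → ℤ) (a a' : Fin s → G) (CA : ℝ) (ha : ∀ j, h (a j) ≤ CA)
    (ha' : ∀ j, h (a' j) ≤ CA) :
    h (∑ j, c j • a j + ∑ j, a' j) ≤
      2 * 2 ^ s * ((∑ j, (c j : ℝ) ^ 2 + s) * (CA + C)) + C := by
  obtain ⟨q, hq, hq0, hqp⟩ := exists_quadratic_explicit h h0 hb C hC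
  have h1 := quad_sum_le q hq0 hqp s c a
  have h2 := quad_sum_le q hq0 hqp s (fun _ => 1) a'
  simp only [one_zsmul, Int.cast_one, one_pow, one_mul] at h2
  have h3 : q (∑ j, c j • a j + ∑ j, a' j) ≤ 2 * q (∑ j, c j • a j) + 2 * q (∑ j, a' j) := by
    have e1 := hqp (∑ j, c j • a j) (∑ j, a' j)
    have e2 := hq0 (∑ j, c j • a j - ∑ j, a' j)
    linarith
  have h4 : ∀ x : G, h x ≤ q x + C := fun x => by
    have := (abs_le.1 (hq x)).1
    linarith
  have h5 : ∀ x : G, q x ≤ h x + C := fun x => by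
    have := (abs_le.1 (hq x)).2
    linarith
  have h6 : ∑ j, (c j : ℝ) ^ 2 * q (a j) ≤ (∑ j, (c j : ℝ) ^ 2) * (CA + C) := by
    rw [Finset.sum_mul]
    exact Finset.sum_le_sum fun j _ => mul_le_mul_of_nonneg_left
      ((h5 _).trans (by have := ha j; linarith)) (sq_nonneg _)
  have h7 : ∑ j, q (a' j) ≤ s * (CA + C) := by
    calc ∑ j, q (a' j) ≤ ∑ _j : Fin s, (CA + C) :=
          Finset.sum_le_sum fun j _ => (h5 _).trans (by have := ha' j; linarith)
      _ = s * (CA + C) := by rw [Finset.sum_const, Finset.card_univ, Fintype.card_fin, nsmul_eq_mul]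
  have h8 : (0 : ℝ) < 2 ^ s := by positivity
  have h9 := mul_le_mul_of_nonneg_left h6 h8.le
  have h10 := mul_le_mul_of_nonneg_left h7 h8.le
  have h11 := h4 (∑ j, c j • a j + ∑ j, a' j)
  nlinarith [h1, h2, h3, h9, h10, h11]

/-- The error term. -/
noncomputable def M2b_K {n s : ℕ} (ℓ : Fin n × Fin s → ℤ) (CA C : ℝ) : ℝ :=
  s * (2 * CA + C) + ∑ i : Fin n, (2 * (2 * 2 ^ s * ((∑ j, (ℓ (i, j) : ℝ) ^ 2 + s) * (CA + C)) + C) + C)
    + n * (s * CA)

theorem M2b_K_mul {n s : ℕ} (ℓ : Fin n × Fin s → ℤ) (CA C N : ℝ) :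
    M2b_K ℓ (CA * N) (C * N) = M2b_K ℓ CA C * N := by
  unfold M2b_K
  rw [add_mul, add_mul, Finset.sum_mul]
  congr 1
  · congr 1
    · ring
    · exact Finset.sum_congr rfl fun i _ => by ring
  · ring

theorem M2b_K_nonneg {n s : ℕ} (ℓ : Fin n × Fin s → ℤ) (CA C : ℝ) (hA : 0 ≤ CA) (hC : 0 ≤ C) :
    0 ≤ M2b_K ℓ CA C := by
  unfold M2b_K
  have : ∀ i : Fin n, 0 ≤ (2 * (2 * 2 ^ s * ((∑ j, (ℓ (i, j) : ℝ) ^ 2 + s) * (CA + C)) + C) + C) := by
    intro i
    have h1 : 0 ≤ ∑ j, (ℓ (i, j) : ℝ) ^ 2 := Finset.sum_nonneg fun j _ => sq_nonneg _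
    positivity
  have h2 := Finset.sum_nonneg fun i (_ : i ∈ Finset.univ) => this i
  positivity

/-- The heights in the group. -/
theorem M2b_group {G : Type*} [AddCommGroup G] (h : G → ℝ) (h0 : h 0 = 0) (hb : ∀ P, 0 ≤ h P)
    (C : ℝ) (hC : ∀ P Q : G, |h (P + Q) + h (P - Q) - 2 * h P - 2 * h Q| ≤ C) {n s : ℕ}
    (j₀ : Fin s) (ℓ : Fin n × Fin s → ℤ) (P : Fin n → G) (Q a : Fin s → G)
    (q : Fin n × Fin s → G) (CA : ℝ) (hCA : 0 ≤ CA) (ha : ∀ j, h (a j) ≤ CA)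
    (hq : ∀ i j, j ≠ j₀ → h (q (i, j)) ≤ CA)
    (hq0 : ∀ i, q (i, j₀) = P i - ∑ j, ℓ (i, j) • (Q j + a j) -
      ∑ j, (if j = j₀ then 0 else q (i, j))) :
    ∑ j, h (Q j + a j) + ∑ p, h (q p) ≤
      2 * (∑ j, h (Q j) + ∑ i, h (P i - ∑ j, ℓ (i, j) • Q j)) + M2b_K ℓ CA C := by
  have hadd : ∀ X Y : G, h (X + Y) ≤ 2 * h X + 2 * h Y + C := fun X Y => by
    have h1 := (abs_le.1 (hC X Y)).2
    have h2 := hb (X - Y)
    linarith
  have hsub : ∀ X Y : G, h (X - Y) ≤ 2 * h X + 2 * h Y + C := fun X Y => by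
    have h1 := (abs_le.1 (hC X Y)).2
    have h2 := hb (X + Y)
    linarith
  have h1 : ∑ j, h (Q j + a j) ≤ 2 * ∑ j, h (Q j) + s * (2 * CA + C) := by
    calc ∑ j, h (Q j + a j) ≤ ∑ j, (2 * h (Q j) + (2 * CA + C)) :=
          Finset.sum_le_sum fun j _ => (hadd _ _).trans (by have := ha j; linarith)
      _ = _ := by
          rw [Finset.sum_add_distrib, Finset.sum_const, Finset.card_univ, Fintype.card_fin,
            nsmul_eq_mul, Finset.mul_sum]
  have h2 : ∀ i, h (q (i, j₀)) ≤ 2 * h (P i - ∑ j, ℓ (i, j) • Q j) +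
      (2 * (2 * 2 ^ s * ((∑ j, (ℓ (i, j) : ℝ) ^ 2 + s) * (CA + C)) + C) + C) := by
    intro i
    have e1 : q (i, j₀) = (P i - ∑ j, ℓ (i, j) • Q j) -
        (∑ j, ℓ (i, j) • a j + ∑ j, (if j = j₀ then 0 else q (i, j))) := by
      rw [hq0 i]
      simp only [smul_add, Finset.sum_add_distrib]
      abel
    rw [e1]
    have e2 := hsub (P i - ∑ j, ℓ (i, j) • Q j)
      (∑ j, ℓ (i, j) • a j + ∑ j, (if j = j₀ then 0 else q (i, j)))
    have e3 := M2b_sum h h0 hb C hC s (fun j => ℓ (i, j)) a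
      (fun j => if j = j₀ then 0 else q (i, j)) CA ha (by
        intro j
        by_cases hj : j = j₀
        · simp only [if_pos hj, h0]
          exact hCA
        · simp only [if_neg hj]
          exact hq i j hj)
    linarith
  have h3 : ∀ i, ∑ j, h (q (i, j)) ≤ h (q (i, j₀)) + s * CA := by
    intro i
    have e1 : ∀ j, h (q (i, j)) ≤ (if j = j₀ then h (q (i, j₀)) else 0) + CA := by
      intro j
      by_cases hj : j = j₀
      · rw [if_pos hj, hj]
        linarith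
      · rw [if_neg hj]
        have := hq i j hj
        linarith
    calc ∑ j, h (q (i, j)) ≤ ∑ j, ((if j = j₀ then h (q (i, j₀)) else 0) + CA) :=
          Finset.sum_le_sum fun j _ => e1 j
      _ = _ := by
          rw [Finset.sum_add_distrib, Finset.sum_ite_eq', if_pos (Finset.mem_univ _),
            Finset.sum_const, Finset.card_univ, Fintype.card_fin, nsmul_eq_mul]
  have h4 : ∑ p, h (q p) ≤ 2 * ∑ i, h (P i - ∑ j, ℓ (i, j) • Q j) +
      ∑ i : Fin n, (2 * (2 * 2 ^ s * ((∑ j, (ℓ (i, j) : ℝ) ^ 2 + s) * (CA + C)) + C) + C) +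
        n * (s * CA) := by
    rw [Fintype.sum_prod_type]
    calc ∑ i, ∑ j, h (q (i, j)) ≤ ∑ i : Fin n, (2 * h (P i - ∑ j, ℓ (i, j) • Q j) +
          (2 * (2 * 2 ^ s * ((∑ j, (ℓ (i, j) : ℝ) ^ 2 + s) * (CA + C)) + C) + C) + s * CA) :=
          Finset.sum_le_sum fun i _ => (h3 i).trans (by have := h2 i; linarith)
      _ = _ := by
          rw [Finset.sum_add_distrib, Finset.sum_add_distrib, Finset.sum_const, Finset.card_univ,
            Fintype.card_fin, nsmul_eq_mul, Finset.mul_sum]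
  unfold M2b_K
  linarith

/-- The translation vectors. -/
def M2b_k {n s : ℕ} (j₀ : Fin s) (ℓ : Fin n × Fin s → ℤ) :
    Fin s ⊕ (Fin n × Fin s) → Fin s ⊕ (Fin n × Fin s) → ℤ := fun a b =>
  Sum.elim (fun _ => 0) (fun ib : Fin n × Fin s => if ib.2 = j₀ then
    Sum.elim (fun j => -ℓ (ib.1, j))
      (fun ia : Fin n × Fin s => if ia.1 = ib.1 ∧ ia.2 ≠ j₀ then -1 else 0) a else 0) b

/-- The blocks which are not `inr (i, j₀)`. -/
def M2b_S {n s : ℕ} (j₀ : Fin s) : Finset (Fin s ⊕ (Fin n × Fin s)) :=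
  Finset.univ.filter fun a => ∀ i : Fin n, a ≠ Sum.inr (i, j₀)

theorem M2b_mem_inl {n s : ℕ} (j₀ j : Fin s) : (Sum.inl j : Fin s ⊕ (Fin n × Fin s)) ∈ M2b_S j₀ :=
  Finset.mem_filter.2 ⟨Finset.mem_univ _, fun _ => Sum.inl_ne_inr⟩

theorem M2b_mem_inr {n s : ℕ} (j₀ : Fin s) (i : Fin n) (j : Fin s) :
    (Sum.inr (i, j) : Fin s ⊕ (Fin n × Fin s)) ∈ M2b_S j₀ ↔ j ≠ j₀ := by
  unfold M2b_S
  rw [Finset.mem_filter]
  constructor
  · rintro ⟨-, h⟩ rfl
    exact h i rfl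
  · intro h
    refine ⟨Finset.mem_univ _, fun i' e => h ?_⟩
    exact (Prod.ext_iff.1 (Sum.inr_injective e)).2

theorem M2b_sum_k {n s : ℕ} {G : Type*} [AddCommGroup G] (j₀ : Fin s) (ℓ : Fin n × Fin s → ℤ)
    (P' : Fin s ⊕ (Fin n × Fin s) → G) (i : Fin n) :
    ∑ a ∈ M2b_S j₀, M2b_k j₀ ℓ a (Sum.inr (i, j₀)) • P' a =
      -∑ j, ℓ (i, j) • P' (Sum.inl j) -
        ∑ j, (if j = j₀ then 0 else P' (Sum.inr (i, j))) := by
  have h1 : ∑ a ∈ M2b_S j₀, M2b_k j₀ ℓ a (Sum.inr (i, j₀)) • P' a =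
      ∑ a, M2b_k j₀ ℓ a (Sum.inr (i, j₀)) • P' a := by
    refine Finset.sum_subset (Finset.subset_univ _) fun a _ ha => ?_
    rcases a with j | ⟨i', j⟩
    · exact absurd (M2b_mem_inl j₀ j) ha
    · rw [M2b_mem_inr, not_not] at ha
      subst ha
      simp [M2b_k]
  rw [h1, Fintype.sum_sum_type, Fintype.sum_prod_type, sub_eq_add_neg]
  congr 1
  · rw [← Finset.sum_neg_distrib]
    exact Finset.sum_congr rfl fun j _ => by simp [M2b_k]
  · rw [Finset.sum_eq_single i, ← Finset.sum_neg_distrib]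
    · refine Finset.sum_congr rfl fun j _ => ?_
      by_cases hj : j = j₀
      · simp [M2b_k, hj]
      · simp [M2b_k, hj]
    · intro i' _ hi'
      refine Finset.sum_eq_zero fun j _ => ?_
      simp [M2b_k, hi']
    · intro hi
      exact absurd (Finset.mem_univ _) hi

/-- The bound in the direction `ℓ`.
Proof. Let `J = Fin s`, `B = Fin n × Fin s`, colour `c = Prod.snd`, `j₀ = ⟨0, hs⟩`. Take `G`, `C` from
`core` (RV/K2b). Apply `exists_grid` (RV/T3) to `G`, the set `Sf` of all blocks except the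
`inr (i, j₀)`, and `k (inl j) (inr (i, j₀)) = -ℓ (i, j)`, `k (inr (i', j)) (inr (i, j₀)) = -1` if `i' = i` and
`j ≠ j₀`, all other values `0`; `exists_restrict` gives the form `R₁`, and `M` is the bound for the sets.
Given `P`, `Q`, `A` apply `exists_grid` to the family with value `P i` at `inr (i, j₀)` and `0` at the
other blocks, with the sets `{Q j + a | a ∈ A}` for `inl j` and `A` for `inr (i, j)`, `j ≠ j₀` (all have more
than `M` elements). We get `Q' j = P' (inl j) = Q j + a j`, `q (i, j) = P' (inr (i, j))` with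
`q (i, j₀) = P i - ∑_j ℓ (i, j) • Q' j - ∑_{j ≠ j₀} q (i, j)`. Let `PP (i, j) = ℓ (i, j) • Q' j + q (i, j)`;
then `∑_j PP (i, j) = P i` and `PP (i, j) - ℓ (i, j) • Q' j = q (i, j)`, so `core` gives
`dfc D' g' (x(PP)) ≤ b (∑_j h(Q' j) + ∑ h(q (i, j))) + C [L : ℚ]` and some `g' k` does not vanish at
`x(PP)`; `hpull` gives the bound for `dfc D g (x(P))`. Heights, with `parallelogram_unif`
(`h(X + Y) ≤ 2 h(X) + 2 h(Y) + C [L : ℚ]`, as `h(X - Y) ≥ 0`): `h(Q' j) ≤ 2 h(Q j) + C [L : ℚ]`,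
`h(q (i, j)) ≤ CA [L : ℚ]` for `j ≠ j₀`, and
`q (i, j₀) = (P i - ∑_j ℓ (i, j) • Q j) - (∑_j ℓ (i, j) • a j + ∑_{j ≠ j₀} q (i, j))`, where the last sum
has height at most `C [L : ℚ]` (apply `exists_quadratic_explicit` and `quad_sum_le`, RV/U4, or the
parallelogram law repeatedly). -/
theorem direction_bound {K : Type u} [Field K] [NumberField K]
    (W : WeierstrassCurve K) [W.IsElliptic] (n s : ℕ) (hs : 0 < s) {κ κ' : Type}
    [Fintype κ] [Fintype κ'] (D : Fin n → ℕ) (g : κ → MvPolynomial (Fin n × Fin 2) K)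
    (D' : Fin n × Fin s → ℕ) (g' : κ' → MvPolynomial ((Fin n × Fin s) × Fin 2) K)
    (hg' : ∀ k, MH (g' k) D')
    (hpull : ∃ C : ℝ, 0 ≤ C ∧ ∀ (L : Type u) [Field L] [NumberField L] [DecidableEq L]
      [Algebra K L] (V : WeierstrassCurve L), W.map (algebraMap K L) = V →
        ∀ P : Fin n × Fin s → V.toAffine.Point,
          (∃ k, evl (fun b' => (P b').xRep) (g' k) ≠ 0) →
            (∃ k, evl (fun b => (∑ b' : Fin n × Fin s with b'.1 = b, P b').xRep) (g k) ≠ 0) ∧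
              dfc D g (fun b => (∑ b' : Fin n × Fin s with b'.1 = b, P b').xRep) ≤
                dfc D' g' (fun b' => (P b').xRep) + C * Module.finrank ℚ L)
    (d C₁ e₀ : ℕ) (hD' : ∀ i, D' i ≤ e₀) (hilb : Hilb D' g' d C₁ e₀)
    (b : ℕ) (hb : 1 ≤ b) (hbe : e₀ ≤ 2 * (b - 1)) (ℓ : Fin n × Fin s → ℤ)
    (hcard : 4 ^ Fintype.card (Fin n × Fin s) *
            (∏ j : Fin s, (b + ∑ i : Fin n × Fin s with i.2 = j,
              2 * (ℓ i).natAbs ^ 2 * b + 1)) *
            (C₁ * (2 * b + 1) ^ d) <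
          (b + 1) ^ (Fintype.card (Fin s) + Fintype.card (Fin n × Fin s))) :
    ∃ (R₁ : MvPolynomial (Fin n × Fin 2) K) (E : Fin n → ℕ) (M : ℕ), MH R₁ E ∧ R₁ ≠ 0 ∧
      ∀ CA : ℝ, ∃ C : ℝ, 0 ≤ C ∧ ∀ (L : Type u) [Field L] [NumberField L] [DecidableEq L]
        [Algebra K L] (V : WeierstrassCurve L), W.map (algebraMap K L) = V →
        ∀ (P : Fin n → V.toAffine.Point) (Q : Fin s → V.toAffine.Point)
          (A : Finset V.toAffine.Point), M < A.card →
          (∀ a ∈ A, logHeight a.xRep ≤ CA * Module.finrank ℚ L) →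
          evl (fun i => (P i).xRep) R₁ ≠ 0 →
            dfc D g (fun i => (P i).xRep) ≤
              2 * b * (∑ j, logHeight (Q j).xRep +
                ∑ i, logHeight (P i - ∑ j, ℓ (i, j) • Q j).xRep) + C * Module.finrank ℚ L := by
  classical
  set j₀ : Fin s := ⟨0, hs⟩ with hj₀
  obtain ⟨G, hG, hG0, Cc, hCc, hcore⟩ := core W (J := Fin s) (B := Fin n × Fin s) Prod.snd D' g' hg'
    d C₁ e₀ hD' hilb ℓ b hb hbe hcard
  obtain ⟨Cp, hCp, hpl⟩ := hpull
  obtain ⟨Cq, hCq, hpar⟩ := parallelogram_unif W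
  obtain ⟨R, E', M, hR, hR0, hE', hgrid⟩ := exists_grid W (M2b_S j₀) (M2b_k j₀ ℓ)
    (by
      intro a _ b' hb'
      rcases b' with j | ⟨i, j⟩
      · rfl
      · rw [M2b_mem_inr] at hb'
        simp [M2b_k, hb']) (fun _ => b) G hG hG0
  obtain ⟨R₁, hR₁, hR₁0, hres⟩ := exists_restrict n s hs E' R hR hR0
    (fun j => hE' _ (M2b_mem_inl j₀ j)) (fun i j hj => hE' _ ((M2b_mem_inr j₀ i j).2 hj))
  refine ⟨R₁, fun i => E' (Sum.inr (i, j₀)), M, hR₁, hR₁0, fun CA => ?_⟩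
  refine ⟨b * M2b_K ℓ (max CA 0) Cq + Cc + Cp, ?_, ?_⟩
  · have := M2b_K_nonneg ℓ (max CA 0) Cq (le_max_right _ _) hCq
    positivity
  intro L _ _ _ _ V hV P Q A hA hAh hne
  set N : ℝ := (Module.finrank ℚ L : ℝ) with hN
  have hN0 : 0 ≤ N := Nat.cast_nonneg _
  have hAh' : ∀ a ∈ A, logHeight a.xRep ≤ max CA 0 * N := fun a ha =>
    (hAh a ha).trans (mul_le_mul_of_nonneg_right (le_max_left _ _) hN0)
  -- the family on the grid
  set P₀ : Fin s ⊕ (Fin n × Fin s) → V.toAffine.Point :=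
    Sum.elim (fun _ => 0) (fun p => if p.2 = j₀ then P p.1 else 0) with hP₀
  have hRne : evl (fun b => (P₀ b).xRep) R ≠ 0 := by
    rw [← hres L (fun b => (P₀ b).xRep)]
    have e : (fun i => (P₀ (Sum.inr (i, ⟨0, hs⟩))).xRep) = fun i => (P i).xRep := by
      funext i
      simp [hP₀, ← hj₀]
    rw [e]
    exact hne
  obtain ⟨P', hP'A, hP'b, hP'G⟩ := hgrid L V hV P₀ hRne
    (Sum.elim (fun j => A.map (addLeftEmbedding (Q j))) (fun _ => A)) (by
      intro a _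
      rcases a with j | p
      · simpa using hA
      · simpa using hA)
  have hQ' : ∀ j, ∃ a ∈ A, Q j + a = P' (Sum.inl j) := by
    intro j
    have h1 := hP'A _ (M2b_mem_inl j₀ j)
    simp only [Sum.elim_inl, Finset.mem_map, addLeftEmbedding_apply] at h1
    exact h1
  choose a haA haQ using hQ'
  have hqA : ∀ i j, j ≠ j₀ → P' (Sum.inr (i, j)) ∈ A := by
    intro i j hj
    have h1 := hP'A _ ((M2b_mem_inr j₀ i j).2 hj)
    simpa using h1
  have hq0 : ∀ i, P' (Sum.inr (i, j₀)) = P i - ∑ j, ℓ (i, j) • (Q j + a j) -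
      ∑ j, (if j = j₀ then 0 else P' (Sum.inr (i, j))) := by
    intro i
    have h1 := hP'b (Sum.inr (i, j₀)) (by rw [M2b_mem_inr]; simp)
    rw [h1, M2b_sum_k]
    have e : P₀ (Sum.inr (i, j₀)) = P i := by simp [hP₀]
    rw [e]
    simp only [haQ]
    abel
  -- the family PP
  set PP : Fin n × Fin s → V.toAffine.Point := fun p =>
    ℓ p • P' (Sum.inl p.2) + P' (Sum.inr p) with hPP
  have hPPq : ∀ p, PP p - ℓ p • P' (Sum.inl p.2) = P' (Sum.inr p) := fun p => by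
    rw [hPP]
    exact add_sub_cancel_left _ _
  have hPPs : ∀ i, ∑ b' : Fin n × Fin s with b'.1 = i, PP b' = P i := by
    intro i
    rw [Finset.sum_filter, Fintype.sum_prod_type, Finset.sum_eq_single i]
    · simp only [if_true]
      have e1 : ∑ j, PP (i, j) = ∑ j, ℓ (i, j) • (Q j + a j) + ∑ j, P' (Sum.inr (i, j)) := by
        rw [← Finset.sum_add_distrib]
        exact Finset.sum_congr rfl fun j _ => by rw [haQ]
      have e2 : ∑ j, P' (Sum.inr (i, j)) = P' (Sum.inr (i, j₀)) +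
          ∑ j, (if j = j₀ then 0 else P' (Sum.inr (i, j))) := by
        have e3 : ∀ j, P' (Sum.inr (i, j)) = (if j = j₀ then P' (Sum.inr (i, j₀)) else 0) +
            (if j = j₀ then 0 else P' (Sum.inr (i, j))) := by
          intro j
          by_cases hj : j = j₀
          · simp [hj]
          · simp [hj]
        rw [Finset.sum_congr rfl fun j _ => e3 j, Finset.sum_add_distrib, Finset.sum_ite_eq',
          if_pos (Finset.mem_univ _)]
      rw [e1, e2, hq0 i]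
      abel
    · intro i' _ hi'
      exact Finset.sum_eq_zero fun j _ => if_neg hi'
    · intro hi
      exact absurd (Finset.mem_univ _) hi
  have hGne : evl (Sum.elim (fun j => (P' (Sum.inl j)).xRep)
      (fun p => (PP p - ℓ p • P' (Sum.inl p.2)).xRep)) G ≠ 0 := by
    have e : Sum.elim (fun j => (P' (Sum.inl j)).xRep)
        (fun p => (PP p - ℓ p • P' (Sum.inl p.2)).xRep) = fun b => (P' b).xRep := by
      funext o
      rcases o with j | p
      · rfl
      · rw [Sum.elim_inr, hPPq]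
    rw [e]
    exact hP'G
  obtain ⟨hc1, hc2⟩ := hcore L V hV (fun j => P' (Sum.inl j)) PP hGne
  obtain ⟨-, hp2⟩ := hpl L V hV PP hc1
  simp only [hPPs] at hp2
  simp only [hPPq] at hc2
  have hgr := M2b_group (fun X : V.toAffine.Point => logHeight X.xRep) (M2b_h0 V)
    (fun X => logHeight_nonneg _) (Cq * N) (hpar L V hV) j₀ ℓ P Q a
    (fun p => P' (Sum.inr p)) (max CA 0 * N) (mul_nonneg (le_max_right _ _) hN0)
    (fun j => hAh' _ (haA j)) (fun i j hj => hAh' _ (hqA i j hj)) hq0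
  rw [M2b_K_mul] at hgr
  simp only [haQ] at hgr
  have hb0 : (0 : ℝ) ≤ b := Nat.cast_nonneg _
  have h5 := mul_le_mul_of_nonneg_left hgr hb0
  calc dfc D g (fun i => (P i).xRep) ≤ _ := hp2
    _ ≤ _ := add_le_add_left hc2 _
    _ ≤ _ := by
        rw [mul_add] at h5
        nlinarith [h5]

end Pool.Agent.Lib.MP_17a322_nt.RV
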