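import Pool.Agent.Lib.MP_17a322_nt.RV.Defs
import Pool.Agent.Lib.MP_17a322_nt.RO.B1
import Pool.Agent.Lib.MP_17a322_nt.RO.E0
import Pool.Agent.Lib.MP_17a322_nt.RO.G1
import Pool.Agent.Lib.MP_17a322_nt.RO.G5

/-!
The dimension of the pulled back zero set.
-/

namespace Pool.Agent.Lib.MP_17a322_nt.RV

open MvPolynomial WeierstrassCurve
open Pool.Agent.Lib.MP_17a322_nt.RO

universe u

/-- The vector `xRep` is `(1, 0)` or `(v, 1)` with `v` the ratio of its entries. -/
theorem S2_cases {F : Type*} [Field F] {V : WeierstrassCurve F} (P : V.toAffine.Point) :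
    P.xRep = ![1, 0] ∨ P.xRep = ![P.xRep 0 / P.xRep 1, 1] := by
  cases P with
  | zero =>
    left
    rw [← Affine.Point.zero_def]
    exact Affine.Point.xRep_zero
  | some x y h =>
    right
    simp

theorem S2_mem {K F : Type*} [Field K] [Field F] [Algebra K F] (F₀ : IntermediateField K F)
    {V : WeierstrassCurve F} (P : V.toAffine.Point) (h : P.xRep 0 / P.xRep 1 ∈ F₀) :
    ∀ i, P.xRep i ∈ F₀ := by
  intro i
  rcases S2_cases P with h1 | h1
  · rw [h1]
    fin_cases i
    · exact F₀.one_mem
    · exact F₀.zero_mem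
  · rw [h1]
    fin_cases i
    · exact h
    · exact F₀.one_mem

theorem S2_mono {K F : Type*} [Field K] [Field F] [Algebra K F] {L₁ L₂ : IntermediateField K F}
    (h : L₁ ≤ L₂) (x : F) (hx : IsAlgebraic L₁ x) : IsAlgebraic L₂ x := by
  obtain ⟨p, hp0, hp⟩ := hx
  refine ⟨p.map (IntermediateField.inclusion h).toRingHom, ?_, ?_⟩
  · exact (Polynomial.map_ne_zero_iff (IntermediateField.inclusion_injective h)).2 hp0
  · rw [Polynomial.aeval_def, Polynomial.eval₂_map]
    exact hp

/-- Proof. Let `z` be a common zero of the `g'` over `F` algebraically closed. By `exists_point`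
(RO/B1) for `V = W.map (algebraMap K F)` every `z (some b)` is a nonzero multiple of `(P b).xRep` and
`z none` of `A.xRep`; by `evl_smul` (RO/E0, with `hg'`) the `g'` vanish at the `xRep`, so
`g_k(y) g_l(y') + g_l(y) g_k(y') = 0` for all `k`, `l`. If some `g_k(y) ≠ 0` then `k = l` gives
`g_k(y') = 0` (characteristic `0`) and then `g_l(y') = 0` for all `l`; so `y` or `y'` is a common zero of
the `g`. Apply `hdim` to it and get `t`, `t.card < m`; let `t' = insert (A.xRep 0 / A.xRep 1) t` and
`F₀` the algebraic closure of `K(t')` in `F` (elements of `F` algebraic over `K(t')`). For `b ≠ b₀` the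
ratio of `z (some b)` is that of `y b`; the ratio of `z none` is in `t'`; `x(P_{b₀})` has its
coordinates in `F₀` by `xRep_zsmul_add_mem` or `xRep_add_mem` (RO/G1), since `P_{b₀} = (P_{b₀} ± A) ∓ A`
(`xRep` of a point has last entry `0` or `1`, first entry `1` if the last is `0`, so an algebraic
ratio means that both entries are in `F₀`). -/
theorem dim_sumForms {K : Type u} [Field K] [CharZero K] (W : WeierstrassCurve K)
    [W.IsElliptic] {B κ : Type} [Fintype B] [DecidableEq B] (D : B → ℕ)
    (g : κ → MvPolynomial (B × Fin 2) K) (b₀ : B)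
    (g' : κ × κ → MvPolynomial (Option B × Fin 2) K)
    (hg' : ∀ k, MH (g' k) (fun o => 2 * D (o.getD b₀)))
    (hval : ∀ (F : Type u) [Field F] [DecidableEq F] [Algebra K F] (V : WeierstrassCurve F),
        W.map (algebraMap K F) = V → ∀ (P : B → V.toAffine.Point) (A : V.toAffine.Point),
          ∃ γ : F, γ ≠ 0 ∧ ∀ k l,
            evl (pv A.xRep (fun b => (P b).xRep)) (g' (k, l)) =
              γ * (evl (fun b => (Function.update P b₀ (P b₀ + A) b).xRep) (g k) *
                    evl (fun b => (Function.update P b₀ (P b₀ - A) b).xRep) (g l) +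
                  evl (fun b => (Function.update P b₀ (P b₀ + A) b).xRep) (g l) *
                    evl (fun b => (Function.update P b₀ (P b₀ - A) b).xRep) (g k)))
    (m : ℕ) (hdim : DimLT g m) : DimLT g' (m + 1) := by
  intro F _ _ _ z hz hzero
  classical
  have : CharZero F := charZero_of_injective_algebraMap (algebraMap K F).injective
  choose R c hc hR using fun o => exists_point (W.map (algebraMap K F)) (z o) (hz o)
  set P : B → (W.map (algebraMap K F)).toAffine.Point := fun b => R (some b) with hP
  set A : (W.map (algebraMap K F)).toAffine.Point := R none with hA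
  have hpv : (fun o => (R o).xRep) = pv A.xRep (fun b => (P b).xRep) := by
    funext o
    cases o <;> rfl
  have h1 : ∀ k l, evl (pv A.xRep (fun b => (P b).xRep)) (g' (k, l)) = 0 := by
    intro k l
    have h2 := evl_smul _ (g' (k, l)) (hg' (k, l)) c (fun o => (R o).xRep)
    have h3 : (fun o => c o • (R o).xRep) = z := by
      funext o
      exact (hR o).symm
    rw [h3, hzero, hpv] at h2
    exact (mul_eq_zero.1 h2.symm).resolve_left
      (Finset.prod_ne_zero_iff.2 fun o _ => pow_ne_zero _ (hc o))
  obtain ⟨γ, hγ, hval'⟩ := hval F (W.map (algebraMap K F)) rfl P A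
  set y : Bool → B → (W.map (algebraMap K F)).toAffine.Point := fun s =>
    Function.update P b₀ (P b₀ + sg s A) with hy
  have hyt : y true = Function.update P b₀ (P b₀ + A) := rfl
  have hyf : y false = Function.update P b₀ (P b₀ - A) := by
    simp only [hy, sg, sub_eq_add_neg]
    rfl
  have h2 : ∀ k l, evl (fun b => (y true b).xRep) (g k) * evl (fun b => (y false b).xRep) (g l) +
      evl (fun b => (y true b).xRep) (g l) * evl (fun b => (y false b).xRep) (g k) = 0 := by
    intro k l
    have h3 := hval' k l
    rw [h1] at h3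
    rw [hyt, hyf]
    exact (mul_eq_zero.1 h3.symm).resolve_left hγ
  have h3 : ∃ s : Bool, ∀ k, evl (fun b => (y s b).xRep) (g k) = 0 := by
    by_cases hall : ∀ k, evl (fun b => (y true b).xRep) (g k) = 0
    · exact ⟨true, hall⟩
    · push Not at hall
      obtain ⟨k, hk⟩ := hall
      have h4 : evl (fun b => (y false b).xRep) (g k) = 0 := by
        have h5 := h2 k k
        have h6 : (2 : F) * (evl (fun b => (y true b).xRep) (g k) *
            evl (fun b => (y false b).xRep) (g k)) = 0 := by linear_combination h5
        exact (mul_eq_zero.1 ((mul_eq_zero.1 h6).resolve_left two_ne_zero)).resolve_left hk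
      refine ⟨false, fun l => ?_⟩
      have h5 := h2 k l
      rw [h4, mul_zero, add_zero] at h5
      exact (mul_eq_zero.1 h5).resolve_left hk
  obtain ⟨s, hs⟩ := h3
  obtain ⟨t, htc, ht⟩ := hdim F (fun b => (y s b).xRep) (fun b => Affine.Point.xRep_ne_zero _) hs
  set F₀ := G5_cl (IntermediateField.adjoin K ((insert (A.xRep 0 / A.xRep 1) t : Finset F) : Set F))
    with hF₀
  have hle : IntermediateField.adjoin K (t : Set F) ≤
      IntermediateField.adjoin K ((insert (A.xRep 0 / A.xRep 1) t : Finset F) : Set F) := by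
    refine IntermediateField.adjoin.mono K _ _ ?_
    intro x hx
    rw [Finset.coe_insert]
    exact Or.inr hx
  have hy0 : ∀ b, (y s b).xRep 0 / (y s b).xRep 1 ∈ F₀ := by
    intro b
    rw [hF₀, G5_mem_cl]
    exact S2_mono hle _ (ht b)
  have hA0 : A.xRep 0 / A.xRep 1 ∈ F₀ := by
    refine G5_le_cl _ _ (IntermediateField.subset_adjoin K _ ?_)
    rw [Finset.coe_insert]
    exact Or.inl rfl
  have hAm := S2_mem F₀ A hA0
  have hPm : ∀ b, (P b).xRep 0 / (P b).xRep 1 ∈ F₀ := by
    intro b
    by_cases hb : b = b₀
    · subst hb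
      have h4 : (y s b) + sg (!s) A = P b := by
        simp only [hy, Function.update_self]
        cases s
        · simp [sg]
        · simp [sg]
      have hsA : ∀ i, (sg (!s) A).xRep i ∈ F₀ := by
        intro i
        cases s
        · exact hAm i
        · have : (sg (!true) A).xRep = A.xRep := Affine.Point.xRep_neg A
          rw [this]
          exact hAm i
      have h5 := xRep_add_mem W F₀ (G5_closed _) (y s b) (sg (!s) A) (S2_mem F₀ _ (hy0 b)) hsA
      rw [h4] at h5
      exact F₀.div_mem (h5 0) (h5 1)
    · have h4 : y s b = P b := by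
        simp only [hy]
        exact Function.update_of_ne hb _ _
      have h5 := hy0 b
      rwa [h4] at h5
  have hRm : ∀ o, (R o).xRep 0 / (R o).xRep 1 ∈ F₀ := by
    intro o
    cases o with
    | none => exact hA0
    | some b => exact hPm b
  refine ⟨insert (A.xRep 0 / A.xRep 1) t, ?_, fun o => ?_⟩
  · exact lt_of_le_of_lt (Finset.card_insert_le _ _) (by omega)
  · have h4 : z o 0 / z o 1 = (R o).xRep 0 / (R o).xRep 1 := by
      rw [hR o]
      simp only [Pi.smul_apply, smul_eq_mul]
      exact mul_div_mul_left _ _ (hc o)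
    rw [h4, ← G5_mem_cl]
    exact hRm o

end Pool.Agent.Lib.MP_17a322_nt.RV
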