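import Pool.Agent.Lib.MP_17a322_nt.RV.S1
import Pool.Agent.Lib.MP_17a322_nt.RV.S2
import Pool.Agent.Lib.MP_17a322_nt.RV.S3

/-!
Pulling back forms by a sum map.
-/

namespace Pool.Agent.Lib.MP_17a322_nt.RV

open MvPolynomial WeierstrassCurve Height
open Pool.Agent.Lib.MP_17a322_nt.RO

universe u

/-- Renaming the blocks by an equivalence. -/
noncomputable def S4_ren {K : Type*} [Field K] {B₁ B₂ : Type} (e : B₁ ≃ B₂)
    (φ : MvPolynomial (B₂ × Fin 2) K) : MvPolynomial (B₁ × Fin 2) K :=
  rename (fun p : B₂ × Fin 2 => (e.symm p.1, p.2)) φ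

theorem S4_mh {K : Type*} [Field K] {B₁ B₂ : Type} [DecidableEq B₁] [DecidableEq B₂] (e : B₁ ≃ B₂)
    (D : B₂ → ℕ) (φ : MvPolynomial (B₂ × Fin 2) K) (hφ : MH φ D) :
    MH (S4_ren e φ) (fun b => D (e b)) := by
  intro m hm
  classical
  obtain ⟨m', rfl, hm'⟩ := coeff_rename_ne_zero _ _ _ hm
  have h := hφ hm'
  rw [← h]
  funext o
  rw [Finsupp.weight_apply, Finsupp.weight_apply]
  rw [Finsupp.sum_mapDomain_index (by simp) (by intros; rw [add_smul])]
  simp only [Finsupp.sum, Finset.sum_apply, Pi.smul_apply, bwt]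
  refine Finset.sum_congr rfl fun p _ => ?_
  by_cases hpb : p.1 = e o
  · rw [hpb, Equiv.symm_apply_apply, Pi.single_eq_same, Pi.single_eq_same]
  · rw [Pi.single_eq_of_ne (fun h => hpb (by rw [h, Equiv.apply_symm_apply])),
      Pi.single_eq_of_ne (fun h => hpb h.symm)]

theorem S4_evl {K A : Type*} [Field K] [CommSemiring A] [Algebra K A] {B₁ B₂ : Type} (e : B₁ ≃ B₂)
    (φ : MvPolynomial (B₂ × Fin 2) K) (x : B₁ → Fin 2 → A) :
    evl x (S4_ren e φ) = evl (fun b => x (e.symm b)) φ := by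
  unfold evl S4_ren
  rw [aeval_rename]
  rfl

theorem S4_dim {K : Type u} [Field K] {B₁ B₂ κ : Type} (e : B₁ ≃ B₂)
    (g : κ → MvPolynomial (B₂ × Fin 2) K) (m : ℕ) (h : DimLT g m) :
    DimLT (fun k => S4_ren e (g k)) m := by
  intro F _ _ _ z hz hz0
  obtain ⟨t, ht, ht'⟩ := h F (fun b => z (e.symm b)) (fun b => hz _)
    (fun k => by rw [← S4_evl]; exact hz0 k)
  refine ⟨t, ht, fun b => ?_⟩
  have := ht' (e b)
  rwa [Equiv.symm_apply_apply] at this

theorem S4_dfc {K L : Type*} [Field K] [Field L] [Algebra K L] [AdmissibleAbsValues L]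
    {B₁ B₂ κ : Type} [Fintype B₁] [Fintype B₂] (e : B₁ ≃ B₂) (D : B₂ → ℕ)
    (g : κ → MvPolynomial (B₂ × Fin 2) K) (x : B₁ → Fin 2 → L) :
    dfc (fun b => D (e b)) (fun k => S4_ren e (g k)) x = dfc D g (fun b => x (e.symm b)) := by
  unfold dfc
  congr 1
  · rw [← Equiv.sum_comp e]
    exact Finset.sum_congr rfl fun b _ => by simp only [Equiv.symm_apply_apply]
  · congr 1
    funext k
    exact S4_evl e (g k) x

theorem S4_sum {G : Type*} [AddCommGroup G] {B B' : Type} [DecidableEq B]
    [Fintype B'] [DecidableEq B'] (π : B' → B) (b₂ : B') (b₁ : {b' // b' ≠ b₂})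
    (h : π b₁ = π b₂) (P : B' → G) (b : B) :
    ∑ b'' ∈ Finset.univ.filter (fun b'' : {b' // b' ≠ b₂} => π b'' = b),
      Function.update (fun b'' : {b' // b' ≠ b₂} => P b'') b₁ (P b₁ + P b₂) b'' =
        ∑ b' with π b' = b, P b' := by
  rw [Finset.sum_filter, Finset.sum_filter]
  rw [← Equiv.sum_comp (Equiv.optionSubtypeNe b₂), Fintype.sum_option]
  have h1 : ∀ b'' : {b' // b' ≠ b₂},
      (if π b'' = b then
        Function.update (fun b'' : {b' // b' ≠ b₂} => P b'') b₁ (P b₁ + P b₂) b'' else 0) =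
        (if π b'' = b then P b'' else 0) +
          (if b'' = b₁ then (if π b₂ = b then P b₂ else 0) else 0) := by
    intro b''
    by_cases e : b'' = b₁
    · subst e
      rw [Function.update_self, h, if_pos rfl]
      by_cases e1 : π b₂ = b
      · rw [if_pos e1, if_pos e1, if_pos e1]
      · rw [if_neg e1, if_neg e1, if_neg e1, add_zero]
    · rw [Function.update_of_ne e, if_neg e, add_zero]
  rw [Finset.sum_congr rfl fun b'' _ => h1 b'', Finset.sum_add_distrib, Finset.sum_ite_eq',
    if_pos (Finset.mem_univ _), add_comm]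
  congr 1

/-- The conclusion for one map of blocks. -/
def S4_PB {K : Type u} [Field K] [NumberField K] (W : WeierstrassCurve K)
    {B κ : Type} [Fintype B] [DecidableEq B] [Fintype κ] (D : B → ℕ)
    (g : κ → MvPolynomial (B × Fin 2) K) (m : ℕ)
    (B' : Type) [Fintype B'] [DecidableEq B'] (π : B' → B) : Prop :=
    ∃ (κ' : Type) (_ : Fintype κ') (D' : B' → ℕ) (g' : κ' → MvPolynomial (B' × Fin 2) K),
      (∀ k, MH (g' k) D') ∧ DimLT g' (m + (Fintype.card B' - Fintype.card B)) ∧
        ∃ C : ℝ, 0 ≤ C ∧ ∀ (L : Type u) [Field L] [NumberField L] [DecidableEq L] [Algebra K L]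
          (V : WeierstrassCurve L), W.map (algebraMap K L) = V → ∀ P : B' → V.toAffine.Point,
            (∃ k, evl (fun b' => (P b').xRep) (g' k) ≠ 0) →
              (∃ k, evl (fun b => (∑ b' with π b' = b, P b').xRep) (g k) ≠ 0) ∧
                dfc D g (fun b => (∑ b' with π b' = b, P b').xRep) ≤
                  dfc D' g' (fun b' => (P b').xRep) + C * Module.finrank ℚ L

theorem S4_equiv {K : Type u} [Field K] [NumberField K] (W : WeierstrassCurve K)
    {B κ : Type} [Fintype B] [DecidableEq B] [Fintype κ] (D : B → ℕ)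
    (g : κ → MvPolynomial (B × Fin 2) K) (hg : ∀ k, MH (g k) D) (m : ℕ) (hdim : DimLT g m)
    (B' : Type) [Fintype B'] [DecidableEq B'] (π : B' → B) (hπ : Function.Bijective π) :
    S4_PB W D g m B' π := by
  set e : B' ≃ B := Equiv.ofBijective π hπ with he
  refine ⟨κ, inferInstance, fun b => D (e b), fun k => S4_ren e (g k),
    fun k => S4_mh e D (g k) (hg k), ?_, 0, le_rfl, ?_⟩
  · rw [Fintype.card_congr e, Nat.sub_self, add_zero]
    exact S4_dim e g m hdim
  · intro L _ _ _ _ V hV P hP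
    have h1 : ∀ b, ∑ b' with π b' = b, P b' = P (e.symm b) := by
      intro b
      have h2 : (Finset.univ.filter fun b' => π b' = b) = {e.symm b} := by
        ext b'
        rw [Finset.mem_filter, Finset.mem_singleton, Equiv.eq_symm_apply]
        exact ⟨fun h => h.2, fun h => ⟨Finset.mem_univ _, h⟩⟩
      rw [h2, Finset.sum_singleton]
    simp only [h1]
    refine ⟨?_, ?_⟩
    · obtain ⟨k, hk⟩ := hP
      rw [S4_evl] at hk
      exact ⟨k, hk⟩
    · rw [S4_dfc, zero_mul, add_zero]

theorem S4_step {K : Type u} [Field K] [NumberField K] (W : WeierstrassCurve K) [W.IsElliptic]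
    {B κ : Type} [Fintype B] [DecidableEq B] [Fintype κ] (D : B → ℕ)
    (g : κ → MvPolynomial (B × Fin 2) K) (m : ℕ)
    (B' : Type) [Fintype B'] [DecidableEq B'] (π : B' → B) (b₂ : B')
    (b₁ : {b' // b' ≠ b₂}) (h : π b₁ = π b₂)
    (hcard : Fintype.card B ≤ Fintype.card {b' // b' ≠ b₂})
    (ih : S4_PB W D g m {b' // b' ≠ b₂} (fun b => π b)) :
    S4_PB W D g m B' π := by
  obtain ⟨κ'', _, D'', g'', hg'', hdim'', C, hC, hlow⟩ := ih
  obtain ⟨g₃, hg₃, hval⟩ := exists_sumForms W D'' g'' hg'' b₁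
  have hdim₃ := dim_sumForms W D'' g'' b₁ g₃ hg₃ hval _ hdim''
  obtain ⟨C₃, hC₃, hh⟩ := height_sumForms W D'' g'' hg'' b₁ g₃ hval
  set e : B' ≃ Option {b' // b' ≠ b₂} := (Equiv.optionSubtypeNe b₂).symm with he
  refine ⟨κ'' × κ'', inferInstance, fun b => 2 * D'' ((e b).getD b₁),
    fun k => S4_ren e (g₃ k), fun k => S4_mh e _ (g₃ k) (hg₃ k), ?_, C + C₃, add_nonneg hC hC₃, ?_⟩
  · have h1 : Fintype.card B' = Fintype.card {b' // b' ≠ b₂} + 1 := by
      rw [Fintype.card_congr e, Fintype.card_option]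
    have h2 : m + (Fintype.card B' - Fintype.card B) =
        m + (Fintype.card {b' // b' ≠ b₂} - Fintype.card B) + 1 := by omega
    rw [h2]
    exact S4_dim e g₃ _ hdim₃
  · intro L _ _ _ _ V hV P hP
    have hx : (fun b => (P (e.symm b)).xRep) =
        pv (P b₂).xRep (fun b : {b' // b' ≠ b₂} => (P b).xRep) := by
      funext o
      cases o with
      | none => rfl
      | some b => rfl
    obtain ⟨k, hk⟩ := hP
    rw [S4_evl, hx] at hk
    obtain ⟨h1, h2⟩ := hh L V hV (fun b => P b) (P b₂) ⟨k, hk⟩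
    obtain ⟨h3, h4⟩ := hlow L V hV _ h1
    simp only [S4_sum π b₂ b₁ h P] at h3 h4
    refine ⟨h3, h4.trans ?_⟩
    have h5 : dfc (fun b => 2 * D'' ((e b).getD b₁)) (fun k => S4_ren e (g₃ k))
        (fun b' => (P b').xRep) = dfc (fun o : Option {b' // b' ≠ b₂} => 2 * D'' (o.getD b₁)) g₃
          (pv (P b₂).xRep (fun b : {b' // b' ≠ b₂} => (P b).xRep)) := by
      rw [← hx]
      exact S4_dfc e (fun o : Option {b' // b' ≠ b₂} => 2 * D'' (o.getD b₁)) g₃ _
    rw [h5]
    linarith

theorem S4_aux {K : Type u} [Field K] [NumberField K] (W : WeierstrassCurve K) [W.IsElliptic]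
    {B κ : Type} [Fintype B] [DecidableEq B] [Fintype κ] (D : B → ℕ)
    (g : κ → MvPolynomial (B × Fin 2) K) (hg : ∀ k, MH (g k) D) (m : ℕ) (hdim : DimLT g m)
    (n : ℕ) : ∀ (B' : Type) [Fintype B'] [DecidableEq B'] (π : B' → B),
      Function.Surjective π → Fintype.card B' = n → S4_PB W D g m B' π := by
  induction n with
  | zero =>
    intro B' _ _ π hπ hn
    have : IsEmpty B' := Fintype.card_eq_zero_iff.1 hn
    exact S4_equiv W D g hg m hdim B' π ⟨fun a => isEmptyElim a, hπ⟩
  | succ n ih =>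
    intro B' _ _ π hπ hn
    by_cases hinj : Function.Injective π
    · exact S4_equiv W D g hg m hdim B' π ⟨hinj, hπ⟩
    · unfold Function.Injective at hinj
      push Not at hinj
      obtain ⟨b₁, b₂, h12, hne⟩ := hinj
      have hsur : Function.Surjective (fun b : {b' // b' ≠ b₂} => π b) := by
        intro b
        obtain ⟨b', hb'⟩ := hπ b
        by_cases e : b' = b₂
        · exact ⟨⟨b₁, hne⟩, by rw [← hb', e]; exact h12⟩
        · exact ⟨⟨b', e⟩, hb'⟩
      have hc : Fintype.card {b' // b' ≠ b₂} = n := by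
        have h1 : Fintype.card B' = Fintype.card {b' // b' ≠ b₂} + 1 := by
          rw [Fintype.card_congr (Equiv.optionSubtypeNe b₂).symm, Fintype.card_option]
        omega
      exact S4_step W D g m B' π b₂ ⟨b₁, hne⟩ h12 (Fintype.card_le_of_surjective _ hsur)
        (ih _ _ hsur hc)

/-- Let `π : B' → B` be surjective and send the family `(P b')` to `(∑_{π b' = b} P b')_b`. The forms
`g` can be replaced by forms `g'` over the blocks `B'`; the codimension of the zeros does not change.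
Proof. Induction on `Fintype.card B'` (for all `B'`, `π`), i.e. on `card B' - card B`. If `π` is
injective it is an equivalence: rename the blocks (`g' k = rename (fun p => (π⁻¹ p.1, p.2)) (g k)`,
`D' b' = D (π b')`; check `MH`, `DimLT`, `evl`, `dfc` under renaming of blocks, `Equiv.sum_comp`).
Otherwise there are `b₁ ≠ b₂` with `π b₁ = π b₂`. Let `B'' = {b' // b' ≠ b₂}` with the restriction of
`π`, which is surjective; `B'` is equivalent to `Option B''` (`none ↦ b₂`). By induction there are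
`κ''`, `D''`, `g''` over `B''`; apply `exists_sumForms`, `dim_sumForms`, `height_sumForms` with
`b₀ = b₁`: for `P : B' → ..` and `P'' = P` restricted, with `P'' b₁` replaced by `P b₁ + P b₂`, the
fibre sums of `P''` are those of `P`. Rename the blocks from `Option B''` to `B'`. -/
theorem exists_pullback {K : Type u} [Field K] [NumberField K] (W : WeierstrassCurve K)
    [W.IsElliptic] {B κ : Type} [Fintype B] [DecidableEq B] [Fintype κ] (D : B → ℕ)
    (g : κ → MvPolynomial (B × Fin 2) K) (hg : ∀ k, MH (g k) D) (m : ℕ) (hdim : DimLT g m)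
    (B' : Type) [Fintype B'] [DecidableEq B'] (π : B' → B) (hπ : Function.Surjective π) :
    ∃ (κ' : Type) (_ : Fintype κ') (D' : B' → ℕ) (g' : κ' → MvPolynomial (B' × Fin 2) K),
      (∀ k, MH (g' k) D') ∧ DimLT g' (m + (Fintype.card B' - Fintype.card B)) ∧
        ∃ C : ℝ, 0 ≤ C ∧ ∀ (L : Type u) [Field L] [NumberField L] [DecidableEq L] [Algebra K L]
          (V : WeierstrassCurve L), W.map (algebraMap K L) = V → ∀ P : B' → V.toAffine.Point,
            (∃ k, evl (fun b' => (P b').xRep) (g' k) ≠ 0) →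
              (∃ k, evl (fun b => (∑ b' with π b' = b, P b').xRep) (g k) ≠ 0) ∧
                dfc D g (fun b => (∑ b' with π b' = b, P b').xRep) ≤
                  dfc D' g' (fun b' => (P b').xRep) + C * Module.finrank ℚ L :=
  S4_aux W D g hg m hdim _ B' π hπ rfl

end Pool.Agent.Lib.MP_17a322_nt.RV
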