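import Mathlib

/-!
A finite family in a group of rank `r` is spanned up to a multiple by `r` of its members, with
coefficients bounded by the multiple.
-/

namespace Pool.Agent.Lib.MP_17a322_nt.RV

open Matrix

/-- Common multiple: a family in the rational span of independent elements. -/
theorem U5_coords {A : Type*} [AddCommGroup A] {n ρ : ℕ} (P : Fin n → A) (e : Fin ρ → A)
    (h : ∀ i, ∃ N : ℤ, N ≠ 0 ∧ N • P i ∈ Submodule.span ℤ (Set.range e)) :
    ∃ (N : ℕ) (a : Fin n → Fin ρ → ℤ), 0 < N ∧ ∀ i, (N : ℤ) • P i = ∑ j, a i j • e j := by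
  classical
  choose N hN hmem using h
  have h1 : ∀ i, ∃ b : Fin ρ → ℤ, ∑ j, b j • e j = N i • P i := fun i =>
    (Submodule.mem_span_range_iff_exists_fun ℤ).1 (hmem i)
  choose b hb using h1
  set M : ℤ := ∏ i, N i with hM
  have hM0 : M ≠ 0 := Finset.prod_ne_zero_iff.2 fun i _ => hN i
  refine ⟨M.natAbs, fun i j => M.sign * (∏ k ∈ Finset.univ.erase i, N k) * b i j,
    Int.natAbs_pos.2 hM0, fun i => ?_⟩
  have h2 : M = (∏ k ∈ Finset.univ.erase i, N k) * N i := by
    rw [hM, Finset.prod_erase_mul _ _ (Finset.mem_univ i)]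
  have h3 : ((M.natAbs : ℕ) : ℤ) = M.sign * (∏ k ∈ Finset.univ.erase i, N k) * N i := by
    rw [mul_assoc, ← h2, Int.sign_mul_self_eq_natAbs]
  rw [h3, mul_smul, ← hb i, Finset.smul_sum]
  exact Finset.sum_congr rfl fun j _ => by rw [← mul_smul]

/-- Cramer's rule for a row of a matrix and the rows of a minor. -/
theorem U5_cramer {n ρ : ℕ} (a : Fin n → Fin ρ → ℤ) (s : Fin ρ → Fin n) (i : Fin n) (k : Fin ρ) :
    (Matrix.of fun j k => a (s j) k).det * a i k =
      ∑ j, (Matrix.of fun j' k => a (Function.update s j i j') k).det * a (s j) k := by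
  classical
  have h1 := Matrix.mulVec_cramer (Matrix.of fun j k => a (s j) k)ᵀ (a i)
  have h2 := congrFun h1 k
  rw [Matrix.det_transpose] at h2
  simp only [Pi.smul_apply, smul_eq_mul] at h2
  rw [← h2, Matrix.mulVec, dotProduct]
  refine Finset.sum_congr rfl fun j _ => ?_
  rw [Matrix.transpose_apply, Matrix.of_apply, mul_comm]
  congr 1
  rw [Matrix.cramer_transpose_apply]
  congr 1
  ext j' k'
  by_cases hj : j' = j
  · subst hj
    simp
  · simp [Matrix.updateRow_ne hj, Function.update_of_ne hj]

/-- The members of a family in a group of rank at most `r` are, up to a positive multiple `m`,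
combinations of `r` of them, with coefficients at most `m` in absolute value.

Proof. Let `e_1, ..., e_ρ` be a maximal independent subfamily, so `N P_i = ∑ a_ij e_j` with a common
`N > 0`. Among all choices `s` of `ρ` indices take one with the largest determinant `d` of the rows
`a_(s j)`; it is not zero. By Cramer's rule `d a_i = ∑_j d_ij a_(s j)`, where `d_ij` is the determinant for
the choice with `s j` replaced by `i`, so `|d_ij| ≤ |d|`. Multiply by the sign of `d` and by `N`. -/
theorem exists_span_basis {A : Type*} [AddCommGroup A] (n r : ℕ) (hn : 0 < n) (P : Fin n → A)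
    (h : Module.finrank ℤ (Submodule.span ℤ (Set.range P)) ≤ r) :
    ∃ (s : Fin r → Fin n) (m : ℕ) (c : Fin n → Fin r → ℤ), 0 < m ∧
      (∀ i j, |c i j| ≤ m) ∧ ∀ i, m • P i = ∑ j, c i j • P (s j) := by
  classical
  -- a maximal independent subfamily
  let good : Finset (Finset (Fin n)) := Finset.univ.filter
    (fun S => LinearIndepOn ℤ P (S : Set (Fin n)))
  have hne : good.Nonempty := ⟨∅, by simp [good]⟩
  obtain ⟨S, hS, hmax⟩ := Finset.exists_max_image good Finset.card hne
  have hSind : LinearIndepOn ℤ P (S : Set (Fin n)) := (Finset.mem_filter.1 hS).2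
  set ρ := S.card with hρ
  let σ : Fin ρ ≃ S := S.equivFin.symm
  let s₀ : Fin ρ → Fin n := fun j => σ j
  have hrange : Set.range (fun j => P (s₀ j)) = P '' (S : Set (Fin n)) := by
    ext x
    constructor
    · rintro ⟨j, rfl⟩
      exact ⟨s₀ j, (σ j).2, rfl⟩
    · rintro ⟨i, hi, rfl⟩
      exact ⟨σ.symm ⟨i, hi⟩, by simp [s₀]⟩
  have hspan : ∀ i, ∃ N : ℤ, N ≠ 0 ∧
      N • P i ∈ Submodule.span ℤ (Set.range fun j => P (s₀ j)) := by
    intro i
    rw [hrange]
    by_cases hi : i ∈ S
    · exact ⟨1, one_ne_zero, by rw [one_smul]; exact Submodule.subset_span ⟨i, hi, rfl⟩⟩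
    · by_contra hcon
      push Not at hcon
      have h1 : LinearIndepOn ℤ P (insert i (S : Set (Fin n))) := by
        refine hSind.insert' fun N hN => ?_
        by_contra hN0
        exact hcon N hN0 hN
      have h2 : insert i S ∈ good := by
        refine Finset.mem_filter.2 ⟨Finset.mem_univ _, ?_⟩
        rw [Finset.coe_insert]
        exact h1
      have h3 := hmax _ h2
      rw [Finset.card_insert_of_notMem hi] at h3
      omega
  have hρr : ρ ≤ r := by
    refine le_trans ?_ h
    have h1 : LinearIndependent ℤ (fun j : S => (⟨P j, Submodule.subset_span ⟨j, rfl⟩⟩ :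
        Submodule.span ℤ (Set.range P))) := by
      have h2 : LinearIndependent ℤ (fun j : (S : Set (Fin n)) => P j) := hSind
      refine LinearIndependent.of_comp (Submodule.subtype _) ?_
      exact h2
    haveI : Module.Finite ℤ (Submodule.span ℤ (Set.range P)) :=
      Module.Finite.iff_fg.2 (Submodule.fg_span (Set.finite_range P))
    have h3 := h1.fintype_card_le_finrank
    rwa [Fintype.card_coe] at h3
  obtain ⟨N, a, hN, ha⟩ := U5_coords P (fun j => P (s₀ j)) hspan
  -- the maximal determinant
  let d : (Fin ρ → Fin n) → ℤ := fun s => (Matrix.of fun j k => a (s j) k).det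
  obtain ⟨s, -, hs⟩ := Finset.exists_max_image Finset.univ (fun s => |d s|)
    ⟨s₀, Finset.mem_univ _⟩
  have hd0 : d s₀ ≠ 0 := by
    have h1 : (Matrix.of fun j k => a (s₀ j) k) = (N : ℤ) • (1 : Matrix (Fin ρ) (Fin ρ) ℤ) := by
      ext j k
      have h2 : ∑ l, (a (s₀ j) l - if l = j then (N : ℤ) else 0) • P (s₀ l) = 0 := by
        simp only [sub_smul, Finset.sum_sub_distrib]
        rw [← ha (s₀ j)]
        simp
      have h3 : LinearIndependent ℤ (fun l => P (s₀ l)) := by
        have h4 : LinearIndependent ℤ (fun j : (S : Set (Fin n)) => P j) := hSind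
        exact h4.comp _ σ.injective
      have h5 := (Fintype.linearIndependent_iff.1 h3) _ h2 k
      rw [Matrix.of_apply, Matrix.smul_apply, Matrix.one_apply, smul_eq_mul, mul_ite, mul_one,
        mul_zero]
      rw [sub_eq_zero] at h5
      rw [h5]
      simp only [eq_comm]
    show (Matrix.of fun j k => a (s₀ j) k).det ≠ 0
    rw [h1, Matrix.det_smul, Matrix.det_one, mul_one]
    exact pow_ne_zero _ (by exact_mod_cast hN.ne')
  have hd : d s ≠ 0 := by
    intro h0
    have h1 := hs s₀ (Finset.mem_univ _)
    simp only [h0, abs_zero] at h1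
    exact hd0 (abs_eq_zero.1 (le_antisymm h1 (abs_nonneg _)))
  -- extend the choice to `r` indices
  let s' : Fin r → Fin n := fun j => if hj : (j : ℕ) < ρ then s ⟨j, hj⟩ else ⟨0, hn⟩
  let c : Fin n → Fin r → ℤ := fun i j => if hj : (j : ℕ) < ρ then
    (N : ℤ) * ((d s).sign * d (Function.update s ⟨j, hj⟩ i)) else 0
  refine ⟨s', N * (d s).natAbs, c, Nat.mul_pos hN (Int.natAbs_pos.2 hd), ?_, ?_⟩
  · intro i j
    simp only [c]
    split_ifs with hj
    · rw [abs_mul, abs_mul]
      have h1 := hs (Function.update s ⟨j, hj⟩ i) (Finset.mem_univ _)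
      have h2 : |(d s).sign| = 1 := by
        rcases lt_or_gt_of_ne hd with h | h
        · rw [Int.sign_eq_neg_one_of_neg h]; simp
        · rw [Int.sign_eq_one_of_pos h]; simp
      rw [h2, one_mul, Nat.abs_cast]
      push_cast
      exact mul_le_mul_of_nonneg_left h1 (Int.natCast_nonneg _)
    · rw [abs_zero]
      positivity
  · intro i
    have h0 : ∑ j, c i j • P (s' j) =
        ∑ j : Fin ρ, ((N : ℤ) * ((d s).sign * d (Function.update s j i))) • P (s j) := by
      have h1 : ∑ j : Fin r, c i j • P (s' j) =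
          ∑ j : Fin r, if hj : (j : ℕ) < ρ then
            ((N : ℤ) * ((d s).sign * d (Function.update s ⟨j, hj⟩ i))) • P (s ⟨j, hj⟩) else 0 := by
        refine Finset.sum_congr rfl fun j _ => ?_
        simp only [c, s']
        split_ifs
        · rfl
        · rw [zero_smul]
      rw [h1]
      symm
      refine Finset.sum_of_injOn (Fin.castLE hρr) ?_ ?_ ?_ ?_
      · intro x _ y _ hxy
        exact Fin.castLE_injective hρr hxy
      · intro x _
        simp
      · intro j _ hj
        rw [dif_neg]
        intro hj'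
        exact hj ⟨⟨j, hj'⟩, by simp, rfl⟩
      · intro j _
        have : ((Fin.castLE hρr j : Fin r) : ℕ) < ρ := j.2
        rw [dif_pos this]
        rfl
    rw [h0]
    have h1 : ∀ j : Fin ρ, ((N : ℤ) * ((d s).sign * d (Function.update s j i))) • P (s j) =
        ∑ k, ((d s).sign * (d (Function.update s j i) * a (s j) k)) • P (s₀ k) := by
      intro j
      rw [mul_comm, mul_smul, ha (s j), Finset.smul_sum]
      refine Finset.sum_congr rfl fun k _ => ?_
      rw [← mul_smul, mul_assoc]
    rw [Finset.sum_congr rfl fun j _ => h1 j, Finset.sum_comm]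
    have h2 : ∀ k : Fin ρ, ∑ j, ((d s).sign * (d (Function.update s j i) * a (s j) k)) • P (s₀ k) =
        ((d s).sign * (d s * a i k)) • P (s₀ k) := by
      intro k
      rw [← Finset.sum_smul, ← Finset.mul_sum]
      congr 2
      exact (U5_cramer a s i k).symm
    rw [Finset.sum_congr rfl fun k _ => h2 k]
    have h3 : ∀ k : Fin ρ, ((d s).sign * (d s * a i k)) • P (s₀ k) =
        ((d s).natAbs : ℤ) • (a i k • P (s₀ k)) := by
      intro k
      rw [← mul_assoc, Int.sign_mul_self_eq_natAbs, mul_smul]
    rw [Finset.sum_congr rfl fun k _ => h3 k, ← Finset.smul_sum, ← ha i, ← mul_smul,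
      ← natCast_zsmul]
    congr 1
    push_cast
    ring

end Pool.Agent.Lib.MP_17a322_nt.RV
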