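import Pool.Agent.Lib.MP_17a322_nt.RV.Defs
import Pool.Agent.Lib.MP_17a322_nt.RO.B1
import Pool.Agent.Lib.MP_17a322_nt.RO.B2

/-!
Division points and points with small x-coordinates over a finite extension.
-/

namespace Pool.Agent.Lib.MP_17a322_nt.RV

open MvPolynomial WeierstrassCurve
open Pool.Agent.Lib.MP_17a322_nt.RO

universe u

/-- A binary form of positive degree over an algebraically closed field has a nontrivial zero. -/
theorem U6_zero {L : Type*} [Field L] [IsAlgClosed L] (k : ℕ) (hk : 0 < k)
    (p : MvPolynomial (Fin 2) L) (hp : p.IsHomogeneous k) :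
    ∃ T : Fin 2 → L, T ≠ 0 ∧ eval T p = 0 := by
  by_contra hcon
  push Not at hcon
  have : Infinite L := IsAlgClosed.instInfinite
  set q : Polynomial L := aeval ![Polynomial.X, Polynomial.C 1] p with hq
  have hqe : ∀ x : L, q.eval x = eval ![x, 1] p := by
    intro x
    rw [hq, ← Polynomial.coe_evalRingHom, MvPolynomial.aeval_def, MvPolynomial.eval₂_comp_left]
    rw [MvPolynomial.eval]
    congr 1
    · ext a
      simp
    · funext i
      fin_cases i <;> simp
  have hnr : ∀ x, q.eval x ≠ 0 := by
    intro x
    rw [hqe]
    refine hcon _ ?_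
    intro h
    have := congrFun h 1
    simp at this
  have hdeg : q.degree = 0 := by
    by_contra h
    obtain ⟨x, hx⟩ := IsAlgClosed.exists_root q h
    exact hnr x hx
  obtain ⟨c, hc⟩ : ∃ c, q = Polynomial.C c := ⟨_, Polynomial.eq_C_of_degree_eq_zero hdeg⟩
  have hval : ∀ x : L, eval ![x, 1] p = c := by
    intro x
    rw [← hqe, hc, Polynomial.eval_C]
  have hpoly : p * X 1 = C c * X 1 ^ (k + 1) := by
    refine MvPolynomial.funext fun v => ?_
    by_cases hv : v 1 = 0
    · simp [hv]
    · have h1 := B2_scale (K := L) (F := L) p k hp (v 1) ![v 0 / v 1, 1]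
      have h2 : (fun i => v 1 * (![v 0 / v 1, 1] : Fin 2 → L) i) = v := by
        funext i
        fin_cases i
        · simp [mul_div_cancel₀ _ hv]
        · simp
      rw [h2, MvPolynomial.aeval_eq_eval, MvPolynomial.aeval_eq_eval] at h1
      rw [map_mul, map_mul, map_pow, eval_X, eval_C, h1, hval]
      ring
  have hp' : p = C c * X 1 ^ k := by
    have h1 : (X 1 : MvPolynomial (Fin 2) L) ≠ 0 := X_ne_zero _
    apply mul_right_cancel₀ h1
    rw [hpoly]
    ring
  refine hcon ![1, 0] ?_ ?_
  · intro h
    have := congrFun h 0
    simp at this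
  · rw [hp']
    simp [hk.ne']

/-- Proportional vectors `xRep` are equal. -/
theorem U6_prop {F : Type*} [Field F] {V : WeierstrassCurve F} (P Q : V.toAffine.Point)
    (h : P.xRep 0 * Q.xRep 1 = P.xRep 1 * Q.xRep 0) : P = Q ∨ P = -Q := by
  rw [← Affine.Point.xRep_eq_xRep_iff]
  cases P with
  | zero =>
    cases Q with
    | zero => rfl
    | some x y h' =>
      rw [← Affine.Point.zero_def] at h
      simp at h
  | some x y h' =>
    cases Q with
    | zero =>
      rw [← Affine.Point.zero_def] at h
      simp at h
    | some x' y' h'' =>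
      simp at h
      simp [h]

/-- Divisibility over an algebraically closed field.
Proof. With `a`, `b` from `exists_mulForm` (RO/B2) for `k = N`, homogeneous of degree `N^2 > 0` in two
variables, the form `a * P.xRep 1 - b * P.xRep 0` has a nontrivial zero `v` over `F` (`F` algebraically
closed), and `v = c • Q.xRep` by `exists_point` (RO/B1). Then `(N • Q).xRep` is proportional to `P.xRep`,
hence equal (the last entry is `0` or `1`, and `(1, 0)` in the first case), and `N • Q = P` or
`N • Q = -P` (equal x-coordinates; for affine points `Y_eq_of_X_eq` or similar). -/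
theorem exists_division_point {K : Type u} [Field K] (W : WeierstrassCurve K) [W.IsElliptic]
    (F : Type u) [Field F] [DecidableEq F] [Algebra K F] [IsAlgClosed F] (N : ℕ) (hN : 0 < N)
    (P : (W.map (algebraMap K F)).toAffine.Point) :
    ∃ Q : (W.map (algebraMap K F)).toAffine.Point, N • Q = P := by
  obtain ⟨a, b, ha, hb, hab⟩ := exists_mulForm W N
  have ha' := ha.map (algebraMap K F)
  have hb' := hb.map (algebraMap K F)
  have hp : (map (algebraMap K F) a * C (P.xRep 1) - map (algebraMap K F) b * C (P.xRep 0)
      : MvPolynomial (Fin 2) F).IsHomogeneous (N ^ 2) := by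
    refine IsHomogeneous.sub ?_ ?_
    · have := ha'.mul (isHomogeneous_C (Fin 2) (P.xRep 1))
      rwa [add_zero] at this
    · have := hb'.mul (isHomogeneous_C (Fin 2) (P.xRep 0))
      rwa [add_zero] at this
  obtain ⟨T, hT, hT0⟩ := U6_zero (N ^ 2) (by positivity) _ hp
  obtain ⟨Q, c, hc, hTQ⟩ := exists_point (W.map (algebraMap K F)) T hT
  obtain ⟨c', hc', h1, h2⟩ := hab F (W.map (algebraMap K F)) rfl Q
  rw [map_sub, map_mul, map_mul, eval_C, eval_C, eval_map, eval_map, ← aeval_def, ← aeval_def] at hT0
  have e1 : aeval T a = c ^ (N ^ 2) * aeval Q.xRep a := by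
    rw [hTQ]
    exact B2_scale a (N ^ 2) ha c Q.xRep
  have e2 : aeval T b = c ^ (N ^ 2) * aeval Q.xRep b := by
    rw [hTQ]
    exact B2_scale b (N ^ 2) hb c Q.xRep
  rw [e1, e2, h1, h2] at hT0
  have h3 : c ^ (N ^ 2) * c' ≠ 0 := mul_ne_zero (pow_ne_zero _ hc) hc'
  have h4 : (N • Q).xRep 0 * P.xRep 1 = (N • Q).xRep 1 * P.xRep 0 := by
    have h5 : c ^ (N ^ 2) * c' * ((N • Q).xRep 0 * P.xRep 1 - (N • Q).xRep 1 * P.xRep 0) = 0 := by
      linear_combination hT0
    exact sub_eq_zero.1 ((mul_eq_zero.1 h5).resolve_left h3)
  rcases U6_prop _ _ h4 with h5 | h5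
  · exact ⟨Q, h5⟩
  · exact ⟨-Q, by rw [smul_neg, h5, neg_neg]⟩

/-- Finitely many division points, and the points with `x = 0, .., M`, over a number field `L'`. The map
from the points over `L` to those over `L'` is given as a homomorphism `f` compatible with `xRep`.
Proof. Let `Ω = AlgebraicClosure L`. Take `Q j` over `Ω` with `N • Q j = P j` (`exists_division_point`), and
points `A ν` over `Ω` with `xRep = ![ν, 1]` (`exists_point`). Let `L'` be the intermediate field of `L`, `Ω`
generated by the finitely many coordinates `x`, `y` of these points; it is finite over `L`, so a number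
field. The points come from points over `L'` (an affine point with coordinates in `L'`), the maps of
points are injective homomorphisms (`Affine.Point.map`, `Affine.Point.map_injective`; compare RO/G1
`G1_lift`, `G1_map_mem`), so the relations `N • Q j = P j` hold over `L'`. -/
theorem exists_field {K L : Type u} [Field K] [Field L] [NumberField L] [DecidableEq L]
    [Algebra K L] (W : WeierstrassCurve K) [W.IsElliptic] (s N M : ℕ) (hN : 0 < N)
    (P : Fin s → (W.map (algebraMap K L)).toAffine.Point) :
    ∃ (L' : Type u) (_ : Field L') (_ : NumberField L') (_ : DecidableEq L') (_ : Algebra L L')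
      (_ : Algebra K L') (_ : IsScalarTower K L L')
      (f : (W.map (algebraMap K L)).toAffine.Point →+
        (W.map (algebraMap K L')).toAffine.Point)
      (Q : Fin s → (W.map (algebraMap K L')).toAffine.Point)
      (A : Fin (M + 1) → (W.map (algebraMap K L')).toAffine.Point),
      (∀ P i, (f P).xRep i = algebraMap L L' (P.xRep i)) ∧ (∀ j, N • Q j = f (P j)) ∧
        ∀ ν, (A ν).xRep = ![((ν : ℕ) : L'), 1] := by
  classical
  let Ω := AlgebraicClosure L
  let _ : DecidableEq Ω := Classical.decEq _
  let g : (W.map (algebraMap K L)).toAffine.Point →+ (W.map (algebraMap K Ω)).toAffine.Point :=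
    Affine.Point.map (W' := W.toAffine) (IsScalarTower.toAlgHom K L Ω)
  choose Q hQ using fun j => exists_division_point W Ω N hN (g (P j))
  have hA : ∀ ν : Fin (M + 1), ∃ A : (W.map (algebraMap K Ω)).toAffine.Point,
      A.xRep = ![((ν : ℕ) : Ω), 1] := by
    intro ν
    obtain ⟨A, c, hc, hA⟩ := exists_point (W.map (algebraMap K Ω)) ![((ν : ℕ) : Ω), 1] (by
      intro h
      have := congrFun h 1
      simp at this)
    refine ⟨A, ?_⟩
    cases A with
    | zero =>
      have := congrFun hA 1
      rw [← Affine.Point.zero_def] at this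
      simp at this
    | some x y h =>
      have h1 := congrFun hA 1
      have h0 := congrFun hA 0
      simp at h1 h0
      rw [← h1, one_mul] at h0
      simp [h0]
  choose A hA using hA
  let co : (W.map (algebraMap K Ω)).toAffine.Point → Set Ω := fun R =>
    match R with
    | .zero => ∅
    | .some x y _ => {x, y}
  have hco : ∀ R, (co R).Finite := by
    intro R
    cases R with
    | zero => exact Set.finite_empty
    | some x y h => exact Set.toFinite {x, y}
  let S : Set Ω := (⋃ j, co (Q j)) ∪ ⋃ ν, co (A ν)
  have hS : S.Finite := (Set.finite_iUnion fun j => hco _).union (Set.finite_iUnion fun ν => hco _)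
  let L' : IntermediateField L Ω := IntermediateField.adjoin L S
  have : Finite S := hS
  have hfin : FiniteDimensional L L' :=
    IntermediateField.finiteDimensional_adjoin fun x _ =>
      (AlgebraicClosure.isAlgebraic L).isAlgebraic x |>.isIntegral
  have : NumberField L' := NumberField.of_module_finite L L'
  let v : L' →ₐ[K] Ω := (L'.val).restrictScalars K
  have hlift : ∀ R : (W.map (algebraMap K Ω)).toAffine.Point, co R ⊆ S →
      ∃ R₀ : (W.map (algebraMap K L')).toAffine.Point,
        Affine.Point.map (W' := W.toAffine) v R₀ = R := by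
    intro R hR
    cases R with
    | zero => exact ⟨0, rfl⟩
    | some x y h =>
      have hx : x ∈ L' := IntermediateField.subset_adjoin L S (hR (Or.inl rfl))
      have hy : y ∈ L' := IntermediateField.subset_adjoin L S (hR (Or.inr rfl))
      have hns := (W.toAffine.baseChange_nonsingular v.injective
        (⟨x, hx⟩ : L') (⟨y, hy⟩ : L')).mp h
      exact ⟨Affine.Point.some _ _ hns, rfl⟩
  choose Q' hQ' using fun j => hlift (Q j) (fun z hz => Or.inl (Set.mem_iUnion.2 ⟨j, hz⟩))
  choose A' hA' using fun ν => hlift (A ν) (fun z hz => Or.inr (Set.mem_iUnion.2 ⟨ν, hz⟩))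
  let f : (W.map (algebraMap K L)).toAffine.Point →+ (W.map (algebraMap K L')).toAffine.Point :=
    Affine.Point.map (W' := W.toAffine) (IsScalarTower.toAlgHom K L L')
  have hfg : ∀ R, Affine.Point.map (W' := W.toAffine) v (f R) = g R := by
    intro R
    cases R with
    | zero => rfl
    | some x y h => rfl
  refine ⟨L', inferInstance, inferInstance, inferInstance, inferInstance, inferInstance,
    inferInstance, f, Q', A', ?_, ?_, ?_⟩
  · intro R i
    cases R with
    | zero =>
      have h : (f (Affine.Point.zero)).xRep = ![1, 0] := rfl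
      rw [h]
      fin_cases i
      · exact (map_one _).symm
      · exact (map_zero _).symm
    | some x y h =>
      have h : (f (Affine.Point.some x y h)).xRep = ![algebraMap L L' x, 1] := rfl
      rw [h]
      fin_cases i
      · rfl
      · exact (map_one _).symm
  · intro j
    apply Affine.Point.map_injective (W' := W.toAffine) v
    have e := (Affine.Point.map (W' := W.toAffine) v).map_nsmul N (Q' j)
    refine e.trans ?_
    have e2 : N • (Affine.Point.map (W' := W.toAffine) v) (Q' j) = N • Q j :=
      congrArg (fun R => N • R) (hQ' j)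
    exact e2.trans ((hQ j).trans (hfg _).symm)
  · intro ν
    have h1 := hA ν
    rw [← hA' ν] at h1
    cases hR : A' ν with
    | zero =>
      rw [hR] at h1
      have h2 : (0 : Ω) = 1 := congrFun h1 1
      exact absurd h2 zero_ne_one
    | some x y h =>
      rw [hR] at h1
      have h3 : v x = v ((ν : ℕ) : L') := by
        rw [map_natCast]
        exact congrFun h1 0
      have h4 := v.injective h3
      rw [Affine.Point.xRep_some, h4]

end Pool.Agent.Lib.MP_17a322_nt.RV
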