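import Pool.Agent.Lib.MP_17a322_nt.RV.H5
import Pool.Agent.Lib.MP_17a322_nt.RV.M1
import Pool.Agent.Lib.MP_17a322_nt.RV.M2b
import Pool.Agent.Lib.MP_17a322_nt.RV.S4
import Pool.Agent.Lib.MP_17a322_nt.RV.U5
import Pool.Agent.Lib.MP_17a322_nt.RV.U6

/-!
The inequality for all points.
-/

namespace Pool.Agent.Lib.MP_17a322_nt.RV

open MvPolynomial WeierstrassCurve Height
open Pool.Agent.Lib.MP_17a322_nt.RO

universe u

/-- The height of `(ν, 1)`, uniformly in the field. -/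
theorem M3_CA (M : ℕ) : ∃ CA : ℝ, 0 ≤ CA ∧ ∀ (L : Type u) [Field L] [NumberField L] (ν : ℕ),
    ν ≤ M → logHeight ![(ν : L), 1] ≤ CA * Module.finrank ℚ L := by
  refine ⟨∑ ν ∈ Finset.range (M + 1), logHeight ![(ν : ℚ), 1],
    Finset.sum_nonneg fun _ _ => logHeight_nonneg _, ?_⟩
  intro L _ _ ν hν
  have h1 := logHeight_algebraMap (K := ℚ) (L := L) ![(ν : ℚ), 1]
  have h2 : (fun i => algebraMap ℚ L ((![(ν : ℚ), 1] : Fin 2 → ℚ) i)) = ![(ν : L), 1] := by
    funext i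
    fin_cases i <;> simp
  rw [h2] at h1
  rw [h1, mul_comm]
  refine mul_le_mul_of_nonneg_right ?_ (Nat.cast_nonneg _)
  exact Finset.single_le_sum (f := fun ν : ℕ => logHeight ![(ν : ℚ), 1])
    (fun _ _ => logHeight_nonneg _) (Finset.mem_range.mpr (by omega))

/-- Base change for `dfc`. -/
theorem M3_dfc {K L L' : Type u} [Field K] [Field L] [NumberField L] [Field L'] [NumberField L']
    [Algebra K L] [Algebra L L'] [Algebra K L'] [IsScalarTower K L L'] {B κ : Type*} [Fintype B]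
    [Finite κ] (D : B → ℕ) (g : κ → MvPolynomial (B × Fin 2) K) (x : B → Fin 2 → L)
    (x' : B → Fin 2 → L') (hx : ∀ b i, x' b i = algebraMap L L' (x b i)) :
    dfc D g x' = Module.finrank L L' * dfc D g x := by
  unfold dfc
  have h1 : ∀ b, logHeight (x' b) = Module.finrank L L' * logHeight (x b) := by
    intro b
    rw [← logHeight_algebraMap]
    congr 1
    funext i
    exact hx b i
  have h2 : (fun k => evl x' (g k)) = fun k => algebraMap L L' (evl x (g k)) := by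
    funext k
    unfold evl
    rw [← MvPolynomial.aeval_algebraMap_apply]
    congr 1
    congr 1
    funext p
    exact hx p.1 p.2
  rw [h2, logHeight_algebraMap, mul_sub, Finset.mul_sum]
  congr 1
  refine Finset.sum_congr rfl fun b _ => ?_
  rw [h1 b]
  ring

/-- The case `r = 0`. -/
theorem M3_zero {K : Type u} [Field K] [NumberField K] (W : WeierstrassCurve K)
    [W.IsElliptic] (n : ℕ) (hrn : 0 < n) {κ : Type} [Fintype κ] (D : Fin n → ℕ)
    (g : κ → MvPolynomial (Fin n × Fin 2) K)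
    (ε : ℝ) (hε : 0 < ε) :
    ∃ C : ℝ,
      ∀ (L : Type u) [Field L] [NumberField L] [DecidableEq L] [Algebra K L]
        (P : Fin n → (W.map (algebraMap K L)).toAffine.Point),
        Module.finrank ℤ (Submodule.span ℤ (Set.range P)) ≤ 0 →
            dfc D g (fun i => (P i).xRep) ≤
              ε * ∑ i, logHeight (P i).xRep + C * Module.finrank ℚ L := by
  obtain ⟨Cp, hCp, hpar⟩ := parallelogram_unif W
  refine ⟨∑ i, (D i : ℝ) * Cp, ?_⟩
  intro L _ _ _ _ P hP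
  obtain ⟨σ, m, c, hm, _, hrel⟩ := exists_span_basis n 0 hrn P hP
  obtain ⟨q, hq1, hq2, hq3⟩ := exists_quadratic_explicit
    (fun P : (W.map (algebraMap K L)).toAffine.Point => logHeight P.xRep)
    (by
      rw [Affine.Point.xRep_zero]
      have := logHeight₁_zero (K := L)
      rw [logHeight₁_eq_logHeight, logHeight_swap] at this
      exact this)
    (fun P => logHeight_nonneg _) (Cp * Module.finrank ℚ L) (hpar L _ rfl)
  have h1 : ∀ i, logHeight (P i).xRep ≤ Cp * Module.finrank ℚ L := by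
    intro i
    have h2 : (m : ℤ) • P i = 0 := by
      rw [natCast_zsmul, hrel i]
      simp
    have h3 := quadratic_zsmul q hq3 (P i) m
    have h4 : q 0 = 0 := by
      have := quadratic_zsmul q hq3 (P i) 0
      simpa using this
    rw [h2, h4] at h3
    have h5 : q (P i) = 0 := by
      have h6 : ((m : ℤ) : ℝ) ^ 2 ≠ 0 := by
        have : (m : ℝ) ≠ 0 := by exact_mod_cast hm.ne'
        push_cast
        positivity
      rcases mul_eq_zero.mp h3.symm with h | h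
      · exact absurd h h6
      · exact h
    have h7 := hq1 (P i)
    rw [h5, zero_sub, abs_neg] at h7
    exact (le_abs_self _).trans h7
  unfold dfc
  have h8 : ∑ i, (D i : ℝ) * logHeight (P i).xRep ≤
      ∑ i, (D i : ℝ) * (Cp * Module.finrank ℚ L) :=
    Finset.sum_le_sum fun i _ => mul_le_mul_of_nonneg_left (h1 i) (Nat.cast_nonneg _)
  have h9 : ∑ i, (D i : ℝ) * (Cp * Module.finrank ℚ L) =
      (∑ i, (D i : ℝ) * Cp) * Module.finrank ℚ L := by
    rw [Finset.sum_mul]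
    refine Finset.sum_congr rfl fun i _ => ?_
    ring
  have h10 : 0 ≤ ε * ∑ i, logHeight (P i).xRep :=
    mul_nonneg hε.le (Finset.sum_nonneg fun _ _ => logHeight_nonneg _)
  have h11 := logHeight_nonneg (fun k => evl (fun i => (P i).xRep) (g k))
  linarith

/-- Proof. If `r = 0`: `exists_span_basis` (RV/U5) gives `m • P i = 0`, so `q (P i) = 0` for the quadratic
form `q` of `exists_quadratic_explicit` over `L`, `h(P i) ≤ C [L : ℚ]` and `dfc ≤ ∑ D_i h(P i)`
(`logHeight_nonneg`); `R = 1`. Let `r ≥ 1`. `exists_pullback` (RV/S4) with `B' = Fin n × Fin r`,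
`π = Prod.fst`: `DimLT g' (n - r + (n r - n))`, and this number is `d + 1` for `d = n r - r - 1`.
`hilbert` (RV/H5) gives `C₁`, `e₀`; `exists_degree` (RV/M1) gives `C₂`. Choose `k ≥ 1` with
`2 C₂ (n + 1) r 2^r ≤ ε k^2`, take `b`, and `N = k^(r+1)`. For each of the finitely many `ℓ` with values
in `[-N, N]` take `R_ℓ`, `M_ℓ` from `direction_bound` (RV/M2b); `R = ∏ R_ℓ`, `M = max M_ℓ`; `CA` with
`logHeight ![ν, 1] ≤ CA [L : ℚ]` for all `ν ≤ M` and all `L` (`logHeight_algebraMap` from `ℚ`), and then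
`C_ℓ`. Given `L`, `P`: `σ`, `m`, `c` from `exists_span_basis`, `ℓ` from `exists_round` (RV/U4), and `L'`, `f`,
`Q`, `A` from `exists_field` (RV/U6) for the points `P (σ j)`. Over `L'`, with the family `f (P i)` and the
set of the `A ν` (`M + 1` points), `direction_bound` gives
`dfc (x(f P)) ≤ 2 b (∑ h(Q j) + ∑ h(f P i - ∑ ℓ Q j)) + C [L' : ℚ]`; with `q` over `L'`, `|q - h| ≤ C [L' : ℚ]`
and `height_round` (RV/U4) this is at most
`2 b (n + 1) r 2^r / N^2 ∑ q(f P i) + C' [L' : ℚ] ≤ ε ∑ h(f P i) + C'' [L' : ℚ]`. Finally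
`h_(L') = [L' : L] h_L` for all the heights (`logHeight_algebraMap`, RV/U1; `evl` of `g k` at the image of
`x(P)` is the image of the value), and `[L' : ℚ] = [L' : L] [L : ℚ]`: divide by `[L' : L]`. -/
theorem main {K : Type u} [Field K] [NumberField K] (W : WeierstrassCurve K)
    [W.IsElliptic] (r n : ℕ) (hrn : r < n) {κ : Type} [Fintype κ] (D : Fin n → ℕ)
    (g : κ → MvPolynomial (Fin n × Fin 2) K) (hg : ∀ k, MH (g k) D) (hdim : DimLT g (n - r))
    (ε : ℝ) (hε : 0 < ε) :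
    ∃ (R : MvPolynomial (Fin n × Fin 2) K) (E : Fin n → ℕ), MH R E ∧ R ≠ 0 ∧ ∃ C : ℝ,
      ∀ (L : Type u) [Field L] [NumberField L] [DecidableEq L] [Algebra K L]
        (P : Fin n → (W.map (algebraMap K L)).toAffine.Point),
        Module.finrank ℤ (Submodule.span ℤ (Set.range P)) ≤ r →
          evl (fun i => (P i).xRep) R ≠ 0 →
            dfc D g (fun i => (P i).xRep) ≤
              ε * ∑ i, logHeight (P i).xRep + C * Module.finrank ℚ L := by
  classical
  obtain ⟨Cp, hCp, hpar⟩ := parallelogram_unif W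
  have hn : 0 < n := by omega
  rcases Nat.eq_zero_or_pos r with hr0 | hr0
  · subst hr0
    obtain ⟨C, hC⟩ := M3_zero W n hn D g ε hε
    refine ⟨1, fun _ => 0, isWeightedHomogeneous_one _ _, one_ne_zero, C, ?_⟩
    intro L _ _ _ _ P hP _
    exact hC L P hP
  obtain ⟨κ', hκ', D', g', hg', hdim', hpull⟩ := exists_pullback W D g hg (n - r) hdim
    (Fin n × Fin r) Prod.fst (fun i => ⟨(i, ⟨0, hr0⟩), rfl⟩)
  obtain ⟨d, hd⟩ : ∃ d, d + r + 1 = n * r := by
    refine ⟨n * r - r - 1, ?_⟩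
    have : (r + 1) * r ≤ n * r := Nat.mul_le_mul_right r hrn
    nlinarith [Nat.sub_add_cancel (show r + 1 ≤ n * r by nlinarith),
      show n * r - r - 1 = n * r - (r + 1) by omega]
  have hdd : n - r + (Fintype.card (Fin n × Fin r) - Fintype.card (Fin n)) = d + 1 := by
    rw [Fintype.card_prod, Fintype.card_fin, Fintype.card_fin]
    have : n * 1 ≤ n * r := Nat.mul_le_mul_left n hr0
    omega
  rw [hdd] at hdim'
  obtain ⟨C₁, e₀, hD', hilb⟩ := hilbert D' g' hg' d hdim'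
  obtain ⟨C₂, hC₂⟩ := exists_degree n r d C₁ e₀ hr0 hrn hd
  set K₀ : ℝ := (n + 1) * r * 2 ^ r with hK₀
  have hK₀0 : 0 ≤ K₀ := by positivity
  obtain ⟨k, hk1, hk2⟩ : ∃ k : ℕ, 1 ≤ k ∧ 2 * (C₂ : ℝ) * K₀ ≤ ε * (k : ℝ) ^ 2 := by
    obtain ⟨k, hk⟩ := exists_nat_gt (2 * (C₂ : ℝ) * K₀ / ε + 1)
    have h0 : 0 ≤ 2 * (C₂ : ℝ) * K₀ / ε := by positivity
    have h1 : (1 : ℝ) < k := by linarith
    refine ⟨k, by exact_mod_cast h1.le, ?_⟩
    have h2 : 2 * (C₂ : ℝ) * K₀ / ε ≤ (k : ℝ) ^ 2 := by nlinarith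
    rw [div_le_iff₀ hε] at h2
    linarith
  obtain ⟨b, hb1, hb2, hb3, hb4⟩ := hC₂ k hk1
  set N : ℕ := k ^ (r + 1) with hN
  have hN0 : 0 < N := pow_pos hk1 _
  have hNcast : (N : ℤ) = (k : ℤ) ^ (r + 1) := by rw [hN]; push_cast; rfl
  set S : Finset (Fin n × Fin r → ℤ) :=
    Fintype.piFinset (fun _ => Finset.Icc (-(N : ℤ)) N) with hS
  have hSmem : ∀ ℓ ∈ S, ∀ i, |ℓ i| ≤ (k : ℤ) ^ (r + 1) := by
    intro ℓ hℓ i
    rw [hS, Fintype.mem_piFinset] at hℓ
    have := hℓ i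
    rw [Finset.mem_Icc] at this
    rw [← hNcast]
    exact abs_le.mpr this
  have hdb := fun ℓ : {ℓ // ℓ ∈ S} => direction_bound W n r hr0 D g D' g' hg' hpull d C₁ e₀ hD'
    hilb b hb1 hb2 ℓ.1 (hb4 ℓ.1 (hSmem ℓ.1 ℓ.2))
  choose Rf Ef Mf hMH hne hbd using hdb
  set M : ℕ := ∑ ℓ, Mf ℓ with hM
  have hMle : ∀ ℓ, Mf ℓ ≤ M := fun ℓ =>
    Finset.single_le_sum (f := Mf) (fun _ _ => Nat.zero_le _) (Finset.mem_univ ℓ)
  obtain ⟨CA, hCA0, hCA⟩ := M3_CA.{u} M
  choose Cf hCf0 hCf using fun ℓ => hbd ℓ CA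
  refine ⟨∏ ℓ, Rf ℓ, ∑ ℓ, Ef ℓ, IsWeightedHomogeneous.prod _ _ _ (fun ℓ _ => hMH ℓ),
    Finset.prod_ne_zero_iff.mpr (fun ℓ _ => hne ℓ),
    ε * n * Cp + 2 * b * (r + n) * Cp + ∑ ℓ, Cf ℓ, ?_⟩
  intro L _ _ _ _ P hP hR
  obtain ⟨σ, m, c, hm, hc, hrel⟩ := exists_span_basis n r hn P hP
  obtain ⟨ℓ₀, hℓ1, hℓ2⟩ := exists_round n r N m hm c hc
  set ℓ : Fin n × Fin r → ℤ := fun p => ℓ₀ p.1 p.2 with hℓ
  have hℓS : ℓ ∈ S := by
    rw [hS, Fintype.mem_piFinset]
    intro i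
    rw [Finset.mem_Icc]
    exact abs_le.mp (hℓ1 i.1 i.2)
  obtain ⟨L', iF, iN, iD, iA, iA', iT, f, Q, A, hf, hQ, hA⟩ :=
    exists_field W r N M hN0 (fun j => P (σ j))
  -- the finite set of shifts
  have hAinj : Function.Injective A := by
    intro ν ν' h
    have h1 := hA ν
    rw [h, hA ν'] at h1
    have h2 := congrFun h1 0
    simp only [Matrix.cons_val_zero] at h2
    exact Fin.ext (Nat.cast_injective h2).symm
  have hAcard : (Finset.univ.image A).card = M + 1 := by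
    rw [Finset.card_image_of_injective _ hAinj, Finset.card_univ, Fintype.card_fin]
  have hAh : ∀ a ∈ Finset.univ.image A, logHeight a.xRep ≤ CA * Module.finrank ℚ L' := by
    intro a ha
    obtain ⟨ν, _, rfl⟩ := Finset.mem_image.mp ha
    rw [hA ν]
    exact hCA L' ν (Nat.lt_succ_iff.mp ν.2)
  -- nonvanishing
  have hevl : ∀ R : MvPolynomial (Fin n × Fin 2) K, evl (fun i => (f (P i)).xRep) R =
      algebraMap L L' (evl (fun i => (P i).xRep) R) := by
    intro R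
    unfold evl
    rw [← MvPolynomial.aeval_algebraMap_apply]
    congr 1
    congr 1
    funext p
    exact hf (P p.1) p.2
  have hRℓ : evl (fun i => (f (P i)).xRep) (Rf ⟨ℓ, hℓS⟩) ≠ 0 := by
    rw [hevl]
    intro h0
    apply hR
    have h1 : evl (fun i => (P i).xRep) (Rf ⟨ℓ, hℓS⟩) = 0 :=
      (map_eq_zero (algebraMap L L')).mp h0
    show evl (fun i => (P i).xRep) (∏ ℓ, Rf ℓ) = 0
    unfold evl at h1 ⊢
    rw [map_prod]
    exact Finset.prod_eq_zero (Finset.mem_univ _) h1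
  have hmain := hCf ⟨ℓ, hℓS⟩ L' (W.map (algebraMap K L')) rfl (fun i => f (P i)) Q
    (Finset.univ.image A) (by rw [hAcard]; exact Nat.lt_succ_of_le (hMle _)) hAh hRℓ
  -- the quadratic form
  set w : ℝ := (Module.finrank ℚ L' : ℝ) with hw
  have hw0 : 0 ≤ w := Nat.cast_nonneg _
  obtain ⟨q, hq1, hq2, hq3⟩ := exists_quadratic_explicit
    (fun P : (W.map (algebraMap K L')).toAffine.Point => logHeight P.xRep)
    (by
      rw [Affine.Point.xRep_zero]
      have := logHeight₁_zero (K := L')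
      rw [logHeight₁_eq_logHeight, logHeight_swap] at this
      exact this)
    (fun P => logHeight_nonneg _) (Cp * w) (hpar L' _ rfl)
  have hup : ∀ X : (W.map (algebraMap K L')).toAffine.Point, logHeight X.xRep ≤ q X + Cp * w := by
    intro X
    have := (abs_le.mp (hq1 X)).1
    linarith
  have hlo : ∀ X : (W.map (algebraMap K L')).toAffine.Point, q X ≤ logHeight X.xRep + Cp * w := by
    intro X
    have := (abs_le.mp (hq1 X)).2
    linarith
  have hgeo := height_round q hq2 hq3 n r N m hN0 hm (fun i => f (P i)) σ c ℓ₀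
    (by
      intro i
      rw [← map_nsmul, hrel i, map_sum]
      refine Finset.sum_congr rfl fun j _ => ?_
      rw [map_zsmul]) Q hQ hℓ2
  have hNk : (b : ℝ) / (N : ℝ) ^ 2 ≤ C₂ / (k : ℝ) ^ 2 := by
    have hk0 : (0 : ℝ) < k := by exact_mod_cast hk1
    have h1 : (N : ℝ) ^ 2 = (k : ℝ) ^ (2 * r) * (k : ℝ) ^ 2 := by
      rw [hN]
      push_cast
      rw [← pow_mul, ← pow_add]
      congr 1
      ring
    have h2 : (b : ℝ) ≤ C₂ * (k : ℝ) ^ (2 * r) := by exact_mod_cast hb3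
    rw [h1, div_le_div_iff₀ (by positivity) (by positivity)]
    calc (b : ℝ) * (k : ℝ) ^ 2 ≤ (C₂ * (k : ℝ) ^ (2 * r)) * (k : ℝ) ^ 2 :=
          mul_le_mul_of_nonneg_right h2 (by positivity)
      _ = C₂ * ((k : ℝ) ^ (2 * r) * (k : ℝ) ^ 2) := by ring
  set H : ℝ := ∑ i, logHeight (f (P i)).xRep with hH
  have hH0 : 0 ≤ H := Finset.sum_nonneg fun _ _ => logHeight_nonneg _
  have hqH : ∑ i, q (f (P i)) ≤ H + n * (Cp * w) := by
    calc ∑ i, q (f (P i)) ≤ ∑ i : Fin n, (logHeight (f (P i)).xRep + Cp * w) :=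
          Finset.sum_le_sum fun i _ => hlo _
      _ = H + n * (Cp * w) := by
          rw [Finset.sum_add_distrib, Finset.sum_const, Finset.card_univ, Fintype.card_fin,
            nsmul_eq_mul]
  have hqH0 : 0 ≤ ∑ i, q (f (P i)) := Finset.sum_nonneg fun _ _ => hq2 _
  have hsmall : 2 * (b : ℝ) * (K₀ / (N : ℝ) ^ 2 * ∑ i, q (f (P i))) ≤ ε * (H + n * (Cp * w)) := by
    have h1 : 2 * (b : ℝ) * (K₀ / (N : ℝ) ^ 2 * ∑ i, q (f (P i))) =
        (2 * K₀ * ((b : ℝ) / (N : ℝ) ^ 2)) * ∑ i, q (f (P i)) := by ring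
    have h2 : 2 * K₀ * ((b : ℝ) / (N : ℝ) ^ 2) ≤ ε := by
      have hk0 : (0 : ℝ) < (k : ℝ) ^ 2 := by
        have : (0 : ℝ) < k := by exact_mod_cast hk1
        positivity
      calc 2 * K₀ * ((b : ℝ) / (N : ℝ) ^ 2) ≤ 2 * K₀ * (C₂ / (k : ℝ) ^ 2) :=
            mul_le_mul_of_nonneg_left hNk (by positivity)
        _ = (2 * (C₂ : ℝ) * K₀) / (k : ℝ) ^ 2 := by ring
        _ ≤ ε := by
            rw [div_le_iff₀ hk0]
            exact hk2
    rw [h1]
    calc (2 * K₀ * ((b : ℝ) / (N : ℝ) ^ 2)) * ∑ i, q (f (P i)) ≤ ε * ∑ i, q (f (P i)) :=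
          mul_le_mul_of_nonneg_right h2 hqH0
      _ ≤ ε * (H + n * (Cp * w)) := mul_le_mul_of_nonneg_left hqH hε.le
  have hQs : ∑ j, logHeight (Q j).xRep ≤ ∑ j, q (Q j) + r * (Cp * w) := by
    calc ∑ j, logHeight (Q j).xRep ≤ ∑ j : Fin r, (q (Q j) + Cp * w) :=
          Finset.sum_le_sum fun i _ => hup _
      _ = ∑ j, q (Q j) + r * (Cp * w) := by
          rw [Finset.sum_add_distrib, Finset.sum_const, Finset.card_univ, Fintype.card_fin,
            nsmul_eq_mul]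
  have hRs : ∑ i, logHeight (f (P i) - ∑ j, ℓ (i, j) • Q j).xRep ≤
      ∑ i, q (f (P i) - ∑ j, ℓ₀ i j • Q j) + n * (Cp * w) := by
    calc ∑ i, logHeight (f (P i) - ∑ j, ℓ (i, j) • Q j).xRep
        ≤ ∑ i : Fin n, (q (f (P i) - ∑ j, ℓ₀ i j • Q j) + Cp * w) :=
          Finset.sum_le_sum fun i _ => hup _
      _ = ∑ i, q (f (P i) - ∑ j, ℓ₀ i j • Q j) + n * (Cp * w) := by
          rw [Finset.sum_add_distrib, Finset.sum_const, Finset.card_univ, Fintype.card_fin,
            nsmul_eq_mul]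
  have hCfle : Cf ⟨ℓ, hℓS⟩ ≤ ∑ ℓ, Cf ℓ :=
    Finset.single_le_sum (f := Cf) (fun ℓ _ => hCf0 ℓ) (Finset.mem_univ _)
  have hb0 : (0 : ℝ) ≤ 2 * b := by positivity
  have hfinal : dfc D g (fun i => (f (P i)).xRep) ≤
      ε * H + (ε * n * Cp + 2 * b * (r + n) * Cp + ∑ ℓ, Cf ℓ) * w := by
    have h1 : 2 * (b : ℝ) * (∑ j, logHeight (Q j).xRep +
        ∑ i, logHeight (f (P i) - ∑ j, ℓ (i, j) • Q j).xRep) ≤
        2 * b * (K₀ / (N : ℝ) ^ 2 * ∑ i, q (f (P i)) + (r + n) * (Cp * w)) := by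
      refine mul_le_mul_of_nonneg_left ?_ hb0
      linarith
    have h2 : Cf ⟨ℓ, hℓS⟩ * w ≤ (∑ ℓ, Cf ℓ) * w := mul_le_mul_of_nonneg_right hCfle hw0
    have h3 : 2 * (b : ℝ) * (K₀ / (N : ℝ) ^ 2 * ∑ i, q (f (P i)) + (r + n) * (Cp * w)) =
        2 * (b : ℝ) * (K₀ / (N : ℝ) ^ 2 * ∑ i, q (f (P i))) + 2 * b * (r + n) * Cp * w := by
      ring
    have h4 : ε * (H + n * (Cp * w)) = ε * H + ε * n * Cp * w := by ring
    have h5 : ε * H + (ε * n * Cp + 2 * b * (r + n) * Cp + ∑ ℓ, Cf ℓ) * w =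
        ε * H + ε * n * Cp * w + 2 * b * (r + n) * Cp * w + (∑ ℓ, Cf ℓ) * w := by ring
    rw [h5]
    linarith
  -- base change
  have hbase := M3_dfc (L := L) (L' := L') D g (fun i => (P i).xRep) (fun i => (f (P i)).xRep)
    (fun i j => hf (P i) j)
  have hHb : H = Module.finrank L L' * ∑ i, logHeight (P i).xRep := by
    rw [hH, Finset.mul_sum]
    refine Finset.sum_congr rfl fun i _ => ?_
    rw [← logHeight_algebraMap]
    congr 1
    funext j
    exact hf (P i) j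
  have hwb : w = Module.finrank L L' * Module.finrank ℚ L := by
    rw [hw, ← Module.finrank_mul_finrank ℚ L L']
    push_cast
    ring
  have hfin : Module.Finite L L' := Module.Finite.of_restrictScalars_finite ℚ L L'
  have hpos : (0 : ℝ) < Module.finrank L L' := by
    exact_mod_cast Module.finrank_pos
  rw [hbase, hHb, hwb] at hfinal
  have h6 : (Module.finrank L L' : ℝ) * dfc D g (fun i => (P i).xRep) ≤
      Module.finrank L L' * (ε * ∑ i, logHeight (P i).xRep +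
        (ε * n * Cp + 2 * b * (r + n) * Cp + ∑ ℓ, Cf ℓ) * Module.finrank ℚ L) := by
    refine hfinal.trans (le_of_eq ?_)
    ring
  exact le_of_mul_le_mul_left h6 hpos

end Pool.Agent.Lib.MP_17a322_nt.RV
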