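import Pool.Agent.Lib.MP_17a322_nt.RV.Defs
import Pool.Agent.Lib.MP_17a322_nt.RO.G4

/-!
The dimension condition.
-/

namespace Pool.Agent.Lib.MP_17a322_nt.RV

open MvPolynomial WeierstrassCurve Height
open Pool.Agent.Lib.MP_17a322_nt.RO

universe u

/-- The condition on transcendence degrees implies `DimLT`.
Proof. `evl z (hom (g k) D)` is the sum in `hY` for `X i = z i 0`, `Z i = z i 1` (`G4_evl_hom`, RO/G4).
The field `K(X i / Z i)` has a transcendence basis over `K` of cardinality `trdeg`, less than `n - r`
(finite); take its image `t` in `F`; every element of the field is algebraic over `K(t)`. -/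
theorem dimLT_of_trdeg {K : Type u} [Field K] (r n m : ℕ) (g : Fin m → MvPolynomial (Fin n) K)
    (D : Fin n → ℕ)
    (hY : ∀ (F : Type u) [Field F] [Algebra K F] (X Z : Fin n → F),
      (∀ i, X i ≠ 0 ∨ Z i ≠ 0) →
      (∀ k, ∑ e ∈ (g k).support, algebraMap K F ((g k).coeff e) *
        ∏ i, (X i ^ e i * Z i ^ (D i - e i)) = 0) →
        Algebra.trdeg K (IntermediateField.adjoin K (Set.range fun i => X i / Z i)) + r < n) :
    DimLT (fun k => hom (g k) D) (n - r) := by
  classical
  intro F _ _ _ z hz hg
  have hX : ∀ i, z i 0 ≠ 0 ∨ z i 1 ≠ 0 := by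
    intro i
    by_contra hcon
    rw [not_or, not_not, not_not] at hcon
    refine hz i (funext fun j => ?_)
    fin_cases j
    · exact hcon.1
    · exact hcon.2
  have h1 := hY F (fun i => z i 0) (fun i => z i 1) hX (fun k => by
    have h := hg k
    rw [G4_evl_hom] at h
    exact h)
  set L := IntermediateField.adjoin K (Set.range fun i => z i 0 / z i 1) with hL
  obtain ⟨s, hs⟩ := exists_isTranscendenceBasis K L
  have hcard := hs.cardinalMk_eq_trdeg
  have hlt : Algebra.trdeg K L < Cardinal.aleph0 :=
    lt_of_le_of_lt (self_le_add_right _ (r : Cardinal)) (h1.trans Cardinal.natCast_lt_aleph0)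
  have hfin : s.Finite := Cardinal.lt_aleph0_iff_set_finite.1 (hcard.trans_lt hlt)
  let s' : Finset L := hfin.toFinset
  have hs' : (s' : Set L) = s := hfin.coe_toFinset
  have hc : (s'.card : Cardinal) = Algebra.trdeg K L := by
    rw [← hcard, ← hs']
    exact (Cardinal.mk_coe_finset).symm
  refine ⟨s'.image (fun y : L => (y : F)), ?_, ?_⟩
  · rw [← hc] at h1
    have h2 : s'.card + r < n := by exact_mod_cast h1
    have h3 : (s'.image (fun y : L => (y : F))).card ≤ s'.card := Finset.card_image_le
    omega
  · intro b
    have hal := hs.isAlgebraic_field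
    have hy : z b 0 / z b 1 ∈ L := IntermediateField.subset_adjoin K _ ⟨b, rfl⟩
    have h4 : IsAlgebraic (IntermediateField.adjoin K (Set.range (Subtype.val : s → L)))
        (⟨z b 0 / z b 1, hy⟩ : L) := hal.isAlgebraic _
    have hmem : ∀ a : IntermediateField.adjoin K (Set.range (Subtype.val : s → L)),
        L.val (a : L) ∈ IntermediateField.adjoin K
          ((s'.image (fun y : L => (y : F)) : Finset F) : Set F) := by
      intro a
      have h5 : L.val (a : L) ∈
          (IntermediateField.adjoin K (Set.range (Subtype.val : s → L))).map L.val :=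
        ⟨a, a.2, rfl⟩
      rw [IntermediateField.adjoin_map] at h5
      have h6 : L.val '' Set.range (Subtype.val : s → L) =
          ((s'.image (fun y : L => (y : F)) : Finset F) : Set F) := by
        rw [Subtype.range_coe, Finset.coe_image, hs']
        rfl
      rw [h6] at h5
      exact h5
    let f : IntermediateField.adjoin K (Set.range (Subtype.val : s → L)) →+*
        IntermediateField.adjoin K ((s'.image (fun y : L => (y : F)) : Finset F) : Set F) :=
      (L.val.toRingHom.comp
        (algebraMap (IntermediateField.adjoin K (Set.range (Subtype.val : s → L))) L)).codRestrict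
        _ hmem
    exact h4.ringHom_of_comp_eq f L.val.toRingHom f.injective (RingHom.ext fun a => rfl)

end Pool.Agent.Lib.MP_17a322_nt.RV
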