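import Pool.Agent.Lib.MP_17a322_nt.RV.M3
import Pool.Agent.Lib.MP_17a322_nt.RV.M4a
import Pool.Agent.Lib.MP_17a322_nt.RO.G3
import Pool.Agent.Lib.MP_17a322_nt.RO.N2

/-!
The final statement.
-/

namespace Pool.Agent.Lib.MP_17a322_nt.RV

open MvPolynomial WeierstrassCurve Height
open Pool.Agent.Lib.MP_17a322_nt.RO

universe u

/-- Dehomogenisation, evaluated over extensions. -/
theorem M4b_dehom {K : Type u} [Field K] [CharZero K] {B : Type*} [Fintype B] [DecidableEq B]
    (E : B → ℕ)
    (R : MvPolynomial (B × Fin 2) K) (hR : MH R E) (h0 : R ≠ 0) :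
    ∃ G : MvPolynomial B K, G ≠ 0 ∧ ∀ (A : Type u) [CommRing A] [Algebra K A] (x : B → A),
      aeval x G = evl (fun b => ![x b, 1]) R := by
  obtain ⟨G₁, h1, h2⟩ := exists_dehom E R hR h0
  have h3 : ∀ (A : Type u) [CommRing A] [Algebra K A] (x : B → A),
      aeval x (aeval (fun p : B × Fin 2 => (![X p.1, 1] : Fin 2 → MvPolynomial B K) p.2) R) =
        evl (fun b => ![x b, 1]) R := by
    intro A _ _ x
    unfold evl
    rw [← AlgHom.comp_apply]
    congr 1
    apply MvPolynomial.algHom_ext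
    rintro ⟨b, i⟩
    fin_cases i <;> simp
  have h4 : G₁ = aeval (fun p : B × Fin 2 => (![X p.1, 1] : Fin 2 → MvPolynomial B K) p.2) R := by
    apply MvPolynomial.funext
    intro x
    rw [h2 x]
    have := h3 K x
    rw [← this]
    exact (DFunLike.congr_fun (MvPolynomial.coe_aeval_eq_eval x) _).symm
  refine ⟨_, ?_, h3⟩
  rw [← h4]
  exact h1

/-- Main theorem.
Proof. `main` (RV/M3) for the forms `hom (g k) D` (`mh_hom`, RO/G3) and `dimLT_of_trdeg` (RV/M4a); `G` is
the dehomogenisation of `R` (`exists_dehom`, RO/N2, gives the values over `K`; over `L` use the same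
polynomial, or repeat its proof with `aeval`). The `xRep` of `Affine.Point.some x y h` is `![x, 1]`,
`logHeight ![x, 1] = logHeight₁ x`, and `evl_hom_one` (RO/G3); compare the proof of RO/N4 `main`. -/
theorem final {K : Type u} [Field K] [NumberField K] (W : WeierstrassCurve K)
    [W.IsElliptic] (r n m : ℕ) (hrn : r < n) (g : Fin m → MvPolynomial (Fin n) K)
    (D : Fin n → ℕ) (hD : ∀ k i, (g k).degreeOf i ≤ D i)
    (hY : ∀ (F : Type u) [Field F] [Algebra K F] (X Z : Fin n → F),
      (∀ i, X i ≠ 0 ∨ Z i ≠ 0) →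
      (∀ k, ∑ e ∈ (g k).support, algebraMap K F ((g k).coeff e) *
        ∏ i, (X i ^ e i * Z i ^ (D i - e i)) = 0) →
        Algebra.trdeg K (IntermediateField.adjoin K (Set.range fun i => X i / Z i)) + r < n)
    (ε : ℝ) (hε : 0 < ε) :
    ∃ G : MvPolynomial (Fin n) K, G ≠ 0 ∧ ∃ C : ℝ,
      ∀ (L : Type u) [Field L] [NumberField L] [DecidableEq L] [Algebra K L] (x y : Fin n → L)
        (h : ∀ i, (W.map (algebraMap K L)).toAffine.Nonsingular (x i) (y i)),
        Module.finrank ℤ (Submodule.span ℤ (Set.range fun i =>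
          (Affine.Point.some (x i) (y i) (h i) : (W.map (algebraMap K L)).toAffine.Point))) ≤ r →
        aeval x G ≠ 0 →
          ∑ i, (D i : ℝ) * logHeight₁ (x i) - logHeight (fun k => aeval x (g k)) ≤
            ε * ∑ i, logHeight₁ (x i) + C * Module.finrank ℚ L := by
  classical
  have hdim := dimLT_of_trdeg r n m g D hY
  obtain ⟨R, E, h1, h2, C, h3⟩ := main W r n hrn D (fun k => hom (g k) D)
    (fun k => mh_hom (g k) D (hD k)) hdim ε hε
  obtain ⟨G, h4, h5⟩ := M4b_dehom E R h1 h2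
  refine ⟨G, h4, C, ?_⟩
  intro L _ _ _ _ x y h hr hG
  have h6 := h3 L (fun i => (Affine.Point.some (x i) (y i) (h i) :
    (W.map (algebraMap K L)).toAffine.Point)) hr
  have h7 : ∀ i, (Affine.Point.some (x i) (y i) (h i) :
      (W.map (algebraMap K L)).toAffine.Point).xRep = ![x i, 1] := fun i =>
    Affine.Point.xRep_some ..
  simp only [h7] at h6
  rw [← h5 L x] at h6
  have h8 := h6 hG
  unfold dfc at h8
  simp only [evl_hom_one, ← logHeight₁_eq_logHeight] at h8
  exact h8

end Pool.Agent.Lib.MP_17a322_nt.RV
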