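import Pool.Agent.Lib.MP_17a322_nt.RV.Defs

/-!
Antisymmetric forms in two vectors of length two.
-/

namespace Pool.Agent.Lib.MP_17a322_nt.RV

open MvPolynomial
open Pool.Agent.Lib.MP_17a322_nt.RO

theorem C3_sq2_zero {A : Type*} [CommSemiring A] (v w : Fin 2 → A) : sq2 v w 0 = v 0 * w 0 := rfl

theorem C3_sq2_one {A : Type*} [CommSemiring A] (v w : Fin 2 → A) :
    sq2 v w 1 = v 0 * w 1 + v 1 * w 0 := rfl

theorem C3_sq2_two {A : Type*} [CommSemiring A] (v w : Fin 2 → A) : sq2 v w 2 = v 1 * w 1 := rfl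

/-- Differences of powers. -/
theorem C3_powerDiff (K : Type*) [CommRing K] (k : ℕ) :
    ∃ T : MvPolynomial (Fin 3) K, T.IsHomogeneous k ∧
      ∀ (A : Type*) [CommRing A] [Algebra K A] (p p' : Fin 2 → A),
        (p 0 * p' 1 - p 1 * p' 0) * aeval (sq2 p p') T =
          (p 0 * p' 1) ^ (k + 1) - (p 1 * p' 0) ^ (k + 1) := by
  induction k using Nat.twoStepInduction with
  | zero =>
    refine ⟨1, isHomogeneous_one _ _, fun A _ _ p p' => ?_⟩
    rw [map_one]
    ring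
  | one =>
    refine ⟨X 1, isHomogeneous_X _ _, fun A _ _ p p' => ?_⟩
    rw [aeval_X, C3_sq2_one]
    ring
  | more k h1 h2 =>
    obtain ⟨T, hT, hT'⟩ := h1
    obtain ⟨U, hU, hU'⟩ := h2
    refine ⟨X 1 * U - X 0 * X 2 * T, ?_, fun A _ _ p p' => ?_⟩
    · refine IsHomogeneous.sub ?_ ?_
      · have := (isHomogeneous_X K (1 : Fin 3)).mul hU
        rwa [show 1 + (k + 1) = k + 2 by ring] at this
      · have := ((isHomogeneous_X K (0 : Fin 3)).mul (isHomogeneous_X K (2 : Fin 3))).mul hT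
        rwa [show 1 + 1 + k = k + 2 by ring] at this
    · rw [map_sub, map_mul, map_mul, map_mul, aeval_X, aeval_X, aeval_X, C3_sq2_one, C3_sq2_zero,
        C3_sq2_two]
      linear_combination (p 0 * p' 1 + p 1 * p' 0) * hU' A p p' -
        (p 0 * p' 0 * (p 1 * p' 1)) * hT' A p p'

theorem C3_aux (K : Type*) [CommRing K] (D a b : ℕ) (ha : a ≤ D) (hab : b ≤ a) :
    ∃ V : MvPolynomial (Fin 3) K, V.IsHomogeneous (D - 1) ∧
      ∀ (A : Type*) [CommRing A] [Algebra K A] (p p' : Fin 2 → A),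
        (p 0 * p' 1 - p 1 * p' 0) * aeval (sq2 p p') V =
          p 0 ^ a * p 1 ^ (D - a) * (p' 0 ^ b * p' 1 ^ (D - b)) -
            p' 0 ^ a * p' 1 ^ (D - a) * (p 0 ^ b * p 1 ^ (D - b)) := by
  rcases Nat.eq_or_lt_of_le hab with h | h
  · subst h
    refine ⟨0, isHomogeneous_zero _ _ _, fun A _ _ p p' => ?_⟩
    rw [map_zero]
    ring
  · obtain ⟨c, rfl⟩ := Nat.exists_eq_add_of_lt h
    obtain ⟨d, rfl⟩ := Nat.exists_eq_add_of_le ha
    obtain ⟨T, hT, hT'⟩ := C3_powerDiff K c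
    have e2 : b + c + 1 + d - (b + c + 1) = d := by omega
    have e3 : b + c + 1 + d - b = c + 1 + d := by omega
    refine ⟨X 0 ^ b * X 2 ^ d * T, ?_, fun A _ _ p p' => ?_⟩
    · have := (((isHomogeneous_X K (0 : Fin 3)).pow b).mul
        ((isHomogeneous_X K (2 : Fin 3)).pow d)).mul hT
      rwa [show 1 * b + 1 * d + c = b + c + 1 + d - 1 by omega] at this
    · rw [map_mul, map_mul, map_pow, map_pow, aeval_X, aeval_X, C3_sq2_zero, C3_sq2_two, e2, e3]
      linear_combination ((p 0 * p' 0) ^ b * (p 1 * p' 1) ^ d) * hT' A p p'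

/-- `p_0^a p_1^(D-a) p'_0^b p'_1^(D-b)` minus the same with `p`, `p'` exchanged is
`p_0 p'_1 - p_1 p'_0` times a form of degree `D - 1` in the symmetric square `sq2 p p'`.
Proof. For `b ≤ a`, with `x = p_0 p'_1`, `y = p_1 p'_0`, `k = a - b`, the difference is
`(p_0 p'_0)^b (p_1 p'_1)^(D-a) (x^k - y^k)`, and `x^k - y^k = (x - y) T_k(sq2 p p')` where
`T_0 = 0`, `T_1 = 1`, `T_{m+2} = X 1 * T_{m+1} - X 0 * X 2 * T_m` (homogeneous of degree `k - 1`; `T_0 = 0`
is homogeneous of every degree). So `V = X 0 ^ b * X 2 ^ (D-a) * T_k`. For `a < b` exchange the roles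
(`V ↦ -V`). Compare `exists_powerSum`, `C1_aux`, `exists_symForm` in RO/C1. -/
theorem exists_antiForm (K : Type*) [CommRing K] (D a b : ℕ) (ha : a ≤ D) (hb : b ≤ D) :
    ∃ V : MvPolynomial (Fin 3) K, V.IsHomogeneous (D - 1) ∧
      ∀ (A : Type*) [CommRing A] [Algebra K A] (p p' : Fin 2 → A),
        (p 0 * p' 1 - p 1 * p' 0) * aeval (sq2 p p') V =
          p 0 ^ a * p 1 ^ (D - a) * (p' 0 ^ b * p' 1 ^ (D - b)) -
            p' 0 ^ a * p' 1 ^ (D - a) * (p 0 ^ b * p 1 ^ (D - b)) := by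
  rcases le_total b a with h | h
  · exact C3_aux K D a b ha h
  · obtain ⟨V, hV, hV'⟩ := C3_aux K D b a hb h
    refine ⟨-V, hV.neg, fun A _ _ p p' => ?_⟩
    rw [map_neg]
    linear_combination -(hV' A p p')

end Pool.Agent.Lib.MP_17a322_nt.RV
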