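import Pool.Agent.Lib.MP_17a322_nt.RV.Defs
import Pool.Agent.Lib.MP_17a322_nt.RO.D2

/-!
Translation forms for coloured blocks.
-/

namespace Pool.Agent.Lib.MP_17a322_nt.RV

open MvPolynomial WeierstrassCurve
open Pool.Agent.Lib.MP_17a322_nt.RO

/-- Renaming and weights. -/
theorem C5_rename {K σ τ M N : Type*} [CommRing K] [AddCommMonoid M] [AddCommMonoid N] [Fintype σ]
    (w : σ → M) (w' : τ → N) (f : σ → τ) (L : M →+ N) (hw : ∀ p, w' (f p) = L (w p))
    {p : MvPolynomial σ K} {m : M} (hp : IsWeightedHomogeneous w p m) :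
    IsWeightedHomogeneous w' (rename f p) (L m) := by
  classical
  have e0 : rename f p = aeval (fun j => (X (f j) : MvPolynomial τ K)) p := by
    have e00 : rename f = aeval (fun j => (X (f j) : MvPolynomial τ K)) :=
      algHom_ext fun i => by rw [rename_X, aeval_X]
    rw [e00]
  rw [e0, aeval_def, eval₂_eq']
  refine IsWeightedHomogeneous.sum _ _ _ fun d hd => ?_
  have h1 : IsWeightedHomogeneous w' (∏ j : σ, (X (f j) : MvPolynomial τ K) ^ d j)
      (∑ j : σ, d j • w' (f j)) :=
    IsWeightedHomogeneous.prod _ _ _ fun j _ => (isWeightedHomogeneous_X K w' (f j)).pow (d j)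
  have h2 : (∑ j : σ, d j • w' (f j)) = L m := by
    have h3 := hp (mem_support_iff.mp hd)
    rw [Finsupp.weight_apply, Finsupp.sum_fintype _ _ (by simp)] at h3
    rw [← h3, map_sum]
    refine Finset.sum_congr rfl fun j _ => ?_
    rw [hw, map_nsmul]
  rw [h2] at h1
  have h3 : (algebraMap K (MvPolynomial τ K)) (coeff d p) = C (coeff d p) := rfl
  rw [h3]
  exact h1.C_mul _

theorem C5_sq2_comm {A : Type*} [CommRing A] (v w : Fin 2 → A) : sq2 v w = sq2 w v := by
  funext i
  fin_cases i <;> simp [sq2, mul_comm, add_comm]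

universe u

/-- Blocks `j ∈ J` for the points `Q_j`, blocks `i ∈ B` for the points `P_i`, every `i` has a colour
`c i ∈ J`. There are forms `S i k`, `k = 0, 1, 2`, of degree `2 (ℓ i)^2` in block `c i` and `2` in block
`i` (and `0` in the other blocks) whose values at the x-coordinates are a nonzero multiple of the
symmetric square of `x(P_i - ℓ_i Q_{c i})` and `x(P_i + ℓ_i Q_{c i})`.
Proof. `exists_transForm` (RO/D2) with `B := Unit`, `b := ()`, and `ℓ := ℓ i`; rename the block `none`
into `Sum.inl (c i)` and the block `some ()` into `Sum.inr i`. The point `ℓ Q - q` has the same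
x-coordinate as `q - ℓ Q` (`Affine.Point.xRep_neg`), and `sq2` is symmetric. -/
theorem exists_blockTrans {K : Type u} [Field K] (W : WeierstrassCurve K) [W.IsElliptic]
    {J B : Type*} [Fintype J] [DecidableEq J] [Fintype B] [DecidableEq B] (c : B → J)
    (ℓ : B → ℤ) :
    ∃ S : B → Fin 3 → MvPolynomial ((J ⊕ B) × Fin 2) K,
      (∀ i k, MH (S i k)
        (Sum.elim (Pi.single (c i) (2 * (ℓ i).natAbs ^ 2)) (Pi.single i 2))) ∧
      ∀ (F : Type u) [Field F] [DecidableEq F] [Algebra K F] (V : WeierstrassCurve F),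
        W.map (algebraMap K F) = V → ∀ (Q : J → V.toAffine.Point) (P : B → V.toAffine.Point),
          ∃ γ : B → F, (∀ i, γ i ≠ 0) ∧ ∀ i k,
            evl (Sum.elim (fun j => (Q j).xRep) (fun i => (P i).xRep)) (S i k) =
              γ i * sq2 (P i - ℓ i • Q (c i)).xRep (P i + ℓ i • Q (c i)).xRep k := by
  classical
  choose T hT hT' using fun i : B => exists_transForm W (B := Unit) (ℓ i) ()
  let f : B → Option Unit × Fin 2 → (J ⊕ B) × Fin 2 := fun i p =>
    (p.1.elim (Sum.inl (c i)) (fun _ => Sum.inr i), p.2)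
  refine ⟨fun i k => rename (f i) (T i k), fun i k => ?_, ?_⟩
  · let L : (Option Unit → ℕ) →+ (J ⊕ B → ℕ) :=
      { toFun := fun D => Sum.elim (Pi.single (c i) (D none)) (Pi.single i (D (some ())))
        map_zero' := by
          funext o
          rcases o with j | j <;> simp
        map_add' := fun D D' => by
          funext o
          rcases o with j | j <;> simp [Pi.single_add] }
    have h := C5_rename (bwt (Option Unit) (Fin 2)) (bwt (J ⊕ B) (Fin 2)) (f i) L
      (fun p => by
        obtain ⟨o, x⟩ := p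
        funext q
        rcases o with _ | u <;> rcases q with j | j <;>
          simp [f, L, bwt, Pi.single_apply]) (hT i k)
    have e : L (pd (2 * (ℓ i).natAbs ^ 2) (Pi.single () 2)) =
        Sum.elim (Pi.single (c i) (2 * (ℓ i).natAbs ^ 2)) (Pi.single i 2) := by
      funext o
      rcases o with j | j <;> simp [L, pd]
    rw [e] at h
    exact h
  · intro F _ _ _ V hV Q P
    choose γ hγ hγ' using fun i => hT' i F V hV (Q (c i)) (fun _ => P i)
    refine ⟨γ, hγ, fun i k => ?_⟩
    have h := hγ' i k
    have e1 : evl (Sum.elim (fun j => (Q j).xRep) (fun i => (P i).xRep)) (rename (f i) (T i k)) =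
        evl (pv (Q (c i)).xRep (fun _ => (P i).xRep)) (T i k) := by
      unfold evl
      rw [aeval_rename]
      congr 2
      funext p
      obtain ⟨o, x⟩ := p
      rcases o with _ | u <;> rfl
    rw [e1, h]
    have e2 : (ℓ i • Q (c i) - P i).xRep = (P i - ℓ i • Q (c i)).xRep := by
      rw [← neg_sub (P i), Affine.Point.xRep_neg]
    have e3 : ℓ i • Q (c i) + P i = P i + ℓ i • Q (c i) := add_comm _ _
    rw [e2, e3, C5_sq2_comm]

end Pool.Agent.Lib.MP_17a322_nt.RV
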