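import Pool.Agent.Lib.MP_17a322_nt.RV.Defs

/-!
Elimination in a chart.
-/

namespace Pool.Agent.Lib.MP_17a322_nt.RV

open MvPolynomial
open scoped IntermediateField.algebraAdjoinAdjoin
open Pool.Agent.Lib.MP_17a322_nt.RO

universe u

/-- If the common zeros of the `g k` have dimension less than `m`, then for every chart `τ` (the
variable `X (b, τ b)` is set to `1`, the other variable of the block becomes `X b`) and every set `s` of
at least `m` blocks the ideal of the dehomogenised forms contains a nonzero polynomial in the variables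
of `s`.
Proof. Let `I` be that ideal of `R = MvPolynomial B K` (`I = Ideal.span (range ..)`; membership gives the
`a k` by `Ideal.mem_span_range_iff_exists_fun` or similar). Suppose `I` meets
`supported K s` only in `0`. The nonzero elements of `supported K s` form a submonoid `M` disjoint from
`I`, so there is a prime ideal `p ≥ I` disjoint from `M` (`Ideal.exists_le_prime_disjoint`). Let
`F = AlgebraicClosure (FractionRing (R ⧸ p))`, `x b : F` the image of `X b`, and `z b` the vector with
`z b (τ b) = 1` and the other entry `x b`. Then `z` is a common zero, so by `hdim` there is `t`,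
`t.card < m`, with all `z b 0 / z b 1` algebraic over `K(t)`; these ratios are `x b` or `1 / x b` so all `x b`
are algebraic over `K(t)`. But `(x b)_{b ∈ s}` is algebraically independent over `K` (no nonzero element
of `supported K s` lies in `p`), and `s.card ≥ m > t.card`: contradiction by the comparison of
transcendence degrees (e.g. `AlgebraicIndependent` family inside the algebraic closure of `K(t)`; the
transcendence degree of `algebraicClosure (adjoin K t) F` over `K` is at most `t.card`). -/
theorem exists_contraction {K : Type u} [Field K] {B κ : Type} [Fintype B] [DecidableEq B]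
    [Fintype κ] (g : κ → MvPolynomial (B × Fin 2) K) (m : ℕ) (hdim : DimLT g m) (s : Finset B)
    (hs : m ≤ s.card) (τ : B → Fin 2) :
    ∃ H : MvPolynomial B K, H ≠ 0 ∧ H ∈ supported K (s : Set B) ∧
      ∃ a : κ → MvPolynomial B K,
        H = ∑ k, a k * aeval (fun p : B × Fin 2 => if p.2 = τ p.1 then 1 else X p.1) (g k) := by
  classical
  set G : κ → MvPolynomial B K :=
    fun k => aeval (fun p : B × Fin 2 => if p.2 = τ p.1 then 1 else X p.1) (g k) with hG
  let I : Ideal (MvPolynomial B K) := Ideal.span (Set.range G)
  by_contra hcon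
  have hI : ∀ H ∈ supported K (s : Set B), H ∈ I → H = 0 := by
    intro H hH hHI
    by_contra h0
    obtain ⟨a, ha⟩ := (Ideal.mem_span_range_iff_exists_fun).1 hHI
    exact hcon ⟨H, h0, hH, a, ha.symm⟩
  let M : Submonoid (MvPolynomial B K) :=
    { carrier := {H | H ∈ supported K (s : Set B) ∧ H ≠ 0}
      mul_mem' := fun {a b} ha hb => ⟨Subalgebra.mul_mem _ ha.1 hb.1, mul_ne_zero ha.2 hb.2⟩
      one_mem' := ⟨Subalgebra.one_mem _, one_ne_zero⟩ }
  have hdisj : Disjoint (I : Set (MvPolynomial B K)) (M : Set (MvPolynomial B K)) := by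
    rw [Set.disjoint_left]
    intro H h1 h2
    exact h2.2 (hI H h2.1 h1)
  obtain ⟨p, hp, hIp, hpM⟩ := Ideal.exists_le_prime_disjoint I M hdisj
  have := hp
  let F := AlgebraicClosure (FractionRing (MvPolynomial B K ⧸ p))
  have hinj : Function.Injective (algebraMap (MvPolynomial B K ⧸ p) F) := by
    rw [IsScalarTower.algebraMap_eq (MvPolynomial B K ⧸ p) (FractionRing (MvPolynomial B K ⧸ p)) F]
    exact (algebraMap (FractionRing (MvPolynomial B K ⧸ p)) F).injective.comp
      (IsFractionRing.injective _ _)
  let ψ : MvPolynomial B K →ₐ[K] F :=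
    (IsScalarTower.toAlgHom K (MvPolynomial B K ⧸ p) F).comp (Ideal.Quotient.mkₐ K p)
  have hψ : ∀ f, ψ f = 0 → f ∈ p := by
    intro f hf
    have h1 : algebraMap (MvPolynomial B K ⧸ p) F (Ideal.Quotient.mk p f) = 0 := hf
    rw [← map_zero (algebraMap (MvPolynomial B K ⧸ p) F)] at h1
    exact Ideal.Quotient.eq_zero_iff_mem.1 (hinj h1)
  have hψ' : ∀ f ∈ p, ψ f = 0 := by
    intro f hf
    have h1 : ψ f = algebraMap (MvPolynomial B K ⧸ p) F (Ideal.Quotient.mk p f) := rfl
    rw [h1, Ideal.Quotient.eq_zero_iff_mem.2 hf, map_zero]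
  have hGp : ∀ k, G k ∈ p := fun k => hIp (Ideal.subset_span ⟨k, rfl⟩)
  let z : B → Fin 2 → F := fun b i => if i = τ b then 1 else ψ (X b)
  have hz0 : ∀ b, z b ≠ 0 := by
    intro b h
    have h1 : z b (τ b) = 0 := by rw [h]; rfl
    have h2 : z b (τ b) = 1 := if_pos rfl
    exact one_ne_zero (h2.symm.trans h1)
  have hzg : ∀ k, evl z (g k) = 0 := by
    intro k
    have h1 : ψ (G k) = evl z (g k) := by
      unfold evl
      rw [hG]
      simp only
      rw [← AlgHom.comp_apply]
      congr 1
      apply MvPolynomial.algHom_ext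
      intro q
      rw [AlgHom.comp_apply, aeval_X, aeval_X]
      simp only [z]
      split_ifs
      · exact map_one ψ
      · rfl
    rw [← h1]
    exact hψ' _ (hGp k)
  obtain ⟨t, htm, ht⟩ := hdim F z hz0 hzg
  have hx : ∀ b, IsAlgebraic (IntermediateField.adjoin K (t : Set F)) (ψ (X b)) := by
    intro b
    have h1 := ht b
    have h2 : z b (τ b) = 1 := if_pos rfl
    rcases Fin.exists_fin_two.1 ⟨τ b, rfl⟩ with h | h
    · have h3 : z b 1 = ψ (X b) := if_neg (by rw [h]; decide)
      have h4 : z b 0 = 1 := by rw [← h]; exact h2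
      rw [h3, h4, one_div] at h1
      exact IsAlgebraic.inv_iff.1 h1
    · have h3 : z b 0 = ψ (X b) := if_neg (by rw [h]; decide)
      have h4 : z b 1 = 1 := by rw [← h]; exact h2
      rw [h3, h4, div_one] at h1
      exact h1
  have hind : AlgebraicIndependent K (fun b : (s : Set B) => ψ (X (b : B))) := by
    rw [algebraicIndependent_iff]
    intro f hf
    have h1 : ψ (rename (fun b : (s : Set B) => (b : B)) f) = 0 := by
      rw [← hf, ← AlgHom.comp_apply]
      congr 1
      apply MvPolynomial.algHom_ext
      intro q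
      rw [AlgHom.comp_apply, rename_X, aeval_X]
    by_contra h0
    have h2 : rename (fun b : (s : Set B) => (b : B)) f ≠ 0 := by
      intro h3
      apply h0
      apply rename_injective _ Subtype.val_injective
      rw [h3, map_zero]
    have h3 : rename (fun b : (s : Set B) => (b : B)) f ∈ supported K (s : Set B) := by
      rw [supported_eq_range_rename]
      exact ⟨f, rfl⟩
    exact Set.disjoint_left.1 hpM (hψ _ h1) ⟨h3, h2⟩
  let Mt := AlgebraicIndependent.matroid K F
  have hMi : Mt.Indep (Set.range (fun b : (s : Set B) => ψ (X (b : B)))) := by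
    rw [AlgebraicIndependent.matroid_indep_iff]
    exact hind.to_subtype_range
  have hMc : Set.range (fun b : (s : Set B) => ψ (X (b : B))) ⊆ Mt.closure (t : Set F) := by
    rintro _ ⟨b, rfl⟩
    rw [AlgebraicIndependent.matroid_closure_eq, SetLike.mem_coe, Subalgebra.mem_algebraicClosure]
    exact (IsFractionRing.isAlgebraic_iff (Algebra.adjoin K (t : Set F))
      (IntermediateField.adjoin K (t : Set F)) F).2 (hx b)
  have h1 := hMi.encard_le_eRk_of_subset hMc
  rw [Mt.eRk_closure_eq] at h1
  have h2 := h1.trans (Mt.eRk_le_encard _)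
  rw [Set.encard_coe_eq_coe_finsetCard, ← Set.image_univ, hind.injective.encard_image, Set.encard_univ,
    ENat.card_coe_set_eq, Set.encard_coe_eq_coe_finsetCard] at h2
  have h3 : s.card ≤ t.card := by exact_mod_cast h2
  omega

end Pool.Agent.Lib.MP_17a322_nt.RV
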