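import Pool.Agent.Lib.MP_17a322_nt.RV.Defs

/-!
Counting exponents with few coordinates in the middle range.
-/

namespace Pool.Agent.Lib.MP_17a322_nt.RV

open MvPolynomial
open Pool.Agent.Lib.MP_17a322_nt.RO

/-- The exponents `a` with `0 ≤ a b ≤ e b` for which at most `d` of the `a b` are in the middle range
`2N ≤ a b ≤ e b - 2N`. -/
def goodExp {B : Type} [Fintype B] [DecidableEq B] (e : B → ℕ) (N d : ℕ) : Finset (B → ℕ) :=
  (Fintype.piFinset fun b => Finset.range (e b + 1)).filter
    fun a => (Finset.univ.filter fun b => 2 * N ≤ a b ∧ 2 * N ≤ e b - a b).card ≤ d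

/-- The monomial of multidegree `e` with exponents `a`. -/
noncomputable def mono (K : Type*) [CommSemiring K] {B : Type} [Fintype B] (e a : B → ℕ) :
    MvPolynomial (B × Fin 2) K :=
  ∏ b, (X (b, 0) ^ a b * X (b, 1) ^ (e b - a b))

/-- Proof. Sum over the set `T` of the middle coordinates (at most `2^|B|` sets with `|T| ≤ d`): for
`b ∈ T` there are at most `max e + 1` values of `a b`, for `b ∉ T` at most `4N + 1` (`a b < 2N`
or `e b - a b < 2N`). -/
theorem card_goodExp {B : Type} [Fintype B] [DecidableEq B] (e : B → ℕ) (N d : ℕ) :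
    (goodExp e N d).card ≤
      (2 ^ Fintype.card B * (4 * N + 1) ^ Fintype.card B) * (Finset.univ.sup e + 1) ^ d := by
  classical
  have hbad : ∀ b, ((Finset.range (e b + 1)).filter fun x => ¬ (2 * N ≤ x ∧ 2 * N ≤ e b - x)).card ≤
      4 * N + 1 := by
    intro b
    have h1 : ((Finset.range (e b + 1)).filter fun x => ¬ (2 * N ≤ x ∧ 2 * N ≤ e b - x)) ⊆
        Finset.range (2 * N) ∪ (Finset.range (2 * N)).image (fun y => e b - y) := by
      intro x hx
      rw [Finset.mem_filter, Finset.mem_range] at hx
      rw [Finset.mem_union, Finset.mem_range, Finset.mem_image]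
      by_cases h : x < 2 * N
      · exact Or.inl h
      · right
        refine ⟨e b - x, ?_, ?_⟩
        · rw [Finset.mem_range]
          by_contra h2
          exact hx.2 ⟨by omega, by omega⟩
        · omega
    have h2 := (Finset.card_le_card h1).trans (Finset.card_union_le _ _)
    have h3 : ((Finset.range (2 * N)).image (fun y => e b - y)).card ≤ 2 * N :=
      Finset.card_image_le.trans (by rw [Finset.card_range])
    rw [Finset.card_range] at h2
    omega
  have h1 : goodExp e N d ⊆ ((Finset.univ : Finset (Finset B)).filter fun T => T.card ≤ d).biUnion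
      fun T => Fintype.piFinset fun b => if b ∈ T then Finset.range (e b + 1) else
        (Finset.range (e b + 1)).filter fun x => ¬ (2 * N ≤ x ∧ 2 * N ≤ e b - x) := by
    intro a ha
    rw [goodExp, Finset.mem_filter, Fintype.mem_piFinset] at ha
    rw [Finset.mem_biUnion]
    refine ⟨Finset.univ.filter fun b => 2 * N ≤ a b ∧ 2 * N ≤ e b - a b, ?_, ?_⟩
    · rw [Finset.mem_filter]
      exact ⟨Finset.mem_univ _, ha.2⟩
    · rw [Fintype.mem_piFinset]
      intro b
      have hm : b ∈ (Finset.univ.filter fun b => 2 * N ≤ a b ∧ 2 * N ≤ e b - a b) ↔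
          (2 * N ≤ a b ∧ 2 * N ≤ e b - a b) := by
        simp only [Finset.mem_filter, Finset.mem_univ, true_and]
      by_cases hb : 2 * N ≤ a b ∧ 2 * N ≤ e b - a b
      · rw [if_pos (hm.2 hb)]
        exact ha.1 b
      · rw [if_neg (fun h => hb (hm.1 h))]
        exact Finset.mem_filter.2 ⟨ha.1 b, hb⟩
  refine (Finset.card_le_card h1).trans ?_
  refine (Finset.card_biUnion_le_card_mul _ _
    ((4 * N + 1) ^ Fintype.card B * (Finset.univ.sup e + 1) ^ d) ?_).trans ?_
  · intro T hT
    rw [Finset.mem_filter] at hT
    rw [Fintype.card_piFinset]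
    have h2 : ∀ b, (if b ∈ T then Finset.range (e b + 1) else
        (Finset.range (e b + 1)).filter fun x => ¬ (2 * N ≤ x ∧ 2 * N ≤ e b - x)).card ≤
          (4 * N + 1) * (if b ∈ T then Finset.univ.sup e + 1 else 1) := by
      intro b
      by_cases hb : b ∈ T
      · rw [if_pos hb, if_pos hb, Finset.card_range]
        have h3 : e b ≤ Finset.univ.sup e := Finset.le_sup (Finset.mem_univ b)
        have h4 : e b + 1 ≤ Finset.univ.sup e + 1 := by omega
        exact h4.trans (Nat.le_mul_of_pos_left _ (by omega))
      · rw [if_neg hb, if_neg hb, mul_one]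
        exact hbad b
    refine (Finset.prod_le_prod' fun b _ => h2 b).trans ?_
    rw [Finset.prod_mul_distrib, Finset.prod_const, Finset.card_univ]
    apply Nat.mul_le_mul_left
    rw [Finset.prod_ite_mem, Finset.univ_inter, Finset.prod_const]
    exact Nat.pow_le_pow_right (by omega) hT.2
  · rw [mul_assoc]
    apply Nat.mul_le_mul_right
    refine (Finset.card_filter_le _ _).trans ?_
    rw [Finset.card_univ, Fintype.card_finset]

end Pool.Agent.Lib.MP_17a322_nt.RV
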