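import Pool.Agent.Lib.MP_17a322_nt.RV.U2

/-!
Height of the vector of coefficients.
-/

namespace Pool.Agent.Lib.MP_17a322_nt.RV

open MvPolynomial Height
open Pool.Agent.Lib.MP_17a322_nt.RO

universe u

/-- the discriminant of a binary form -/
private noncomputable def K1a_disc {K : Type u} [Field K] {J B : Type}
    (S : B → Fin 3 → MvPolynomial ((J ⊕ B) × Fin 2) K) (i : B) : MvPolynomial ((J ⊕ B) × Fin 2) K :=
  (S i 1) ^ 2 - C 4 * (S i 0 * S i 2)

private theorem K1a_disc_MH {K : Type u} [Field K] {J B : Type} [DecidableEq J] [DecidableEq B]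
    (S : B → Fin 3 → MvPolynomial ((J ⊕ B) × Fin 2) K) {E : B → J ⊕ B → ℕ}
    (hS : ∀ i k, MH (S i k) (E i)) (i : B) : MH (K1a_disc S i) (2 • E i) := by
  unfold MH K1a_disc
  refine IsWeightedHomogeneous.sub ((hS i 1).pow 2) ?_
  have h1 := ((hS i 0).mul (hS i 2)).C_mul (4 : K)
  rw [two_smul]
  exact h1

private theorem K1a_disc_evl {K L : Type u} [Field K] [Field L] [Algebra K L] {J B : Type}
    (S : B → Fin 3 → MvPolynomial ((J ⊕ B) × Fin 2) K) (x : J ⊕ B → Fin 2 → L) (p p' : B → Fin 2 → L)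
    (γ : B → L) (i : B) (h : ∀ k, evl x (S i k) = γ i * sq2 (p i) (p' i) k) :
    evl x (K1a_disc S i) = (γ i * (p i 0 * p' i 1 - p i 1 * p' i 0)) ^ 2 := by
  have h0 := h 0
  have h1 := h 1
  have h2 := h 2
  unfold evl at h0 h1 h2
  unfold evl K1a_disc
  rw [map_sub, map_mul, map_mul, map_pow, h0, h1, h2, aeval_C]
  simp only [sq2, Matrix.cons_val_zero, Matrix.cons_val_one, Matrix.cons_val]
  rw [map_ofNat]
  ring

/-- Height of the vector of the numbers `(∏_{i ∈ T} γ_i Δ_i) * h_{(τ, T), k}(u, w)`, where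
`Δ_i = p_{i0} p'_{i1} - p_{i1} p'_{i0}` and `S i = γ_i sq2 (p_i) (p'_i)`.
Proof. `(γ_i Δ_i)^2 = S_{i1}^2 - 4 S_{i0} S_{i2} =: disc_i(u, w)`, a form of multidegree
`(2 lam i in block c i, 4 in block i)`. The squares of the entries of the vector are the values of the
forms `∏_{i ∈ T} disc_i * (h (τ, T) k)^2`, all of the same multidegree
`2 (b + ∑_{c i = j} lam i * b)` in block `j` and `2 (2 b - D i)` in block `i` (as `D i ≤ 2 (b - 1)`). So
`2 h(vector) = h(squares) ≤ .. + C [L : ℚ]` by `logHeight_evl_unif` (RV/U2) and `logHeight_pow`. -/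
theorem height_theta {K : Type u} [Field K] [NumberField K] {J B κ : Type} [Fintype J]
    [DecidableEq J] [Fintype B] [DecidableEq B] [Fintype κ] (c : B → J) (lam D : B → ℕ) (b : ℕ)
    (hb : 1 ≤ b) (hbD : ∀ i, D i ≤ 2 * (b - 1))
    (S : B → Fin 3 → MvPolynomial ((J ⊕ B) × Fin 2) K)
    (hS : ∀ i k, MH (S i k) (Sum.elim (Pi.single (c i) (lam i)) (Pi.single i 2)))
    (h : ((B → Fin 2) × Finset B) → κ → MvPolynomial ((J ⊕ B) × Fin 2) K)
    (hh : ∀ y k, MH (h y k) (Sum.elim
        (fun j => b + ∑ i with c i = j, lam i * (b - if i ∈ y.2 then 1 else 0))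
        (fun i => 2 * (b - if i ∈ y.2 then 1 else 0) - D i))) :
    ∃ C : ℝ, 0 ≤ C ∧ ∀ (L : Type u) [Field L] [NumberField L] [Algebra K L]
      (u : J → Fin 2 → L) (w p p' : B → Fin 2 → L) (γ : B → L),
      (∀ j, u j ≠ 0) → (∀ i, w i ≠ 0) →
      (∀ i k, evl (Sum.elim u w) (S i k) = γ i * sq2 (p i) (p' i) k) →
        logHeight (fun y : ((B → Fin 2) × Finset B) × κ =>
            (∏ i ∈ y.1.2, γ i * (p i 0 * p' i 1 - p i 1 * p' i 0)) *
              evl (Sum.elim u w) (h y.1 y.2)) ≤
          ∑ j, ((b + ∑ i with c i = j, lam i * b : ℕ) : ℝ) * logHeight (u j) +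
            ∑ i, (2 * (b : ℝ) - D i) * logHeight (w i) + C * Module.finrank ℚ L := by
  classical
  set E : B → J ⊕ B → ℕ := fun i => Sum.elim (Pi.single (c i) (lam i)) (Pi.single i 2) with hE
  set φ : ((B → Fin 2) × Finset B) × κ → MvPolynomial ((J ⊕ B) × Fin 2) K :=
    fun y => (∏ i ∈ y.1.2, K1a_disc S i) * (h y.1 y.2) ^ 2 with hφ
  set F : J ⊕ B → ℕ := Sum.elim (fun j => 2 * (b + ∑ i with c i = j, lam i * b))
    (fun i => 2 * (2 * b - D i)) with hF
  have hMH : ∀ y, MH (φ y) F := by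
    intro y
    have h1 : MH (φ y) (∑ i ∈ y.1.2, 2 • E i + 2 • Sum.elim
        (fun j => b + ∑ i with c i = j, lam i * (b - if i ∈ y.1.2 then 1 else 0))
        (fun i => 2 * (b - if i ∈ y.1.2 then 1 else 0) - D i)) := by
      unfold MH
      refine IsWeightedHomogeneous.mul ?_ ((hh y.1 y.2).pow 2)
      exact IsWeightedHomogeneous.prod _ _ _ (fun i _ => K1a_disc_MH S hS i)
    have h2 : (∑ i ∈ y.1.2, 2 • E i + 2 • Sum.elim
        (fun j => b + ∑ i with c i = j, lam i * (b - if i ∈ y.1.2 then 1 else 0))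
        (fun i => 2 * (b - if i ∈ y.1.2 then 1 else 0) - D i)) = F := by
      funext o
      rw [Pi.add_apply, Finset.sum_apply, Pi.smul_apply]
      rcases o with j | i
      · simp only [hE, hF, Pi.smul_apply, Sum.elim_inl, smul_eq_mul]
        have h3 : ∑ i ∈ y.1.2, 2 * (Pi.single (c i) (lam i) : J → ℕ) j =
            2 * ∑ i with c i = j, (if i ∈ y.1.2 then lam i else 0) := by
          rw [← Finset.mul_sum, Finset.sum_filter, ← Finset.sum_filter_add_sum_filter_not Finset.univ
            (fun i => i ∈ y.1.2)]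
          have h4 : ∑ x with x ∉ y.1.2, (if c x = j then (if x ∈ y.1.2 then lam x else 0) else 0) = 0 := by
            refine Finset.sum_eq_zero ?_
            intro x hx
            have hx' := (Finset.mem_filter.1 hx).2
            simp [hx']
          rw [h4, add_zero, Finset.filter_mem_eq_inter, Finset.univ_inter]
          congr 1
          refine Finset.sum_congr rfl ?_
          intro x hx
          rw [if_pos hx, Pi.single_apply]
          by_cases hj : c x = j
          · rw [if_pos hj, if_pos hj.symm]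
          · rw [if_neg hj, if_neg (fun h => hj h.symm)]
        rw [h3, ← mul_add]
        congr 1
        rw [add_left_comm, ← Finset.sum_add_distrib]
        congr 1
        refine Finset.sum_congr rfl ?_
        intro i _
        split_ifs with hi
        · obtain ⟨b', rfl⟩ := Nat.exists_eq_add_of_le' hb
          rw [Nat.add_sub_cancel]
          ring
        · simp
      · simp only [hE, hF, Pi.smul_apply, Sum.elim_inr, smul_eq_mul]
        have h3 : ∑ i' ∈ y.1.2, 2 * (Pi.single i' 2 : B → ℕ) i = if i ∈ y.1.2 then 4 else 0 := by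
          rw [← Finset.mul_sum]
          simp only [Pi.single_apply, Finset.sum_ite_eq]
          split_ifs <;> rfl
        rw [h3]
        have h4 := hbD i
        split_ifs <;> omega
    rw [h2] at h1
    exact h1
  obtain ⟨C₀, hC₀, hC⟩ := logHeight_evl_unif φ F hMH
  refine ⟨C₀ / 2, by positivity, ?_⟩
  intro L _ _ _ u w p p' γ hu hw hS'
  have h1 := hC L (Sum.elim u w) (by
    rintro (j | i)
    · exact hu j
    · exact hw i)
  set v : ((B → Fin 2) × Finset B) × κ → L := fun y =>
    (∏ i ∈ y.1.2, γ i * (p i 0 * p' i 1 - p i 1 * p' i 0)) * evl (Sum.elim u w) (h y.1 y.2) with hv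
  have h2 : (fun y => evl (Sum.elim u w) (φ y)) = v ^ 2 := by
    funext y
    rw [Pi.pow_apply, hv]
    simp only
    rw [mul_pow, ← Finset.prod_pow]
    have h3 : evl (Sum.elim u w) (φ y) =
        (∏ i ∈ y.1.2, evl (Sum.elim u w) (K1a_disc S i)) * (evl (Sum.elim u w) (h y.1 y.2)) ^ 2 := by
      unfold evl
      rw [hφ]
      simp only
      rw [map_mul, map_prod, map_pow]
    rw [h3]
    congr 1
    exact Finset.prod_congr rfl (fun i _ => K1a_disc_evl S _ p p' γ i (hS' i))
  rw [h2, logHeight_pow, Fintype.sum_sum_type] at h1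
  simp only [hF, Sum.elim_inl, Sum.elim_inr] at h1
  have h3 : ∑ j, ((2 * (b + ∑ i with c i = j, lam i * b) : ℕ) : ℝ) * logHeight (u j) =
      2 * ∑ j, ((b + ∑ i with c i = j, lam i * b : ℕ) : ℝ) * logHeight (u j) := by
    rw [Finset.mul_sum]
    refine Finset.sum_congr rfl ?_
    intro j _
    rw [Nat.cast_mul]
    push_cast
    ring
  have h4 : ∑ i, ((2 * (2 * b - D i) : ℕ) : ℝ) * logHeight (w i) =
      2 * ∑ i, (2 * (b : ℝ) - D i) * logHeight (w i) := by
    rw [Finset.mul_sum]
    refine Finset.sum_congr rfl ?_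
    intro i _
    have h5 := hbD i
    rw [Nat.cast_mul, Nat.cast_sub (by omega)]
    push_cast
    ring
  rw [h3, h4] at h1
  push_cast at h1 ⊢
  linarith

end Pool.Agent.Lib.MP_17a322_nt.RV
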