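import Pool.Agent.Lib.MP_17a322_nt.RV.K1a

/-!
The height inequality for an auxiliary form, vectors.
-/

namespace Pool.Agent.Lib.MP_17a322_nt.RV

open MvPolynomial Height
open Pool.Agent.Lib.MP_17a322_nt.RO

universe u

/-- Height inequality for vectors.
Proof. Let `y_τ = (∏ γ_i^b) G₀ ∏ p'_i(τ_i)^b`. As `G₀ ≠ 0`, `γ_i ≠ 0`,
`h(y) = h((∏ p'_i(τ_i)^b)_τ) = ∑ b h(p'_i)` (`logHeight_smul_eq_logHeight`, `logHeight_fun_prod_eq`,
`logHeight_pow`). In particular `y ≠ 0`, so some `gv k ≠ 0` and the vector `Θ` of `height_theta` is not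
zero. By the identity, `y` is the image of the tensor product of `gv` and `Θ` under a fixed linear map
(`y_τ = ∑_{T, k} Θ_{(τ, T), k} * gv k`), so `h(y) ≤ h(gv) + h(Θ) + C [L : ℚ]`
(`logHeight_linear_unif`, `logHeight_fun_mul_eq`). -/
theorem height_vec {K : Type u} [Field K] [NumberField K] {J B κ : Type} [Fintype J]
    [DecidableEq J] [Fintype B] [DecidableEq B] [Fintype κ] (c : B → J) (lam D : B → ℕ) (b : ℕ)
    (hb : 1 ≤ b) (hbD : ∀ i, D i ≤ 2 * (b - 1))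
    (S : B → Fin 3 → MvPolynomial ((J ⊕ B) × Fin 2) K)
    (hS : ∀ i k, MH (S i k) (Sum.elim (Pi.single (c i) (lam i)) (Pi.single i 2)))
    (h : ((B → Fin 2) × Finset B) → κ → MvPolynomial ((J ⊕ B) × Fin 2) K)
    (hh : ∀ y k, MH (h y k) (Sum.elim
        (fun j => b + ∑ i with c i = j, lam i * (b - if i ∈ y.2 then 1 else 0))
        (fun i => 2 * (b - if i ∈ y.2 then 1 else 0) - D i))) :
    ∃ C : ℝ, 0 ≤ C ∧ ∀ (L : Type u) [Field L] [NumberField L] [Algebra K L]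
      (u : J → Fin 2 → L) (w p p' : B → Fin 2 → L) (γ : B → L) (G₀ : L) (gv : κ → L),
      (∀ j, u j ≠ 0) → (∀ i, w i ≠ 0) → (∀ i, p' i ≠ 0) → (∀ i, γ i ≠ 0) → G₀ ≠ 0 →
      (∀ i k, evl (Sum.elim u w) (S i k) = γ i * sq2 (p i) (p' i) k) →
      (∀ τ : B → Fin 2, (∏ i, γ i ^ b) * G₀ * ∏ i, p' i (τ i) ^ b =
        ∑ T : Finset B, (∏ i ∈ T, γ i * (p i 0 * p' i 1 - p i 1 * p' i 0)) *
          ∑ k, evl (Sum.elim u w) (h (τ, T) k) * gv k) →
        (∃ k, gv k ≠ 0) ∧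
          (b : ℝ) * ∑ i, logHeight (p' i) ≤ logHeight gv +
            ∑ j, ((b + ∑ i with c i = j, lam i * b : ℕ) : ℝ) * logHeight (u j) +
              ∑ i, (2 * (b : ℝ) - D i) * logHeight (w i) + C * Module.finrank ℚ L := by
  classical
  obtain ⟨C₁, hC₁, h1⟩ := height_theta c lam D b hb hbD S hS h hh
  obtain ⟨C₂, hC₂, h2⟩ := logHeight_linear_unif (K := K)
    (ι := (((B → Fin 2) × Finset B) × κ) × κ) (κ := B → Fin 2)
    (fun q => if q.2.1.1.1 = q.1 ∧ q.2.1.2 = q.2.2 then (1 : K) else 0)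
  refine ⟨C₁ + C₂, add_nonneg hC₁ hC₂, ?_⟩
  intro L _ _ _ u w p p' γ G₀ gv hu hw hp' hγ hG₀ hSv hid
  have h1' := h1 L u w p p' γ hu hw hSv
  set Θ : ((B → Fin 2) × Finset B) × κ → L := fun y =>
    (∏ i ∈ y.1.2, γ i * (p i 0 * p' i 1 - p i 1 * p' i 0)) *
      evl (Sum.elim u w) (h y.1 y.2) with hΘ
  have hsum : ∀ τ : B → Fin 2, ((∏ i, γ i ^ b) * G₀) * ∏ i, p' i (τ i) ^ b =
      ∑ q : (((B → Fin 2) × Finset B) × κ) × κ,
        algebraMap K L (if q.1.1.1 = τ ∧ q.1.2 = q.2 then (1 : K) else 0) *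
          (Θ q.1 * gv q.2) := by
    intro τ
    have h3 : ∀ y : (B → Fin 2) × Finset B, ∑ k, ∑ k',
        algebraMap K L (if y.1 = τ ∧ k = k' then (1 : K) else 0) * (Θ (y, k) * gv k') =
          if y.1 = τ then ∑ k, Θ (y, k) * gv k else 0 := by
      intro y
      by_cases hy : y.1 = τ
      · rw [if_pos hy]
        refine Finset.sum_congr rfl fun k _ => ?_
        rw [Finset.sum_eq_single k]
        · rw [if_pos ⟨hy, rfl⟩, map_one, one_mul]
        · intro k' _ hk'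
          rw [if_neg (fun h4 => hk' h4.2.symm), map_zero, zero_mul]
        · intro h4
          exact absurd (Finset.mem_univ _) h4
      · rw [if_neg hy]
        refine Finset.sum_eq_zero fun k _ => Finset.sum_eq_zero fun k' _ => ?_
        rw [if_neg (fun h4 => hy h4.1), map_zero, zero_mul]
    rw [hid τ, Fintype.sum_prod_type, Fintype.sum_prod_type, Finset.sum_congr rfl fun y _ => h3 y,
      Fintype.sum_prod_type, Finset.sum_eq_single τ]
    · refine Finset.sum_congr rfl fun T _ => ?_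
      rw [if_pos rfl, Finset.mul_sum]
      refine Finset.sum_congr rfl fun k _ => ?_
      rw [hΘ]
      ring
    · intro τ' _ hτ'
      refine Finset.sum_eq_zero fun T _ => ?_
      rw [if_neg hτ']
    · intro h4
      exact absurd (Finset.mem_univ _) h4
  have hex : ∀ i, ∃ j, p' i j ≠ 0 := fun i => Function.ne_iff.1 (hp' i)
  choose τ₀ hτ₀ using hex
  have hc : (∏ i, γ i ^ b) * G₀ ≠ 0 :=
    mul_ne_zero (Finset.prod_ne_zero_iff.2 fun i _ => pow_ne_zero _ (hγ i)) hG₀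
  have hy0 : ((∏ i, γ i ^ b) * G₀) * ∏ i, p' i (τ₀ i) ^ b ≠ 0 :=
    mul_ne_zero hc (Finset.prod_ne_zero_iff.2 fun i _ => pow_ne_zero _ (hτ₀ i))
  have hgv : gv ≠ 0 := by
    intro h4
    apply hy0
    rw [hsum τ₀]
    refine Finset.sum_eq_zero fun q _ => ?_
    rw [h4, Pi.zero_apply, mul_zero, mul_zero]
  have hΘ0 : Θ ≠ 0 := by
    intro h4
    apply hy0
    rw [hsum τ₀]
    refine Finset.sum_eq_zero fun q _ => ?_
    rw [h4, Pi.zero_apply, zero_mul, mul_zero]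
  refine ⟨Function.ne_iff.1 hgv, ?_⟩
  have hyh : logHeight (fun τ : B → Fin 2 => ((∏ i, γ i ^ b) * G₀) * ∏ i, p' i (τ i) ^ b) =
      (b : ℝ) * ∑ i, logHeight (p' i) := by
    have h5 : (fun τ : B → Fin 2 => ((∏ i, γ i ^ b) * G₀) * ∏ i, p' i (τ i) ^ b) =
        ((∏ i, γ i ^ b) * G₀) • (fun τ : B → Fin 2 => ∏ i, (p' i ^ b) (τ i)) := by
      funext τ
      rfl
    have h6 := logHeight_fun_prod_eq (x := fun i => p' i ^ b) (fun i h7 => by
      have h8 := congrFun h7 (τ₀ i)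
      exact pow_ne_zero b (hτ₀ i) h8)
    rw [h5, logHeight_smul_eq_logHeight _ hc, h6, Finset.mul_sum]
    exact Finset.sum_congr rfl fun i _ => logHeight_pow _ _
  have h7 := h2 L (fun q => Θ q.1 * gv q.2)
  have h8 : (fun τ : B → Fin 2 => ∑ q : (((B → Fin 2) × Finset B) × κ) × κ,
      algebraMap K L (if q.1.1.1 = τ ∧ q.1.2 = q.2 then (1 : K) else 0) * (Θ q.1 * gv q.2)) =
      (fun τ : B → Fin 2 => ((∏ i, γ i ^ b) * G₀) * ∏ i, p' i (τ i) ^ b) :=
    funext fun τ => (hsum τ).symm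
  rw [h8, hyh, logHeight_fun_mul_eq hΘ0 hgv] at h7
  rw [add_mul]
  linarith

end Pool.Agent.Lib.MP_17a322_nt.RV
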