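import Pool.Agent.Lib.MP_17a322_nt.RV.Defs
import Pool.Agent.Lib.MP_17a322_nt.RO.E0

/-!
Coefficients of a form with respect to some of the blocks.
-/

namespace Pool.Agent.Lib.MP_17a322_nt.RV

open MvPolynomial
open Pool.Agent.Lib.MP_17a322_nt.RO

/-- The exponents in the blocks of `B`. -/
private noncomputable def L1a_pB {J B : Type*} [Fintype B] (v : (J ⊕ B) × Fin 2 →₀ ℕ) :
    B × Fin 2 →₀ ℕ :=
  Finsupp.equivFunOnFinite.symm (fun p => v (Sum.inr p.1, p.2))

private theorem L1a_pB_apply {J B : Type*} [Fintype B] (v : (J ⊕ B) × Fin 2 →₀ ℕ)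
    (p : B × Fin 2) : L1a_pB v p = v (Sum.inr p.1, p.2) := rfl

open Classical in
/-- The coefficient of a monomial. -/
private noncomputable def L1a_tm (K : Type*) [Field K] {J B : Type*} [Fintype B] {EJ : J → ℕ}
    (μ : (j : J) → Fin (EJ j + 1)) (v : (J ⊕ B) × Fin 2 →₀ ℕ) : MvPolynomial (B × Fin 2) K :=
  if ∀ j, v (Sum.inl j, 0) = (μ j : ℕ) then monomial (L1a_pB v) 1 else 0

private theorem L1a_mono {K : Type*} [Field K] {J B : Type*} [Fintype J] [Fintype B]
    (v : (J ⊕ B) × Fin 2 →₀ ℕ) :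
    (monomial v (1 : K)) = (∏ j, (X (Sum.inl j, 0) ^ (v (Sum.inl j, 0)) *
      X (Sum.inl j, 1) ^ (v (Sum.inl j, 1)))) *
      rename (fun p : B × Fin 2 => (((Sum.inr p.1 : J ⊕ B)), p.2)) (monomial (L1a_pB v) (1 : K)) := by
  classical
  rw [monomial_eq, monomial_eq, C_1, C_1, one_mul, one_mul,
    Finsupp.prod_fintype _ _ (fun i => pow_zero _), Finsupp.prod_fintype _ _ (fun i => pow_zero _),
    Fintype.prod_prod_type, Fintype.prod_sum_type, Fintype.prod_prod_type]
  have e1 : ∀ j : J, (∏ i : Fin 2, (X (Sum.inl j, i) : MvPolynomial ((J ⊕ B) × Fin 2) K) ^ (v (Sum.inl j, i)))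
      = X (Sum.inl j, 0) ^ (v (Sum.inl j, 0)) * X (Sum.inl j, 1) ^ (v (Sum.inl j, 1)) := by
    intro j
    rw [Fin.prod_univ_two]
  have e2 : ∀ b : B, (rename (fun p : B × Fin 2 => (((Sum.inr p.1 : J ⊕ B)), p.2)))
      (∏ i : Fin 2, (X (b, i) : MvPolynomial (B × Fin 2) K) ^ (L1a_pB v (b, i)))
      = ∏ i : Fin 2, (X (Sum.inr b, i) : MvPolynomial ((J ⊕ B) × Fin 2) K) ^ (v (Sum.inr b, i)) := by
    intro b
    rw [map_prod]
    apply Finset.prod_congr rfl
    intro i _
    rw [map_pow, rename_X, L1a_pB_apply]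
  rw [map_prod, Finset.prod_congr rfl (fun j _ => e1 j), Finset.prod_congr rfl (fun b _ => e2 b)]

/-- Coefficients of a form over the blocks `J ⊕ B` with respect to the variables of the blocks of
`J`: `φ = ∑_μ (∏_j X (inl j, 0)^(μ j) X (inl j, 1)^(EJ j - μ j)) * c_μ`, `c_μ` a form in the blocks of `B`,
linear in `φ`. Here as existence of linear maps `coe μ` (for instance
`coe μ φ = ∑_{m ∈ φ.support, m (inl j, 0) = μ j for all j} coeff m φ • (monomial in the blocks of B)`). -/
theorem exists_coeJ {K : Type*} [Field K] {J B : Type*} [Fintype J] [DecidableEq J] [Fintype B]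
    [DecidableEq B] (EJ : J → ℕ) (EB : B → ℕ) :
    ∃ coe : ((j : J) → Fin (EJ j + 1)) →
        (MvPolynomial ((J ⊕ B) × Fin 2) K →ₗ[K] MvPolynomial (B × Fin 2) K),
      ∀ φ, MH φ (Sum.elim EJ EB) → (∀ μ, MH (coe μ φ) EB) ∧
        φ = ∑ μ, (∏ j, (X (Sum.inl j, 0) ^ (μ j : ℕ) * X (Sum.inl j, 1) ^ (EJ j - (μ j : ℕ)))) *
          rename (fun p : B × Fin 2 => (((Sum.inr p.1 : J ⊕ B)), p.2)) (coe μ φ) := by
  classical
  let coe : ((j : J) → Fin (EJ j + 1)) →
      (MvPolynomial ((J ⊕ B) × Fin 2) K →ₗ[K] MvPolynomial (B × Fin 2) K) := fun μ =>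
    (basisMonomials ((J ⊕ B) × Fin 2) K).constr K (L1a_tm K μ)
  have hcm : ∀ μ v, coe μ (monomial v (1 : K)) = L1a_tm K μ v := by
    intro μ v
    have h := (basisMonomials ((J ⊕ B) × Fin 2) K).constr_basis K (L1a_tm K μ) v
    rw [coe_basisMonomials] at h
    exact h
  have hex : ∀ φ : MvPolynomial ((J ⊕ B) × Fin 2) K,
      φ = ∑ v ∈ φ.support, coeff v φ • monomial v (1 : K) := by
    intro φ
    conv_lhs => rw [φ.as_sum]
    apply Finset.sum_congr rfl
    intro v _
    rw [smul_monomial, smul_eq_mul, mul_one]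
  have hcoe : ∀ μ φ, coe μ φ = ∑ v ∈ φ.support, coeff v φ • L1a_tm K μ v := by
    intro μ φ
    conv_lhs => rw [hex φ]
    rw [map_sum]
    apply Finset.sum_congr rfl
    intro v _
    rw [map_smul, hcm]
  have hwt : ∀ φ : MvPolynomial ((J ⊕ B) × Fin 2) K, MH φ (Sum.elim EJ EB) →
      ∀ v ∈ φ.support, (∀ j, v (Sum.inl j, 0) + v (Sum.inl j, 1) = EJ j) ∧
        ∀ b, v (Sum.inr b, 0) + v (Sum.inr b, 1) = EB b := by
    intro φ hφ v hv
    have h1 := hφ (mem_support_iff.1 hv)
    constructor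
    · intro j
      have h2 := congrFun h1 (Sum.inl j)
      rw [E0_weight, Fin.sum_univ_two, Sum.elim_inl] at h2
      exact h2
    · intro b
      have h2 := congrFun h1 (Sum.inr b)
      rw [E0_weight, Fin.sum_univ_two, Sum.elim_inr] at h2
      exact h2
  refine ⟨coe, fun φ hφ => ⟨?_, ?_⟩⟩
  · intro μ
    rw [hcoe]
    change (∑ v ∈ φ.support, coeff v φ • L1a_tm K μ v) ∈
      weightedHomogeneousSubmodule K (bwt B (Fin 2)) EB
    refine Submodule.sum_mem _ (fun v hv => Submodule.smul_mem _ _ ?_)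
    rw [L1a_tm]
    split_ifs with hc
    · change IsWeightedHomogeneous _ _ _
      apply isWeightedHomogeneous_monomial
      funext b
      rw [E0_weight, Fin.sum_univ_two, L1a_pB_apply, L1a_pB_apply]
      exact (hwt φ hφ v hv).2 b
    · exact Submodule.zero_mem _
  · have h1 : ∀ v ∈ φ.support, ∑ μ : (j : J) → Fin (EJ j + 1),
        (∏ j, (X (Sum.inl j, 0) ^ (μ j : ℕ) * X (Sum.inl j, 1) ^ (EJ j - (μ j : ℕ)))) *
          rename (fun p : B × Fin 2 => (((Sum.inr p.1 : J ⊕ B)), p.2)) (L1a_tm K μ v)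
        = monomial v (1 : K) := by
      intro v hv
      have hJ := (hwt φ hφ v hv).1
      rw [Finset.sum_eq_single (fun j => (⟨v (Sum.inl j, 0), by have := hJ j; omega⟩ :
        Fin (EJ j + 1)))]
      · rw [L1a_tm, if_pos (fun j => rfl), L1a_mono v]
        congr 1
        apply Finset.prod_congr rfl
        intro j _
        have h2 : EJ j - v (Sum.inl j, 0) = v (Sum.inl j, 1) := by
          have := hJ j
          omega
        change X (Sum.inl j, 0) ^ v (Sum.inl j, 0) * X (Sum.inl j, 1) ^ (EJ j - v (Sum.inl j, 0)) = _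
        rw [h2]
      · intro μ _ hμ
        rw [L1a_tm, if_neg, map_zero, mul_zero]
        intro hc
        apply hμ
        funext j
        apply Fin.ext
        exact (hc j).symm
      · intro h
        exact absurd (Finset.mem_univ _) h
    conv_lhs => rw [hex φ]
    rw [Finset.sum_congr rfl (fun v hv => by rw [← h1 v hv])]
    simp_rw [hcoe, map_sum, Finset.mul_sum, Finset.smul_sum]
    rw [Finset.sum_comm]
    apply Finset.sum_congr rfl
    intro μ _
    apply Finset.sum_congr rfl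
    intro v _
    rw [map_smul, mul_smul_comm]

end Pool.Agent.Lib.MP_17a322_nt.RV
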