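import Pool.Agent.Lib.MP_17a322_nt.RV.Defs
import Pool.Agent.Lib.MP_17a322_nt.RO.N2

/-!
Algebraic independence.
-/

namespace Pool.Agent.Lib.MP_17a322_nt.RV

open MvPolynomial WeierstrassCurve
open Pool.Agent.Lib.MP_17a322_nt.RO

open scoped IntermediateField.algebraAdjoinAdjoin in
/-- If `w` is an algebraically independent family with finite index set and every `w b` is algebraic
over the field generated by a family `v` with the same index set, then `v` is algebraically
independent.
Proof. Let `L = K(v)` and `A` the algebraic closure of `L` in `Ω`. The range of `v` contains a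
transcendence basis of `A` over `K` (`exists_isTranscendenceBasis_subset` or
`exists_isTranscendenceBasis_between`); its cardinality is the transcendence degree of `A`, at least
`card B` because of `w`. So it is the whole range, `v` is injective, and `v` is algebraically
independent. -/
theorem indep_of_algebraic {K Ω : Type*} [Field K] [Field Ω] [Algebra K Ω] {B : Type*}
    [Fintype B] (w v : B → Ω) (hw : AlgebraicIndependent K w)
    (h : ∀ b, IsAlgebraic (IntermediateField.adjoin K (Set.range v)) (w b)) :
    AlgebraicIndependent K v := by
  classical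
  have hcl : Set.range w ⊆ (AlgebraicIndependent.matroid K Ω).closure (Set.range v) := by
    rintro _ ⟨b, rfl⟩
    rw [AlgebraicIndependent.matroid_closure_eq, SetLike.mem_coe, Subalgebra.mem_algebraicClosure]
    exact (IsFractionRing.isAlgebraic_iff (Algebra.adjoin K (Set.range v))
      (IntermediateField.adjoin K (Set.range v)) Ω).mpr (h b)
  have hwi : (AlgebraicIndependent.matroid K Ω).Indep (Set.range w) :=
    AlgebraicIndependent.matroid_indep_iff.mpr hw.to_subtype_range
  have h1 := hwi.encard_le_eRk_of_subset hcl
  rw [Matroid.eRk_closure_eq] at h1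
  have h2 : ENat.card B ≤ (Set.range w).encard := hw.injective.encard_range
  replace h1 := h2.trans h1
  have h3 : (Set.range v).Finite := Set.finite_range v
  have h4 : (Set.range v).encard ≤ ENat.card B := by
    rw [← Set.image_univ, ← Set.encard_univ]
    exact Set.encard_image_le v Set.univ
  have h5 : (AlgebraicIndependent.matroid K Ω).Indep (Set.range v) := by
    rw [Matroid.indep_iff_eRk_eq_encard_of_finite h3]
    exact le_antisymm (Matroid.eRk_le_encard _ _) (h4.trans h1)
  have h6 : ENat.card B ≤ (Set.range v).encard := h1.trans (Matroid.eRk_le_encard _ _)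
  have hinj : Function.Injective v := by
    have h7 : Nat.card B ≤ Nat.card (Set.range v) := by
      have h8 : (Nat.card B : ℕ∞) ≤ (Nat.card (Set.range v) : ℕ∞) := by
        rw [Set.encard] at h6
        rwa [ENat.card_eq_coe_natCard, ENat.card_eq_coe_natCard] at h6
      exact_mod_cast h8
    have h9 := Set.rangeFactorization_surjective (f := v) |>.bijective_of_nat_card_le h7
    intro x y hxy
    exact h9.1 (Subtype.ext hxy)
  exact AlgebraicIndependent.of_subtype_range hinj (AlgebraicIndependent.matroid_indep_iff.mp h5)

/-- A nonzero multihomogeneous form does not vanish at `(v b, 1)` for algebraically independent `v`.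
Proof. `exists_dehom` (RO/N2) and the definition of algebraic independence; or directly: the monomials
`m` of `G` satisfy `m (b, 0) + m (b, 1) = E b`. -/
theorem evl_ne_zero_of_indep {K Ω : Type*} [Field K] [Field Ω] [Algebra K Ω] {B : Type*}
    [Fintype B] [DecidableEq B] (E : B → ℕ) (G : MvPolynomial (B × Fin 2) K) (hG : MH G E)
    (hG0 : G ≠ 0) (v : B → Ω) (hv : AlgebraicIndependent K v) :
    evl (fun b => ![v b, 1]) G ≠ 0 := by
  classical
  have key : evl (fun b => ![v b, 1]) G =
      aeval v (∑ m ∈ G.support, monomial (N2_exp m) (coeff m G)) := by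
    rw [map_sum]
    unfold evl
    rw [aeval_def, eval₂_eq']
    apply Finset.sum_congr rfl
    intro m _
    rw [aeval_monomial, Finsupp.prod_fintype _ _ (fun b => pow_zero _), Fintype.prod_prod_type]
    congr 1
    apply Finset.prod_congr rfl
    intro b _
    simp [N2_exp_apply, Fin.prod_univ_two]
  rw [key]
  intro h0
  have h := (algebraicIndependent_iff.mp hv) _ h0
  obtain ⟨m0, hm0⟩ := ne_zero_iff.mp hG0
  have hs0 : m0 ∈ G.support := mem_support_iff.mpr hm0
  have h1 : coeff (N2_exp m0) (∑ m ∈ G.support, monomial (N2_exp m) (coeff m G)) =
      coeff m0 G := by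
    rw [coeff_sum, Finset.sum_eq_single m0]
    · rw [coeff_monomial, if_pos rfl]
    · intro m hm hne
      rw [coeff_monomial, if_neg]
      intro he
      apply hne
      ext ⟨b, i⟩
      have e0 : m (b, 0) = m0 (b, 0) := by
        have := DFunLike.congr_fun he b
        rwa [N2_exp_apply, N2_exp_apply] at this
      have e1 : m (b, 1) = m0 (b, 1) := by
        have a1 := N2_weight hG hm b
        have a2 := N2_weight hG hs0 b
        omega
      fin_cases i
      · exact e0
      · exact e1
    · intro hn
      exact absurd hs0 hn
  rw [h, coeff_zero] at h1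
  exact hm0 h1.symm

end Pool.Agent.Lib.MP_17a322_nt.RV
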