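import Pool.Agent.Lib.MP_17a322_nt.RV.T0a
import Pool.Agent.Lib.MP_17a322_nt.RO.G1
import Pool.Agent.Lib.MP_17a322_nt.RO.G5

/-!
Algebraic independence of the coordinates of translated generic points.
-/

namespace Pool.Agent.Lib.MP_17a322_nt.RV

open MvPolynomial WeierstrassCurve
open Pool.Agent.Lib.MP_17a322_nt.RO

/-- The vector `xRep` is `(1, 0)` or `(v, 1)` with `v` the ratio of its entries. -/
theorem T0b_cases {F : Type*} [Field F] {V : WeierstrassCurve F} (P : V.toAffine.Point) :
    (P.xRep = ![1, 0] ∧ P.xRep 0 / P.xRep 1 = 0) ∨ P.xRep = ![P.xRep 0 / P.xRep 1, 1] := by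
  cases P with
  | zero =>
    left
    rw [← Affine.Point.zero_def]
    exact ⟨Affine.Point.xRep_zero, by simp⟩
  | some x y h =>
    right
    simp

/-- Let `P_b` be points with algebraically independent x-coordinates, `a ∈ B`, `k a = 0`. The points
`± P_b + k_b P_a` (`b ≠ a`), `± P_a` have algebraically independent x-coordinates again.
Proof. Let `Y b = sg (σ b) (P b) + k b • P a` and `v b = (Y b).xRep 0 / (Y b).xRep 1`. Let `F₀` be the
algebraic closure of `K(v)` in `Ω` (as an intermediate field of `K`, `Ω`, containing every element of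
`Ω` algebraic over it). `(Y a).xRep = (P a).xRep` as `k a = 0` (`Affine.Point.xRep_neg`). The `xRep` of
`Y b` has entries `(v b, 1)` or `(1, 0)`, in both cases in `F₀`. `sg (σ b) (P b) = Y b - k b • P a`, so by
`xRep_zsmul_add_mem` (RO/G1) and `xRep_neg` the coordinates of `P b` are in `F₀`: `w b` is algebraic over
`K(v)`. By `indep_of_algebraic` `v` is algebraically independent, in particular `v b ≠ 0`, so
`(Y b).xRep 1 ≠ 0` and `(Y b).xRep = ![v b, 1]` (the last entry of `xRep` is `0` or `1`). -/
theorem indep_translate {K Ω : Type*} [Field K] [Field Ω] [DecidableEq Ω] [Algebra K Ω]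
    (W : WeierstrassCurve K) [W.IsElliptic] {B : Type*} [Fintype B] [DecidableEq B] (a : B)
    (k : B → ℤ) (hk : k a = 0) (w : B → Ω) (hw : AlgebraicIndependent K w)
    (P : B → (W.map (algebraMap K Ω)).toAffine.Point) (hP : ∀ b, (P b).xRep = ![w b, 1])
    (σ : B → Bool) :
    ∃ v : B → Ω, AlgebraicIndependent K v ∧
      ∀ b, (sg (σ b) (P b) + k b • P a).xRep = ![v b, 1] := by
  set Y : B → (W.map (algebraMap K Ω)).toAffine.Point := fun b => sg (σ b) (P b) + k b • P a
    with hY
  set v : B → Ω := fun b => (Y b).xRep 0 / (Y b).xRep 1 with hv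
  set F₀ := G5_cl (IntermediateField.adjoin K (Set.range v)) with hF₀
  have hsg : ∀ b, (sg (σ b) (P b)).xRep = (P b).xRep := by
    intro b
    unfold sg
    split_ifs
    · rfl
    · exact Affine.Point.xRep_neg _
  have hYm : ∀ b i, (Y b).xRep i ∈ F₀ := by
    intro b i
    rcases T0b_cases (Y b) with ⟨h1, -⟩ | h1
    · rw [h1]
      fin_cases i
      · exact F₀.one_mem
      · exact F₀.zero_mem
    · rw [h1]
      fin_cases i
      · exact G5_le_cl _ _ (IntermediateField.subset_adjoin K _ ⟨b, rfl⟩)
      · exact F₀.one_mem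
  have hYa : Y a = sg (σ a) (P a) := by
    simp only [hY, hk, zero_smul, add_zero]
  have hPa : ∀ i, (P a).xRep i ∈ F₀ := by
    intro i
    have h1 := hYm a i
    rwa [hYa, hsg] at h1
  have halg : ∀ b, IsAlgebraic (IntermediateField.adjoin K (Set.range v)) (w b) := by
    intro b
    rw [← G5_mem_cl]
    have h1 := xRep_zsmul_add_mem W F₀ (G5_closed _) (Y b) (P a) (hYm b) hPa (-k b) true 0
    have h2 : sg true (Y b) + (-k b) • P a = sg (σ b) (P b) := by
      simp only [sg, hY, if_true, neg_smul]
      abel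
    rw [h2, hsg, hP] at h1
    exact h1
  have hind := indep_of_algebraic w v hw halg
  refine ⟨v, hind, fun b => ?_⟩
  rcases T0b_cases (Y b) with ⟨-, h2⟩ | h1
  · exact absurd h2 (hind.ne_zero b)
  · exact h1

end Pool.Agent.Lib.MP_17a322_nt.RV
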