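import Pool.Agent.Lib.MP_17a322_nt.RV.T0b
import Pool.Agent.Lib.MP_17a322_nt.RO.B1
import Pool.Agent.Lib.MP_17a322_nt.RO.D3
import Pool.Agent.Lib.MP_17a322_nt.RO.E0

/-!
One translation step.
-/

namespace Pool.Agent.Lib.MP_17a322_nt.RV

open MvPolynomial WeierstrassCurve
open Pool.Agent.Lib.MP_17a322_nt.RO

universe u

/-- Substitution of forms in a multihomogeneous form. -/
theorem T1_mh_subst {K B B' ι ι' : Type*} [CommRing K] [Fintype B] [Fintype ι] [DecidableEq B]
    [DecidableEq B'] (φ : MvPolynomial (B × ι) K) (D : B → ℕ) (hφ : MH φ D)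
    (s : B → ι → MvPolynomial (B' × ι') K) (wt : B → B' → ℕ)
    (hs : ∀ b i, IsWeightedHomogeneous (bwt B' ι') (s b i) (wt b)) :
    MH (evl s φ) (∑ b, D b • wt b) := by
  classical
  rw [E0_evl]
  unfold MH
  refine IsWeightedHomogeneous.sum _ _ _ fun m hm => ?_
  have h1 : IsWeightedHomogeneous (bwt B' ι') (∏ b, ∏ i, s b i ^ m (b, i))
      (∑ b, ∑ i, m (b, i) • wt b) := by
    refine IsWeightedHomogeneous.prod _ _ _ fun b _ => ?_
    refine IsWeightedHomogeneous.prod _ _ _ fun i _ => ?_
    exact (hs b i).pow _
  have h2 : (∑ b, ∑ i, m (b, i) • wt b) = ∑ b, D b • wt b := by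
    refine Finset.sum_congr rfl fun b _ => ?_
    rw [← Finset.sum_smul]
    congr 1
    have h3 := congrFun (hφ (mem_support_iff.mp hm)) b
    rw [E0_weight] at h3
    exact h3
  rw [h2] at h1
  exact h1.C_mul _

/-- Composition of evaluations. -/
theorem T1_evl_evl {K A B B' ι ι' : Type*} [CommRing K] [CommRing A] [Algebra K A]
    (φ : MvPolynomial (B × ι) K) (s : B → ι → MvPolynomial (B' × ι') K) (x : B' → ι' → A) :
    evl x (evl s φ) = evl (fun b i => evl x (s b i)) φ := by
  unfold evl
  exact comp_aeval_apply _ _ _

/-- A point with given first coordinate. -/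
theorem T1_point {F : Type*} [Field F] [IsAlgClosed F] (V : WeierstrassCurve F)
    [V.IsElliptic] (w : F) : ∃ Q : V.toAffine.Point, Q.xRep = ![w, 1] := by
  have hu : (![w, 1] : Fin 2 → F) ≠ 0 := fun h => one_ne_zero (congrFun h 1)
  obtain ⟨Q, c, hc, hQ⟩ := exists_point V ![w, 1] hu
  refine ⟨Q, ?_⟩
  cases Q with
  | zero =>
    have h1 : (Affine.Point.zero : V.toAffine.Point).xRep = ![1, 0] := Affine.Point.xRep_zero
    rw [h1] at hQ
    have h2 := congrFun hQ 1
    simp at h2
  | some x y h =>
    rw [Affine.Point.xRep_some] at hQ ⊢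
    have h2 := congrFun hQ 1
    have h3 := congrFun hQ 0
    simp at h2 h3
    rw [h3, ← h2, one_mul]

/-- For a nonzero form `G` in `x(P_b)` there is a nonzero form `G'` such that `G'(x(P)) ≠ 0` implies
`G(x(P_b + k_b P_a)) ≠ 0` (`k_a = 0`).
Proof. Let `φ` be the first form of `exists_trans` (RO/D3) for `f = g = G` and `ℓ b = k b` for `b ≠ a`,
`ℓ a = 1`: `φ(x(Q), x(q)) = c ∏_σ G(x(ℓ_b Q + σ_b q_b))`. Let `G'` be obtained from `φ` by renaming the
block `none` into `a`, `some b` into `b` for `b ≠ a`, and substituting the constants `(1, 0)` (the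
`xRep` of the zero point) for the block `some a` (`aeval` of `φ` with `(none, i) ↦ X (a, i)`,
`(some b, i) ↦ X (b, i)`, `(some a, 0) ↦ 1`, `(some a, 1) ↦ 0`). Then `G'` is multihomogeneous (degree of
`none` in block `a`, degree of `some b` in block `b`), and for every field `F` and points `P` over `F`
`G'(x(P)) = φ(x(P_a), x(q))` with `q_b = P_b`, `q_a = 0`, so it is
`c ∏_σ G(x(P_a) in block a, x(k_b P_a ± P_b) in block b)`. The factor for `σ = true` is the value of `G`
at `x(P_b + k_b P_a)`. `G' ≠ 0`: over `Ω = AlgebraicClosure (FractionRing (MvPolynomial B K))` take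
`w b` the image of `X b` and points with `(P b).xRep = ![w b, 1]` (`exists_point`, RO/B1, for `![w b, 1]`,
the factor is `1` because the last entry of `xRep` is `0` or `1`); every factor is nonzero by
`indep_translate` and `evl_ne_zero_of_indep`. -/
theorem exists_step {K : Type u} [Field K] [CharZero K] (W : WeierstrassCurve K)
    [W.IsElliptic] {B : Type} [Fintype B] [DecidableEq B] (a : B) (k : B → ℤ) (hk : k a = 0)
    (E : B → ℕ) (G : MvPolynomial (B × Fin 2) K) (hG : MH G E) (hG0 : G ≠ 0) :
    ∃ (G' : MvPolynomial (B × Fin 2) K) (E' : B → ℕ), MH G' E' ∧ G' ≠ 0 ∧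
      ∀ (F : Type u) [Field F] [DecidableEq F] [Algebra K F] (V : WeierstrassCurve F),
        W.map (algebraMap K F) = V → ∀ P : B → V.toAffine.Point,
          evl (fun b => (P b).xRep) G' ≠ 0 →
            evl (fun b => (P b + k b • P a).xRep) G ≠ 0 := by
  classical
  obtain ⟨φ, ψ, hφ, -, hval⟩ := exists_trans W E (fun b => if b = a then 1 else k b) G G hG hG
  set d : ℕ := 2 ^ Fintype.card B * ∑ b, E b * (if b = a then (1 : ℤ) else k b).natAbs ^ 2 with hd
  set e : B → ℕ := fun b => 2 ^ Fintype.card B * E b with he
  let s : Option B → Fin 2 → MvPolynomial (B × Fin 2) K := fun o i =>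
    o.elim (X (a, i)) (fun b => if b = a then C (![1, 0] i) else X (b, i))
  let wt : Option B → B → ℕ := fun o =>
    o.elim (Pi.single a 1) (fun b => if b = a then 0 else Pi.single b 1)
  have hs : ∀ o i, IsWeightedHomogeneous (bwt B (Fin 2)) (s o i) (wt o) := by
    intro o i
    cases o with
    | none => exact isWeightedHomogeneous_X K (bwt B (Fin 2)) (a, i)
    | some b =>
      by_cases hb : b = a
      · have h1 : s (some b) i = C (![1, 0] i) := if_pos hb
        have h2 : wt (some b) = 0 := if_pos hb
        rw [h1, h2]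
        exact isWeightedHomogeneous_C _ _
      · have h1 : s (some b) i = X (b, i) := if_neg hb
        have h2 : wt (some b) = Pi.single b 1 := if_neg hb
        rw [h1, h2]
        exact isWeightedHomogeneous_X K (bwt B (Fin 2)) (b, i)
  -- the value of the new form
  have hvalue : ∀ (F : Type u) [Field F] [DecidableEq F] [Algebra K F] (V : WeierstrassCurve F),
      W.map (algebraMap K F) = V → ∀ P : B → V.toAffine.Point, ∃ c : F, c ≠ 0 ∧
        evl (fun b => (P b).xRep) (evl s φ) =
          c * ∏ σ : B → Bool, evl (fun b => (sg (σ b) (P b) + k b • P a).xRep) G := by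
    intro F _ _ _ V hV P
    obtain ⟨c, hc0, hc, -⟩ := hval F V hV (P a) (fun b => if b = a then 0 else P b)
    refine ⟨c, hc0, ?_⟩
    rw [T1_evl_evl]
    have h1 : (fun (o : Option B) (i : Fin 2) => evl (fun b => (P b).xRep) (s o i)) =
        pv (P a).xRep (fun b => (if b = a then (0 : V.toAffine.Point) else P b).xRep) := by
      funext o i
      cases o with
      | none =>
        change evl (fun b => (P b).xRep) (X (a, i)) = (P a).xRep i
        unfold evl
        rw [aeval_X]
      | some b =>
        by_cases hb : b = a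
        · have h2 : s (some b) i = C (![1, 0] i) := if_pos hb
          rw [h2]
          change _ = (if b = a then (0 : V.toAffine.Point) else P b).xRep i
          rw [if_pos hb, Affine.Point.xRep_zero]
          unfold evl
          rw [← algebraMap_eq, AlgHom.commutes]
          fin_cases i <;> simp
        · have h2 : s (some b) i = X (b, i) := if_neg hb
          rw [h2]
          change _ = (if b = a then (0 : V.toAffine.Point) else P b).xRep i
          rw [if_neg hb]
          unfold evl
          rw [aeval_X]
    rw [h1, hc]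
    congr 1
    refine Finset.prod_congr rfl fun σ _ => ?_
    congr 1
    funext b
    by_cases hb : b = a
    · subst hb
      rw [if_pos rfl, if_pos rfl, hk, zero_smul, add_zero, one_smul]
      have h3 : sg (σ b) (0 : V.toAffine.Point) = 0 := by
        unfold sg
        split_ifs
        · rfl
        · exact neg_zero
      rw [h3, add_zero]
      unfold sg
      split_ifs
      · rfl
      · exact (Affine.Point.xRep_neg _).symm
    · rw [if_neg hb, if_neg hb, add_comm]
  refine ⟨evl s φ, ∑ o, pd d e o • wt o, T1_mh_subst φ (pd d e) hφ s wt hs, ?_, ?_⟩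
  · -- the new form is not zero
    let Ω : Type u := AlgebraicClosure (FractionRing (MvPolynomial B K))
    let w : B → Ω := fun b => algebraMap (MvPolynomial B K) Ω (X b)
    have hinj : Function.Injective (algebraMap (MvPolynomial B K) Ω) := by
      have h1 : algebraMap (MvPolynomial B K) Ω =
          (algebraMap (FractionRing (MvPolynomial B K)) Ω).comp
            (algebraMap (MvPolynomial B K) (FractionRing (MvPolynomial B K))) :=
        IsScalarTower.algebraMap_eq _ _ _
      rw [h1]
      exact (algebraMap (FractionRing (MvPolynomial B K)) Ω).injective.comp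
        (IsFractionRing.injective (MvPolynomial B K) (FractionRing (MvPolynomial B K)))
    have hw : AlgebraicIndependent K w := by
      have h1 : AlgebraicIndependent K (X : B → MvPolynomial B K) := algebraicIndependent_X B K
      exact h1.map' (f := IsScalarTower.toAlgHom K (MvPolynomial B K) Ω) hinj
    choose P hP using fun b => T1_point (W.map (algebraMap K Ω)) (w b)
    obtain ⟨c, hc0, hc⟩ := hvalue Ω (W.map (algebraMap K Ω)) rfl P
    intro hzero
    rw [hzero] at hc
    have h1 : evl (fun b => (P b).xRep) (0 : MvPolynomial (B × Fin 2) K) = 0 := by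
      unfold evl
      exact map_zero _
    rw [h1] at hc
    have h2 : ∏ σ : B → Bool, evl (fun b => (sg (σ b) (P b) + k b • P a).xRep) G ≠ 0 := by
      rw [Finset.prod_ne_zero_iff]
      intro σ _
      obtain ⟨v, hv, hv'⟩ := indep_translate W a k hk w hw P hP σ
      have h3 := evl_ne_zero_of_indep E G hG hG0 v hv
      rw [show (fun b => (sg (σ b) (P b) + k b • P a).xRep) = fun b => ![v b, 1] from funext hv']
      exact h3
    exact mul_ne_zero hc0 h2 hc.symm
  · intro F _ _ _ V hV P hne
    obtain ⟨c, hc0, hc⟩ := hvalue F V hV P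
    rw [hc] at hne
    have h1 := (Finset.prod_ne_zero_iff.1 (right_ne_zero_of_mul hne)) (fun _ => true)
      (Finset.mem_univ _)
    exact h1

end Pool.Agent.Lib.MP_17a322_nt.RV
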